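import Mathlib

set_option autoImplicit false

open Topology Filter Set

universe u v

namespace Pool.Agent.Results.MP_195fab_gt.CardinalityCpCp

/-!
Question 2 (Arhangel'skii 1988) for iterated function spaces: all infinite cardinals.

Throughout, `Cp X` is the set of continuous real functions on `X` with the topology of pointwise
convergence.  Outline of the proof.  Let `φ : Cp W → Cp Z` be a homeomorphism with `φ 0 = 0`.
A finite set `K` of points of `W` is a `δ`-support of `z : Z` if `|f| < δ` on `K` implies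
`|φ f z| ≤ 1`.

* For a tuple `y` the set `R y` of points supported by `y` is finite, and `y ↦ R y` is upper
  semicontinuous (`finite_and_usc_R`).
* If `n` is the least cardinality of a `δ`-support of `z`, then `z` has only finitely many
  `δ`-supports with `n` elements (`finite_supports`), and the supports with at most `n` elements
  of points close to `z` are close to those of `z` (`usc_supports`).
* Hence `Z` is a countable union of subspaces each of which has, at each of its points, local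
  bases no larger than those of `W` (`local_base`).
* For `W = Cp Y` and `Z = Cp X` a Baire category argument in the sup norm on bounded continuous
  functions on `X` shows that `X` is covered by finite sets indexed by `Finset Y × ℕ`, so that
  `X` has cardinality at most that of `Y` when `Y` is infinite.
* If `Y` is finite, then `Cp Y` is sigma-compact, hence so is `Cp X` (`isCompact_R`), and this
  forces `X` to be finite (`finite_of_sigmaCompact`).
-/

/-- `Cp X` is the set of continuous functions `X → ℝ` with the topology of pointwise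
convergence, i.e. the subspace topology inherited from the product `X → ℝ`. -/
abbrev Cp (X : Type*) [TopologicalSpace X] : Type _ := {f : X → ℝ // Continuous f}

section basics

variable {W Z : Type*} [TopologicalSpace W] [TopologicalSpace Z]

lemma exists_bump [CompletelyRegularSpace W] (Q : Set W) (hQ : Q.Finite) (C : Set W)
    (hC : IsClosed C) (hd : ∀ w ∈ Q, w ∉ C) :
    ∃ h : W → ℝ, Continuous h ∧ (∀ w ∈ Q, h w = 1) ∧ (∀ w ∈ C, h w = 0) ∧
      ∀ w, 0 ≤ h w ∧ h w ≤ 1 := by
  classical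
  have key : ∀ q : W, ∃ f : W → ℝ, Continuous f ∧ (q ∈ Q → f q = 0) ∧ (∀ w ∈ C, f w = 1) ∧
      ∀ w, 0 ≤ f w ∧ f w ≤ 1 := by
    intro q
    by_cases hq : q ∈ Q
    · obtain ⟨f, hf, hf0, hf1⟩ := CompletelyRegularSpace.completely_regular q C hC (hd q hq)
      refine ⟨fun w => (f w : ℝ), continuous_subtype_val.comp hf, ?_, ?_, ?_⟩
      · intro _; simp [hf0]
      · intro w hw
        have := hf1 hw
        simp [this]
      · intro w
        exact ⟨(f w).2.1, (f w).2.2⟩
    · exact ⟨fun _ => 1, continuous_const, fun h => absurd h hq, fun _ _ => rfl,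
        fun _ => ⟨zero_le_one, le_refl _⟩⟩
  choose f hf hf0 hf1 hf01 using key
  refine ⟨fun w => 1 - ∏ q ∈ hQ.toFinset, f q w, ?_, ?_, ?_, ?_⟩
  · exact continuous_const.sub (continuous_finsetProd _ fun q _ => hf q)
  · intro w hw
    have : ∏ q ∈ hQ.toFinset, f q w = 0 :=
      Finset.prod_eq_zero (hQ.mem_toFinset.2 hw) (hf0 w hw)
    simp [this]
  · intro w hw
    have : ∏ q ∈ hQ.toFinset, f q w = 1 := Finset.prod_eq_one fun q _ => hf1 q w hw
    simp [this]
  · intro w
    have h0 : 0 ≤ ∏ q ∈ hQ.toFinset, f q w := Finset.prod_nonneg fun q _ => (hf01 q w).1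
    have h1 : ∏ q ∈ hQ.toFinset, f q w ≤ 1 :=
      Finset.prod_le_one (fun q _ => (hf01 q w).1) fun q _ => (hf01 q w).2
    constructor <;> linarith

/-- Basic neighbourhoods in `Cp W`. -/
def Bn (f : Cp W) (p : Finset W × ℕ) : Set (Cp W) :=
  {g | ∀ w ∈ p.1, |g.1 w - f.1 w| < 1 / ((p.2 : ℝ) + 1)}

lemma Bn_antitone (f : Cp W) : Antitone (Bn f) := by
  rintro ⟨E, k⟩ ⟨E', k'⟩ ⟨hE, hk⟩ g hg w hw
  have h1 := hg w (hE hw)
  have h2 : (1 : ℝ) / ((k' : ℝ) + 1) ≤ 1 / ((k : ℝ) + 1) := by
    apply one_div_le_one_div_of_le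
    · positivity
    · have : (k : ℝ) ≤ k' := by exact_mod_cast hk
      linarith
  exact lt_of_lt_of_le h1 h2

lemma continuous_eval (w : W) : Continuous fun f : Cp W => f.1 w :=
  (continuous_apply w).comp continuous_subtype_val

lemma nhds_Cp (f : Cp W) : (𝓝 f).HasBasis (fun _ : Finset W × ℕ => True) (Bn f) := by
  classical
  constructor
  intro s
  constructor
  · intro hs
    rw [nhds_subtype_eq_comap, mem_comap] at hs
    obtain ⟨t, ht, hts⟩ := hs
    rw [nhds_pi, Filter.mem_pi] at ht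
    obtain ⟨I, hI, u, hu, hut⟩ := ht
    have key : ∀ i : W, ∃ k : ℕ, ∀ x : ℝ, |x - f.1 i| < 1 / ((k : ℝ) + 1) → x ∈ u i := by
      intro i
      obtain ⟨ε, hε, hεu⟩ := Metric.mem_nhds_iff.1 (hu i)
      obtain ⟨k, hk⟩ := exists_nat_one_div_lt hε
      refine ⟨k, fun x hx => hεu ?_⟩
      rw [Metric.mem_ball, Real.dist_eq]
      exact hx.trans hk
    choose k hk using key
    refine ⟨(hI.toFinset, hI.toFinset.sup k), trivial, ?_⟩
    intro g hg
    apply hts
    apply hut
    intro i hi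
    apply hk i
    have hi' : i ∈ hI.toFinset := hI.mem_toFinset.2 hi
    have h1 := hg i hi'
    have h2 : (1 : ℝ) / (((hI.toFinset.sup k : ℕ) : ℝ) + 1) ≤ 1 / ((k i : ℝ) + 1) := by
      apply one_div_le_one_div_of_le
      · positivity
      · have : (k i : ℝ) ≤ (hI.toFinset.sup k : ℕ) := by
          exact_mod_cast Finset.le_sup (f := k) hi'
        linarith
    exact lt_of_lt_of_le h1 h2
  · rintro ⟨⟨E, k⟩, -, hs⟩
    refine mem_of_superset ?_ hs
    have : Bn f (E, k) = ⋂ w ∈ E, {g : Cp W | |g.1 w - f.1 w| < 1 / ((k : ℝ) + 1)} := by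
      ext g; simp [Bn]
    rw [this]
    refine (biInter_finset_mem E).2 ?_
    intro w _
    have hcont : Continuous fun g : Cp W => |g.1 w - f.1 w| :=
      ((continuous_eval w).sub continuous_const).abs
    apply (isOpen_lt hcont continuous_const).mem_nhds
    show |f.1 w - f.1 w| < _
    simp only [sub_self, abs_zero]
    positivity

/-- `K` is a `δ`-support of `z` for `φ`. -/
def IsSupp (φ : Cp W ≃ₜ Cp Z) (δ : ℝ) (K : Set W) (z : Z) : Prop :=
  ∀ f : Cp W, (∀ w ∈ K, |f.1 w| < δ) → |(φ f).1 z| ≤ 1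

lemma le_one_of_approx (φ : Cp W ≃ₜ Cp Z) (z : Z) (f : Cp W)
    (h : ∀ P : Finset W, ∃ g : Cp W, (∀ w ∈ P, g.1 w = f.1 w) ∧ |(φ g).1 z| ≤ 1) :
    |(φ f).1 z| ≤ 1 := by
  have hcl : IsClosed {g : Cp W | |(φ g).1 z| ≤ 1} := by
    apply isClosed_le _ continuous_const
    exact ((continuous_eval z).comp φ.continuous).abs
  have hmem : f ∈ closure {g : Cp W | |(φ g).1 z| ≤ 1} := by
    rw [mem_closure_iff_nhds_basis (nhds_Cp f)]
    rintro ⟨P, k⟩ -
    obtain ⟨g, hg1, hg2⟩ := h P
    refine ⟨g, hg2, ?_⟩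
    intro w hw
    rw [hg1 w hw, sub_self, abs_zero]
    positivity
  rw [hcl.closure_eq] at hmem
  exact hmem

lemma exists_supp (φ : Cp W ≃ₜ Cp Z) (h0 : ∀ z, (φ ⟨fun _ => 0, continuous_const⟩).1 z = 0)
    (z : Z) : ∃ m : ℕ, ∃ K : Finset W, IsSupp φ (1 / ((m : ℝ) + 1)) K z := by
  have hcont : Continuous fun f : Cp W => |(φ f).1 z| :=
    ((continuous_eval z).comp φ.continuous).abs
  have hopen : IsOpen {f : Cp W | |(φ f).1 z| < 1} := isOpen_lt hcont continuous_const
  have hmem : {f : Cp W | |(φ f).1 z| < 1} ∈ 𝓝 (⟨fun _ => 0, continuous_const⟩ : Cp W) := by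
    apply hopen.mem_nhds
    show |(φ ⟨fun _ => 0, continuous_const⟩).1 z| < 1
    rw [h0 z]; simp
  obtain ⟨⟨E, k⟩, -, hE⟩ := (nhds_Cp _).mem_iff.1 hmem
  refine ⟨k, E, ?_⟩
  intro f hf
  have : f ∈ Bn (⟨fun _ => 0, continuous_const⟩ : Cp W) (E, k) := by
    intro w hw
    simpa using hf w hw
  exact le_of_lt (hE this)

lemma finite_supports [T35Space W] (φ : Cp W ≃ₜ Cp Z) {δ : ℝ} (hδ : 0 < δ) (z : Z) (n : ℕ)
    (hmin : ∀ K : Finset W, IsSupp φ δ K z → n ≤ K.card) :
    {y : Fin n → W | IsSupp φ δ (range y) z}.Finite := by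
  classical
  by_contra hinf
  set T : Set (Fin n → W) := {y : Fin n → W | IsSupp φ δ (range y) z} with hT
  have hinf' : T.Infinite := hinf
  have : NeBot (cofinite ⊓ 𝓟 T) := by
    rw [cofinite_inf_principal_neBot_iff]
    exact hinf'
  let U : Ultrafilter (Fin n → W) := Ultrafilter.of (cofinite ⊓ 𝓟 T)
  have hU : (U : Filter (Fin n → W)) ≤ cofinite ⊓ 𝓟 T := Ultrafilter.of_le _
  have hU1 : (U : Filter (Fin n → W)) ≤ cofinite := hU.trans inf_le_left
  have hU2 : ∀ᶠ y in (U : Filter (Fin n → W)), y ∈ T := by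
    have := hU.trans inf_le_right
    exact this (mem_principal_self T)
  let I : Finset (Fin n) := Finset.univ.filter fun i =>
    ∃ w, ∀ᶠ y in (U : Filter (Fin n → W)), y i = w
  have hex : ∀ i : Fin n, ∃ w : Fin n → W, i ∈ I → ∀ᶠ y in (U : Filter (Fin n → W)), y i = w i := by
    intro i
    by_cases hi : i ∈ I
    · obtain ⟨w, hw⟩ := (Finset.mem_filter.1 hi).2
      exact ⟨fun _ => w, fun _ => hw⟩
    · obtain ⟨y, -⟩ := hinf'.nonempty
      exact ⟨y, fun h => absurd h hi⟩
  choose w' hw' using hex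
  let w : Fin n → W := fun i => w' i i
  have hw : ∀ i ∈ I, ∀ᶠ y in (U : Filter (Fin n → W)), y i = w i := fun i hi => hw' i hi
  let K : Finset W := I.image w
  have hIne : I ≠ Finset.univ := by
    intro hI
    have h1 : ∀ᶠ y in (U : Filter (Fin n → W)), ∀ i, y i = w i := by
      rw [eventually_all]
      intro i
      exact hw i (by rw [hI]; exact Finset.mem_univ i)
    have h2 : ∀ᶠ y in (U : Filter (Fin n → W)), y ≠ w := by
      apply hU1
      show {y | y ≠ w} ∈ cofinite
      rw [mem_cofinite]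
      have : {y : Fin n → W | y ≠ w}ᶜ = {w} := by ext y; simp
      rw [this]
      exact finite_singleton w
    obtain ⟨y, hy1, hy2⟩ := (h1.and h2).exists
    exact hy2 (funext hy1)
  have hIcard : I.card < n := by
    have h1 : I ⊂ Finset.univ := Finset.ssubset_univ_iff.2 hIne
    have h2 := Finset.card_lt_card h1
    simpa using h2
  have hKcard : K.card < n := lt_of_le_of_lt Finset.card_image_le hIcard
  have hsupp : IsSupp φ δ K z := by
    intro f hf
    apply le_one_of_approx
    intro P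
    have h1 : ∀ i : Fin n, i ∉ I → ∀ᶠ y in (U : Filter (Fin n → W)), y i ∉ P ∪ K := by
      intro i hi
      have h2 : ∀ v ∈ P ∪ K, ∀ᶠ y in (U : Filter (Fin n → W)), y i ≠ v := by
        intro v _
        have h3 : ¬ ∀ᶠ y in (U : Filter (Fin n → W)), y i = v := by
          intro h4
          apply hi
          exact Finset.mem_filter.2 ⟨Finset.mem_univ i, v, h4⟩
        exact Ultrafilter.eventually_not.2 h3
      have h3 : ∀ᶠ y in (U : Filter (Fin n → W)), ∀ v ∈ P ∪ K, y i ≠ v :=
        (Filter.eventually_all_finset _).2 h2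
      filter_upwards [h3] with y hy hmem
      exact hy _ hmem rfl
    have h2 : ∀ᶠ y in (U : Filter (Fin n → W)), ∀ i : Fin n, (i ∈ I → y i = w i) ∧
        (i ∉ I → y i ∉ P ∪ K) := by
      rw [eventually_all]
      intro i
      by_cases hi : i ∈ I
      · filter_upwards [hw i hi] with y hy
        exact ⟨fun _ => hy, fun h => absurd hi h⟩
      · filter_upwards [h1 i hi] with y hy
        exact ⟨fun h => absurd h hi, fun _ => hy⟩
    obtain ⟨y, hy1, hy2⟩ := (h2.and hU2).exists
    let D : Set W := y '' {i | i ∉ I}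
    have hDfin : D.Finite := (Set.toFinite _).image _
    obtain ⟨h, hh, hh1, hh0, -⟩ := exists_bump (↑(P ∪ K) : Set W) (Finset.finite_toSet _) D
      hDfin.isClosed (by
        rintro v hv ⟨i, hi, rfl⟩
        exact (hy1 i).2 hi (by simpa using hv))
    refine ⟨⟨fun v => f.1 v * h v, f.2.mul hh⟩, ?_, ?_⟩
    · intro v hv
      show f.1 v * h v = f.1 v
      rw [hh1 v (by simp [hv]), mul_one]
    · apply hy2
      rintro _ ⟨i, rfl⟩
      show |f.1 (y i) * h (y i)| < δ
      by_cases hi : i ∈ I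
      · have hyi : y i = w i := (hy1 i).1 hi
        have hK : w i ∈ K := Finset.mem_image_of_mem w hi
        rw [hyi, hh1 (w i) (by simp [hK]), mul_one]
        exact hf (w i) (by exact_mod_cast hK)
      · rw [hh0 (y i) ⟨i, hi, rfl⟩, mul_zero, abs_zero]
        exact hδ
  have := hmin K hsupp
  omega


lemma usc_supports [CompletelyRegularSpace W] (φ : Cp W ≃ₜ Cp Z) {δ : ℝ} (hδ : 0 < δ) (z : Z)
    (n : ℕ) (hmin : ∀ K : Finset W, IsSupp φ δ K z → n ≤ K.card) (O : Set (Fin n → W))
    (hO : IsOpen O) (hT : ∀ y : Fin n → W, IsSupp φ δ (range y) z → y ∈ O) :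
    ∀ᶠ z' in 𝓝 z, ∀ y : Fin n → W, IsSupp φ δ (range y) z' → y ∈ O := by
  classical
  by_contra hcon
  let S : Set (Z × (Fin n → W)) := {p | IsSupp φ δ (range p.2) p.1 ∧ p.2 ∉ O}
  have hne : NeBot (comap Prod.fst (𝓝 z) ⊓ 𝓟 S) := by
    rw [Filter.inf_principal_neBot_iff]
    intro A hA
    obtain ⟨t, ht, htA⟩ := mem_comap.1 hA
    by_contra hempty
    apply hcon
    filter_upwards [ht] with z' hz' y hy
    by_contra hyO
    exact hempty ⟨(z', y), htA hz', hy, hyO⟩
  let U : Ultrafilter (Z × (Fin n → W)) := Ultrafilter.of (comap Prod.fst (𝓝 z) ⊓ 𝓟 S)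
  have hU : (U : Filter (Z × (Fin n → W))) ≤ comap Prod.fst (𝓝 z) ⊓ 𝓟 S := Ultrafilter.of_le _
  have hU1 : Tendsto Prod.fst (U : Filter (Z × (Fin n → W))) (𝓝 z) :=
    tendsto_iff_comap.2 (hU.trans inf_le_left)
  have hU2 : ∀ᶠ p in (U : Filter (Z × (Fin n → W))), p ∈ S :=
    (hU.trans inf_le_right) (mem_principal_self S)
  let I : Finset (Fin n) := Finset.univ.filter fun i =>
    ∃ w, Tendsto (fun p : Z × (Fin n → W) => p.2 i) U (𝓝 w)
  have hSne : ∃ p, p ∈ S := hU2.exists
  have hex : ∀ i : Fin n, ∃ w : W, i ∈ I →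
      Tendsto (fun p : Z × (Fin n → W) => p.2 i) U (𝓝 w) := by
    intro i
    by_cases hi : i ∈ I
    · obtain ⟨w, hw⟩ := (Finset.mem_filter.1 hi).2
      exact ⟨w, fun _ => hw⟩
    · obtain ⟨p, -⟩ := hSne
      exact ⟨p.2 i, fun h => absurd h hi⟩
  choose w hw using hex
  let K : Finset W := I.image w
  have hsupp : IsSupp φ δ K z := by
    intro f hf
    apply le_one_of_approx
    intro P
    have h1 : ∀ i : Fin n, ∃ h : W → ℝ, Continuous h ∧ (∀ v ∈ P ∪ K, h v = 1) ∧
        (i ∉ I → ∀ᶠ p in (U : Filter (Z × (Fin n → W))), h (p.2 i) = 0) := by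
      intro i
      by_cases hi : i ∈ I
      · exact ⟨fun _ => 1, continuous_const, fun _ _ => rfl, fun h => absurd hi h⟩
      · have h2 : ∀ v : W, ∃ N : Set W, IsOpen N ∧ v ∈ N ∧
            ∀ᶠ p in (U : Filter (Z × (Fin n → W))), p.2 i ∉ N := by
          intro v
          have h3 : ¬ Tendsto (fun p : Z × (Fin n → W) => p.2 i) U (𝓝 v) := by
            intro h4
            exact hi (Finset.mem_filter.2 ⟨Finset.mem_univ i, v, h4⟩)
          rw [(nhds_basis_opens v).tendsto_right_iff] at h3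
          push Not at h3
          obtain ⟨N, ⟨hvN, hN⟩, h4⟩ := h3
          exact ⟨N, hN, hvN, h4⟩
        choose N hN hvN hUN using h2
        obtain ⟨h, hh, hh1, hh0, -⟩ := exists_bump (↑(P ∪ K) : Set W) (Finset.finite_toSet _)
          (⋂ v ∈ (P ∪ K), (N v)ᶜ) (isClosed_biInter fun v _ => (hN v).isClosed_compl) (by
            intro v hv hv2
            rw [mem_iInter₂] at hv2
            exact hv2 v (by simpa using hv) (hvN v))
        refine ⟨h, hh, fun v hv => hh1 v (by simpa using hv), fun _ => ?_⟩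
        have h5 : ∀ᶠ p in (U : Filter (Z × (Fin n → W))), ∀ v ∈ P ∪ K, p.2 i ∉ N v :=
          (Filter.eventually_all_finset _).2 fun v _ => hUN v
        filter_upwards [h5] with p hp
        apply hh0
        rw [mem_iInter₂]
        exact fun v hv => hp v hv
    choose h hh hh1 hh0 using h1
    let H : W → ℝ := fun v => ∏ i, h i v
    have hH : Continuous H := continuous_finsetProd _ fun i _ => hh i
    have hH1 : ∀ v ∈ P ∪ K, H v = 1 := fun v hv => Finset.prod_eq_one fun i _ => hh1 i v hv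
    let g : Cp W := ⟨fun v => f.1 v * H v, f.2.mul hH⟩
    have hg : ∀ v ∈ P ∪ K, g.1 v = f.1 v := by
      intro v hv
      show f.1 v * H v = f.1 v
      rw [hH1 v hv, mul_one]
    refine ⟨g, fun v hv => hg v (by simp [hv]), ?_⟩
    have h6 : ∀ᶠ p in (U : Filter (Z × (Fin n → W))), ∀ i : Fin n, |g.1 (p.2 i)| < δ := by
      rw [eventually_all]
      intro i
      by_cases hi : i ∈ I
      · have hK : w i ∈ K := Finset.mem_image_of_mem w hi
        have h7 : Tendsto (fun p : Z × (Fin n → W) => |g.1 (p.2 i)|) U (𝓝 |g.1 (w i)|) :=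
          (g.2.abs.tendsto (w i)).comp (hw i hi)
        have h8 : |g.1 (w i)| < δ := by
          rw [hg (w i) (by simp [hK])]
          exact hf (w i) (by exact_mod_cast hK)
        exact h7.eventually (gt_mem_nhds h8)
      · filter_upwards [hh0 i hi] with p hp
        have : H (p.2 i) = 0 := Finset.prod_eq_zero (Finset.mem_univ i) hp
        show |f.1 (p.2 i) * H (p.2 i)| < δ
        rw [this, mul_zero, abs_zero]
        exact hδ
    have h9 : ∀ᶠ p in (U : Filter (Z × (Fin n → W))), |(φ g).1 p.1| ≤ 1 := by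
      filter_upwards [h6, hU2] with p hp hpS
      apply hpS.1
      rintro _ ⟨i, rfl⟩
      exact hp i
    have h10 : Tendsto (fun p : Z × (Fin n → W) => |(φ g).1 p.1|) U (𝓝 |(φ g).1 z|) :=
      ((φ g).2.abs.tendsto z).comp hU1
    exact le_of_tendsto h10 h9
  have hI : I = Finset.univ := by
    have h1 := hmin K hsupp
    have h2 : K.card ≤ I.card := Finset.card_image_le
    have h3 : I.card ≤ n := by
      have := Finset.card_le_univ I
      simpa using this
    apply Finset.eq_univ_of_card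
    rw [Fintype.card_fin]
    omega
  have hwall : ∀ i, Tendsto (fun p : Z × (Fin n → W) => p.2 i) U (𝓝 (w i)) := fun i =>
    hw i (by rw [hI]; exact Finset.mem_univ i)
  have hwt : Tendsto (fun p : Z × (Fin n → W) => p.2) U (𝓝 w) := tendsto_pi_nhds.2 hwall
  have hwO : w ∈ O := by
    apply hT
    intro f hf
    apply hsupp f
    intro v hv
    have hv' : v ∈ I.image w := by exact_mod_cast hv
    obtain ⟨i, -, rfl⟩ := Finset.mem_image.1 hv'
    exact hf _ (mem_range_self i)
  have h1 : ∀ᶠ p in (U : Filter (Z × (Fin n → W))), p.2 ∈ O :=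
    hwt.eventually (hO.mem_nhds hwO)
  obtain ⟨p, hp1, hp2⟩ := (h1.and hU2).exists
  exact hp2.2 hp1

lemma finite_and_usc_R [T35Space Z] (φ : Cp W ≃ₜ Cp Z)
    (h0 : ∀ z, (φ ⟨fun _ => 0, continuous_const⟩).1 z = 0) {δ : ℝ} (hδ : 0 < δ)
    (n : ℕ) (y : Fin n → W) :
    {z | IsSupp φ δ (range y) z}.Finite ∧
    ∀ V : Set Z, IsOpen V → (∀ z, IsSupp φ δ (range y) z → z ∈ V) →
      ∀ᶠ y' in 𝓝 y, ∀ z, IsSupp φ δ (range y') z → z ∈ V := by
  classical
  have hφ0 : φ ⟨fun _ => 0, continuous_const⟩ = ⟨fun _ => 0, continuous_const⟩ :=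
    Subtype.ext (funext h0)
  have hs0 : φ.symm ⟨fun _ => 0, continuous_const⟩ = ⟨fun _ => 0, continuous_const⟩ := by
    rw [← hφ0, φ.symm_apply_apply]
  have hopen : {g : Cp Z | ∀ i, |(φ.symm g).1 (y i)| < δ} ∈
      𝓝 (⟨fun _ => 0, continuous_const⟩ : Cp Z) := by
    have : {g : Cp Z | ∀ i, |(φ.symm g).1 (y i)| < δ} =
        ⋂ i, {g : Cp Z | |(φ.symm g).1 (y i)| < δ} := by ext g; simp
    rw [this]
    apply (isOpen_iInter_of_finite _).mem_nhds
    · rw [mem_iInter]
      intro i
      show |(φ.symm ⟨fun _ => 0, continuous_const⟩).1 (y i)| < δ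
      rw [hs0]
      simpa using hδ
    · intro i
      exact isOpen_lt ((continuous_eval (y i)).comp φ.symm.continuous).abs continuous_const
  obtain ⟨⟨F, k⟩, -, hF⟩ := (nhds_Cp _).mem_iff.1 hopen
  -- main consequence
  have key : ∀ g : Cp Z, (∀ z ∈ F, g.1 z = 0) → ∀ i, |(φ.symm g).1 (y i)| < δ := by
    intro g hg
    apply hF
    intro z hz
    show |g.1 z - 0| < _
    rw [hg z hz]
    simp only [sub_self, abs_zero]
    positivity
  have hsub : ∀ z, IsSupp φ δ (range y) z → z ∈ F := by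
    intro z hz
    by_contra hzF
    obtain ⟨h, hh, hh1, hh0, -⟩ := exists_bump ({z} : Set Z) (finite_singleton z) (F : Set Z)
      (F.finite_toSet.isClosed) (by
        intro w hw hwF
        rw [mem_singleton_iff] at hw
        subst hw
        exact hzF (by simpa using hwF))
    let g : Cp Z := ⟨fun v => 2 * h v, continuous_const.mul hh⟩
    have h1 := key g (by
      intro v hv
      show 2 * h v = 0
      rw [hh0 v (by simpa using hv), mul_zero])
    have h2 := hz (φ.symm g) (by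
      rintro _ ⟨i, rfl⟩
      exact h1 i)
    rw [φ.apply_symm_apply] at h2
    have h3 : g.1 z = 2 := by
      show 2 * h z = 2
      rw [hh1 z (mem_singleton z), mul_one]
    rw [h3] at h2
    norm_num at h2
  refine ⟨F.finite_toSet.subset fun z hz => by simpa using hsub z hz, ?_⟩
  intro V hV hVR
  have h1 : ∀ p : Z, ∃ f : Cp W, (p ∈ F → p ∉ V → (∀ i, |f.1 (y i)| < δ) ∧ 1 < |(φ f).1 p|) := by
    intro p
    by_cases hp : p ∉ V
    · have h2 : ¬ IsSupp φ δ (range y) p := fun h => hp (hVR p h)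
      unfold IsSupp at h2
      push Not at h2
      obtain ⟨f, hf1, hf2⟩ := h2
      exact ⟨f, fun _ _ => ⟨fun i => hf1 _ (mem_range_self i), hf2⟩⟩
    · exact ⟨⟨fun _ => 0, continuous_const⟩, fun _ h => absurd h hp⟩
  choose f hf using h1
  let F' : Finset Z := F.filter fun p => p ∉ V
  let V' : Set Z := V ∪ ⋃ p ∈ F', {z | 1 < |(φ (f p)).1 z|}
  have hV' : IsOpen V' := by
    apply hV.union
    apply isOpen_biUnion
    intro p _
    exact isOpen_lt continuous_const (φ (f p)).2.abs
  obtain ⟨h, hh, hh1, hh0, -⟩ := exists_bump (F : Set Z) F.finite_toSet V'ᶜ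
    hV'.isClosed_compl (by
      intro p hp hp2
      apply hp2
      by_cases hpV : p ∈ V
      · exact Or.inl hpV
      · right
        rw [mem_iUnion₂]
        have hpF : p ∈ F := by simpa using hp
        exact ⟨p, Finset.mem_filter.2 ⟨hpF, hpV⟩, (hf p hpF hpV).2⟩)
  let g : Cp Z := ⟨fun v => 2 * (1 - h v), continuous_const.mul (continuous_const.sub hh)⟩
  have hg := key g (by
    intro v hv
    show 2 * (1 - h v) = 0
    rw [hh1 v (by simpa using hv)]; ring)
  have hev1 : ∀ᶠ y' in 𝓝 y, ∀ i, |(φ.symm g).1 (y' i)| < δ := by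
    rw [eventually_all]
    intro i
    have hc : Continuous fun y' : Fin n → W => |(φ.symm g).1 (y' i)| :=
      ((φ.symm g).2.comp (continuous_apply i)).abs
    exact (isOpen_lt hc continuous_const).mem_nhds (hg i)
  have hev2 : ∀ᶠ y' in 𝓝 y, ∀ p ∈ F', ∀ i, |(f p).1 (y' i)| < δ := by
    rw [Filter.eventually_all_finset]
    intro p hp
    rw [eventually_all]
    intro i
    have hc : Continuous fun y' : Fin n → W => |(f p).1 (y' i)| :=
      ((f p).2.comp (continuous_apply i)).abs
    have hp' := Finset.mem_filter.1 hp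
    exact (isOpen_lt hc continuous_const).mem_nhds ((hf p hp'.1 hp'.2).1 i)
  filter_upwards [hev1, hev2] with y' hy1 hy2 z hz
  have hzV' : z ∈ V' := by
    by_contra hzV'
    have h2 := hz (φ.symm g) (by
      rintro _ ⟨i, rfl⟩
      exact hy1 i)
    rw [φ.apply_symm_apply] at h2
    have h3 : g.1 z = 2 := by
      show 2 * (1 - h z) = 2
      rw [hh0 z hzV']; ring
    rw [h3] at h2
    norm_num at h2
  rcases hzV' with hzV | hz2
  · exact hzV
  · rw [mem_iUnion₂] at hz2
    obtain ⟨p, hp, hpz⟩ := hz2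
    have h2 := hz (f p) (by
      rintro _ ⟨i, rfl⟩
      exact hy2 p hp i)
    exact absurd hpz (not_lt.2 h2)

/-- The set of points whose smallest `δ`-supports have exactly `n` elements. -/
def Lev (φ : Cp W ≃ₜ Cp Z) (δ : ℝ) (n : ℕ) : Set Z :=
  {z | (∃ y : Fin n → W, IsSupp φ δ (range y) z) ∧ ∀ K : Finset W, IsSupp φ δ K z → n ≤ K.card}

lemma exists_Lev (φ : Cp W ≃ₜ Cp Z) (h0 : ∀ z, (φ ⟨fun _ => 0, continuous_const⟩).1 z = 0)
    (z : Z) : ∃ m n : ℕ, z ∈ Lev φ (1 / ((m : ℝ) + 1)) n := by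
  classical
  obtain ⟨m, K, hK⟩ := exists_supp φ h0 z
  let P : ℕ → Prop := fun n => ∃ K : Finset W, K.card = n ∧ IsSupp φ (1 / ((m : ℝ) + 1)) K z
  have hP : ∃ n, P n := ⟨K.card, K, rfl, hK⟩
  obtain ⟨K', hK'1, hK'2⟩ := Nat.find_spec hP
  refine ⟨m, Nat.find hP, ?_, ?_⟩
  · let e := (Finset.equivFinOfCardEq hK'1).symm
    refine ⟨fun i => (e i : W), ?_⟩
    have : range (fun i => (e i : W)) = (K' : Set W) := by
      ext v
      constructor
      · rintro ⟨i, rfl⟩
        exact (e i).2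
      · intro hv
        exact ⟨e.symm ⟨v, hv⟩, by simp⟩
    rw [this]
    exact hK'2
  · intro K hK
    exact Nat.find_min' hP ⟨K, rfl, hK⟩

lemma local_base [T35Space W] [T35Space Z] {ι : Type*} (φ : Cp W ≃ₜ Cp Z)
    (h0 : ∀ z, (φ ⟨fun _ => 0, continuous_const⟩).1 z = 0) {δ : ℝ} (hδ : 0 < δ) (n : ℕ)
    (hW : ∀ T : Set (Fin n → W), T.Finite → ∃ G : ι → Set (Fin n → W),
      (𝓝ˢ T).HasBasis (fun _ => True) G)
    (z : Z) (hz : z ∈ Lev φ δ n) :
    ∃ G : ι → Set Z, (𝓝[Lev φ δ n] z).HasBasis (fun _ => True) G := by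
  classical
  obtain ⟨hz1, hz2⟩ := hz
  let T : Set (Fin n → W) := {y | IsSupp φ δ (range y) z}
  have hT : T.Finite := finite_supports φ hδ z n hz2
  obtain ⟨B, hB⟩ := hW T hT
  let R : Set Z := ⋃ y ∈ T, {z' | IsSupp φ δ (range y) z'}
  have hR : R.Finite := hT.biUnion fun y _ => (finite_and_usc_R φ h0 hδ n y).1
  obtain ⟨N, hN1, hN2, hN3⟩ : ∃ N ∈ 𝓝 z, IsClosed N ∧ N ⊆ (R \ {z})ᶜ := by
    apply exists_mem_nhds_isClosed_subset
    apply (hR.subset sdiff_subset).isClosed.isOpen_compl.mem_nhds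
    simp
  let G : ι → Set Z := fun a => (N ∩ Lev φ δ n) ∩ {z' | ∃ y ∈ B a, IsSupp φ δ (range y) z'}
  refine ⟨G, ⟨fun s => ⟨fun hs => ?_, ?_⟩⟩⟩
  · obtain ⟨V, hV, hzV, hVs⟩ := mem_nhdsWithin.1 hs
    have hopen : IsOpen (V ∪ Nᶜ) := hV.union hN2.isOpen_compl
    have h1 : {y' : Fin n → W | ∀ z', IsSupp φ δ (range y') z' → z' ∈ V ∪ Nᶜ} ∈ 𝓝ˢ T := by
      rw [mem_nhdsSet_iff_forall]
      intro y hy
      apply (finite_and_usc_R φ h0 hδ n y).2 _ hopen
      intro z' hz'
      by_cases hzz : z' = z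
      · left; rw [hzz]; exact hzV
      · right
        intro hzN
        apply hN3 hzN
        refine ⟨?_, hzz⟩
        exact mem_iUnion₂.2 ⟨y, hy, hz'⟩
    obtain ⟨a, -, ha⟩ := hB.mem_iff.1 h1
    refine ⟨a, trivial, ?_⟩
    rintro z' ⟨⟨hz'N, hz'L⟩, y, hyB, hy⟩
    apply hVs
    refine ⟨?_, hz'L⟩
    rcases ha hyB z' hy with h | h
    · exact h
    · exact absurd hz'N h
  · rintro ⟨a, -, ha⟩
    refine mem_of_superset ?_ ha
    have h1 : B a ∈ 𝓝ˢ T := hB.mem_of_mem trivial
    obtain ⟨O, hO, hTO, hOB⟩ := mem_nhdsSet_iff_exists.1 h1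
    have h2 := usc_supports φ hδ z n hz2 O hO (fun y hy => hTO hy)
    have h3 : ∀ᶠ z' in 𝓝[Lev φ δ n] z, z' ∈ Lev φ δ n := self_mem_nhdsWithin
    have h4 : ∀ᶠ z' in 𝓝[Lev φ δ n] z, z' ∈ N := mem_nhdsWithin_of_mem_nhds hN1
    have h5 := h2.filter_mono (nhdsWithin_le_nhds (s := Lev φ δ n))
    filter_upwards [h3, h4, h5] with z' h3 h4 h5
    refine ⟨⟨h4, h3⟩, ?_⟩
    obtain ⟨y, hy⟩ := h3.1
    exact ⟨y, hOB (h5 y hy), hy⟩

end basics

section baire

variable {X : Type*} [TopologicalSpace X]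

/-- The bounded function `z` viewed as a point of `Cp X`. -/
def toCp (f : BoundedContinuousFunction X ℝ) : Cp X := ⟨f, f.continuous⟩

lemma baire_step [T35Space X] {ι J : Type*} [Countable J] (A : J → Set (Cp X))
    (hA : ∀ f, ∃ j, f ∈ A j)
    (hbase : ∀ j, ∀ z ∈ A j, ∃ G : ι → Set (Cp X), (𝓝[A j] z).HasBasis (fun _ => True) G) :
    ∃ F : ι → Finset X, ∀ x, ∃ a, x ∈ F a := by
  classical
  let A' : J → Set (BoundedContinuousFunction X ℝ) := fun j => {f | toCp f ∈ A j}
  have hun : ⋃ j, closure (A' j) = univ := by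
    rw [eq_univ_iff_forall]
    intro f
    obtain ⟨j, hj⟩ := hA (toCp f)
    exact mem_iUnion.2 ⟨j, subset_closure hj⟩
  obtain ⟨j, hj⟩ := nonempty_interior_of_iUnion_of_closed (fun j => isClosed_closure) hun
  obtain ⟨z, hz1, hz2⟩ : ∃ z, z ∈ interior (closure (A' j)) ∧ z ∈ A' j := by
    obtain ⟨v, hv⟩ := hj
    have hvc : v ∈ closure (A' j) := interior_subset hv
    obtain ⟨z, hz⟩ := mem_closure_iff.1 hvc _ isOpen_interior hv
    exact ⟨z, hz⟩
  obtain ⟨r, hr, hball⟩ := Metric.isOpen_iff.1 isOpen_interior z hz1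
  have hball' : Metric.ball z r ⊆ closure (A' j) := hball.trans interior_subset
  obtain ⟨G, hG⟩ := hbase j (toCp z) hz2
  have h1 : ∀ a : ι, ∃ p : Finset X × ℕ, Bn (toCp z) p ∩ A j ⊆ G a := by
    intro a
    have h2 : G a ∈ 𝓝[A j] (toCp z) := hG.mem_of_mem trivial
    rw [mem_nhdsWithin_iff_exists_mem_nhds_inter] at h2
    obtain ⟨u, hu, hua⟩ := h2
    obtain ⟨p, -, hp⟩ := (nhds_Cp _).mem_iff.1 hu
    exact ⟨p, (inter_subset_inter_left _ hp).trans hua⟩
  choose p hp using h1
  refine ⟨fun a => (p a).1, fun x => ?_⟩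
  -- the test neighbourhood
  have h3 : {g : Cp X | |g.1 x - z x| < r / 4} ∈ 𝓝[A j] (toCp z) := by
    apply mem_nhdsWithin_of_mem_nhds
    have hc : Continuous fun g : Cp X => |g.1 x - z x| :=
      ((continuous_eval x).sub continuous_const).abs
    apply (isOpen_lt hc continuous_const).mem_nhds
    show |z x - z x| < r / 4
    rw [sub_self, abs_zero]
    positivity
  obtain ⟨a, -, ha⟩ := hG.mem_iff.1 h3
  refine ⟨a, ?_⟩
  by_contra hxa
  obtain ⟨h, hh, hh1, hh0, hh01⟩ := exists_bump ({x} : Set X) (finite_singleton x)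
    ((p a).1 : Set X) ((p a).1.finite_toSet.isClosed) (by
      intro w hw hwF
      rw [mem_singleton_iff] at hw
      subst hw
      exact hxa (by simpa using hwF))
  let hb : BoundedContinuousFunction X ℝ :=
    BoundedContinuousFunction.ofNormedAddCommGroup (fun v => (r / 2) * h v)
      (continuous_const.mul hh) (r / 2) (by
        intro v
        rw [Real.norm_eq_abs, abs_of_nonneg (mul_nonneg (by positivity) (hh01 v).1)]
        have := (hh01 v).2
        nlinarith)
  have hbn : ‖hb‖ ≤ r / 2 := BoundedContinuousFunction.norm_ofNormedAddCommGroup_le _ (by positivity) _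
  have hmem : z + hb ∈ closure (A' j) := by
    apply hball'
    rw [Metric.mem_ball, dist_eq_norm, add_sub_cancel_left]
    linarith
  have hε : 0 < min (1 / (((p a).2 : ℝ) + 1)) (r / 8) := lt_min (by positivity) (by positivity)
  obtain ⟨g, hgA, hg⟩ := Metric.mem_closure_iff.1 hmem _ hε
  have hgd : ∀ v, |g v - (z v + (r / 2) * h v)| < min (1 / (((p a).2 : ℝ) + 1)) (r / 8) := by
    intro v
    have h4 := BoundedContinuousFunction.dist_coe_le_dist (f := g) (g := z + hb) v
    rw [dist_comm g (z + hb)] at h4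
    have h5 : dist (g v) ((z + hb) v) = |g v - (z v + (r / 2) * h v)| := by
      rw [Real.dist_eq]; rfl
    rw [← h5]
    exact lt_of_le_of_lt h4 hg
  have hgG : toCp g ∈ G a := by
    apply hp a
    refine ⟨?_, hgA⟩
    intro v hv
    show |g v - z v| < _
    have h6 := hgd v
    rw [hh0 v (by simpa using hv), mul_zero, add_zero] at h6
    exact lt_of_lt_of_le h6 (min_le_left _ _)
  have h7 : |g x - z x| < r / 4 := ha hgG
  have h8 := lt_of_lt_of_le (hgd x) (min_le_right _ _)
  rw [hh1 x (mem_singleton x), mul_one] at h8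
  rw [abs_lt] at h7 h8
  linarith [h7.1, h7.2, h8.1, h8.2]

end baire

section base

variable {W : Type*} [TopologicalSpace W]

/-- A directed, antitone local base in `W` gives local bases at finite subsets of `W ^ n`. -/
lemma base_tuple {ι : Type*} [Preorder ι] [IsDirected ι (· ≤ ·)] [Nonempty ι]
    (B : W → ι → Set W) (hanti : ∀ w, Antitone (B w))
    (hB : ∀ w, (𝓝 w).HasBasis (fun _ : ι => True) (B w)) (n : ℕ)
    (T : Set (Fin n → W)) (hT : T.Finite) :
    ∃ G : ι → Set (Fin n → W), (𝓝ˢ T).HasBasis (fun _ => True) G := by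
  classical
  refine ⟨fun a => {y' | ∃ y ∈ T, ∀ i, y' i ∈ B (y i) a}, ⟨fun s => ⟨fun hs => ?_, ?_⟩⟩⟩
  · rw [mem_nhdsSet_iff_forall] at hs
    have h1 : ∀ y ∈ T, ∃ a, ∀ b, a ≤ b → {y' : Fin n → W | ∀ i, y' i ∈ B (y i) b} ⊆ s := by
      intro y hy
      have h2 := hs y hy
      rw [nhds_pi, Filter.mem_pi'] at h2
      obtain ⟨I, t, ht, hts⟩ := h2
      have h3 : ∀ i : Fin n, ∃ a, B (y i) a ⊆ t i := by
        intro i
        obtain ⟨a, -, ha⟩ := (hB (y i)).mem_iff.1 (ht i)
        exact ⟨a, ha⟩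
      choose a ha using h3
      obtain ⟨M, hM⟩ := Finset.exists_le (Finset.univ.image a)
      refine ⟨M, fun b hb y' hy' => hts ?_⟩
      intro i _
      apply ha i
      have : a i ≤ b := (hM (a i) (Finset.mem_image_of_mem a (Finset.mem_univ i))).trans hb
      exact hanti (y i) this (hy' i)
    choose! a ha using h1
    obtain ⟨M, hM⟩ := Finset.exists_le (hT.toFinset.image a)
    refine ⟨M, trivial, ?_⟩
    rintro y' ⟨y, hy, hyy⟩
    exact ha y hy M (hM (a y) (Finset.mem_image_of_mem a (hT.mem_toFinset.2 hy))) hyy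
  · rintro ⟨a, -, ha⟩
    refine mem_of_superset ?_ ha
    rw [mem_nhdsSet_iff_forall]
    intro y hy
    have h1 : ∀ᶠ y' : Fin n → W in 𝓝 y, ∀ i, y' i ∈ B (y i) a := by
      rw [eventually_all]
      intro i
      exact (continuous_apply i).continuousAt.eventually ((hB (y i)).mem_of_mem trivial)
    filter_upwards [h1] with y' hy'
    exact ⟨y, hy, hy'⟩

end base

/-- Subtraction of a fixed element as a homeomorphism of `Cp Z`. -/
def shift {Z : Type*} [TopologicalSpace Z] (c : Cp Z) : Cp Z ≃ₜ Cp Z where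
  toFun g := ⟨fun z => g.1 z - c.1 z, g.2.sub c.2⟩
  invFun g := ⟨fun z => g.1 z + c.1 z, g.2.add c.2⟩
  left_inv g := by ext z; simp
  right_inv g := by ext z; simp
  continuous_toFun := by
    apply Continuous.subtype_mk
    exact continuous_pi fun z => (continuous_eval z).sub continuous_const
  continuous_invFun := by
    apply Continuous.subtype_mk
    exact continuous_pi fun z => (continuous_eval z).add continuous_const

/-- The main covering statement: `X` is covered by finite sets indexed by `Finset Y × ℕ`. -/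
theorem cover {X Y : Type*} [TopologicalSpace X] [TopologicalSpace Y] [T35Space X] [T35Space Y]
    (Φ : Cp (Cp X) ≃ₜ Cp (Cp Y)) :
    ∃ F : Finset Y × ℕ → Finset X, ∀ x, ∃ a, x ∈ F a := by
  classical
  let φ : Cp (Cp Y) ≃ₜ Cp (Cp X) :=
    Φ.symm.trans (shift (Φ.symm ⟨fun _ => 0, continuous_const⟩))
  have h0 : ∀ z, (φ ⟨fun _ => 0, continuous_const⟩).1 z = 0 := by
    intro z
    show (Φ.symm ⟨fun _ => 0, continuous_const⟩).1 z -
      (Φ.symm ⟨fun _ => 0, continuous_const⟩).1 z = 0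
    exact sub_self _
  apply baire_step (J := ℕ × ℕ) (fun j => Lev φ (1 / ((j.1 : ℝ) + 1)) j.2)
  · intro f
    obtain ⟨m, n, h⟩ := exists_Lev φ h0 f
    exact ⟨(m, n), h⟩
  · rintro ⟨m, n⟩ z hz
    apply local_base φ h0 (by positivity) n _ z hz
    intro T hT
    exact base_tuple (ι := Finset Y × ℕ) (fun w => Bn w) (fun w => Bn_antitone w)
      (fun w => nhds_Cp w) n T hT

theorem countable_of_countable {X Y : Type*} [TopologicalSpace X] [TopologicalSpace Y]
    [T35Space X] [T35Space Y] (Φ : Cp (Cp X) ≃ₜ Cp (Cp Y)) [Countable Y] : Countable X := by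
  obtain ⟨F, hF⟩ := cover Φ
  have : (⋃ a, (F a : Set X)) = univ := by
    rw [eq_univ_iff_forall]
    intro x
    obtain ⟨a, ha⟩ := hF x
    exact mem_iUnion.2 ⟨a, by simpa using ha⟩
  rw [← countable_univ_iff, ← this]
  exact countable_iUnion fun a => (F a).countable_toSet


open Cardinal in
theorem lift_mk_le {X : Type u} {Y : Type v} [TopologicalSpace X] [TopologicalSpace Y]
    [T35Space X] [T35Space Y] (Φ : Cp (Cp X) ≃ₜ Cp (Cp Y)) [Infinite Y] :
    Cardinal.lift.{v} #X ≤ Cardinal.lift.{u} #Y := by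
  classical
  obtain ⟨F, hF⟩ := cover Φ
  choose a ha using hF
  let g : X → (Finset Y × ℕ) × ℕ := fun x => (a x, ((F (a x)).equivFin ⟨x, ha x⟩ : ℕ))
  have hg : Function.Injective g := by
    intro x x' h
    have h1 : a x = a x' := congrArg Prod.fst h
    have h2 : ((F (a x)).equivFin ⟨x, ha x⟩ : ℕ) = ((F (a x')).equivFin ⟨x', ha x'⟩ : ℕ) :=
      congrArg Prod.snd h
    have h3 : ∀ (b b' : Finset Y × ℕ) (hb : x ∈ F b) (hb' : x' ∈ F b'), b = b' →
        ((F b).equivFin ⟨x, hb⟩ : ℕ) = ((F b').equivFin ⟨x', hb'⟩ : ℕ) → x = x' := by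
      rintro b b' hb hb' rfl h
      have h4 := (F b).equivFin.injective (Fin.ext h)
      exact congrArg Subtype.val h4
    exact h3 _ _ (ha x) (ha x') h1 h2
  have h1 := Cardinal.lift_mk_le_lift_mk_of_injective hg
  have h2 : #((Finset Y × ℕ) × ℕ) = #Y := by
    rw [Cardinal.mk_prod, Cardinal.mk_prod, Cardinal.mk_finset_of_infinite]
    simp
  rw [h2] at h1
  exact h1

section sigma

variable {W Z : Type*} [TopologicalSpace W] [TopologicalSpace Z]

lemma isCompact_R [T35Space Z] (φ : Cp W ≃ₜ Cp Z)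
    (h0 : ∀ z, (φ ⟨fun _ => 0, continuous_const⟩).1 z = 0) {δ : ℝ} (hδ : 0 < δ)
    (n : ℕ) (K : Set (Fin n → W)) (hK : IsCompact K) :
    IsCompact {z | ∃ y ∈ K, IsSupp φ δ (range y) z} := by
  classical
  rw [isCompact_iff_ultrafilter_le_nhds]
  intro U hU
  rw [le_principal_iff] at hU
  have hex : ∀ z : Z, ∃ y : Fin n → W, (∃ y ∈ K, IsSupp φ δ (range y) z) →
      (y ∈ K ∧ IsSupp φ δ (range y) z) := by
    intro z
    by_cases h : ∃ y ∈ K, IsSupp φ δ (range y) z
    · obtain ⟨y, hy⟩ := h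
      exact ⟨y, fun _ => hy⟩
    · obtain ⟨z', y, hy⟩ := U.nonempty_of_mem hU
      exact ⟨y, fun h' => absurd h' h⟩
  choose y hy using hex
  have h1 : ∀ᶠ z in (U : Filter Z), y z ∈ K ∧ IsSupp φ δ (range (y z)) z := by
    filter_upwards [hU] with z hz
    exact hy z hz
  have h2 : (U.map y : Filter (Fin n → W)) ≤ 𝓟 K := by
    rw [le_principal_iff]
    exact h1.mono fun z hz => hz.1
  obtain ⟨y0, hy0K, hy0⟩ := isCompact_iff_ultrafilter_le_nhds.1 hK (U.map y) h2
  obtain ⟨hfin, husc⟩ := finite_and_usc_R φ h0 hδ n y0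
  by_contra hcon
  have h3 : ∀ z ∈ {z | IsSupp φ δ (range y0) z}, ∃ N : Set Z, IsOpen N ∧ z ∈ N ∧
      ∀ᶠ z' in (U : Filter Z), z' ∉ N := by
    intro z hz
    have h4 : ¬ ((U : Filter Z) ≤ 𝓝 z) := fun h => hcon ⟨z, ⟨y0, hy0K, hz⟩, h⟩
    rw [(nhds_basis_opens z).ge_iff] at h4
    push Not at h4
    obtain ⟨N, ⟨hzN, hN⟩, hNU⟩ := h4
    exact ⟨N, hN, hzN, Ultrafilter.compl_mem_iff_notMem.2 hNU⟩
  choose! N hN hzN hUN using h3
  let V : Set Z := ⋃ z ∈ {z | IsSupp φ δ (range y0) z}, N z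
  have hV : IsOpen V := isOpen_biUnion fun z hz => hN z hz
  have h5 := husc V hV fun z hz => mem_iUnion₂.2 ⟨z, hz, hzN z hz⟩
  have h6 : ∀ᶠ z in (U : Filter Z), ∀ z', IsSupp φ δ (range (y z)) z' → z' ∈ V := by
    have h7 : ∀ᶠ y' in (U.map y : Filter (Fin n → W)), ∀ z', IsSupp φ δ (range y') z' → z' ∈ V :=
      hy0 h5
    exact h7
  have h8 : ∀ᶠ z in (U : Filter Z), ∀ z' ∈ {z | IsSupp φ δ (range y0) z}, z ∉ N z' :=
    (Filter.eventually_all_finite hfin).2 hUN
  obtain ⟨z, hz1, hz2, hz3⟩ := (h1.and (h6.and h8)).exists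
  obtain ⟨z', hz', hzz'⟩ := mem_iUnion₂.1 (hz2 z hz1.2)
  exact hz3 z' hz' hzz'

lemma sigmaCompact_of_sigmaCompact [T35Space Z] [SigmaCompactSpace W] (φ : Cp W ≃ₜ Cp Z)
    (h0 : ∀ z, (φ ⟨fun _ => 0, continuous_const⟩).1 z = 0) :
    ∃ C : (ℕ × ℕ) × ℕ → Set Z, (∀ j, IsCompact (C j)) ∧ ∀ z, ∃ j, z ∈ C j := by
  classical
  have hK : ∀ n : ℕ, ∃ K : ℕ → Set (Fin n → W), (∀ k, IsCompact (K k)) ∧ ⋃ k, K k = univ := by
    intro n
    exact SigmaCompactSpace.exists_compact_covering
  choose K hK1 hK2 using hK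
  refine ⟨fun j => {z | ∃ y ∈ K j.1.2 j.2, IsSupp φ (1 / ((j.1.1 : ℝ) + 1)) (range y) z},
    fun j => isCompact_R φ h0 (by positivity) _ _ (hK1 _ _), fun z => ?_⟩
  obtain ⟨m, n, ⟨⟨y, hy⟩, -⟩⟩ := exists_Lev φ h0 z
  have : y ∈ ⋃ k, K n k := by rw [hK2]; exact mem_univ _
  obtain ⟨k, hk⟩ := mem_iUnion.1 this
  exact ⟨((m, n), k), y, hk, hy⟩

lemma continuous_toCp {X : Type*} [TopologicalSpace X] :
    Continuous (toCp : BoundedContinuousFunction X ℝ → Cp X) := by
  apply Continuous.subtype_mk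
  exact BoundedContinuousFunction.continuous_coe

lemma finite_of_sigmaCompact {X : Type*} [TopologicalSpace X] [T35Space X] {J : Type*}
    [Countable J] (C : J → Set (Cp X)) (hC : ∀ j, IsCompact (C j)) (hun : ∀ f, ∃ j, f ∈ C j) :
    Finite X := by
  classical
  have hcl : ∀ j, IsClosed {f : BoundedContinuousFunction X ℝ | toCp f ∈ C j} := fun j =>
    (hC j).isClosed.preimage continuous_toCp
  have hun' : ⋃ j, {f : BoundedContinuousFunction X ℝ | toCp f ∈ C j} = univ := by
    rw [eq_univ_iff_forall]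
    intro f
    obtain ⟨j, hj⟩ := hun (toCp f)
    exact mem_iUnion.2 ⟨j, hj⟩
  obtain ⟨j, z, hz⟩ := nonempty_interior_of_iUnion_of_closed hcl hun'
  obtain ⟨r, hr, hball⟩ := Metric.isOpen_iff.1 isOpen_interior z hz
  have hball' : ∀ g : BoundedContinuousFunction X ℝ, dist g z < r → toCp g ∈ C j := by
    intro g hg
    have h1 : g ∈ {f : BoundedContinuousFunction X ℝ | toCp f ∈ C j} := interior_subset (hball hg)
    exact h1
  -- every indicator function of a point is continuous
  have hdisc : ∀ p : X, IsOpen ({p} : Set X) := by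
    intro p
    let u : X → ℝ := fun x => z x + (r / 2) * (if x = p then 1 else 0)
    have hcl2 : IsClosed (Subtype.val '' (C j) : Set (X → ℝ)) :=
      ((hC j).image continuous_subtype_val).isClosed
    have hu : u ∈ closure (Subtype.val '' (C j) : Set (X → ℝ)) := by
      rw [mem_closure_iff_nhds]
      intro t ht
      rw [nhds_pi, Filter.mem_pi] at ht
      obtain ⟨I, hI, s, hs, hst⟩ := ht
      obtain ⟨h, hh, hh1, hh0, hh01⟩ := exists_bump ({p} : Set X) (finite_singleton p)
        (I \ {p}) (hI.subset sdiff_subset).isClosed (by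
          intro w hw hw2
          exact hw2.2 hw)
      let hb : BoundedContinuousFunction X ℝ :=
        BoundedContinuousFunction.ofNormedAddCommGroup (fun v => (r / 2) * h v)
          (continuous_const.mul hh) (r / 2) (by
            intro v
            rw [Real.norm_eq_abs, abs_of_nonneg (mul_nonneg (by positivity) (hh01 v).1)]
            have := (hh01 v).2
            nlinarith)
      have hbn : ‖hb‖ ≤ r / 2 :=
        BoundedContinuousFunction.norm_ofNormedAddCommGroup_le _ (by positivity) _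
      have hmem : toCp (z + hb) ∈ C j := by
        apply hball'
        rw [dist_eq_norm, add_sub_cancel_left]
        linarith
      refine ⟨(toCp (z + hb)).1, hst ?_, mem_image_of_mem _ hmem⟩
      intro i hi
      have h1 : (toCp (z + hb)).1 i = u i := by
        show z i + (r / 2) * h i = z i + (r / 2) * (if i = p then 1 else 0)
        by_cases hip : i = p
        · rw [if_pos hip, hh1 i hip]
        · rw [if_neg hip, hh0 i ⟨hi, hip⟩]
      rw [h1]
      exact mem_of_mem_nhds (hs i)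
    rw [hcl2.closure_eq] at hu
    obtain ⟨g, -, hg⟩ := hu
    have hcont : Continuous u := hg ▸ g.2
    have hcont2 : Continuous fun x => u x - z x := hcont.sub z.continuous
    have : ({p} : Set X) = {x | 0 < u x - z x} := by
      ext x
      simp only [mem_singleton_iff, mem_ofPred_eq, u]
      by_cases hx : x = p
      · simp [hx, hr]
      · simp [hx]
    rw [this]
    exact isOpen_lt continuous_const hcont2
  have hdt : DiscreteTopology X := discreteTopology_iff_isOpen_singleton.2 hdisc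
  by_contra hinf
  have hinf' : Infinite X := not_finite_iff_infinite.1 hinf
  obtain ⟨e, he⟩ : ∃ e : J → X, Function.Injective e := by
    obtain ⟨i, hi⟩ := exists_injective_nat J
    exact ⟨fun j => Infinite.natEmbedding X (i j), (Infinite.natEmbedding X).injective.comp hi⟩
  have hbd : ∀ j, ∃ M : ℝ, ∀ g ∈ C j, g.1 (e j) ≤ M := by
    intro j
    obtain ⟨M, hM⟩ := ((hC j).image (continuous_eval (e j))).bddAbove
    exact ⟨M, fun g hg => hM ⟨g, hg, rfl⟩⟩
  choose M hM using hbd
  let f : X → ℝ := fun x => if h : ∃ j, e j = x then M h.choose + 1 else 0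
  obtain ⟨j', hj'⟩ := hun ⟨f, continuous_of_discreteTopology⟩
  have h1 := hM j' _ hj'
  have h2 : f (e j') = M j' + 1 := by
    have hex : ∃ j, e j = e j' := ⟨j', rfl⟩
    have h3 : hex.choose = j' := he hex.choose_spec
    show (if h : ∃ j, e j = e j' then M h.choose + 1 else 0) = _
    rw [dif_pos hex, h3]
  change f (e j') ≤ M j' at h1
  rw [h2] at h1
  linarith

end sigma

theorem finite_of_finite {X Y : Type*} [TopologicalSpace X] [TopologicalSpace Y]
    [T35Space X] [T35Space Y] (Φ : Cp (Cp X) ≃ₜ Cp (Cp Y)) [Finite Y] : Finite X := by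
  classical
  let φ : Cp (Cp Y) ≃ₜ Cp (Cp X) :=
    Φ.symm.trans (shift (Φ.symm ⟨fun _ => 0, continuous_const⟩))
  have h0 : ∀ z, (φ ⟨fun _ => 0, continuous_const⟩).1 z = 0 := by
    intro z
    show (Φ.symm ⟨fun _ => 0, continuous_const⟩).1 z -
      (Φ.symm ⟨fun _ => 0, continuous_const⟩).1 z = 0
    exact sub_self _
  have hY : SigmaCompactSpace (Cp Y) := by
    have hcl : IsClosed {f : Y → ℝ | Continuous f} := by
      have : {f : Y → ℝ | Continuous f} = univ :=
        eq_univ_of_forall fun f => continuous_of_discreteTopology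
      rw [this]
      exact isClosed_univ
    exact hcl.sigmaCompactSpace
  obtain ⟨C, hC1, hC2⟩ := sigmaCompact_of_sigmaCompact φ h0
  exact finite_of_sigmaCompact C hC1 hC2

open Cardinal in
theorem mk_eq_or_finite {X : Type u} {Y : Type v} [TopologicalSpace X] [TopologicalSpace Y]
    [T35Space X] [T35Space Y] (Φ : Cp (Cp X) ≃ₜ Cp (Cp Y)) :
    Cardinal.lift.{v} #X = Cardinal.lift.{u} #Y ∨ (Finite X ∧ Finite Y) := by
  rcases finite_or_infinite Y with hY | hY
  · right
    exact ⟨finite_of_finite Φ, hY⟩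
  · left
    have hX : Infinite X := by
      rw [← not_finite_iff_infinite]
      intro hX
      have := finite_of_finite Φ.symm
      exact not_finite Y
    exact le_antisymm (lift_mk_le Φ) (lift_mk_le Φ.symm)

/-- Let `X` and `Y` be Tychonoff spaces such that `C_p(C_p(X))` and `C_p(C_p(Y))` are
homeomorphic.  Then either `X` and `Y` have the same cardinality, or both are finite. -/
theorem result_proof {X : Type u} {Y : Type v} [TopologicalSpace X] [TopologicalSpace Y]
    [T35Space X] [T35Space Y]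
    (h : Nonempty ({F : {f : X → ℝ // Continuous f} → ℝ // Continuous F} ≃ₜ
      {F : {f : Y → ℝ // Continuous f} → ℝ // Continuous F})) :
    Nonempty (X ≃ Y) ∨ (Finite X ∧ Finite Y) := by
  obtain ⟨Φ⟩ := h
  rcases mk_eq_or_finite Φ with h | h
  · exact Or.inl (Cardinal.lift_mk_eq'.1 h)
  · exact Or.inr h

end Pool.Agent.Results.MP_195fab_gt.CardinalityCpCp
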