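import Mathlib

set_option autoImplicit false

namespace Pool.Agent.Results.MP_543b9c_al.ClassSpectrum

/-- A loop `(Q, *, ldiv, rdiv, 1)`: `1` is a two-sided identity, `ldiv a b` is the unique `x` with
`a * x = b`, and `rdiv b a` is the unique `x` with `x * a = b`. -/
class Loop (Q : Type*) extends Mul Q, One Q where
  /-- left division: `ldiv a b` is the solution `x` of `a * x = b` -/
  ldiv : Q → Q → Q
  /-- right division: `rdiv b a` is the solution `x` of `x * a = b` -/
  rdiv : Q → Q → Q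
  one_mul' : ∀ a : Q, 1 * a = a
  mul_one' : ∀ a : Q, a * 1 = a
  mul_ldiv : ∀ a b : Q, a * ldiv a b = b
  ldiv_mul : ∀ a b : Q, ldiv a (a * b) = b
  rdiv_mul : ∀ a b : Q, rdiv b a * a = b
  mul_rdiv : ∀ a b : Q, rdiv (b * a) a = b

/-- `p` is a polynomial operation of the loop `Q` in variables indexed by `V`: it is obtained from
variables and constants from `Q` by the three loop operations. -/
inductive IsPolynomial {Q V : Type*} [Loop Q] : ((V → Q) → Q) → Prop
  | var (v : V) : IsPolynomial (fun x => x v)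
  | const (q : Q) : IsPolynomial (fun _ => q)
  | mul (f g : (V → Q) → Q) : IsPolynomial f → IsPolynomial g →
      IsPolynomial (fun x => f x * g x)
  | ldiv (f g : (V → Q) → Q) : IsPolynomial f → IsPolynomial g →
      IsPolynomial (fun x => Loop.ldiv (f x) (g x))
  | rdiv (f g : (V → Q) → Q) : IsPolynomial f → IsPolynomial g →
      IsPolynomial (fun x => Loop.rdiv (f x) (g x))

/-- `Q` is `k`-supernilpotent: for every polynomial operation `p` in `k` tuples of variables (the
`i`-th of length `n i`) and one more tuple of length `m`, all tuples `a i ≠ b i` and all tuples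
`u`, `v`: if `p (x, u) = p (x, v)` for every choice of `x i` in `{a i, b i}` other than `x = b`,
then also `p (b, u) = p (b, v)`. -/
def IsSupernilpotent (Q : Type*) [Loop Q] (k : ℕ) : Prop :=
  ∀ (n : Fin k → ℕ) (m : ℕ) (p : (((Σ i : Fin k, Fin (n i)) ⊕ Fin m) → Q) → Q),
    IsPolynomial p →
    ∀ (a b : ∀ i : Fin k, Fin (n i) → Q) (u v : Fin m → Q),
    (∀ i, a i ≠ b i) →
    (∀ x : ∀ i : Fin k, Fin (n i) → Q, (∀ i, x i = a i ∨ x i = b i) → x ≠ b →
      p (Sum.elim (fun j => x j.1 j.2) u) = p (Sum.elim (fun j => x j.1 j.2) v)) →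
    p (Sum.elim (fun j => b j.1 j.2) u) = p (Sum.elim (fun j => b j.1 j.2) v)

/-- The supernilpotence class: the least `k ≥ 1` such that `Q` is `k`-supernilpotent, and `⊤` if
there is none. -/
noncomputable def clsn (Q : Type*) [Loop Q] : ℕ∞ :=
  ⨅ k ∈ {k : ℕ | 1 ≤ k ∧ IsSupernilpotent Q k}, (k : ℕ∞)

/-- Left translation `x ↦ a * x`. -/
def leftPerm {Q : Type*} [Loop Q] (a : Q) : Equiv.Perm Q where
  toFun x := a * x
  invFun x := Loop.ldiv a x
  left_inv x := Loop.ldiv_mul a x
  right_inv x := Loop.mul_ldiv a x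

/-- Right translation `x ↦ x * a`. -/
def rightPerm {Q : Type*} [Loop Q] (a : Q) : Equiv.Perm Q where
  toFun x := x * a
  invFun x := Loop.rdiv x a
  left_inv x := Loop.mul_rdiv a x
  right_inv x := Loop.rdiv_mul a x

/-- The multiplication group: the permutation group generated by all translations. -/
def Mlt (Q : Type*) [Loop Q] : Subgroup (Equiv.Perm Q) :=
  Subgroup.closure (Set.range (leftPerm (Q := Q)) ∪ Set.range (rightPerm (Q := Q)))

/-- `N` is a normal subloop: a subloop invariant under the stabiliser of `1` in `Mlt Q`. -/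
structure IsNormalSubloop {Q : Type*} [Loop Q] (N : Set Q) : Prop where
  one_mem : (1 : Q) ∈ N
  mul_mem : ∀ a ∈ N, ∀ b ∈ N, a * b ∈ N
  ldiv_mem : ∀ a ∈ N, ∀ b ∈ N, Loop.ldiv a b ∈ N
  rdiv_mem : ∀ a ∈ N, ∀ b ∈ N, Loop.rdiv a b ∈ N
  invariant : ∀ φ ∈ Mlt Q, φ 1 = 1 → ∀ a ∈ N, φ a ∈ N

/-- The coset `uN`, an element of the quotient loop `Q/N` when `N` is normal. -/
def coset {Q : Type*} [Loop Q] (N : Set Q) (u : Q) : Set Q := {w | ∃ n ∈ N, w = u * n}

/-- `aN` lies in the center of `Q/N`: the identities `ax = xa`, `a(xy) = (ax)y`, `x(ay) = (xa)y`,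
`x(ya) = (xy)a` hold in `Q/N`, i.e. both sides have the same coset of `N`. -/
def CentralModulo {Q : Type*} [Loop Q] (N : Set Q) (a : Q) : Prop :=
  ∀ x y : Q, coset N (a * x) = coset N (x * a) ∧
    coset N (a * (x * y)) = coset N ((a * x) * y) ∧
    coset N (x * (a * y)) = coset N ((x * a) * y) ∧
    coset N (x * (y * a)) = coset N ((x * y) * a)

/-- There are normal subloops `1 = N 0 ≤ N 1 ≤ ... ≤ N k = Q` with `N (i+1) / N i` contained in
the center of `Q / N i`. -/
def HasCentralSeries (Q : Type*) [Loop Q] (k : ℕ) : Prop :=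
  ∃ N : ℕ → Set Q, (∀ i ≤ k, IsNormalSubloop (N i)) ∧ N 0 = {1} ∧ N k = Set.univ ∧
    ∀ i < k, N i ⊆ N (i + 1) ∧ ∀ a ∈ N (i + 1), CentralModulo (N i) a

/-- The central nilpotence class: the least length of a central series, `⊤` if there is none. -/
noncomputable def clcn (Q : Type*) [Loop Q] : ℕ∞ :=
  ⨅ k ∈ {k : ℕ | HasCentralSeries Q k}, (k : ℕ∞)

/-! ### Formal polynomials (used in the proofs only) -/

end Pool.Agent.Results.MP_543b9c_al.ClassSpectrum
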