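import Mathlib
import Pool.Agent.H2.SPL.ClassSpectrumDefs

set_option autoImplicit false

namespace Pool.Agent.Results.MP_543b9c_al.ClassSpectrum


/-! ### Formal polynomials (used in the proofs only) -/

/-- Formal polynomials over a loop `Q` in variables indexed by `V`. -/
inductive LoopPoly (Q : Type*) (V : Type*) where
  | var : V → LoopPoly Q V
  | const : Q → LoopPoly Q V
  | mul : LoopPoly Q V → LoopPoly Q V → LoopPoly Q V
  | ldiv : LoopPoly Q V → LoopPoly Q V → LoopPoly Q V
  | rdiv : LoopPoly Q V → LoopPoly Q V → LoopPoly Q V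

/-- The value of a formal polynomial at an assignment `x` of its variables. -/
def LoopPoly.eval {Q V : Type*} [Loop Q] (x : V → Q) : LoopPoly Q V → Q
  | .var v => x v
  | .const q => q
  | .mul p q => p.eval x * q.eval x
  | .ldiv p q => Loop.ldiv (p.eval x) (q.eval x)
  | .rdiv p q => Loop.rdiv (p.eval x) (q.eval x)

theorem IsPolynomial.exists_eval {Q V : Type*} [Loop Q] {p : (V → Q) → Q}
    (h : IsPolynomial p) : ∃ P : LoopPoly Q V, p = fun x => P.eval x := by
  induction h with
  | var v => exact ⟨.var v, rfl⟩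
  | const q => exact ⟨.const q, rfl⟩
  | mul f g _ _ hf hg =>
    obtain ⟨P, rfl⟩ := hf
    obtain ⟨R, rfl⟩ := hg
    exact ⟨.mul P R, rfl⟩
  | ldiv f g _ _ hf hg =>
    obtain ⟨P, rfl⟩ := hf
    obtain ⟨R, rfl⟩ := hg
    exact ⟨.ldiv P R, rfl⟩
  | rdiv f g _ _ hf hg =>
    obtain ⟨P, rfl⟩ := hf
    obtain ⟨R, rfl⟩ := hg
    exact ⟨.rdiv P R, rfl⟩

theorem LoopPoly.isPolynomial {Q V : Type*} [Loop Q] (P : LoopPoly Q V) :
    IsPolynomial (fun x : V → Q => P.eval x) := by
  induction P with
  | var v => exact .var v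
  | const q => exact .const q
  | mul P R hP hR => exact .mul _ _ hP hR
  | ldiv P R hP hR => exact .ldiv _ _ hP hR
  | rdiv P R hP hR => exact .rdiv _ _ hP hR

/-! ### The example -/

/-- The underlying set of the example: a vector `a`, a scalar `s` and a vector `c` over the field
with two elements. -/
@[ext]
structure Car (k m : ℕ) where
  a : Fin (k + 1) → ZMod 2
  s : ZMod 2
  c : Fin m → ZMod 2

/-- The nonlinear shift: `a, c ↦ (∏ a_i, c_0, c_1, ..., c_{m-2})`. -/
def shf {k m : ℕ} (a : Fin (k + 1) → ZMod 2) (c : Fin m → ZMod 2) (j : Fin m) : ZMod 2 :=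
  if (j : ℕ) = 0 then ∏ i, a i else c ⟨j - 1, by omega⟩

/-- The multiplication of the example. -/
def cmul {k m : ℕ} (x y : Car k m) : Car k m :=
  ⟨x.a + y.a, x.s + y.s, fun j => x.c j + y.c j + y.s * shf x.a x.c j⟩

instance (k m : ℕ) : Finite (Car k m) := by
  have : Function.Injective
      (fun x : Car k m =>
        ((x.a, x.s, x.c) : (Fin (k + 1) → ZMod 2) × ZMod 2 × (Fin m → ZMod 2))) := by
    intro x y h
    simp only [Prod.mk.injEq] at h
    exact Car.ext h.1 h.2.1 h.2.2
  exact Finite.of_injective _ this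

theorem cmul_right_injective {k m : ℕ} (y : Car k m) :
    Function.Injective (fun x : Car k m => cmul x y) := by
  intro x x' h
  simp only [cmul, Car.mk.injEq] at h
  obtain ⟨ha, hs, hc⟩ := h
  have ha' : x.a = x'.a := add_right_cancel ha
  have hs' : x.s = x'.s := add_right_cancel hs
  refine Car.ext ha' hs' ?_
  have key : ∀ (n : ℕ) (hn : n < m), x.c ⟨n, hn⟩ = x'.c ⟨n, hn⟩ := by
    intro n
    induction n with
    | zero =>
      intro hn
      have := congrFun hc ⟨0, hn⟩
      simp only [shf, if_pos, ha'] at this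
      linear_combination this
    | succ n ih =>
      intro hn
      have h1 := congrFun hc ⟨n + 1, hn⟩
      have h2 := ih (by omega)
      simp only [shf, Nat.add_eq_zero_iff, one_ne_zero, and_false, if_false,
        Nat.add_sub_cancel] at h1
      rw [h2] at h1
      linear_combination h1
  funext j
  exact key j.1 j.2

theorem cmul_right_bijective {k m : ℕ} (y : Car k m) :
    Function.Bijective (fun x : Car k m => cmul x y) :=
  (Finite.injective_iff_bijective).1 (cmul_right_injective y)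

theorem shf_zero_zero {k m : ℕ} (j : Fin m) :
    shf (0 : Fin (k + 1) → ZMod 2) (0 : Fin m → ZMod 2) j = 0 := by
  unfold shf
  split_ifs
  · simp
  · rfl

/-- The loop structure of the example. -/
noncomputable instance (k m : ℕ) : Loop (Car k m) where
  mul := cmul
  one := ⟨0, 0, 0⟩
  ldiv x z := ⟨z.a - x.a, z.s - x.s, fun j => z.c j - x.c j - (z.s - x.s) * shf x.a x.c j⟩
  rdiv z y := (Equiv.ofBijective _ (cmul_right_bijective y)).symm z
  one_mul' x := by
    change cmul ⟨0, 0, 0⟩ x = x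
    simp [cmul, shf_zero_zero]
  mul_one' x := by
    change cmul x ⟨0, 0, 0⟩ = x
    simp [cmul]
  mul_ldiv x z := by
    change cmul x ⟨z.a - x.a, z.s - x.s,
      fun j => z.c j - x.c j - (z.s - x.s) * shf x.a x.c j⟩ = z
    ext j
    · simp [cmul]
    · simp [cmul]
    · simp only [cmul]
      ring
  ldiv_mul x z := by
    ext j
    · change (cmul x z).a j - x.a j = z.a j
      simp [cmul]
    · change (cmul x z).s - x.s = z.s
      simp [cmul]
    · change (cmul x z).c j - x.c j - ((cmul x z).s - x.s) * shf x.a x.c j = z.c j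
      simp only [cmul]
      ring
  rdiv_mul a b := (Equiv.ofBijective _ (cmul_right_bijective a)).apply_symm_apply b
  mul_rdiv a b := (Equiv.ofBijective _ (cmul_right_bijective a)).symm_apply_apply b

section basic

variable {k m : ℕ}

@[simp] theorem mul_a (x y : Car k m) : (x * y).a = x.a + y.a := rfl
@[simp] theorem mul_s (x y : Car k m) : (x * y).s = x.s + y.s := rfl
theorem mul_c (x y : Car k m) (j : Fin m) :
    (x * y).c j = x.c j + y.c j + y.s * shf x.a x.c j := rfl
@[simp] theorem one_a : (1 : Car k m).a = 0 := rfl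
@[simp] theorem one_s : (1 : Car k m).s = 0 := rfl
@[simp] theorem one_c : (1 : Car k m).c = 0 := rfl
@[simp] theorem ldiv_a (x z : Car k m) : (Loop.ldiv x z).a = z.a - x.a := rfl
@[simp] theorem ldiv_s (x z : Car k m) : (Loop.ldiv x z).s = z.s - x.s := rfl
theorem ldiv_c (x z : Car k m) (j : Fin m) :
    (Loop.ldiv x z).c j = z.c j - x.c j - (z.s - x.s) * shf x.a x.c j := rfl
@[simp] theorem rdiv_a (x z : Car k m) : (Loop.rdiv z x).a = z.a - x.a := by
  have := congrArg Car.a (Loop.rdiv_mul x z)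
  rw [mul_a] at this
  exact eq_sub_of_add_eq this
@[simp] theorem rdiv_s (x z : Car k m) : (Loop.rdiv z x).s = z.s - x.s := by
  have := congrArg Car.s (Loop.rdiv_mul x z)
  rw [mul_s] at this
  exact eq_sub_of_add_eq this
theorem rdiv_c (x z : Car k m) (j : Fin m) :
    (Loop.rdiv z x).c j =
      z.c j - x.c j - x.s * shf (Loop.rdiv z x).a (Loop.rdiv z x).c j := by
  have := congrArg (fun w => Car.c w j) (Loop.rdiv_mul x z)
  simp only [mul_c] at this
  linear_combination this

end basic

/-! ### Degree bound -/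

/-- `g` is a polynomial function over the field with two elements of degree at most `d`. -/
def Deg {σ : Type*} (d : ℕ) (g : (σ → ZMod 2) → ZMod 2) : Prop :=
  ∃ P : MvPolynomial σ (ZMod 2), P.totalDegree ≤ d ∧ ∀ ε, MvPolynomial.eval ε P = g ε

section deg

variable {σ : Type*}

theorem Deg.mono {d e : ℕ} {g : (σ → ZMod 2) → ZMod 2} (h : Deg d g) (hde : d ≤ e) : Deg e g := by
  obtain ⟨P, h1, h2⟩ := h
  exact ⟨P, h1.trans hde, h2⟩

theorem Deg.const (c : ZMod 2) (d : ℕ) : Deg d (fun _ : σ → ZMod 2 => c) :=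
  ⟨MvPolynomial.C c, by simp, by simp⟩

theorem Deg.coord (i : σ) : Deg 1 (fun ε : σ → ZMod 2 => ε i) :=
  ⟨MvPolynomial.X i, by simp, by simp⟩

theorem Deg.add {d : ℕ} {g h : (σ → ZMod 2) → ZMod 2} (hg : Deg d g) (hh : Deg d h) :
    Deg d (fun ε => g ε + h ε) := by
  obtain ⟨P, h1, h2⟩ := hg
  obtain ⟨R, h3, h4⟩ := hh
  refine ⟨P + R, (MvPolynomial.totalDegree_add P R).trans (max_le h1 h3), fun ε => ?_⟩
  simp [h2, h4]

theorem Deg.sub {d : ℕ} {g h : (σ → ZMod 2) → ZMod 2} (hg : Deg d g) (hh : Deg d h) :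
    Deg d (fun ε => g ε - h ε) := by
  obtain ⟨P, h1, h2⟩ := hg
  obtain ⟨R, h3, h4⟩ := hh
  refine ⟨P - R, (MvPolynomial.totalDegree_sub P R).trans (max_le h1 h3), fun ε => ?_⟩
  simp [h2, h4]

theorem Deg.mul {d e : ℕ} {g h : (σ → ZMod 2) → ZMod 2} (hg : Deg d g) (hh : Deg e h) :
    Deg (d + e) (fun ε => g ε * h ε) := by
  obtain ⟨P, h1, h2⟩ := hg
  obtain ⟨R, h3, h4⟩ := hh
  refine ⟨P * R, (MvPolynomial.totalDegree_mul P R).trans (add_le_add h1 h3), fun ε => ?_⟩
  simp [h2, h4]

theorem Deg.prod {n : ℕ} {g : Fin n → (σ → ZMod 2) → ZMod 2} (hg : ∀ i, Deg 1 (g i)) :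
    Deg n (fun ε => ∏ i, g i ε) := by
  choose P h1 h2 using hg
  refine ⟨∏ i, P i, ?_, fun ε => ?_⟩
  · refine (MvPolynomial.totalDegree_finsetProd _ _).trans ?_
    calc ∑ i, (P i).totalDegree ≤ ∑ _i : Fin n, 1 := Finset.sum_le_sum fun i _ => h1 i
      _ = n := by simp
  · simp [map_prod, h2]

/-- A function of one coordinate has degree at most one. -/
theorem Deg.ite (i : σ) (c c' : ZMod 2) :
    Deg 1 (fun ε : σ → ZMod 2 => if ε i = 0 then c else c') := by
  have : (fun ε : σ → ZMod 2 => if ε i = 0 then c else c') =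
      fun ε => c + (c' - c) * ε i := by
    funext ε
    have h01 : ∀ z : ZMod 2, z = 0 ∨ z = 1 := by decide
    rcases h01 (ε i) with h | h <;> simp [h]
  rw [this]
  exact (Deg.const c 1).add (((Deg.const (c' - c) 0).mul (Deg.coord i)).mono (by omega))

theorem Deg.sum_eq_zero [Fintype σ] [DecidableEq σ] {d : ℕ} {g : (σ → ZMod 2) → ZMod 2}
    (hg : Deg d g) (hd : d < Fintype.card σ) : ∑ ε, g ε = 0 := by
  obtain ⟨P, h1, h2⟩ := hg
  have := MvPolynomial.sum_eval_eq_zero P (by
    simp only [ZMod.card]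
    omega)
  simpa [h2] using this

end deg

/-- Every polynomial operation of the example has coordinates of bounded degree. -/
theorem deg_eval {k m : ℕ} {V σ : Type*} (x : (σ → ZMod 2) → V → Car k m)
    (ha : ∀ v i, Deg 1 (fun ε => (x ε v).a i)) (hs : ∀ v, Deg 1 (fun ε => (x ε v).s))
    (p : LoopPoly (Car k m) V) :
    (∀ i, Deg 1 (fun ε => (p.eval (x ε)).a i)) ∧ Deg 1 (fun ε => (p.eval (x ε)).s) := by
  induction p with
  | var v => exact ⟨ha v, hs v⟩
  | const q => exact ⟨fun i => Deg.const (q.a i) 1, Deg.const q.s 1⟩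
  | mul p q ihp ihq =>
    exact ⟨fun i => (ihp.1 i).add (ihq.1 i), ihp.2.add ihq.2⟩
  | ldiv p q ihp ihq =>
    exact ⟨fun i => (ihq.1 i).sub (ihp.1 i), ihq.2.sub ihp.2⟩
  | rdiv p q ihp ihq =>
    constructor
    · intro i
      simp only [LoopPoly.eval, rdiv_a, Pi.sub_apply]
      exact (ihp.1 i).sub (ihq.1 i)
    · simp only [LoopPoly.eval, rdiv_s]
      exact ihp.2.sub ihq.2

theorem deg_eval_c {k m : ℕ} {V σ : Type*} (x : (σ → ZMod 2) → V → Car k m)
    (ha : ∀ v i, Deg 1 (fun ε => (x ε v).a i)) (hs : ∀ v, Deg 1 (fun ε => (x ε v).s))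
    (hc : ∀ v j, Deg 1 (fun ε => (x ε v).c j)) :
    ∀ (n : ℕ) (hn : n < m) (p : LoopPoly (Car k m) V),
      Deg (k + 2 + n) (fun ε => (p.eval (x ε)).c ⟨n, hn⟩) := by
  intro n
  induction n with
  | zero =>
    intro hn p
    have key : ∀ (p : LoopPoly (Car k m) V) (g : (σ → ZMod 2) → ZMod 2), Deg 1 g →
        Deg (k + 2 + 0) (fun ε => g ε *
          shf (p.eval (x ε)).a (p.eval (x ε)).c (⟨0, hn⟩ : Fin m)) := by
      intro p g hg
      simp only [shf, if_pos]
      exact (hg.mul (Deg.prod (deg_eval x ha hs p).1)).mono (by omega)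
    induction p with
    | var v => exact (hc v _).mono (by omega)
    | const q => exact Deg.const (q.c _) _
    | mul p q ihp ihq =>
      simp only [LoopPoly.eval, mul_c]
      exact (ihp.add ihq).add (key p _ (deg_eval x ha hs q).2)
    | ldiv p q ihp ihq =>
      simp only [LoopPoly.eval, ldiv_c]
      exact (ihq.sub ihp).sub
        (key p _ ((deg_eval x ha hs q).2.sub (deg_eval x ha hs p).2))
    | rdiv p q ihp ihq =>
      have := key (LoopPoly.rdiv p q) _ (deg_eval x ha hs q).2
      have h2 : (fun ε => ((LoopPoly.rdiv p q).eval (x ε)).c ⟨0, hn⟩) =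
          fun ε => ((p.eval (x ε)).c ⟨0, hn⟩ - (q.eval (x ε)).c ⟨0, hn⟩) -
            (q.eval (x ε)).s * shf ((LoopPoly.rdiv p q).eval (x ε)).a
              ((LoopPoly.rdiv p q).eval (x ε)).c ⟨0, hn⟩ := by
        funext ε
        exact rdiv_c _ _ _
      rw [h2]
      exact (ihp.sub ihq).sub this
  | succ n ih =>
    intro hn p
    have key : ∀ (p : LoopPoly (Car k m) V) (g : (σ → ZMod 2) → ZMod 2), Deg 1 g →
        Deg (k + 2 + (n + 1)) (fun ε => g ε *
          shf (p.eval (x ε)).a (p.eval (x ε)).c (⟨n + 1, hn⟩ : Fin m)) := by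
      intro p g hg
      simp only [shf, Nat.add_eq_zero_iff, one_ne_zero, and_false, if_false,
        Nat.add_sub_cancel]
      exact (hg.mul (ih (by omega) p)).mono (by omega)
    induction p with
    | var v => exact (hc v _).mono (by omega)
    | const q => exact Deg.const (q.c _) _
    | mul p q ihp ihq =>
      simp only [LoopPoly.eval, mul_c]
      exact (ihp.add ihq).add (key p _ (deg_eval x ha hs q).2)
    | ldiv p q ihp ihq =>
      simp only [LoopPoly.eval, ldiv_c]
      exact (ihq.sub ihp).sub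
        (key p _ ((deg_eval x ha hs q).2.sub (deg_eval x ha hs p).2))
    | rdiv p q ihp ihq =>
      have := key (LoopPoly.rdiv p q) _ (deg_eval x ha hs q).2
      have h2 : (fun ε => ((LoopPoly.rdiv p q).eval (x ε)).c ⟨n + 1, hn⟩) =
          fun ε => ((p.eval (x ε)).c ⟨n + 1, hn⟩ - (q.eval (x ε)).c ⟨n + 1, hn⟩) -
            (q.eval (x ε)).s * shf ((LoopPoly.rdiv p q).eval (x ε)).a
              ((LoopPoly.rdiv p q).eval (x ε)).c ⟨n + 1, hn⟩ := by
        funext ε
        exact rdiv_c _ _ _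
      rw [h2]
      exact (ihp.sub ihq).sub this

/-- A coordinate of bounded degree in the cube satisfies the supernilpotence identity. -/
theorem cube_identity {K : ℕ} {d : ℕ} (hd : d ≤ K) (g : (Option (Fin K) → ZMod 2) → ZMod 2)
    (hg : Deg d g)
    (h : ∀ ε : Fin K → ZMod 2, ε ≠ 1 →
      g (fun o => o.elim 0 ε) = g (fun o => o.elim 1 ε)) :
    g (fun o => o.elim 0 1) = g (fun o => o.elim 1 1) := by
  have h0 := hg.sum_eq_zero (by simp; omega)
  rw [← (Equiv.piOptionEquivProd (β := fun _ : Option (Fin K) => ZMod 2)).symm.sum_comp,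
    Fintype.sum_prod_type, Finset.sum_comm] at h0
  have h1 : ∀ ε : Fin K → ZMod 2,
      ∑ t : ZMod 2, g ((Equiv.piOptionEquivProd (β := fun _ : Option (Fin K) => ZMod 2)).symm
        (t, ε)) = g (fun o => o.elim 0 ε) + g (fun o => o.elim 1 ε) := by
    intro ε
    have : (Finset.univ : Finset (ZMod 2)) = {0, 1} := by decide
    rw [this, Finset.sum_pair (by decide)]
    congr 1 <;> congr 1 <;> funext o <;> cases o <;> rfl
  simp only [h1] at h0
  rw [Finset.sum_eq_single (1 : Fin K → ZMod 2)] at h0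
  · have two : ∀ z w : ZMod 2, z + w = 0 → z = w := by decide
    exact two _ _ h0
  · intro ε _ hε
    rw [h ε hε]
    have two : ∀ z : ZMod 2, z + z = 0 := by decide
    exact two _
  · intro hh
    exact absurd (Finset.mem_univ _) hh

theorem supernilpotent_upper (k m : ℕ) : IsSupernilpotent (Car k m) (k + 1 + m) := by
  intro n l p0 hp0 a b u v hab hyp
  obtain ⟨p, rfl⟩ := hp0.exists_eval
  -- the cube of assignments
  set x : (Option (Fin (k + 1 + m)) → ZMod 2) →
      ((Σ i : Fin (k + 1 + m), Fin (n i)) ⊕ Fin l) → Car k m :=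
    fun ε => Sum.elim (fun j => if ε (some j.1) = 0 then a j.1 j.2 else b j.1 j.2)
      (fun j => if ε none = 0 then u j else v j) with hx
  have ha : ∀ w i, Deg 1 (fun ε => (x ε w).a i) := by
    rintro (w | w) i
    · have : (fun ε => (x ε (Sum.inl w)).a i) =
          fun ε => if ε (some w.1) = 0 then (a w.1 w.2).a i else (b w.1 w.2).a i := by
        funext ε
        simp only [hx, Sum.elim_inl]
        split_ifs <;> rfl
      rw [this]
      exact Deg.ite _ _ _
    · have : (fun ε => (x ε (Sum.inr w)).a i) =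
          fun ε => if ε none = 0 then (u w).a i else (v w).a i := by
        funext ε
        simp only [hx, Sum.elim_inr]
        split_ifs <;> rfl
      rw [this]
      exact Deg.ite _ _ _
  have hs : ∀ w, Deg 1 (fun ε => (x ε w).s) := by
    rintro (w | w)
    · have : (fun ε => (x ε (Sum.inl w)).s) =
          fun ε => if ε (some w.1) = 0 then (a w.1 w.2).s else (b w.1 w.2).s := by
        funext ε
        simp only [hx, Sum.elim_inl]
        split_ifs <;> rfl
      rw [this]
      exact Deg.ite _ _ _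
    · have : (fun ε => (x ε (Sum.inr w)).s) =
          fun ε => if ε none = 0 then (u w).s else (v w).s := by
        funext ε
        simp only [hx, Sum.elim_inr]
        split_ifs <;> rfl
      rw [this]
      exact Deg.ite _ _ _
  have hc : ∀ w j, Deg 1 (fun ε => (x ε w).c j) := by
    rintro (w | w) i
    · have : (fun ε => (x ε (Sum.inl w)).c i) =
          fun ε => if ε (some w.1) = 0 then (a w.1 w.2).c i else (b w.1 w.2).c i := by
        funext ε
        simp only [hx, Sum.elim_inl]
        split_ifs <;> rfl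
      rw [this]
      exact Deg.ite _ _ _
    · have : (fun ε => (x ε (Sum.inr w)).c i) =
          fun ε => if ε none = 0 then (u w).c i else (v w).c i := by
        funext ε
        simp only [hx, Sum.elim_inr]
        split_ifs <;> rfl
      rw [this]
      exact Deg.ite _ _ _
  set pick : (Fin (k + 1 + m) → ZMod 2) → ∀ i, Fin (n i) → Car k m :=
    fun ε i t => if ε i = 0 then a i t else b i t with hpick
  have hx0 : ∀ ε : Fin (k + 1 + m) → ZMod 2, x (fun o => o.elim 0 ε) =
      Sum.elim (fun j => pick ε j.1 j.2) u := by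
    intro ε
    funext w
    rcases w with w | w
    · by_cases h : ε w.1 = 0 <;> simp [hx, hpick, h]
    · simp [hx]
  have hx1 : ∀ ε : Fin (k + 1 + m) → ZMod 2, x (fun o => o.elim 1 ε) =
      Sum.elim (fun j => pick ε j.1 j.2) v := by
    intro ε
    funext w
    rcases w with w | w
    · by_cases h : ε w.1 = 0 <;> simp [hx, hpick, h]
    · simp [hx]
  have h01 : ∀ z : ZMod 2, z ≠ 0 → z = 1 := by decide
  have hfun : ∀ ε : Fin (k + 1 + m) → ZMod 2, ε ≠ 1 →
      p.eval (x (fun o => o.elim 0 ε)) = p.eval (x (fun o => o.elim 1 ε)) := by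
    intro ε hε
    rw [hx0, hx1]
    refine hyp (pick ε) (fun i => ?_) (fun hb => hε ?_)
    · by_cases h : ε i = 0
      · left; simp [hpick, h]
      · right; simp [hpick, h]
    · funext i
      by_contra hi
      have h0 : ε i = 0 := by
        by_contra h0
        exact hi (h01 _ h0)
      have := congrFun hb i
      simp only [hpick, h0, if_true] at this
      exact hab i this
  have hb0 : x (fun o => o.elim 0 1) = Sum.elim (fun j => b j.1 j.2) u := by
    rw [hx0]; simp [hpick]
  have hb1 : x (fun o => o.elim 1 1) = Sum.elim (fun j => b j.1 j.2) v := by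
    rw [hx1]; simp [hpick]
  rw [← hb0, ← hb1]
  have hA := deg_eval x ha hs p
  have hC := deg_eval_c x ha hs hc
  ext i
  · exact cube_identity (by omega) (fun ε => (p.eval (x ε)).a i) (hA.1 i)
      (fun ε hε => by simp only [hfun ε hε])
  · exact cube_identity (by omega) (fun ε => (p.eval (x ε)).s) hA.2
      (fun ε hε => by simp only [hfun ε hε])
  · exact cube_identity (by omega) (fun ε => (p.eval (x ε)).c i) (hC i.1 i.2 p)
      (fun ε hε => by simp only [hfun ε hε])

/-! ### Lower bound for the supernilpotence class -/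

section lower

variable {k m : ℕ}

/-- The test elements: unit vectors `(e_i, 0, 0)` for `i ≤ k`, and `(0, 1, 0)` for `i > k`
(scaled by `e`). -/
def tst (k m : ℕ) (i : ℕ) (e : ZMod 2) : Car k m :=
  if i < k + 1 then ⟨fun j => if (j : ℕ) = i then e else 0, 0, 0⟩ else ⟨0, e, 0⟩

theorem tst_zero (i : ℕ) : tst k m i 0 = 1 := by
  unfold tst
  split_ifs
  · ext j <;> simp
  · rfl

theorem tst_one_ne (i : ℕ) : (1 : Car k m) ≠ tst k m i 1 := by
  unfold tst
  split_ifs with h
  · intro h1
    have := congrArg (fun z => Car.a z ⟨i, h⟩) h1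
    simp at this
  · intro h1
    have := congrArg Car.s h1
    simp at this

/-- The product `t 0 * t 1 * ... * t (i-1)`. -/
def prodPoly {Q V : Type*} [Loop Q] (t : ℕ → LoopPoly Q V) : ℕ → LoopPoly Q V
  | 0 => LoopPoly.const 1
  | i + 1 => LoopPoly.mul (prodPoly t i) (t i)

/-- The commutator of two polynomials. -/
def comm {Q V : Type*} [Loop Q] (p q : LoopPoly Q V) : LoopPoly Q V :=
  LoopPoly.ldiv (LoopPoly.mul q p) (LoopPoly.mul p q)

/-- The iterated commutator `[[t 0 * ... * t k, t (k+1)], t (k+2)], ...`. -/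
def commPoly {Q V : Type*} [Loop Q] (k : ℕ) (t : ℕ → LoopPoly Q V) : ℕ → LoopPoly Q V
  | 0 => prodPoly t (k + 1)
  | j + 1 => comm (commPoly k t j) (t (k + 1 + j))

theorem comm_first (a : Fin (k + 1) → ZMod 2) (t : ZMod 2) :
    Loop.ldiv ((⟨0, t, 0⟩ : Car k m) * ⟨a, 0, 0⟩) ((⟨a, 0, 0⟩ : Car k m) * ⟨0, t, 0⟩) =
      ⟨0, 0, fun i => if (i : ℕ) = 0 then (∏ j, a j) * t else 0⟩ := by
  ext j
  · simp
  · simp
  · simp only [ldiv_c, mul_c, mul_s, shf]
    split_ifs <;> simp [mul_comm]

theorem comm_next (c : Fin m → ZMod 2) (t : ZMod 2) :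
    Loop.ldiv ((⟨0, t, 0⟩ : Car k m) * ⟨0, 0, c⟩) ((⟨0, 0, c⟩ : Car k m) * ⟨0, t, 0⟩) =
      ⟨0, 0, fun i => if (i : ℕ) = 0 then 0 else c ⟨i - 1, by omega⟩ * t⟩ := by
  ext j
  · simp
  · simp
  · simp only [ldiv_c, mul_c, mul_s, shf]
    split_ifs <;> simp [mul_comm]

theorem eval_prodPoly {V : Type*} (x : V → Car k m) (t : ℕ → LoopPoly (Car k m) V)
    (ε : ℕ → ZMod 2) (ht : ∀ i, (t i).eval x = tst k m i (ε i)) (i : ℕ) (hi : i ≤ k + 1) :
    (prodPoly t i).eval x = ⟨fun j => if (j : ℕ) < i then ε j else 0, 0, 0⟩ := by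
  induction i with
  | zero => ext j <;> simp [prodPoly, LoopPoly.eval]
  | succ i ih =>
    have h1 : i < k + 1 := by omega
    simp only [prodPoly, LoopPoly.eval, ih (by omega), ht, tst, if_pos h1]
    ext j
    · simp only [mul_a, Pi.add_apply]
      by_cases h2 : (j : ℕ) = i
      · simp [h2]
      · by_cases h3 : (j : ℕ) < i
        · simp [h2, h3, Nat.lt_succ_of_lt h3]
        · have : ¬ (j : ℕ) < i + 1 := by omega
          simp [h2, h3, this]
    · simp
    · simp [mul_c]

theorem eval_commPoly {V : Type*} (x : V → Car k m) (t : ℕ → LoopPoly (Car k m) V)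
    (ε : ℕ → ZMod 2) (ht : ∀ i, (t i).eval x = tst k m i (ε i)) (j : ℕ) :
    (commPoly k t (j + 1)).eval x =
      ⟨0, 0, fun i => if (i : ℕ) = j then ∏ l ∈ Finset.range (k + 1 + j + 1), ε l else 0⟩ := by
  induction j with
  | zero =>
    have h0 : ∀ i, ¬ (k + 1 + i < k + 1) := by intro i; omega
    simp only [commPoly, comm, LoopPoly.eval, eval_prodPoly x t ε ht (k + 1) le_rfl, ht, tst,
      if_neg (h0 0)]
    rw [comm_first]
    ext i
    · rfl
    · rfl
    · have : ∏ j : Fin (k + 1), (if (j : ℕ) < k + 1 then ε j else 0) =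
          ∏ l ∈ Finset.range (k + 1), ε l := by
        rw [Finset.prod_range]
        exact Finset.prod_congr rfl fun j _ => by simp [j.2]
      simp only [this, Nat.add_zero]
      rw [Finset.prod_range_succ _ (k + 1)]
  | succ j ih =>
    have h0 : ¬ (k + 1 + (j + 1) < k + 1) := by omega
    rw [commPoly, comm]
    simp only [LoopPoly.eval, ih, ht, tst, if_neg h0]
    rw [comm_next]
    ext i
    · rfl
    · rfl
    · rw [Finset.prod_range_succ _ (k + 1 + (j + 1))]
      by_cases h1 : (i : ℕ) = 0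
      · have : ¬ (i : ℕ) = j + 1 := by omega
        simp [h1]
      · by_cases h2 : (i : ℕ) = j + 1
        · have h3 : (i : ℕ) - 1 = j := by omega
          have h4 : k + 1 + (j + 1) = k + 1 + j + 1 := by omega
          simp [h2, h4]
        · have h3 : ¬ (i : ℕ) - 1 = j := by omega
          simp [h1, h2, h3]

theorem not_supernilpotent (hm : 1 ≤ m) (J : ℕ) (hJ : J < k + 1 + m) :
    ¬ IsSupernilpotent (Car k m) J := by
  intro hsn
  obtain ⟨m', rfl⟩ : ∃ m', m = m' + 1 := ⟨m - 1, by omega⟩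
  set m := m' + 1 with hmdef
  let V := (Σ i : Fin J, Fin ((fun _ => 1 : Fin J → ℕ) i)) ⊕ Fin 1
  let t : ℕ → LoopPoly (Car k m) V := fun i =>
    if h : i < J then LoopPoly.var (Sum.inl ⟨⟨i, h⟩, 0⟩)
    else if i = J then LoopPoly.var (Sum.inr 0)
    else LoopPoly.const (tst k m i 1)
  have hval : ∀ (x : ∀ i : Fin J, Fin ((fun _ => 1 : Fin J → ℕ) i) → Car k m)
      (w : Fin 1 → Car k m) (ε : ℕ → ZMod 2)
      (_ : ∀ i : Fin J, x i = fun _ => tst k m i (ε i)) (_ : w = fun _ => tst k m J (ε J))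
      (_ : ∀ i, J < i → ε i = 1),
      (commPoly k t (m' + 1)).eval (Sum.elim (fun j => x j.1 j.2) w : V → Car k m) =
      ⟨0, 0, fun i => if (i : ℕ) = m' then ∏ l ∈ Finset.range (k + 1 + m), ε l else 0⟩ := by
    intro x w ε h1 h2 h3
    refine eval_commPoly _ t ε (fun i => ?_) m'
    by_cases hi : i < J
    · simp [t, hi, LoopPoly.eval, h1]
    · by_cases hi2 : i = J
      · simp [t, hi2, LoopPoly.eval, h2]
      · simp [t, hi, hi2, LoopPoly.eval, h3 i (by omega)]
  have hne : ∀ i : ℕ, (1 : Car k m) ≠ tst k m i 1 := tst_one_ne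
  have h := hsn (fun _ => 1) 1 (fun x => (commPoly k t (m' + 1)).eval x)
    (LoopPoly.isPolynomial _) (fun _ _ => 1) (fun i _ => tst k m i 1)
    (fun _ => 1) (fun _ => tst k m J 1)
    (fun i hi => hne i (congrFun hi 0)) ?_
  · rw [hval (fun i _ => tst k m i 1) (fun _ => 1) (fun i => if i = J then 0 else 1)
        (fun i => by
          have : (i : ℕ) ≠ J := by omega
          simp [this])
        (by simp [tst_zero])
        (fun i hi => by
          have : i ≠ J := by omega
          simp [this]),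
      hval (fun i _ => tst k m i 1) (fun _ => tst k m J 1) (fun i => 1)
        (fun i => rfl) rfl (fun i hi => rfl)] at h
    have h' := congrArg (fun z => Car.c z ⟨m', by omega⟩) h
    simp only [if_true] at h'
    rw [Finset.prod_eq_zero (i := J) (Finset.mem_range.2 hJ) (by simp)] at h'
    simp at h'
  · intro x hx hxb
    obtain ⟨i₀, hi₀⟩ : ∃ i, x i ≠ fun _ => tst k m i 1 := by
      by_contra hcon
      push Not at hcon
      exact hxb (funext hcon)
    have hi₁ : x i₀ = fun _ => 1 := by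
      rcases hx i₀ with h | h
      · exact h
      · exact absurd h hi₀
    classical
    have hxx : ∀ (e : ZMod 2) (i : Fin J), x i = fun _ => tst k m i
        ((fun l : ℕ => if h : l < J then (if x ⟨l, h⟩ = (fun _ => 1) then 0 else 1)
          else if l = J then e else 1 : ℕ → ZMod 2) i) := by
      intro e i
      simp only [i.2, dif_pos, Fin.eta]
      split_ifs with h
      · rw [h]; simp [tst_zero]
      · rcases hx i with h' | h'
        · exact absurd h' h
        · exact h'
    rw [hval x (fun _ => 1) (fun l : ℕ => if h : l < J then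
          (if x ⟨l, h⟩ = (fun _ => 1) then 0 else 1) else if l = J then 0 else 1)
        (hxx 0) (by simp [tst_zero]) (fun i hi => by
          have h1 : ¬ i < J := by omega
          have h2 : i ≠ J := by omega
          simp [h1, h2]),
      hval x (fun _ => tst k m J 1) (fun l : ℕ => if h : l < J then
          (if x ⟨l, h⟩ = (fun _ => 1) then 0 else 1) else if l = J then 1 else 1)
        (hxx 1) (by simp) (fun i hi => by
          have h1 : ¬ i < J := by omega
          simp [h1])]
    have hz : ∀ e : ZMod 2, ∏ l ∈ Finset.range (k + 1 + m), (if h : l < J then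
          (if x ⟨l, h⟩ = (fun _ => 1) then 0 else 1) else if l = J then e else 1) = 0 := by
      intro e
      refine Finset.prod_eq_zero (i := (i₀ : ℕ)) (Finset.mem_range.2 (by omega)) ?_
      simp [i₀.2, hi₁]
    rw [hz 0, hz 1]

theorem clsn_eq (hm : 1 ≤ m) : clsn (Car k m) = ((k + 1 + m : ℕ) : ℕ∞) := by
  apply le_antisymm
  · exact iInf₂_le (k + 1 + m) ⟨by omega, supernilpotent_upper k m⟩
  · refine le_iInf₂ fun J hJ => ?_
    by_contra hcon
    have : J < k + 1 + m := by
      have := not_le.1 hcon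
      exact_mod_cast this
    exact not_supernilpotent hm J this hJ.2

end lower

/-! ### The central nilpotence class -/

section central

variable {k m : ℕ}

/-- Equality of `a`, `s` and the coordinates `c_j`, `j < m - i`. -/
def Eqv (i : ℕ) (x y : Car k m) : Prop :=
  x.a = y.a ∧ x.s = y.s ∧ ∀ j : Fin m, (j : ℕ) < m - i → x.c j = y.c j

theorem Eqv.symm {i : ℕ} {x y : Car k m} (h : Eqv i x y) : Eqv i y x :=
  ⟨h.1.symm, h.2.1.symm, fun j hj => (h.2.2 j hj).symm⟩

theorem Eqv.trans {i : ℕ} {x y z : Car k m} (h : Eqv i x y) (h' : Eqv i y z) : Eqv i x z :=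
  ⟨h.1.trans h'.1, h.2.1.trans h'.2.1, fun j hj => (h.2.2 j hj).trans (h'.2.2 j hj)⟩

theorem Eqv.refl (i : ℕ) (x : Car k m) : Eqv i x x := ⟨rfl, rfl, fun _ _ => rfl⟩

theorem Eqv.shf {i : ℕ} {x y : Car k m} (h : Eqv i x y) (j : Fin m) (hj : (j : ℕ) < m - i) :
    shf x.a x.c j = shf y.a y.c j := by
  unfold ClassSpectrum.shf
  split_ifs with h0
  · rw [h.1]
  · exact h.2.2 _ (by simp only; omega)

theorem Eqv.mul {i : ℕ} {x x' y y' : Car k m} (h : Eqv i x x') (h' : Eqv i y y') :
    Eqv i (x * y) (x' * y') := by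
  refine ⟨by simp [h.1, h'.1], by simp [h.2.1, h'.2.1], fun j hj => ?_⟩
  simp only [mul_c]
  rw [h.2.2 j hj, h'.2.2 j hj, h'.2.1, h.shf j hj]

theorem Eqv.ldiv {i : ℕ} {x x' y y' : Car k m} (h : Eqv i x x') (h' : Eqv i y y') :
    Eqv i (Loop.ldiv x y) (Loop.ldiv x' y') := by
  refine ⟨by simp [h.1, h'.1], by simp [h.2.1, h'.2.1], fun j hj => ?_⟩
  simp only [ldiv_c]
  rw [h.2.2 j hj, h'.2.2 j hj, h'.2.1, h.2.1, h.shf j hj]

theorem Eqv.rdiv {i : ℕ} {x x' y y' : Car k m} (h : Eqv i x x') (h' : Eqv i y y') :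
    Eqv i (Loop.rdiv x y) (Loop.rdiv x' y') := by
  refine ⟨by simp [h.1, h'.1], by simp [h.2.1, h'.2.1], ?_⟩
  have key : ∀ (n : ℕ) (hn : n < m), n < m - i →
      (Loop.rdiv x y).c ⟨n, hn⟩ = (Loop.rdiv x' y').c ⟨n, hn⟩ := by
    intro n
    induction n with
    | zero =>
      intro hn hn'
      rw [rdiv_c, rdiv_c, h.2.2 _ hn', h'.2.2 _ hn', h'.2.1]
      simp [ClassSpectrum.shf, h.1, h'.1]
    | succ n ih =>
      intro hn hn'
      rw [rdiv_c, rdiv_c, h.2.2 _ hn', h'.2.2 _ hn', h'.2.1]
      have := ih (by omega) (by omega)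
      simp only [ClassSpectrum.shf, Nat.add_eq_zero_iff, one_ne_zero, and_false, if_false,
        Nat.add_sub_cancel, this]
  intro j hj
  exact key j.1 j.2 hj

/-- The terms of the central series. -/
def ser (k m : ℕ) (i : ℕ) : Set (Car k m) := if i ≤ m then {x | Eqv i x 1} else Set.univ

theorem ser_of_le {i : ℕ} (h : i ≤ m) : ser k m i = {x | Eqv i x 1} := if_pos h

theorem Eqv.mlt {i : ℕ} (φ : Equiv.Perm (Car k m)) (hφ : φ ∈ Mlt (Car k m)) :
    (∀ x y, Eqv i x y → Eqv i (φ x) (φ y)) ∧ (∀ x y, Eqv i x y → Eqv i (φ⁻¹ x) (φ⁻¹ y)) := by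
  induction hφ using Subgroup.closure_induction with
  | mem φ h =>
    rcases h with ⟨a, rfl⟩ | ⟨a, rfl⟩
    · exact ⟨fun x y h => (Eqv.refl i a).mul h, fun x y h => (Eqv.refl i a).ldiv h⟩
    · exact ⟨fun x y h => h.mul (Eqv.refl i a), fun x y h => h.rdiv (Eqv.refl i a)⟩
  | one => exact ⟨fun x y h => h, fun x y h => h⟩
  | mul φ ψ _ _ h1 h2 =>
    refine ⟨fun x y h => h1.1 _ _ (h2.1 _ _ h), fun x y h => ?_⟩
    rw [mul_inv_rev]
    exact h2.2 _ _ (h1.2 _ _ h)
  | inv φ _ h => exact ⟨h.2, by rw [inv_inv]; exact h.1⟩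

theorem normal_ser (i : ℕ) : IsNormalSubloop (ser k m i) := by
  unfold ser
  split_ifs with hi
  · have hd : Loop.ldiv (1 : Car k m) 1 = 1 := by
      have := Loop.ldiv_mul (1 : Car k m) 1
      rwa [Loop.one_mul'] at this
    have hr : Loop.rdiv (1 : Car k m) 1 = 1 := by
      have := Loop.mul_rdiv (1 : Car k m) 1
      rwa [Loop.one_mul'] at this
    refine ⟨Eqv.refl _ _, fun a ha b hb => ?_, fun a ha b hb => ?_, fun a ha b hb => ?_,
      fun φ hφ h1 a ha => ?_⟩
    · have := Eqv.mul ha hb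
      rwa [Loop.one_mul'] at this
    · have := Eqv.ldiv ha hb
      rwa [hd] at this
    · have := Eqv.rdiv ha hb
      rwa [hr] at this
    · have := (Eqv.mlt (i := i) φ hφ).1 _ _ ha
      rwa [h1] at this
  · exact ⟨trivial, fun _ _ _ _ => trivial, fun _ _ _ _ => trivial, fun _ _ _ _ => trivial,
      fun _ _ _ _ _ => trivial⟩

theorem coset_subset {i : ℕ} (hi : i ≤ m) {u v : Car k m} (h : Eqv i u v) :
    coset (ser k m i) u ⊆ coset (ser k m i) v := by
  rintro w ⟨n, hn, rfl⟩
  refine ⟨Loop.ldiv v (u * n), ?_, (Loop.mul_ldiv _ _).symm⟩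
  rw [ser_of_le hi] at hn ⊢
  have h1 : Eqv i (u * n) (v * 1) := h.mul hn
  have := (Eqv.refl i v).ldiv h1
  rwa [Loop.ldiv_mul] at this

theorem coset_eq {i : ℕ} (hi : i ≤ m) {u v : Car k m} (h : Eqv i u v) :
    coset (ser k m i) u = coset (ser k m i) v :=
  Set.Subset.antisymm (coset_subset hi h) (coset_subset hi h.symm)

theorem hasCentralSeries : HasCentralSeries (Car k m) (m + 1) := by
  refine ⟨ser k m, fun i _ => normal_ser i, ?_, ?_, fun i hi => ⟨?_, ?_⟩⟩
  · rw [ser_of_le (Nat.zero_le _)]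
    ext x
    change Eqv 0 x 1 ↔ x = 1
    constructor
    · intro h
      exact Car.ext h.1 h.2.1 (funext fun j => h.2.2 j (by omega))
    · rintro rfl
      exact Eqv.refl _ _
  · unfold ser
    rw [if_neg (by omega)]
  · unfold ser
    rw [if_pos (by omega : i ≤ m)]
    split_ifs
    · exact fun x hx => ⟨hx.1, hx.2.1, fun j hj => hx.2.2 j (by omega)⟩
    · exact Set.subset_univ _
  · intro z hz x y
    have him : i ≤ m := by omega
    rcases Nat.lt_or_ge i m with h | h
    · rw [ser_of_le (by omega : i + 1 ≤ m)] at hz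
      obtain ⟨za, zs, zc⟩ := hz
      have za : z.a = 0 := za
      have zs : z.s = 0 := zs
      have zc : ∀ j : Fin m, (j : ℕ) < m - (i + 1) → z.c j = 0 := zc
      have hshf : ∀ w : Car k m, ∀ c : Fin m → ZMod 2, (∀ j, c j = w.c j + z.c j) →
          ∀ j : Fin m, (j : ℕ) < m - i → shf w.a c j = shf w.a w.c j := by
        intro w c hc j hj
        unfold shf
        split_ifs with h0
        · rfl
        · rw [hc, zc _ (by simp only; omega), add_zero]
      have hshf0 : ∀ j : Fin m, (j : ℕ) < m - i → shf z.a z.c j = 0 := by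
        intro j hj
        unfold shf
        split_ifs with h0
        · simp [za]
        · exact zc _ (by simp only; omega)
      -- comparison of products with the vector sum
      have hzw : ∀ w : Car k m, Eqv i (z * w) ⟨w.a, w.s, w.c + z.c⟩ := by
        intro w
        refine ⟨by simp [za], by simp [zs], fun j hj => ?_⟩
        simp only [mul_c, hshf0 j hj, Pi.add_apply]
        ring
      have hwz : ∀ w : Car k m, Eqv i (w * z) ⟨w.a, w.s, w.c + z.c⟩ := by
        intro w
        refine ⟨by simp [za], by simp [zs], fun j hj => ?_⟩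
        simp only [mul_c, zs, Pi.add_apply]
        ring
      have hl : ∀ w w' : Car k m, Eqv i ((⟨w.a, w.s, w.c + z.c⟩ : Car k m) * w')
          ⟨(w * w').a, (w * w').s, (w * w').c + z.c⟩ := by
        intro w w'
        refine ⟨by simp, by simp, fun j hj => ?_⟩
        simp only [mul_c, Pi.add_apply]
        rw [hshf w (w.c + z.c) (fun j => rfl) j hj]
        ring
      have hr : ∀ w w' : Car k m, Eqv i (w * (⟨w'.a, w'.s, w'.c + z.c⟩ : Car k m))
          ⟨(w * w').a, (w * w').s, (w * w').c + z.c⟩ := by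
        intro w w'
        refine ⟨by simp, by simp, fun j hj => ?_⟩
        simp only [mul_c, Pi.add_apply]
        ring
      refine ⟨coset_eq him ((hzw x).trans (hwz x).symm), coset_eq him ?_, coset_eq him ?_,
        coset_eq him ?_⟩
      · exact (hzw _).trans (((hzw x).mul (Eqv.refl i y)).trans (hl x y)).symm
      · exact (((Eqv.refl i x).mul (hzw y)).trans (hr x y)).trans
          (((hwz x).mul (Eqv.refl i y)).trans (hl x y)).symm
      · exact (((Eqv.refl i x).mul (hwz y)).trans (hr x y)).trans (hwz _).symm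
    · have hj : ∀ j : Fin m, ¬ (j : ℕ) < m - i := by intro j; omega
      refine ⟨coset_eq him ⟨?_, ?_, fun j hj' => absurd hj' (hj j)⟩,
        coset_eq him ⟨?_, ?_, fun j hj' => absurd hj' (hj j)⟩,
        coset_eq him ⟨?_, ?_, fun j hj' => absurd hj' (hj j)⟩,
        coset_eq him ⟨?_, ?_, fun j hj' => absurd hj' (hj j)⟩⟩ <;>
      simp only [mul_a, mul_s] <;> abel

theorem ldiv_mem_of_central {Q : Type*} [Loop Q] {N : Set Q} (hN : IsNormalSubloop N) {a : Q}
    (ha : CentralModulo N a) (x : Q) : Loop.ldiv (x * a) (a * x) ∈ N := by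
  have h := (ha x 1).1
  have h1 : a * x ∈ coset N (a * x) := ⟨1, hN.one_mem, (Loop.mul_one' _).symm⟩
  rw [h] at h1
  obtain ⟨n, hn, hn'⟩ := h1
  rw [hn', Loop.ldiv_mul]
  exact hn

theorem central_lower (hm : 1 ≤ m) (l : ℕ) (h : HasCentralSeries (Car k m) l) : m + 1 ≤ l := by
  obtain ⟨N, hN, hN0, hNl, hstep⟩ := h
  by_contra hcon
  have hl : l ≤ m := by omega
  have hl0 : l ≠ 0 := by
    rintro rfl
    have h1 : (⟨0, 1, 0⟩ : Car k m) ∈ N 0 := by rw [hNl]; trivial
    rw [hN0] at h1
    have := congrArg Car.s (Set.mem_singleton_iff.1 h1)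
    simp at this
  have key : ∀ j : ℕ, j + 1 ≤ l →
      (⟨0, 0, fun i => if (i : ℕ) = j then 1 else 0⟩ : Car k m) ∈ N (l - 1 - j) := by
    intro j
    induction j with
    | zero =>
      intro hj
      have h1 := (hstep (l - 1) (by omega)).2 (⟨1, 0, 0⟩ : Car k m) (by
        rw [show l - 1 + 1 = l by omega, hNl]; trivial)
      have h2 := ldiv_mem_of_central (hN _ (by omega)) h1 ⟨0, 1, 0⟩
      rw [comm_first] at h2
      simpa using h2
    | succ j ih =>
      intro hj
      have h1 := (hstep (l - 1 - (j + 1)) (by omega)).2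
        (⟨0, 0, fun i => if (i : ℕ) = j then 1 else 0⟩ : Car k m) (by
          rw [show l - 1 - (j + 1) + 1 = l - 1 - j by omega]
          exact ih (by omega))
      have h2 := ldiv_mem_of_central (hN _ (by omega)) h1 ⟨0, 1, 0⟩
      rw [comm_next] at h2
      have h3 : (fun i : Fin m => if (i : ℕ) = 0 then (0 : ZMod 2) else
          (if ((⟨i - 1, by omega⟩ : Fin m) : ℕ) = j then 1 else 0) * 1) =
          fun i : Fin m => if (i : ℕ) = j + 1 then 1 else 0 := by
        funext i
        by_cases h0 : (i : ℕ) = 0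
        · simp [h0]
        · have : ((i : ℕ) - 1 = j) ↔ ((i : ℕ) = j + 1) := by omega
          simp [h0, this]
      rw [h3] at h2
      exact h2
  have h1 := key (l - 1) (by omega)
  rw [show l - 1 - (l - 1) = 0 by omega, hN0] at h1
  have := congrArg (fun z => Car.c z ⟨l - 1, by omega⟩) (Set.mem_singleton_iff.1 h1)
  simp at this

theorem clcn_eq (hm : 1 ≤ m) : clcn (Car k m) = ((m + 1 : ℕ) : ℕ∞) := by
  apply le_antisymm
  · exact iInf₂_le (m + 1) hasCentralSeries
  · refine le_iInf₂ fun l hl => ?_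
    exact_mod_cast central_lower hm l hl

end central

/-- For all `2 ≤ n ≤ K` there is a finite loop of central nilpotence class exactly `n` and
supernilpotence class exactly `K`. In particular no function `f` satisfies
`clsn Q ≤ f (clcn Q)` for all supernilpotent loops `Q`. -/
theorem result_proof (n K : ℕ) (hn : 2 ≤ n) (hK : n ≤ K) :
    ∃ (Q : Type) (_ : Loop Q), Finite Q ∧ clcn Q = (n : ℕ∞) ∧ clsn Q = (K : ℕ∞) := by
  refine ⟨Car (K - n) (n - 1), inferInstance, inferInstance, ?_, ?_⟩
  · rw [clcn_eq (by omega), show n - 1 + 1 = n by omega]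
  · rw [clsn_eq (by omega), show K - n + 1 + (n - 1) = K by omega]

end Pool.Agent.Results.MP_543b9c_al.ClassSpectrum
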