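import Mathlib

/-!
# PAC learnability passes to the closed convex hull of a totally bounded family

Setting: `X` is a measurable space, a function class is a set `F` of measurable maps from `X` to the
unit interval, a family of probability measures is a set `Ps` of elements of `ProbabilityMeasure X`.
If `Ps` is totally bounded for the metric `rho` and `F` is PAC learnable with respect to `Ps`, then
`F` is PAC learnable with respect to the closure of `Ps`, to its convex hull, and to its closed
convex hull.

Idea. (a) For a fixed sample size the failure probability is continuous in `rho`.
(b) Let `Q` be a mixture, grouped along a finite net `P j` of `Ps` as an approximate sum of parts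
`S j` with `S j` below `c j * P j`.  If `Q` is known, weight each block of samples by the density of
the product of `S j` with respect to the product of `Q`; by the law of large numbers the weighted
majority of the block hypotheses is close to the target in the metric of `P j`, so any member of `F`
which is close to weighted majorities for all relevant `j` is close to the target.  If `Q` is not
known, it is first estimated, up to a small error in `rho`, from fresh samples, by a finite number
of test sets; this uses that the convex hull is totally bounded.
-/

set_option autoImplicit false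
set_option linter.unusedSectionVars false

namespace Pool.Agent.Results.MP_ab635e_lc.ClosedHull

open MeasureTheory Set Filter
open scoped ENNReal NNReal Topology unitInterval

universe u
variable {X : Type u} [MeasurableSpace X]

/-- The metric `rho(P,Q) = sup |P(A) - Q(A)|`, the supremum over all measurable sets `A`. -/
noncomputable def rho (P Q : ProbabilityMeasure X) : ℝ :=
  ⨆ A : {A : Set X // MeasurableSet A}, |(P : Measure X).real A - (Q : Measure X).real A|

/-- A family `Ps` is totally bounded: for every `ε > 0` finitely many `rho`-balls of radius `ε`
cover it. -/
def TotBdd (Ps : Set (ProbabilityMeasure X)) : Prop :=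
  ∀ ε : ℝ, 0 < ε → ∃ t : Set (ProbabilityMeasure X), t.Finite ∧ ∀ P ∈ Ps, ∃ Q ∈ t, rho P Q < ε

/-- The `rho`-closure of a family. -/
def rhoClosure (Ps : Set (ProbabilityMeasure X)) : Set (ProbabilityMeasure X) :=
  {Q | ∀ ε : ℝ, 0 < ε → ∃ P ∈ Ps, rho P Q < ε}

/-- The convex hull of a family: all finite convex combinations of its members. -/
def mix (Ps : Set (ProbabilityMeasure X)) : Set (ProbabilityMeasure X) :=
  {Q | ∃ (l : ℕ) (c : Fin l → ℝ≥0) (P : Fin l → ProbabilityMeasure X), (∀ i, P i ∈ Ps) ∧
    ∑ i, c i = 1 ∧ (Q : Measure X) = ∑ i, c i • (P i : Measure X)}

/-- `d_P(f,g)`, the integral of `|f - g|` with respect to `P`. -/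
noncomputable def dist1 (P : ProbabilityMeasure X) (f g : X → I) : ℝ :=
  ∫ x, |(f x : ℝ) - (g x : ℝ)| ∂(P : Measure X)

/-- The labelled sample `(x_i, f(x_i))` of `f` at the points `x_i`. -/
def labelled {ι : Type} (f : X → I) (x : ι → X) : ι → X × I := fun i => (x i, f (x i))

/-- `F` is PAC learnable with respect to `Ps`: there are maps `A m` from labelled samples of size
`m` to `F` such that for every `ε > 0` the supremum over `P` in `Ps` and `f` in `F` of the
`P^m`-(outer) measure of the set of samples on which the hypothesis is at `d_P`-distance more than
`ε` from `f` tends to `0`. -/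
def PACLearnable (F : Set (X → I)) (Ps : Set (ProbabilityMeasure X)) : Prop :=
  ∃ A : (m : ℕ) → (Fin m → X × I) → F, ∀ ε : ℝ, 0 < ε →
    Tendsto (fun m : ℕ => ⨆ P ∈ Ps, ⨆ f ∈ F,
      Measure.pi (fun _ : Fin m => (P : Measure X)) {x | ε < dist1 P f (A m (labelled f x))})
      atTop (𝓝 0)

end Pool.Agent.Results.MP_ab635e_lc.ClosedHull
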