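import Mathlib
import Pool.Agent.H2.SPL.ClosedHullDefs

/-!
# PAC learnability passes to the closed convex hull of a totally bounded family

Setting: `X` is a measurable space, a function class is a set `F` of measurable maps from `X` to the
unit interval, a family of probability measures is a set `Ps` of elements of `ProbabilityMeasure X`.
If `Ps` is totally bounded for the metric `rho` and `F` is PAC learnable with respect to `Ps`, then
`F` is PAC learnable with respect to the closure of `Ps`, to its convex hull, and to its closed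
convex hull.

Idea. (a) For a fixed sample size the failure probability is continuous in `rho`.
(b) Let `Q` be a mixture, grouped along a finite net `P j` of `Ps` as an approximate sum of parts
`S j` with `S j` below `c j * P j`.  If `Q` is known, weight each block of samples by the density of
the product of `S j` with respect to the product of `Q`; by the law of large numbers the weighted
majority of the block hypotheses is close to the target in the metric of `P j`, so any member of `F`
which is close to weighted majorities for all relevant `j` is close to the target.  If `Q` is not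
known, it is first estimated, up to a small error in `rho`, from fresh samples, by a finite number
of test sets; this uses that the convex hull is totally bounded.
-/

set_option autoImplicit false
set_option linter.unusedSectionVars false

namespace Pool.Agent.Results.MP_ab635e_lc.ClosedHull

open MeasureTheory Set Filter
open scoped ENNReal NNReal Topology unitInterval

universe u
variable {X : Type u} [MeasurableSpace X]

/-! ### Definitions used in the statement -/


/-! ### Product measure lemmas -/

/-- Product measures are monotone. -/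
theorem pi_mono_measure {ι : Type} [Fintype ι] {μ ν : Measure X} [IsFiniteMeasure ν]
    (h : μ ≤ ν) : Measure.pi (fun _ : ι => μ) ≤ Measure.pi (fun _ : ι => ν) := by
  have h1 : OuterMeasure.pi (fun _ : ι => μ.toOuterMeasure)
      ≤ OuterMeasure.pi (fun _ : ι => ν.toOuterMeasure) := by
    unfold OuterMeasure.pi
    rw [OuterMeasure.le_boundedBy]
    intro s
    refine (OuterMeasure.boundedBy_le s).trans ?_
    unfold piPremeasure
    exact Finset.prod_le_prod' fun i _ => h _
  rw [Measure.le_iff]
  intro s hs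
  rw [Measure.pi, toMeasure_apply _ _ hs, Measure.pi, toMeasure_apply _ _ hs]
  exact h1 s

/-- Marginals of product measures. -/
theorem pi_map_comp {ι κ : Type} [Fintype ι] [Fintype κ] (μ : Measure X)
    [IsProbabilityMeasure μ] (e : κ → ι) (he : Function.Injective e) :
    (Measure.pi (fun _ : ι => μ)).map (fun x k => x (e k)) = Measure.pi (fun _ : κ => μ) := by
  classical
  symm
  apply Measure.pi_eq
  intro s hs
  rw [Measure.map_apply (by fun_prop) (MeasurableSet.univ_pi hs)]
  cases isEmpty_or_nonempty κ with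
  | inl hκ =>
    have : ((fun (x : ι → X) (k : κ) => x (e k)) ⁻¹' (Set.univ.pi s)) = Set.univ := by
      ext x
      simp [Set.mem_pi]
    rw [this]
    simp
  | inr hκ =>
    have : ((fun (x : ι → X) (k : κ) => x (e k)) ⁻¹' (Set.univ.pi s))
        = (((Finset.univ.image e : Finset ι) : Set ι).pi (fun i => s (Function.invFun e i))) := by
      ext x
      simp only [Set.mem_preimage, Set.mem_pi, Set.mem_univ, true_implies, Finset.coe_image,
        Finset.coe_univ, Set.image_univ, Set.mem_range, forall_exists_index,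
        forall_apply_eq_imp_iff]
      constructor
      · intro h k
        rw [Function.leftInverse_invFun he k]
        exact h k
      · intro h k
        have := h k
        rwa [Function.leftInverse_invFun he k] at this
    rw [this, Measure.pi_pi_finset, Finset.prod_image (fun a _ b _ h => he h)]
    apply Finset.prod_congr rfl
    intro k _
    rw [Function.leftInverse_invFun he k]

/-- Outer-measure version for arbitrary sets. -/
theorem pi_preimage_le {ι κ : Type} [Fintype ι] [Fintype κ] (μ : Measure X)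
    [IsProbabilityMeasure μ] (e : κ → ι) (he : Function.Injective e) (B : Set (κ → X)) :
    Measure.pi (fun _ : ι => μ) {x | (fun k => x (e k)) ∈ B}
      ≤ Measure.pi (fun _ : κ => μ) B := by
  have hmeas : Measurable (fun (x : ι → X) (k : κ) => x (e k)) := by fun_prop
  rw [← pi_map_comp μ e he]
  exact Measure.le_map_apply hmeas.aemeasurable B

/-- Currying preserves product measures. -/
theorem pi_map_curry {ι κ : Type} [Fintype ι] [Fintype κ] (μ : Measure X)
    [IsProbabilityMeasure μ] :
    (Measure.pi (fun _ : ι => Measure.pi (fun _ : κ => μ))).map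
      (fun (y : ι → κ → X) (p : ι × κ) => y p.1 p.2) = Measure.pi (fun _ : ι × κ => μ) := by
  symm
  apply Measure.pi_eq
  intro s hs
  rw [Measure.map_apply (by fun_prop) (MeasurableSet.univ_pi hs)]
  have : ((fun (y : ι → κ → X) (p : ι × κ) => y p.1 p.2) ⁻¹' (Set.univ.pi s))
      = Set.univ.pi (fun i => Set.univ.pi (fun k => s (i, k))) := by
    ext y
    simp [Set.mem_pi]
  rw [this, Measure.pi_pi]
  simp_rw [Measure.pi_pi]
  rw [Fintype.prod_prod_type]

theorem pi_curry_le {ι κ : Type} [Fintype ι] [Fintype κ] (μ : Measure X)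
    [IsProbabilityMeasure μ] (B : Set (ι → κ → X)) :
    Measure.pi (fun _ : ι × κ => μ) {x | (fun i k => x (i, k)) ∈ B}
      ≤ Measure.pi (fun _ : ι => Measure.pi (fun _ : κ => μ)) B := by
  have hmeas : Measurable (fun (x : ι × κ → X) (i : ι) (k : κ) => x (i, k)) := by fun_prop
  have h : (Measure.pi (fun _ : ι × κ => μ)).map (fun (x : ι × κ → X) (i : ι) (k : κ) => x (i, k))
      = Measure.pi (fun _ : ι => Measure.pi (fun _ : κ => μ)) := by
    rw [← pi_map_curry, Measure.map_map hmeas (by fun_prop)]
    exact Measure.map_id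
  rw [← h]
  exact Measure.le_map_apply hmeas.aemeasurable B

/-- Scaling product measures. -/
theorem pi_smul_measure {ι : Type} [Fintype ι] (c : ℝ≥0) (μ : Measure X) [IsFiniteMeasure μ] :
    Measure.pi (fun _ : ι => c • μ) = (c ^ Fintype.card ι) • Measure.pi (fun _ : ι => μ) := by
  apply Measure.pi_eq
  intro s hs
  simp only [Measure.smul_apply, Measure.pi_pi]
  simp only [ENNReal.smul_def, smul_eq_mul, Finset.prod_mul_distrib, Finset.prod_const,
    Finset.card_univ, ENNReal.coe_pow]

/-- A measure below `Q` has a measurable density with values in `[0,1]`. -/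
theorem exists_density {S Q : Measure X} [IsFiniteMeasure Q] (h : S ≤ Q) :
    ∃ w : X → ℝ, Measurable w ∧ (∀ x, 0 ≤ w x) ∧ (∀ x, w x ≤ 1) ∧
      S = Q.withDensity (fun x => ENNReal.ofReal (w x)) := by
  have hS : IsFiniteMeasure S := isFiniteMeasure_of_le Q h
  refine ⟨fun x => (min (S.rnDeriv Q x) 1).toReal, ?_, ?_, ?_, ?_⟩
  · exact ((Measure.measurable_rnDeriv S Q).min measurable_const).ennreal_toReal
  · intro x; exact ENNReal.toReal_nonneg
  · intro x
    have : (min (S.rnDeriv Q x) 1) ≤ 1 := min_le_right _ _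
    exact ENNReal.toReal_le_of_le_ofReal zero_le_one (by simp)
  · have hac : S ≪ Q := Measure.absolutelyContinuous_of_le h
    conv_lhs => rw [← Measure.withDensity_rnDeriv_eq S Q hac]
    apply withDensity_congr_ae
    filter_upwards [Measure.rnDeriv_le_one_of_le h] with x hx
    have h1 : min (S.rnDeriv Q x) 1 = S.rnDeriv Q x := min_eq_left hx
    rw [h1, ENNReal.ofReal_toReal]
    exact ne_top_of_le_ne_top ENNReal.one_ne_top hx

/-- Product of measures with density. -/
theorem pi_withDensity {ι : Type} [Fintype ι] (Q : Measure X) [IsProbabilityMeasure Q]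
    (w : X → ℝ) (hw : Measurable w) (hw0 : ∀ x, 0 ≤ w x) (hw1 : ∀ x, w x ≤ 1) :
    Measure.pi (fun _ : ι => Q.withDensity (fun x => ENNReal.ofReal (w x)))
      = (Measure.pi (fun _ : ι => Q)).withDensity
          (fun x => ENNReal.ofReal (∏ i, w (x i))) := by
  have hint : Integrable w Q := by
    apply Integrable.of_bound hw.aestronglyMeasurable 1
    filter_upwards with x
    rw [Real.norm_eq_abs, abs_of_nonneg (hw0 x)]
    exact hw1 x
  have hfin : IsFiniteMeasure (Q.withDensity (fun x => ENNReal.ofReal (w x))) :=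
    isFiniteMeasure_withDensity_ofReal hint.2
  apply Measure.pi_eq
  intro s hs
  have hbox : MeasurableSet (Set.univ.pi s : Set (ι → X)) := MeasurableSet.univ_pi hs
  rw [withDensity_apply _ hbox]
  have hprod0 : ∀ x : ι → X, 0 ≤ ∏ i, w (x i) := fun x => Finset.prod_nonneg fun i _ => hw0 _
  have hprod1 : ∀ x : ι → X, ∏ i, w (x i) ≤ 1 :=
    fun x => Finset.prod_le_one (fun i _ => hw0 _) (fun i _ => hw1 _)
  have hmeasprod : Measurable (fun x : ι → X => ∏ i, w (x i)) := by fun_prop
  have hintprod : Integrable (fun x : ι → X => ∏ i, w (x i)) (Measure.pi (fun _ : ι => Q)) := by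
    apply Integrable.of_bound hmeasprod.aestronglyMeasurable 1
    filter_upwards with x
    rw [Real.norm_eq_abs, abs_of_nonneg (hprod0 x)]
    exact hprod1 x
  rw [← ofReal_integral_eq_lintegral_ofReal hintprod.integrableOn
    (Filter.Eventually.of_forall hprod0)]
  rw [← integral_indicator hbox]
  have hind : (Set.univ.pi s).indicator (fun x : ι → X => ∏ i, w (x i))
      = fun x => ∏ i, (s i).indicator w (x i) := by
    ext x
    by_cases hx : x ∈ Set.univ.pi s
    · rw [Set.indicator_of_mem hx]
      apply Finset.prod_congr rfl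
      intro i _
      rw [Set.indicator_of_mem (hx i (Set.mem_univ i))]
    · rw [Set.indicator_of_notMem hx]
      simp only [Set.mem_pi, Set.mem_univ, true_implies, not_forall] at hx
      obtain ⟨i, hi⟩ := hx
      symm
      apply Finset.prod_eq_zero (Finset.mem_univ i)
      rw [Set.indicator_of_notMem hi]
  rw [hind, integral_fintype_prod_eq_prod (fun i => (s i).indicator w)]
  rw [ENNReal.ofReal_prod_of_nonneg]
  · apply Finset.prod_congr rfl
    intro i _
    rw [withDensity_apply _ (hs i), integral_indicator (hs i),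
      ofReal_integral_eq_lintegral_ofReal hint.integrableOn (Filter.Eventually.of_forall hw0)]
  · intro i _
    apply integral_nonneg
    intro x
    exact Set.indicator_nonneg (fun x _ => hw0 x) x


/-! ### The metric rho -/

theorem abs_sub_real_le_one (P Q : ProbabilityMeasure X) (A : Set X) :
    |(P : Measure X).real A - (Q : Measure X).real A| ≤ 1 := by
  have h1 : (P : Measure X).real A ≤ 1 := measureReal_le_one
  have h2 : (Q : Measure X).real A ≤ 1 := measureReal_le_one
  have h3 : 0 ≤ (P : Measure X).real A := measureReal_nonneg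
  have h4 : 0 ≤ (Q : Measure X).real A := measureReal_nonneg
  rw [abs_le]; constructor <;> linarith

theorem rho_bdd (P Q : ProbabilityMeasure X) :
    BddAbove (Set.range fun A : {A : Set X // MeasurableSet A} =>
      |(P : Measure X).real A - (Q : Measure X).real A|) :=
  ⟨1, by rintro _ ⟨A, rfl⟩; exact abs_sub_real_le_one P Q A⟩

theorem abs_sub_le_rho (P Q : ProbabilityMeasure X) {A : Set X} (hA : MeasurableSet A) :
    |(P : Measure X).real A - (Q : Measure X).real A| ≤ rho P Q :=
  le_ciSup (rho_bdd P Q) ⟨A, hA⟩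

theorem rho_le {P Q : ProbabilityMeasure X} {c : ℝ} 
    (h : ∀ A : Set X, MeasurableSet A → |(P : Measure X).real A - (Q : Measure X).real A| ≤ c) :
    rho P Q ≤ c := by
  have : Nonempty {A : Set X // MeasurableSet A} := ⟨⟨∅, MeasurableSet.empty⟩⟩
  exact ciSup_le fun A => h A A.2

theorem rho_nonneg (P Q : ProbabilityMeasure X) : 0 ≤ rho P Q :=
  (abs_nonneg _).trans (abs_sub_le_rho P Q MeasurableSet.empty)

theorem rho_comm (P Q : ProbabilityMeasure X) : rho P Q = rho Q P := by
  unfold rho
  congr 1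
  ext A
  exact abs_sub_comm _ _

theorem rho_triangle (P Q R : ProbabilityMeasure X) : rho P R ≤ rho P Q + rho Q R := by
  apply rho_le
  intro A hA
  have h1 := abs_sub_le_rho P Q hA
  have h2 := abs_sub_le_rho Q R hA
  have h3 := abs_sub_le ((P : Measure X).real A) ((Q : Measure X).real A) ((R : Measure X).real A)
  linarith

theorem rho_self (P : ProbabilityMeasure X) : rho P P = 0 := by
  apply le_antisymm _ (rho_nonneg P P)
  apply rho_le
  intro A _
  simp

/-- Mass of the common part. -/
theorem inf_mass (P Q : ProbabilityMeasure X) :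
    ENNReal.ofReal (1 - rho P Q) ≤ ((P : Measure X) ⊓ (Q : Measure X)) Set.univ := by
  rw [Measure.inf_apply MeasurableSet.univ]
  apply le_sInf
  rintro _ ⟨t, rfl⟩
  simp only [Set.inter_univ]
  set t' := toMeasurable (P : Measure X) t with ht'
  have hm : MeasurableSet t' := measurableSet_toMeasurable _ _
  have h1 : (P : Measure X) t' = (P : Measure X) t := measure_toMeasurable t
  have h2 : (Q : Measure X) t'ᶜ ≤ (Q : Measure X) tᶜ :=
    measure_mono (Set.compl_subset_compl.2 (subset_toMeasurable _ _))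
  have h3 : |(P : Measure X).real t' - (Q : Measure X).real t'| ≤ rho P Q := abs_sub_le_rho P Q hm
  have h4 : (Q : Measure X).real t'ᶜ = 1 - (Q : Measure X).real t' := by
    rw [measureReal_compl hm]; simp
  have h5 : 1 - rho P Q ≤ (P : Measure X).real t' + (Q : Measure X).real t'ᶜ := by
    rw [h4]
    have := (abs_le.1 h3).1
    linarith
  calc ENNReal.ofReal (1 - rho P Q)
      ≤ ENNReal.ofReal ((P : Measure X).real t' + (Q : Measure X).real t'ᶜ) :=
        ENNReal.ofReal_le_ofReal h5
    _ = (P : Measure X) t' + (Q : Measure X) t'ᶜ := by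
        rw [ENNReal.ofReal_add measureReal_nonneg measureReal_nonneg]
        simp [measureReal_def]
    _ ≤ (P : Measure X) t + (Q : Measure X) tᶜ := by
        rw [h1]; gcongr

/-- Change of measure for product measures, for arbitrary sets. -/
theorem pi_le_add {ι : Type} [Fintype ι] (P Q : ProbabilityMeasure X) (B : Set (ι → X)) :
    Measure.pi (fun _ : ι => (Q : Measure X)) B
      ≤ Measure.pi (fun _ : ι => (P : Measure X)) B
        + ENNReal.ofReal (Fintype.card ι * rho P Q) := by
  set PP := Measure.pi (fun _ : ι => (P : Measure X)) with hPP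
  set QQ := Measure.pi (fun _ : ι => (Q : Measure X)) with hQQ
  set ν := (P : Measure X) ⊓ (Q : Measure X) with hν
  have hνfin : IsFiniteMeasure ν := isFiniteMeasure_of_le (P : Measure X) inf_le_left
  set NN := Measure.pi (fun _ : ι => ν) with hNN
  have hNP : NN ≤ PP := pi_mono_measure inf_le_left
  have hNQ : NN ≤ QQ := pi_mono_measure inf_le_right
  set B' := toMeasurable PP B with hB'
  have hm : MeasurableSet B' := measurableSet_toMeasurable _ _
  have h1 : PP B' = PP B := measure_toMeasurable B
  -- mass of NN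
  have hνuniv : ν.real Set.univ ≤ 1 := by
    have h0 : ν Set.univ ≤ (P : Measure X) Set.univ := (inf_le_left : ν ≤ (P : Measure X)) _
    have h01 : ν Set.univ ≤ 1 := h0.trans prob_le_one
    rw [measureReal_def]
    exact ENNReal.toReal_le_of_le_ofReal zero_le_one (by rw [ENNReal.ofReal_one]; exact h01)
  have hνuniv' : 1 - rho P Q ≤ ν.real Set.univ := by
    have := inf_mass P Q
    rw [← hν] at this
    rw [measureReal_def]
    by_cases h : 1 - rho P Q ≤ 0
    · exact h.trans ENNReal.toReal_nonneg
    · exact (ENNReal.ofReal_le_iff_le_toReal (measure_ne_top ν _)).1 this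
  have hmass : 1 - (Fintype.card ι) * rho P Q ≤ NN.real Set.univ := by
    have hN : NN.real Set.univ = (ν.real Set.univ) ^ (Fintype.card ι) := by
      rw [measureReal_def, hNN, Measure.pi_univ]
      simp [measureReal_def]
    rw [hN]
    have hb := one_add_mul_le_pow (a := ν.real Set.univ - 1) (by
      have : 0 ≤ ν.real Set.univ := measureReal_nonneg
      linarith) (Fintype.card ι)
    have h5 : 1 + (ν.real Set.univ - 1) = ν.real Set.univ := by ring
    rw [h5] at hb
    have h6 : (Fintype.card ι : ℝ) * (-(rho P Q)) ≤ (Fintype.card ι : ℝ) * (ν.real Set.univ - 1) := by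
      apply mul_le_mul_of_nonneg_left _ (Nat.cast_nonneg _)
      linarith
    linarith
  have h2 : QQ.real B' ≤ PP.real B' + Fintype.card ι * rho P Q := by
    have e1 : QQ.real B'ᶜ = 1 - QQ.real B' := by rw [measureReal_compl hm]; simp
    have e2 : NN.real B'ᶜ = NN.real Set.univ - NN.real B' := by rw [measureReal_compl hm]
    have e3 : NN.real B'ᶜ ≤ QQ.real B'ᶜ := by
      rw [measureReal_def, measureReal_def]
      exact ENNReal.toReal_mono (measure_ne_top _ _) (hNQ _)
    have e4 : NN.real B' ≤ PP.real B' := by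
      rw [measureReal_def, measureReal_def]
      exact ENNReal.toReal_mono (measure_ne_top _ _) (hNP _)
    linarith
  calc QQ B ≤ QQ B' := measure_mono (subset_toMeasurable _ _)
    _ = ENNReal.ofReal (QQ.real B') := by simp [measureReal_def]
    _ ≤ ENNReal.ofReal (PP.real B' + Fintype.card ι * rho P Q) := ENNReal.ofReal_le_ofReal h2
    _ = PP B' + ENNReal.ofReal (Fintype.card ι * rho P Q) := by
        rw [ENNReal.ofReal_add measureReal_nonneg (mul_nonneg (Nat.cast_nonneg _) (rho_nonneg _ _))]
        simp [measureReal_def]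
    _ = PP B + ENNReal.ofReal (Fintype.card ι * rho P Q) := by rw [h1]

/-- Integrals of `[0,1]`-valued functions under approximate mixtures. -/
theorem integral_mixture_le {J : Type} [Fintype J] (Q : ProbabilityMeasure X)
    (P : J → ProbabilityMeasure X) (c : J → ℝ≥0) (hc : ∑ j, c j = 1) (S : J → Measure X)
    (hS : ∀ j, S j ≤ c j • (P j : Measure X)) (δ : ℝ)
    (hmass : ∀ j, (1 - δ) * c j ≤ (S j).real Set.univ) (hsum : ∑ j, S j ≤ (Q : Measure X))
    (g : X → ℝ) (hg : Measurable g) (hg0 : ∀ x, 0 ≤ g x) (hg1 : ∀ x, g x ≤ 1) :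
    ∫ x, g x ∂(Q : Measure X) ≤ δ + ∑ j, (c j : ℝ) * ∫ x, g x ∂(P j : Measure X) := by
  have hSfin : ∀ j, IsFiniteMeasure (S j) := fun j => isFiniteMeasure_of_le _ (hS j)
  have hint : ∀ (μ : Measure X) [IsFiniteMeasure μ], Integrable g μ := by
    intro μ _
    apply Integrable.of_bound hg.aestronglyMeasurable 1
    filter_upwards with x
    rw [Real.norm_eq_abs, abs_of_nonneg (hg0 x)]
    exact hg1 x
  have hint' : ∀ (μ : Measure X) [IsFiniteMeasure μ], Integrable (fun x => 1 - g x) μ :=
    fun μ _ => (integrable_const _).sub (hint μ)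
  have h1 : ∫ x, (1 - g x) ∂(∑ j, S j) ≤ ∫ x, (1 - g x) ∂(Q : Measure X) := by
    apply integral_mono_measure hsum
    · filter_upwards with x
      simp only [Pi.zero_apply, sub_nonneg]
      exact hg1 x
    · exact hint' _
  have h2 : ∫ x, (1 - g x) ∂(∑ j, S j) = ∑ j, ∫ x, (1 - g x) ∂(S j) :=
    integral_finsetSum_measure (fun j _ => hint' (S j))
  have h3 : ∀ j, (1 - δ) * c j - (c j : ℝ) * ∫ x, g x ∂(P j : Measure X)
      ≤ ∫ x, (1 - g x) ∂(S j) := by
    intro j
    have e1 : ∫ x, (1 - g x) ∂(S j) = (S j).real Set.univ - ∫ x, g x ∂(S j) := by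
      rw [integral_sub (integrable_const _) (hint (S j))]
      simp
    have e2 : ∫ x, g x ∂(S j) ≤ (c j : ℝ) * ∫ x, g x ∂(P j : Measure X) := by
      have := integral_mono_measure (hS j) (f := g)
        (Filter.Eventually.of_forall hg0) (hint _)
      rw [integral_smul_nnreal_measure] at this
      simpa [NNReal.smul_def] using this
    rw [e1]
    have := hmass j
    linarith
  have h4 : ∫ x, (1 - g x) ∂(Q : Measure X) = 1 - ∫ x, g x ∂(Q : Measure X) := by
    rw [integral_sub (integrable_const _) (hint _)]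
    simp
  have h5 : ∑ j, ((1 - δ) * c j - (c j : ℝ) * ∫ x, g x ∂(P j : Measure X))
      ≤ ∑ j, ∫ x, (1 - g x) ∂(S j) := Finset.sum_le_sum fun j _ => h3 j
  have hc' : ∑ j, (c j : ℝ) = 1 := by exact_mod_cast hc
  rw [Finset.sum_sub_distrib, ← Finset.mul_sum, hc'] at h5
  linarith


/-! ### Concentration -/

/-- Chebyshev for averages of bounded i.i.d. variables. -/
theorem conc {Y : Type u} [MeasurableSpace Y] (μ : Measure Y) [IsProbabilityMeasure μ]
    (g : Y → ℝ) (hg : Measurable g) (hb : ∀ y, |g y| ≤ 1) (L : ℕ) (hL : 0 < L) (t : ℝ)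
    (ht : 0 < t) :
    Measure.pi (fun _ : Fin L => μ) {y | (L : ℝ) * t ≤ |∑ l, g (y l) - L * ∫ y, g y ∂μ|}
      ≤ ENNReal.ofReal (1 / (L * t ^ 2)) := by
  have hLr : (0 : ℝ) < L := by exact_mod_cast hL
  have hmem : MemLp g 2 μ := by
    apply MemLp.of_bound hg.aestronglyMeasurable 1
    filter_upwards with x
    rw [Real.norm_eq_abs]; exact hb x
  have hmemi : ∀ i : Fin L, MemLp (fun y : Fin L → Y => g (y i)) 2 (Measure.pi (fun _ : Fin L => μ)) := by
    intro i
    exact hmem.comp_measurePreserving (measurePreserving_eval _ i)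
  have hmemsum : MemLp (∑ i : Fin L, fun y : Fin L → Y => g (y i)) 2
      (Measure.pi (fun _ : Fin L => μ)) := memLp_finsetSum' _ (fun i _ => hmemi i)
  have hvar : ProbabilityTheory.variance (∑ i : Fin L, fun y : Fin L → Y => g (y i))
      (Measure.pi (fun _ : Fin L => μ)) ≤ L := by
    rw [ProbabilityTheory.variance_sum_pi (fun _ => hmem)]
    have h1 : ProbabilityTheory.variance g μ ≤ 1 := by
      have := ProbabilityTheory.variance_le_sub_mul_sub (μ := μ) (a := -1) (b := 1) (X := g)
        (Filter.Eventually.of_forall fun y => abs_le.1 (hb y)) hg.aemeasurable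
      nlinarith [sq_nonneg (∫ y, g y ∂μ)]
    calc ∑ i : Fin L, ProbabilityTheory.variance g μ ≤ ∑ i : Fin L, (1 : ℝ) :=
          Finset.sum_le_sum fun i _ => h1
      _ = L := by simp
  have hmean : ∫ y, (∑ i : Fin L, fun y : Fin L → Y => g (y i)) y
      ∂(Measure.pi (fun _ : Fin L => μ)) = L * ∫ y, g y ∂μ := by
    simp only [Finset.sum_apply]
    rw [integral_finsetSum _ (fun i _ => (hmemi i).integrable one_le_two)]
    have : ∀ i : Fin L, ∫ y : Fin L → Y, g (y i) ∂(Measure.pi (fun _ : Fin L => μ))
        = ∫ y, g y ∂μ := by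
      intro i
      exact integral_comp_eval (μ := fun _ : Fin L => μ) (i := i) hg.aestronglyMeasurable
    simp_rw [this]
    simp
  have hch := ProbabilityTheory.meas_ge_le_variance_div_sq hmemsum (c := L * t) (by positivity)
  rw [hmean] at hch
  simp only [Finset.sum_apply] at hch
  refine hch.trans (ENNReal.ofReal_le_ofReal ?_)
  rw [div_le_div_iff₀ (by positivity) (by positivity)]
  calc _ ≤ (L : ℝ) * (L * t ^ 2) := by
        apply mul_le_mul_of_nonneg_right hvar (by positivity)
    _ = 1 * (L * t) ^ 2 := by ring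

/-- Uniform version: one sample size for all measures and all bounded functions. -/
theorem exists_conc (t η : ℝ) (ht : 0 < t) (hη : 0 < η) : ∃ L : ℕ, 0 < L ∧
    ∀ {Y : Type u} [MeasurableSpace Y] (μ : Measure Y) [IsProbabilityMeasure μ]
    (g : Y → ℝ), Measurable g → (∀ y, |g y| ≤ 1) →
    Measure.pi (fun _ : Fin L => μ) {y | (L : ℝ) * t ≤ |∑ l, g (y l) - L * ∫ y, g y ∂μ|}
      ≤ ENNReal.ofReal η := by
  obtain ⟨L, hL⟩ := exists_nat_gt (1 / (η * t ^ 2))
  have hLr : (0 : ℝ) < L := lt_trans (by positivity) hL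
  have hLpos : 0 < L := by exact_mod_cast hLr
  refine ⟨L, hLpos, ?_⟩
  intro Y _ μ _ g hg hb
  refine (conc μ g hg hb L hLpos t ht).trans (ENNReal.ofReal_le_ofReal ?_)
  rw [div_lt_iff₀ (by positivity)] at hL
  rw [div_le_iff₀ (by positivity)]
  nlinarith


/-! ### Labelled samples -/

theorem measurable_absdiff {f g : X → I} (hf : Measurable f) (hg : Measurable g) :
    Measurable (fun x => |(f x : ℝ) - (g x : ℝ)|) := by
  have h1 : Measurable (fun x => (f x : ℝ)) := measurable_subtype_coe.comp hf
  have h2 : Measurable (fun x => (g x : ℝ)) := measurable_subtype_coe.comp hg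
  have h3 : Measurable (fun x => (f x : ℝ) - (g x : ℝ)) := h1.sub h2
  exact h3.abs

theorem absdiff_nonneg (f g : X → I) (x : X) : 0 ≤ |(f x : ℝ) - (g x : ℝ)| := abs_nonneg _

theorem absdiff_le_one (f g : X → I) (x : X) : |(f x : ℝ) - (g x : ℝ)| ≤ 1 := by
  have h1 := (f x).2
  have h2 := (g x).2
  rw [abs_le]
  constructor
  · linarith [h1.1, h2.2]
  · linarith [h1.2, h2.1]

theorem dist1_nonneg (P : ProbabilityMeasure X) (f g : X → I) : 0 ≤ dist1 P f g :=
  integral_nonneg fun x => absdiff_nonneg f g x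

theorem integrable_absdiff {f g : X → I} (hf : Measurable f) (hg : Measurable g)
    (μ : Measure X) [IsFiniteMeasure μ] : Integrable (fun x => |(f x : ℝ) - (g x : ℝ)|) μ := by
  apply Integrable.of_bound (measurable_absdiff hf hg).aestronglyMeasurable 1
  filter_upwards with x
  rw [Real.norm_eq_abs, abs_of_nonneg (absdiff_nonneg f g x)]
  exact absdiff_le_one f g x

theorem dist1_le_one (P : ProbabilityMeasure X) {f g : X → I} (hf : Measurable f)
    (hg : Measurable g) : dist1 P f g ≤ 1 := by
  unfold dist1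
  calc ∫ x, |(f x : ℝ) - (g x : ℝ)| ∂(P : Measure X) ≤ ∫ _, (1:ℝ) ∂(P : Measure X) :=
        integral_mono (integrable_absdiff hf hg _) (integrable_const _)
          (fun x => absdiff_le_one f g x)
    _ = 1 := by simp

theorem dist1_comm (P : ProbabilityMeasure X) (f g : X → I) : dist1 P f g = dist1 P g f := by
  unfold dist1
  congr 1
  ext x
  exact abs_sub_comm _ _

theorem dist1_triangle (P : ProbabilityMeasure X) {f g h : X → I} (hf : Measurable f)
    (hg : Measurable g) (hh : Measurable h) : dist1 P f h ≤ dist1 P f g + dist1 P g h := by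
  unfold dist1
  rw [← integral_add (integrable_absdiff hf hg _) (integrable_absdiff hg hh _)]
  exact integral_mono (integrable_absdiff hf hh _)
    ((integrable_absdiff hf hg _).add (integrable_absdiff hg hh _))
    (fun x => abs_sub_le _ _ _)

/-! ### Learning with a known mixture -/

/-- The mean of the weighted success indicator. -/
theorem mean_bound {m : ℕ} (Q P : ProbabilityMeasure X) (S : Measure X) (c : ℝ≥0) (δ : ℝ)
    (hδ : m * δ ≤ 1 / 8) (hSQ : S ≤ (Q : Measure X)) (hSP : S ≤ c • (P : Measure X))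
    (hmass : (1 - δ) * c ≤ S.real Set.univ) (hδ1 : δ ≤ 1)
    (w : X → ℝ) (hw : Measurable w) (hw0 : ∀ x, 0 ≤ w x) (hw1 : ∀ x, w x ≤ 1)
    (hSw : S = (Q : Measure X).withDensity (fun x => ENNReal.ofReal (w x)))
    (B : Set (Fin m → X)) (hB : MeasurableSet B)
    (hPB : Measure.pi (fun _ : Fin m => (P : Measure X)) B ≤ ENNReal.ofReal (1 / 8)) :
    (c : ℝ) ^ m / 4 ≤ ∫ y : Fin m → X, (∏ i, w (y i)) * (Bᶜ.indicator (fun _ => (1:ℝ)) y - 1 / 2)
      ∂(Measure.pi (fun _ : Fin m => (Q : Measure X))) := by
  set QQ := Measure.pi (fun _ : Fin m => (Q : Measure X)) with hQQ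
  set SS := Measure.pi (fun _ : Fin m => S) with hSS
  have hSfin : IsFiniteMeasure S := isFiniteMeasure_of_le _ hSQ
  have hSSdens : SS = QQ.withDensity (fun x => ENNReal.ofReal (∏ i, w (x i))) := by
    rw [hSS, hSw]
    exact pi_withDensity (Q : Measure X) w hw hw0 hw1
  have hprod0 : ∀ x : Fin m → X, 0 ≤ ∏ i, w (x i) := fun x => Finset.prod_nonneg fun i _ => hw0 _
  have hprod1 : ∀ x : Fin m → X, ∏ i, w (x i) ≤ 1 :=
    fun x => Finset.prod_le_one (fun i _ => hw0 _) (fun i _ => hw1 _)
  have hmeasprod : Measurable (fun x : Fin m → X => ∏ i, w (x i)) := by fun_prop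
  have hintprod : Integrable (fun x : Fin m → X => ∏ i, w (x i)) QQ := by
    apply Integrable.of_bound hmeasprod.aestronglyMeasurable 1
    filter_upwards with x
    rw [Real.norm_eq_abs, abs_of_nonneg (hprod0 x)]
    exact hprod1 x
  have hSSreal : ∀ A : Set (Fin m → X), MeasurableSet A →
      SS.real A = ∫ y in A, ∏ i, w (y i) ∂QQ := by
    intro A hA
    rw [measureReal_def, hSSdens, withDensity_apply _ hA,
      ← ofReal_integral_eq_lintegral_ofReal hintprod.integrableOn
        (Filter.Eventually.of_forall hprod0), ENNReal.toReal_ofReal]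
    exact integral_nonneg fun y => hprod0 y
  -- the integral
  have hI : ∫ y : Fin m → X, (∏ i, w (y i)) * (Bᶜ.indicator (fun _ => (1:ℝ)) y - 1 / 2) ∂QQ
      = SS.real Bᶜ - (1 / 2) * SS.real Set.univ := by
    rw [hSSreal _ hB.compl, hSSreal _ MeasurableSet.univ, setIntegral_univ,
      ← integral_indicator hB.compl, ← integral_const_mul, ← integral_sub]
    · congr 1
      ext y
      by_cases hy : y ∈ Bᶜ
      · rw [Set.indicator_of_mem hy, Set.indicator_of_mem hy]; ring
      · rw [Set.indicator_of_notMem hy, Set.indicator_of_notMem hy]; ring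
    · exact hintprod.indicator hB.compl
    · exact hintprod.const_mul _
  rw [hI]
  have hcompl : SS.real Bᶜ = SS.real Set.univ - SS.real B := by rw [measureReal_compl hB]
  -- mass of SS
  have hcm : 0 ≤ (c:ℝ) ^ m := by positivity
  have hmassSS : (7 / 8) * (c : ℝ) ^ m ≤ SS.real Set.univ := by
    have hN : SS.real Set.univ = (S.real Set.univ) ^ m := by
      rw [measureReal_def, hSS, Measure.pi_univ]
      simp [measureReal_def]
    rw [hN]
    have h1 : ((1 - δ) * c) ^ m ≤ (S.real Set.univ) ^ m :=
      pow_le_pow_left₀ (mul_nonneg (by linarith) c.2) hmass m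
    have hb := one_add_mul_le_pow (a := -δ) (by linarith) m
    have h2 : (7/8 : ℝ) ≤ (1 + -δ) ^ m := by linarith
    calc (7 / 8) * (c : ℝ) ^ m ≤ (1 + -δ) ^ m * (c : ℝ) ^ m :=
          mul_le_mul_of_nonneg_right h2 hcm
      _ = ((1 - δ) * c) ^ m := by rw [mul_pow]; ring
      _ ≤ _ := h1
  have hBSS : SS.real B ≤ (c : ℝ) ^ m * (1 / 8) := by
    have h1 : SS ≤ Measure.pi (fun _ : Fin m => c • (P : Measure X)) := pi_mono_measure hSP
    rw [pi_smul_measure] at h1
    have h2 : SS B ≤ (c ^ Fintype.card (Fin m)) • Measure.pi (fun _ : Fin m => (P : Measure X)) B :=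
      h1 B
    have h3 : SS B ≤ ENNReal.ofReal ((c : ℝ) ^ m * (1 / 8)) := by
      refine h2.trans ?_
      rw [ENNReal.smul_def, smul_eq_mul, Fintype.card_fin, ENNReal.ofReal_mul hcm]
      have : ENNReal.ofReal ((c:ℝ) ^ m) = ((c ^ m : ℝ≥0) : ℝ≥0∞) := by
        rw [← NNReal.coe_pow, ENNReal.ofReal_coe_nnreal]
      rw [this]
      gcongr
    rw [measureReal_def]
    exact ENNReal.toReal_le_of_le_ofReal (by positivity) h3
  rw [hcompl]
  linarith


/-- For each approximate mixture `Q` of the measures `P j`, a learner for `Q`, with a sample size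
not depending on `Q`. -/
theorem known (F : Set (X → I)) (hF : ∀ f ∈ F, Measurable f) (f0 : F) {m : ℕ}
    (A : (Fin m → X × I) → F) (ε δ : ℝ) (hε : 0 < ε) (hδ1 : δ ≤ 1)
    (hδ : m * δ ≤ 1 / 8) {J : Type} [Fintype J] (P : J → ProbabilityMeasure X)
    (hA : ∀ j, ∀ f ∈ F, Measure.pi (fun _ : Fin m => (P j : Measure X))
      {x | ε < dist1 (P j) f (A (labelled f x))} ≤ ENNReal.ofReal (1 / 8)) :
    ∃ L : ℕ, ∀ (Q : ProbabilityMeasure X) (c : J → ℝ≥0) (S : J → Measure X), ∑ j, c j = 1 →
      (∀ j, S j ≤ c j • (P j : Measure X)) → (∀ j, (1 - δ) * c j ≤ (S j).real Set.univ) →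
      ∑ j, S j ≤ (Q : Measure X) →
      ∃ A' : (Fin L × Fin m → X × I) → F, ∀ f ∈ F,
        Measure.pi (fun _ : Fin L × Fin m => (Q : Measure X))
          {x | 3 * ε + δ < dist1 Q f (A' (labelled f x))} ≤ ENNReal.ofReal ε := by
  classical
  by_cases hJ : IsEmpty J
  · refine ⟨0, ?_⟩
    intro Q c S hc
    simp at hc
  rw [not_isEmpty_iff] at hJ
  set N : ℝ := (Fintype.card J : ℝ) with hN
  have hNpos : 0 < N := by
    rw [hN]; exact_mod_cast Fintype.card_pos
  set t : ℝ := (ε / N) ^ m / 4 with ht
  have htpos : 0 < t := by positivity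
  obtain ⟨L, hL, hconc⟩ := exists_conc.{u} t (ε / N) htpos (by positivity)
  refine ⟨L, ?_⟩
  intro Q c S hc hS hmass hsum
  have hSQ : ∀ j, S j ≤ (Q : Measure X) := by
    intro j
    refine le_trans ?_ hsum
    exact Finset.single_le_sum (f := S) (fun i _ => Measure.zero_le _) (Finset.mem_univ j)
  choose w hw hw0 hw1 hwS using fun j => exists_density (hSQ j)
  -- feasibility
  set Feas : (Fin L × Fin m → X × I) → (X → I) → Prop := fun s h =>
    ∀ j, ε / N ≤ (c j : ℝ) → 0 < ∑ l : Fin L, (∏ i : Fin m, w j (s (l, i)).1) *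
      ((if dist1 (P j) h (A (fun i => s (l, i))) ≤ ε then (1 : ℝ) else 0) - 1 / 2) with hFeas
  set A' : (Fin L × Fin m → X × I) → F := fun s =>
    if h : ∃ g : F, Feas s g then h.choose else f0 with hA'
  have hA'spec : ∀ s, (∃ g : F, Feas s g) → Feas s (A' s) := by
    intro s h
    simp only [hA', dif_pos h]
    exact h.choose_spec
  refine ⟨A', ?_⟩
  intro f hf
  -- bad sets
  set B : J → Set (Fin m → X) := fun j =>
    toMeasurable (Measure.pi (fun _ : Fin m => (P j : Measure X)))
      {x | ε < dist1 (P j) f (A (labelled f x))} with hB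
  have hBm : ∀ j, MeasurableSet (B j) := fun j => measurableSet_toMeasurable _ _
  have hBP : ∀ j, Measure.pi (fun _ : Fin m => (P j : Measure X)) (B j)
      ≤ ENNReal.ofReal (1 / 8) := by
    intro j
    rw [hB]
    simp only
    rw [measure_toMeasurable]
    exact hA j f hf
  set V : J → (Fin m → X) → ℝ := fun j y =>
    (∏ i, w j (y i)) * ((B j)ᶜ.indicator (fun _ => (1:ℝ)) y - 1 / 2) with hV
  have hprod0 : ∀ j, ∀ x : Fin m → X, 0 ≤ ∏ i, w j (x i) :=
    fun j x => Finset.prod_nonneg fun i _ => hw0 j _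
  have hprod1 : ∀ j, ∀ x : Fin m → X, ∏ i, w j (x i) ≤ 1 :=
    fun j x => Finset.prod_le_one (fun i _ => hw0 j _) (fun i _ => hw1 j _)
  have hVmeas : ∀ j, Measurable (V j) := by
    intro j
    have h1 : Measurable (fun x : Fin m → X => ∏ i, w j (x i)) := by
      have := hw j
      fun_prop
    have h2 : Measurable ((B j)ᶜ.indicator (fun _ : Fin m → X => (1:ℝ))) :=
      measurable_const.indicator (hBm j).compl
    exact h1.mul (h2.sub_const _)
  have hVbound : ∀ j y, |V j y| ≤ 1 := by
    intro j y
    simp only [hV]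
    rw [abs_mul, abs_of_nonneg (hprod0 j y)]
    have h1 : |(B j)ᶜ.indicator (fun _ => (1:ℝ)) y - 1 / 2| ≤ 1 := by
      by_cases hy : y ∈ (B j)ᶜ
      · rw [Set.indicator_of_mem hy]; norm_num
      · rw [Set.indicator_of_notMem hy]; norm_num
    calc _ ≤ 1 * 1 := mul_le_mul (hprod1 j y) h1 (abs_nonneg _) zero_le_one
      _ = 1 := one_mul 1
  have hVmean : ∀ j, ε / N ≤ (c j : ℝ) →
      t ≤ ∫ y, V j y ∂(Measure.pi (fun _ : Fin m => (Q : Measure X))) := by
    intro j hj
    have h1 := mean_bound Q (P j) (S j) (c j) δ hδ (hSQ j) (hS j) (hmass j) hδ1 (w j) (hw j)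
      (hw0 j) (hw1 j) (hwS j) (B j) (hBm j) (hBP j)
    refine le_trans ?_ h1
    rw [ht]
    have : (ε / N) ^ m ≤ (c j : ℝ) ^ m := pow_le_pow_left₀ (by positivity) hj m
    linarith
  -- the bad event
  set Bad : J → Set (Fin L → Fin m → X) := fun j =>
    {y | (L : ℝ) * t ≤ |∑ l, V j (y l) -
      L * ∫ y, V j y ∂(Measure.pi (fun _ : Fin m => (Q : Measure X)))|} with hBad
  have hBadm : ∀ j, Measure.pi (fun _ : Fin L => Measure.pi (fun _ : Fin m => (Q : Measure X)))
      (Bad j) ≤ ENNReal.ofReal (ε / N) := by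
    intro j
    exact hconc _ (V j) (hVmeas j) (hVbound j)
  have hsub : {x : Fin L × Fin m → X | 3 * ε + δ < dist1 Q f (A' (labelled f x))}
      ⊆ {x | (fun (l : Fin L) (i : Fin m) => x (l, i)) ∈ ⋃ j, Bad j} := by
    intro x hx
    by_contra hnot
    simp only [Set.mem_ofPred_eq, Set.mem_iUnion, not_exists] at hnot
    have hx' : 3 * ε + δ < dist1 Q f (A' (labelled f x)) := hx
    apply absurd hx'
    rw [not_lt]
    set y : Fin L → Fin m → X := fun l i => x (l, i) with hy
    have hpos : ∀ j, ε / N ≤ (c j : ℝ) → 0 < ∑ l, V j (y l) := by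
      intro j hj
      have h1 : ¬ ((L : ℝ) * t ≤ |∑ l, V j (y l) -
        L * ∫ y, V j y ∂(Measure.pi (fun _ : Fin m => (Q : Measure X)))|) := hnot j
      rw [not_le] at h1
      have h2 := (abs_lt.1 h1).1
      have h3 := hVmean j hj
      have h4 : (L : ℝ) * t ≤ L * ∫ y, V j y ∂(Measure.pi (fun _ : Fin m => (Q : Measure X))) :=
        mul_le_mul_of_nonneg_left h3 (Nat.cast_nonneg _)
      linarith
    have hfeas : Feas (labelled f x) f := by
      intro j hj
      refine lt_of_lt_of_le (hpos j hj) ?_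
      apply Finset.sum_le_sum
      intro l _
      simp only [hV]
      apply mul_le_mul_of_nonneg_left _ (hprod0 j _)
      apply sub_le_sub_right
      by_cases hyl : y l ∈ (B j)ᶜ
      · rw [Set.indicator_of_mem hyl]
        have h5 : y l ∉ {x | ε < dist1 (P j) f (A (labelled f x))} :=
          fun h => hyl (subset_toMeasurable _ _ h)
        have h6 : dist1 (P j) f (A (fun i => labelled f x (l, i))) ≤ ε := not_lt.1 h5
        rw [if_pos h6]
      · rw [Set.indicator_of_notMem hyl]
        split_ifs <;> norm_num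
    have hg : Feas (labelled f x) (A' (labelled f x)) := hA'spec _ ⟨⟨f, hf⟩, hfeas⟩
    set g : F := A' (labelled f x) with hgdef
    have hgm : Measurable (g : X → I) := hF _ g.2
    have hfm : Measurable f := hF _ hf
    have hclose : ∀ j, ε / N ≤ (c j : ℝ) → dist1 (P j) f g ≤ 2 * ε := by
      intro j hj
      have h1 := hfeas j hj
      have h2 := hg j hj
      have h3 := add_pos h1 h2
      rw [← Finset.sum_add_distrib] at h3
      simp_rw [← mul_add] at h3
      obtain ⟨l, hl⟩ : ∃ l : Fin L, 0 < (∏ i, w j (labelled f x (l, i)).1) *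
          (((if dist1 (P j) f (A (fun i => labelled f x (l, i))) ≤ ε
            then (1 : ℝ) else 0) - 1 / 2)
          + ((if dist1 (P j) g (A (fun i => labelled f x (l, i))) ≤ ε
            then (1 : ℝ) else 0) - 1 / 2)) := by
        by_contra hcon
        push Not at hcon
        exact absurd h3 (not_lt.2 (Finset.sum_nonpos fun l _ => hcon l))
      have h4 : 0 < ((if dist1 (P j) f (A (fun i => labelled f x (l, i))) ≤ ε
            then (1 : ℝ) else 0) - 1 / 2)
          + ((if dist1 (P j) g (A (fun i => labelled f x (l, i))) ≤ ε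
            then (1 : ℝ) else 0) - 1 / 2) := by
        by_contra hneg
        rw [not_lt] at hneg
        exact absurd hl (not_lt.2 (mul_nonpos_of_nonneg_of_nonpos
          (Finset.prod_nonneg fun i _ => hw0 j _) hneg))
      have hd1 : dist1 (P j) f (A (fun i => labelled f x (l, i))) ≤ ε := by
        by_contra hcon
        rw [if_neg hcon] at h4
        split_ifs at h4 <;> norm_num at h4
      have hd2 : dist1 (P j) g (A (fun i => labelled f x (l, i))) ≤ ε := by
        by_contra hcon
        rw [if_neg hcon] at h4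
        split_ifs at h4 <;> norm_num at h4
      have h5 := dist1_triangle (P j) hfm (hF _ (A (fun i => labelled f x (l, i))).2) hgm
      have h6 := dist1_comm (P j) g (A (fun i => labelled f x (l, i)))
      linarith
    have hmix := integral_mixture_le Q P c hc S hS δ hmass hsum
      (fun x => |(f x : ℝ) - ((g : X → I) x : ℝ)|) (measurable_absdiff hfm hgm)
      (absdiff_nonneg f g) (absdiff_le_one f g)
    have hterm : ∀ j, (c j : ℝ) * dist1 (P j) f g ≤ (c j : ℝ) * (2 * ε) + ε / N := by
      intro j
      by_cases hj : ε / N ≤ (c j : ℝ)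
      · have := mul_le_mul_of_nonneg_left (hclose j hj) (c j).2
        have h7 : 0 < ε / N := by positivity
        have h8 : (c j : ℝ) * dist1 (P j) f g ≤ (c j : ℝ) * (2 * ε) := this
        linarith
      · rw [not_le] at hj
        have h1 : (c j : ℝ) * dist1 (P j) f g ≤ (c j : ℝ) * 1 :=
          mul_le_mul_of_nonneg_left (dist1_le_one (P j) hfm hgm) (c j).2
        have h2 : 0 ≤ (c j : ℝ) * (2 * ε) := mul_nonneg (c j).2 (by positivity)
        linarith
    have hsumterm : ∑ j, (c j : ℝ) * dist1 (P j) f g ≤ 2 * ε + ε := by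
      calc ∑ j, (c j : ℝ) * dist1 (P j) f g ≤ ∑ j, ((c j : ℝ) * (2 * ε) + ε / N) :=
            Finset.sum_le_sum fun j _ => hterm j
        _ = 2 * ε + ε := by
            rw [Finset.sum_add_distrib, ← Finset.sum_mul]
            have hc' : ∑ j, (c j : ℝ) = 1 := by exact_mod_cast hc
            rw [hc', one_mul, Finset.sum_const, Finset.card_univ, nsmul_eq_mul, ← hN]
            field_simp
    have hfinal : dist1 Q f g ≤ δ + ∑ j, (c j : ℝ) * dist1 (P j) f g := hmix
    linarith
  calc Measure.pi (fun _ : Fin L × Fin m => (Q : Measure X))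
          {x | 3 * ε + δ < dist1 Q f (A' (labelled f x))}
      ≤ Measure.pi (fun _ : Fin L × Fin m => (Q : Measure X))
          {x | (fun (l : Fin L) (i : Fin m) => x (l, i)) ∈ ⋃ j, Bad j} := measure_mono hsub
    _ ≤ Measure.pi (fun _ : Fin L => Measure.pi (fun _ : Fin m => (Q : Measure X)))
          (⋃ j, Bad j) := pi_curry_le _ _
    _ ≤ ∑ j, Measure.pi (fun _ : Fin L => Measure.pi (fun _ : Fin m => (Q : Measure X)))
          (Bad j) := measure_iUnion_fintype_le _ _
    _ ≤ ∑ _j : J, ENNReal.ofReal (ε / N) := Finset.sum_le_sum fun j _ => hBadm j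
    _ = ENNReal.ofReal ε := by
        rw [Finset.sum_const, Finset.card_univ, nsmul_eq_mul]
        rw [← ENNReal.ofReal_natCast, ← ENNReal.ofReal_mul (Nat.cast_nonneg _), ← hN]
        congr 1
        field_simp


/-! ### Mixtures and nets -/

theorem exists_inner_net {Ps : Set (ProbabilityMeasure X)} (h : TotBdd Ps) (δ : ℝ) (hδ : 0 < δ) :
    ∃ (N : ℕ) (P : Fin N → ProbabilityMeasure X), (∀ j, P j ∈ Ps) ∧
      ∀ R ∈ Ps, ∃ j, rho R (P j) ≤ δ := by
  classical
  obtain ⟨t, ht, hcov⟩ := h (δ / 2) (by positivity)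
  set t' : Set (ProbabilityMeasure X) := {c | c ∈ t ∧ ∃ R ∈ Ps, rho R c < δ / 2} with ht'
  have ht'fin : t'.Finite := ht.subset fun c hc => hc.1
  have hch : ∀ c : t', ∃ R ∈ Ps, rho R c < δ / 2 := fun c => c.2.2
  choose R hR hRc using hch
  have : (Set.range R).Finite := by
    have := ht'fin.to_subtype
    exact Set.finite_range R
  obtain ⟨N, P, -, hP⟩ := this.fin_param
  refine ⟨N, P, ?_, ?_⟩
  · intro j
    have : P j ∈ Set.range R := by rw [← hP]; exact ⟨j, rfl⟩
    obtain ⟨c, hc⟩ := this
    rw [← hc]; exact hR c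
  · intro Q hQ
    obtain ⟨c, hc, hQc⟩ := hcov Q hQ
    have hc' : c ∈ t' := ⟨hc, Q, hQ, hQc⟩
    have : R ⟨c, hc'⟩ ∈ Set.range P := by rw [hP]; exact ⟨_, rfl⟩
    obtain ⟨j, hj⟩ := this
    refine ⟨j, ?_⟩
    rw [hj]
    have h1 := rho_triangle Q c (R ⟨c, hc'⟩)
    have h2 := hRc ⟨c, hc'⟩
    rw [rho_comm] at h2
    simp only at h2
    linarith

theorem sum_real_smul {l : ℕ} (s : Finset (Fin l)) (a : Fin l → ℝ≥0) (μ : Fin l → Measure X)
    [∀ i, IsFiniteMeasure (μ i)] (A : Set X) :
    (∑ i ∈ s, a i • μ i).real A = ∑ i ∈ s, (a i : ℝ) * (μ i).real A := by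
  rw [measureReal_def, Measure.finsetSum_apply, ENNReal.toReal_sum]
  · apply Finset.sum_congr rfl
    intro i _
    rw [Measure.smul_apply, ENNReal.smul_def, smul_eq_mul, ENNReal.toReal_mul,
      ENNReal.coe_toReal, measureReal_def]
  · intro i _
    exact measure_ne_top _ _

theorem smul_mono_measure (a : ℝ≥0) {μ ν : Measure X} (h : μ ≤ ν) : a • μ ≤ a • ν := by
  rw [Measure.le_iff]
  intro s _
  rw [Measure.smul_apply, Measure.smul_apply, ENNReal.smul_def, ENNReal.smul_def, smul_eq_mul,
    smul_eq_mul]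
  have := h s
  gcongr

theorem mix_structure {Ps : Set (ProbabilityMeasure X)} {J : Type} [Fintype J]
    (P : J → ProbabilityMeasure X) (δ : ℝ) (hnet : ∀ R ∈ Ps, ∃ j, rho R (P j) ≤ δ)
    (Q : ProbabilityMeasure X) (hQ : Q ∈ mix Ps) :
    ∃ (c : J → ℝ≥0) (S : J → Measure X), ∑ j, c j = 1 ∧
      (∀ j, S j ≤ c j • (P j : Measure X)) ∧ (∀ j, (1 - δ) * c j ≤ (S j).real Set.univ) ∧
      ∑ j, S j ≤ (Q : Measure X) := by
  have hdec : DecidableEq J := Classical.decEq J
  obtain ⟨l, a, R, hR, ha, hQ⟩ := hQ
  choose jj hjj using fun i => hnet (R i) (hR i)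
  have hfin : ∀ i, IsFiniteMeasure ((R i : Measure X) ⊓ (P (jj i) : Measure X)) :=
    fun i => isFiniteMeasure_of_le (R i : Measure X) inf_le_left
  refine ⟨fun j => ∑ i with jj i = j, a i,
    fun j => ∑ i with jj i = j, a i • ((R i : Measure X) ⊓ (P (jj i) : Measure X)), ?_, ?_, ?_, ?_⟩
  · change ∑ j, ∑ i with jj i = j, a i = 1
    rw [Finset.sum_fiberwise Finset.univ jj a]; exact ha
  · intro j
    rw [Finset.sum_smul]
    apply Finset.sum_le_sum
    intro i hi
    have hi' : jj i = j := (Finset.mem_filter.1 hi).2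
    rw [hi']
    have : (R i : Measure X) ⊓ (P j : Measure X) ≤ (P j : Measure X) := inf_le_right
    exact smul_mono_measure _ this
  · intro j
    rw [sum_real_smul]
    push_cast
    rw [Finset.mul_sum]
    apply Finset.sum_le_sum
    intro i _
    rw [mul_comm]
    apply mul_le_mul_of_nonneg_left _ (a i).2
    have h1 := inf_mass (R i) (P (jj i))
    have h2 := hjj i
    have h3 : 1 - rho (R i) (P (jj i)) ≤
        ((R i : Measure X) ⊓ (P (jj i) : Measure X)).real Set.univ := by
      rw [measureReal_def]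
      by_cases h : 1 - rho (R i) (P (jj i)) ≤ 0
      · exact h.trans ENNReal.toReal_nonneg
      · exact (ENNReal.ofReal_le_iff_le_toReal (measure_ne_top _ _)).1 h1
    linarith
  · change ∑ j, ∑ i with jj i = j, a i • ((R i : Measure X) ⊓ (P (jj i) : Measure X)) ≤ _
    rw [Finset.sum_fiberwise, hQ]
    apply Finset.sum_le_sum
    intro i _
    have : (R i : Measure X) ⊓ (P (jj i) : Measure X) ≤ (R i : Measure X) := inf_le_left
    exact smul_mono_measure _ this


/-- The mixture with weights `c` in the standard simplex. -/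
theorem exists_mixture {N : ℕ} (P : Fin N → ProbabilityMeasure X) (c : Fin N → ℝ≥0)
    (hc : ∑ j, c j = 1) : ∃ Q : ProbabilityMeasure X,
      (Q : Measure X) = ∑ j, c j • (P j : Measure X) := by
  refine ⟨⟨∑ j, c j • (P j : Measure X), ⟨?_⟩⟩, rfl⟩
  rw [Measure.finsetSum_apply]
  simp only [Measure.smul_apply, measure_univ]
  have : ∀ j, c j • (1 : ℝ≥0∞) = (c j : ℝ≥0∞) := by
    intro j; rw [ENNReal.smul_def, smul_eq_mul, mul_one]
  simp_rw [this]
  exact_mod_cast hc

theorem rho_mixture_le {N : ℕ} (P : Fin N → ProbabilityMeasure X) (c c' : Fin N → ℝ≥0)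
    (Q Q' : ProbabilityMeasure X) (hQ : (Q : Measure X) = ∑ j, c j • (P j : Measure X))
    (hQ' : (Q' : Measure X) = ∑ j, c' j • (P j : Measure X)) :
    rho Q Q' ≤ ∑ j, |(c j : ℝ) - c' j| := by
  apply rho_le
  intro A _
  rw [hQ, hQ', sum_real_smul, sum_real_smul, ← Finset.sum_sub_distrib]
  refine (Finset.abs_sum_le_sum_abs _ _).trans (Finset.sum_le_sum fun j _ => ?_)
  rw [← sub_mul, abs_mul]
  have h1 : (P j : Measure X).real A ≤ 1 := measureReal_le_one
  have h2 : 0 ≤ (P j : Measure X).real A := measureReal_nonneg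
  rw [abs_of_nonneg h2]
  nlinarith [abs_nonneg ((c j : ℝ) - c' j)]

/-- The convex hull of a totally bounded family has finite nets inside itself. -/
theorem mix_net {Ps : Set (ProbabilityMeasure X)} (h : TotBdd Ps) (η : ℝ) (hη : 0 < η) :
    ∃ (K : ℕ) (Qs : Fin K → ProbabilityMeasure X), (∀ k, Qs k ∈ mix Ps) ∧
      ∀ Q ∈ mix Ps, ∃ k, rho Q (Qs k) ≤ η := by
  have hdecs : ∀ n, DecidableEq (Fin n) := fun n => inferInstance
  obtain ⟨N, P, hP, hnet⟩ := exists_inner_net h (η / 2) (by positivity)
  -- net of the simplex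
  have hcomp : IsCompact (stdSimplex ℝ (Fin N)) := isCompact_stdSimplex ℝ (Fin N)
  obtain ⟨t, htsub, htfin, htcov⟩ := Metric.finite_approx_of_totallyBounded hcomp.totallyBounded
    (η / (2 * (N + 1))) (by positivity)
  obtain ⟨K, cs, -, hcs⟩ := htfin.fin_param
  have hcsmem : ∀ k, cs k ∈ stdSimplex ℝ (Fin N) := by
    intro k
    apply htsub
    rw [← hcs]; exact ⟨k, rfl⟩
  set cn : Fin K → Fin N → ℝ≥0 := fun k j => ⟨cs k j, (hcsmem k).1 j⟩ with hcn
  have hcnsum : ∀ k, ∑ j, cn k j = 1 := by
    intro k
    have := (hcsmem k).2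
    apply NNReal.coe_injective
    rw [NNReal.coe_sum]
    exact this
  choose Qs hQs using fun k => exists_mixture P (cn k) (hcnsum k)
  refine ⟨K, Qs, ?_, ?_⟩
  · intro k
    exact ⟨N, cn k, P, hP, hcnsum k, hQs k⟩
  · intro Q hQ
    obtain ⟨l, a, R, hR, ha, hQe⟩ := hQ
    choose jj hjj using fun i => hnet (R i) (hR i)
    set c : Fin N → ℝ≥0 := fun j => ∑ i with jj i = j, a i with hcdef
    have hcsum : ∑ j, c j = 1 := by
      change ∑ j, ∑ i with jj i = j, a i = 1
      rw [Finset.sum_fiberwise Finset.univ jj a]; exact ha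
    obtain ⟨Q', hQ'⟩ := exists_mixture P c hcsum
    -- distance from Q to Q'
    have hd1 : rho Q Q' ≤ η / 2 := by
      apply rho_le
      intro A hA
      have e1 : (Q : Measure X).real A = ∑ i, (a i : ℝ) * (R i : Measure X).real A := by
        rw [hQe, sum_real_smul]
      have e2 : (Q' : Measure X).real A = ∑ i, (a i : ℝ) * (P (jj i) : Measure X).real A := by
        rw [hQ', sum_real_smul]
        rw [← Finset.sum_fiberwise Finset.univ jj]
        apply Finset.sum_congr rfl
        intro j _
        rw [hcdef]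
        push_cast
        rw [Finset.sum_mul]
        apply Finset.sum_congr rfl
        intro i hi
        rw [(Finset.mem_filter.1 hi).2]
      rw [e1, e2, ← Finset.sum_sub_distrib]
      refine (Finset.abs_sum_le_sum_abs _ _).trans ?_
      have e3 : ∑ i, (a i : ℝ) = 1 := by exact_mod_cast ha
      calc ∑ i, |(a i : ℝ) * (R i : Measure X).real A - (a i : ℝ) * (P (jj i) : Measure X).real A|
          ≤ ∑ i, (a i : ℝ) * (η / 2) := by
            apply Finset.sum_le_sum
            intro i _
            rw [← mul_sub, abs_mul, abs_of_nonneg (NNReal.coe_nonneg (a i))]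
            exact mul_le_mul_of_nonneg_left ((abs_sub_le_rho _ _ hA).trans (hjj i)) (a i).2
        _ = η / 2 := by rw [← Finset.sum_mul, e3, one_mul]
    -- net element close to c
    have hcmem : (fun j => (c j : ℝ)) ∈ stdSimplex ℝ (Fin N) :=
      ⟨fun j => (c j).2, by
        change ∑ j, (c j : ℝ) = 1
        exact_mod_cast hcsum⟩
    have := htcov hcmem
    simp only [Set.mem_iUnion] at this
    obtain ⟨y, hy, hyd⟩ := this
    rw [← hcs] at hy
    obtain ⟨k, rfl⟩ := hy
    refine ⟨k, ?_⟩
    have hd2 : rho Q' (Qs k) ≤ η / 2 := by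
      refine (rho_mixture_le P c (cn k) Q' (Qs k) hQ' (hQs k)).trans ?_
      have hball : dist (fun j => (c j : ℝ)) (cs k) < η / (2 * (N + 1)) := hyd
      calc ∑ j, |(c j : ℝ) - cn k j| ≤ ∑ _j : Fin N, η / (2 * (N + 1)) := by
            apply Finset.sum_le_sum
            intro j _
            have := dist_le_pi_dist (fun j => (c j : ℝ)) (cs k) j
            rw [Real.dist_eq] at this
            exact this.trans hball.le
        _ = N * (η / (2 * (N + 1))) := by simp
        _ ≤ η / 2 := by
            have hN : (0:ℝ) ≤ N := Nat.cast_nonneg _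
            rw [mul_div_assoc', div_le_div_iff₀ (by positivity) (by positivity)]
            nlinarith
    have := rho_triangle Q Q' (Qs k)
    linarith

theorem dist1_le_add (P Q : ProbabilityMeasure X) {f g : X → I} (hf : Measurable f)
    (hg : Measurable g) : dist1 Q f g ≤ dist1 P f g + rho P Q := by
  have hfin : IsFiniteMeasure ((P : Measure X) ⊓ (Q : Measure X)) :=
    isFiniteMeasure_of_le (P : Measure X) inf_le_left
  have h := integral_mixture_le (J := Unit) Q (fun _ => P) (fun _ => 1) (by simp)
    (fun _ => (P : Measure X) ⊓ (Q : Measure X)) (by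
      intro _
      rw [one_smul]
      exact inf_le_left) (rho P Q) (by
      intro _
      have h1 := inf_mass P Q
      rw [measureReal_def]
      by_cases h : 1 - rho P Q ≤ 0
      · simpa using h.trans ENNReal.toReal_nonneg
      · simpa using (ENNReal.ofReal_le_iff_le_toReal (measure_ne_top _ _)).1 h1) (by
      simp only [Finset.univ_unique, Finset.sum_const, Finset.card_singleton, one_smul]
      exact inf_le_right)
    (fun x => |(f x : ℝ) - (g x : ℝ)|) (measurable_absdiff hf hg)
      (absdiff_nonneg f g) (absdiff_le_one f g)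
  simp only [Finset.univ_unique, NNReal.coe_one, one_mul, Finset.sum_const,
    Finset.card_singleton, one_smul] at h
  unfold dist1
  linarith


/-! ### From known to unknown distributions -/

theorem exists_test_set (P Q : ProbabilityMeasure X) : ∃ T : Set X, MeasurableSet T ∧
    rho P Q ≤ 2 * |(P : Measure X).real T - (Q : Measure X).real T| := by
  by_cases h : rho P Q ≤ 0
  · exact ⟨∅, MeasurableSet.empty, h.trans (by simp)⟩
  · rw [not_le] at h
    have hne : Nonempty {A : Set X // MeasurableSet A} := ⟨⟨∅, MeasurableSet.empty⟩⟩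
    have h2 : rho P Q / 2 < rho P Q := by linarith
    obtain ⟨T, hT⟩ := exists_lt_of_lt_ciSup (show rho P Q / 2 <
      ⨆ A : {A : Set X // MeasurableSet A}, |(P : Measure X).real A - (Q : Measure X).real A|
      from h2)
    exact ⟨T, T.2, by linarith⟩

/-- If every member of a totally bounded family can be learned from a fixed number of samples when
it is known, the family can be learned. -/
theorem unknown (F : Set (X → I)) (hF : ∀ f ∈ F, Measurable f) (f0 : F) {κ : Type} [Fintype κ]
    (ε : ℝ) (hε : 0 < ε) (Qf : Set (ProbabilityMeasure X))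
    (hnet : ∀ η : ℝ, 0 < η → ∃ (K : ℕ) (Qs : Fin K → ProbabilityMeasure X),
      (∀ k, Qs k ∈ Qf) ∧ ∀ Q ∈ Qf, ∃ k, rho Q (Qs k) ≤ η)
    (hlearn : ∀ Q ∈ Qf, ∃ A' : (κ → X × I) → F, ∀ f ∈ F,
        Measure.pi (fun _ : κ => (Q : Measure X))
          {x | ε < dist1 Q f (A' (labelled f x))} ≤ ENNReal.ofReal ε) :
    ∃ (M : ℕ) (A'' : (κ ⊕ Fin M → X × I) → F), ∀ Q ∈ Qf, ∀ f ∈ F,
      Measure.pi (fun _ : κ ⊕ Fin M => (Q : Measure X))
          {x | 2 * ε < dist1 Q f (A'' (labelled f x))} ≤ ENNReal.ofReal (3 * ε) := by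
  classical
  set η : ℝ := ε / (9 * ((Fintype.card κ : ℝ) + 1)) with hη
  have hcard : (0 : ℝ) ≤ (Fintype.card κ : ℝ) := Nat.cast_nonneg _
  have hηpos : 0 < η := by positivity
  have hη1 : 9 * η ≤ ε := by
    rw [hη, mul_div_assoc', div_le_iff₀ (by positivity)]
    nlinarith
  have hη2 : (Fintype.card κ : ℝ) * (9 * η) ≤ ε := by
    rw [hη, mul_div_assoc', mul_div_assoc', div_le_iff₀ (by positivity)]
    nlinarith
  obtain ⟨K, Qs, hQs, hcov⟩ := hnet η hηpos
  choose T hTm hT using fun p : Fin K × Fin K => exists_test_set (Qs p.1) (Qs p.2)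
  choose A' hA' using fun k => hlearn (Qs k) (hQs k)
  set ε' : ℝ := ε / ((K : ℝ) * K + 1) with hε'
  have hε'pos : 0 < ε' := by positivity
  obtain ⟨M, hM, hconc⟩ := exists_conc.{u} η ε' hηpos hε'pos
  have hMr : (0 : ℝ) < M := by exact_mod_cast hM
  -- counts
  set cnt : Fin K × Fin K → (Fin M → X) → ℝ := fun p z =>
    ∑ l, (T p).indicator (fun _ => (1 : ℝ)) (z l) with hcnt
  have hcntm : ∀ p, Measurable (cnt p) := by
    intro p
    apply Finset.measurable_sum
    intro l _
    exact (measurable_const.indicator (hTm p)).comp (measurable_pi_apply l)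
  set pass : Fin K → Set (Fin M → X) := fun k =>
    {z | ∀ p : Fin K × Fin K, |cnt p z - M * (Qs k : Measure X).real (T p)| ≤ 2 * (M * η)}
    with hpass
  have hpassm : ∀ k, MeasurableSet (pass k) := by
    intro k
    have : pass k = ⋂ p : Fin K × Fin K,
        {z | |cnt p z - M * (Qs k : Measure X).real (T p)| ≤ 2 * (M * η)} := by
      ext z; simp [hpass]
    rw [this]
    apply MeasurableSet.iInter
    intro p
    exact measurableSet_le ((hcntm p).sub_const _).abs measurable_const
  -- selection
  set E : Fin K → Set (Fin M → X) := fun k => pass k \ ⋃ k' : Fin K, ⋃ _ : k' < k, pass k' with hE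
  have hEm : ∀ k, MeasurableSet (E k) := by
    intro k
    apply (hpassm k).diff
    exact MeasurableSet.iUnion fun k' => MeasurableSet.iUnion fun _ => hpassm k'
  have hEdisj : Pairwise (Function.onFun Disjoint E) := by
    have aux : ∀ k k' : Fin K, k < k' → Disjoint (E k) (E k') := by
      intro k k' hkk'
      rw [Set.disjoint_left]
      intro z hz hz'
      apply hz'.2
      simp only [Set.mem_iUnion]
      exact ⟨k, hkk', hz.1⟩
    intro k k' hne
    rcases lt_or_gt_of_ne hne with h | h
    · exact aux k k' h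
    · exact (aux k' k h).symm
  have hEcover : ∀ z, (∃ k, z ∈ pass k) → ∃ k, z ∈ E k := by
    intro z hz
    have hne : (Finset.univ.filter (fun k => z ∈ pass k)).Nonempty := by
      obtain ⟨k, hk⟩ := hz
      exact ⟨k, by simp [hk]⟩
    refine ⟨(Finset.univ.filter (fun k => z ∈ pass k)).min' hne, ?_, ?_⟩
    · exact (Finset.mem_filter.1 (Finset.min'_mem _ hne)).2
    · simp only [Set.mem_iUnion, not_exists]
      intro k' hk' hzk'
      have := Finset.min'_le (Finset.univ.filter (fun k => z ∈ pass k)) k' (by simp [hzk'])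
      exact absurd hk' (not_lt.2 this)
  set A'' : (κ ⊕ Fin M → X × I) → F := fun s =>
    if h : ∃ k, (fun l => (s (Sum.inr l)).1) ∈ E k then A' h.choose (fun i => s (Sum.inl i))
    else f0 with hA''
  refine ⟨M, A'', ?_⟩
  intro Q hQ f hf
  have hfm := hF f hf
  obtain ⟨k0, hk0⟩ := hcov Q hQ
  set muk := Measure.pi (fun _ : κ => (Q : Measure X)) with hmuk
  set muM := Measure.pi (fun _ : Fin M => (Q : Measure X)) with hmuM
  -- good estimation event
  set BadEst : Fin K × Fin K → Set (Fin M → X) := fun p =>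
    {z | (M : ℝ) * η ≤ |cnt p z - M * ∫ y, (T p).indicator (fun _ => (1 : ℝ)) y ∂(Q : Measure X)|}
    with hBadEst
  have hBadEstm : ∀ p, muM (BadEst p) ≤ ENNReal.ofReal ε' := by
    intro p
    apply hconc (Q : Measure X) ((T p).indicator (fun _ => (1 : ℝ)))
      (measurable_const.indicator (hTm p))
    intro y
    by_cases hy : y ∈ T p
    · rw [Set.indicator_of_mem hy]; simp
    · rw [Set.indicator_of_notMem hy]; simp
  have hint : ∀ p, ∫ y, (T p).indicator (fun _ => (1 : ℝ)) y ∂(Q : Measure X)
      = (Q : Measure X).real (T p) := by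
    intro p
    rw [integral_indicator (hTm p)]
    simp
  -- bad learning events
  set Bad : Fin K → Set (κ → X) := fun k => {x | 2 * ε < dist1 Q f (A' k (labelled f x))} with hBad
  have hBadm : ∀ k, rho Q (Qs k) ≤ 9 * η → muk (Bad k) ≤ ENNReal.ofReal (2 * ε) := by
    intro k hk
    have h1 : Bad k ⊆ {x | ε < dist1 (Qs k) f (A' k (labelled f x))} := by
      intro x hx
      have hx' : 2 * ε < dist1 Q f (A' k (labelled f x)) := hx
      have h2 := dist1_le_add (Qs k) Q hfm (hF _ (A' k (labelled f x)).2)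
      rw [rho_comm] at h2
      change ε < dist1 (Qs k) f (A' k (labelled f x))
      linarith
    calc muk (Bad k) ≤ muk {x | ε < dist1 (Qs k) f (A' k (labelled f x))} := measure_mono h1
      _ ≤ Measure.pi (fun _ : κ => (Qs k : Measure X))
            {x | ε < dist1 (Qs k) f (A' k (labelled f x))}
          + ENNReal.ofReal (Fintype.card κ * rho (Qs k) Q) := pi_le_add _ _ _
      _ ≤ ENNReal.ofReal ε + ENNReal.ofReal ε := by
          apply add_le_add (hA' k f hf)
          apply ENNReal.ofReal_le_ofReal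
          rw [rho_comm]
          exact (mul_le_mul_of_nonneg_left hk hcard).trans hη2
      _ = ENNReal.ofReal (2 * ε) := by
          rw [← ENNReal.ofReal_add hε.le hε.le]; congr 1; ring
  -- containment
  set good : Finset (Fin K) := Finset.univ.filter (fun k => rho Q (Qs k) ≤ 9 * η) with hgood
  set e := MeasurableEquiv.sumPiEquivProdPi (fun _ : κ ⊕ Fin M => X) with he
  have hpres := measurePreserving_sumPiEquivProdPi (ι := κ) (ι' := Fin M)
    (X := fun _ => X) (fun _ : κ ⊕ Fin M => (Q : Measure X))
  have hsub : {x : κ ⊕ Fin M → X | 2 * ε < dist1 Q f (A'' (labelled f x))}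
      ⊆ e ⁻¹' ((Set.univ ×ˢ ⋃ p, BadEst p) ∪ ⋃ k ∈ good, Bad k ×ˢ E k) := by
    intro x hx
    have hx' : 2 * ε < dist1 Q f (A'' (labelled f x)) := hx
    set z : Fin M → X := fun l => x (Sum.inr l) with hz
    set y : κ → X := fun i => x (Sum.inl i) with hy
    have hex : e x = (y, z) := rfl
    rw [Set.mem_preimage, hex]
    by_cases hest : z ∈ ⋃ p, BadEst p
    · left
      exact ⟨Set.mem_univ _, hest⟩
    · right
      simp only [Set.mem_iUnion, not_exists] at hest
      have hest' : ∀ p, |cnt p z - M * (Q : Measure X).real (T p)| < M * η := by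
        intro p
        have := hest p
        rw [← hint p]
        exact not_le.1 this
      -- k0 passes
      have hk0pass : z ∈ pass k0 := by
        intro p
        have h1 := abs_sub_le_rho Q (Qs k0) (hTm p)
        have h2 : |(M : ℝ) * (Q : Measure X).real (T p) - M * (Qs k0 : Measure X).real (T p)|
            ≤ M * η := by
          rw [← mul_sub, abs_mul, abs_of_pos hMr]
          exact mul_le_mul_of_nonneg_left (h1.trans hk0) hMr.le
        have h3 := abs_sub_le (cnt p z) ((M : ℝ) * (Q : Measure X).real (T p))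
          ((M : ℝ) * (Qs k0 : Measure X).real (T p))
        have h4 := hest' p
        linarith
      have hexE : ∃ k, z ∈ E k := hEcover z ⟨k0, hk0pass⟩
      have hAeq : A'' (labelled f x) = A' hexE.choose (labelled f y) := by
        simp only [hA'']
        have hcond : ∃ k, (fun l => (labelled f x (Sum.inr l)).1) ∈ E k := hexE
        rw [dif_pos hcond]
        rfl
      set k := hexE.choose with hk
      have hkE : z ∈ E k := hexE.choose_spec
      have hkpass : z ∈ pass k := hkE.1
      have hrho1 : rho (Qs k) (Qs k0) ≤ 8 * η := by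
        refine (hT (k, k0)).trans ?_
        have h1 := hkpass (k, k0)
        have h2 := hk0pass (k, k0)
        have h3 : |(M : ℝ) * (Qs k : Measure X).real (T (k, k0)) - M * (Qs k0 : Measure X).real (T (k, k0))|
            ≤ 4 * (M * η) := by
          have h4 := abs_sub_le ((M : ℝ) * (Qs k : Measure X).real (T (k, k0))) (cnt (k, k0) z)
            ((M : ℝ) * (Qs k0 : Measure X).real (T (k, k0)))
          rw [abs_sub_comm] at h1
          linarith
        rw [← mul_sub, abs_mul, abs_of_pos hMr] at h3
        have h5 : |(Qs k : Measure X).real (T (k, k0)) - (Qs k0 : Measure X).real (T (k, k0))|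
            ≤ 4 * η := by
          by_contra hcon
          rw [not_le] at hcon
          have := mul_lt_mul_of_pos_left hcon hMr
          linarith
        simp only
        linarith
      have hrho2 : rho Q (Qs k) ≤ 9 * η := by
        have h1 := rho_triangle Q (Qs k0) (Qs k)
        rw [rho_comm (Qs k0) (Qs k)] at h1
        linarith
      simp only [Set.mem_iUnion]
      refine ⟨k, by simp [hgood, hrho2], ?_, hkE⟩
      change 2 * ε < dist1 Q f (A' k (labelled f y))
      rw [← hAeq]
      exact hx'
  have hest_le : muM (⋃ p, BadEst p) ≤ ENNReal.ofReal ε := by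
    calc muM (⋃ p, BadEst p) ≤ ∑ p, muM (BadEst p) := measure_iUnion_fintype_le _ _
      _ ≤ ∑ _p : Fin K × Fin K, ENNReal.ofReal ε' := Finset.sum_le_sum fun p _ => hBadEstm p
      _ = ENNReal.ofReal ((K : ℝ) * K * ε') := by
          rw [Finset.sum_const, Finset.card_univ, nsmul_eq_mul, Fintype.card_prod,
            Fintype.card_fin, ← ENNReal.ofReal_natCast, ← ENNReal.ofReal_mul (Nat.cast_nonneg _)]
          push_cast
          rfl
      _ ≤ ENNReal.ofReal ε := by
          apply ENNReal.ofReal_le_ofReal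
          rw [hε', mul_div_assoc', div_le_iff₀ (by positivity)]
          nlinarith [mul_nonneg (Nat.cast_nonneg (α := ℝ) K) (Nat.cast_nonneg (α := ℝ) K)]
  have hsel_le : (muk.prod muM) (⋃ k ∈ good, Bad k ×ˢ E k) ≤ ENNReal.ofReal (2 * ε) := by
    calc (muk.prod muM) (⋃ k ∈ good, Bad k ×ˢ E k)
        ≤ ∑ k ∈ good, (muk.prod muM) (Bad k ×ˢ E k) := measure_biUnion_finset_le _ _
      _ = ∑ k ∈ good, muk (Bad k) * muM (E k) := by simp_rw [Measure.prod_prod]
      _ ≤ ∑ k ∈ good, ENNReal.ofReal (2 * ε) * muM (E k) := by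
          apply Finset.sum_le_sum
          intro k hk
          have := hBadm k (Finset.mem_filter.1 hk).2
          gcongr
      _ = ENNReal.ofReal (2 * ε) * ∑ k ∈ good, muM (E k) := by rw [Finset.mul_sum]
      _ ≤ ENNReal.ofReal (2 * ε) * 1 := by
          gcongr
          rw [← measure_biUnion_finset (fun i _ j _ hij => hEdisj hij) (fun k _ => hEm k)]
          exact prob_le_one
      _ = ENNReal.ofReal (2 * ε) := mul_one _
  calc Measure.pi (fun _ : κ ⊕ Fin M => (Q : Measure X))
          {x | 2 * ε < dist1 Q f (A'' (labelled f x))}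
      ≤ Measure.pi (fun _ : κ ⊕ Fin M => (Q : Measure X))
          (e ⁻¹' ((Set.univ ×ˢ ⋃ p, BadEst p) ∪ ⋃ k ∈ good, Bad k ×ˢ E k)) := measure_mono hsub
    _ = (muk.prod muM) ((Set.univ ×ˢ ⋃ p, BadEst p) ∪ ⋃ k ∈ good, Bad k ×ˢ E k) :=
        hpres.measure_preimage_equiv _
    _ ≤ (muk.prod muM) (Set.univ ×ˢ ⋃ p, BadEst p)
        + (muk.prod muM) (⋃ k ∈ good, Bad k ×ˢ E k) := measure_union_le _ _
    _ ≤ ENNReal.ofReal ε + ENNReal.ofReal (2 * ε) := by
        apply add_le_add _ hsel_le
        rw [Measure.prod_prod, measure_univ, one_mul]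
        exact hest_le
    _ = ENNReal.ofReal (3 * ε) := by
        rw [← ENNReal.ofReal_add hε.le (by positivity)]; congr 1; ring


/-! ### Learnability -/

/-- Uniform learnability with a fixed accuracy and confidence. -/
def UL (F : Set (X → I)) (Ps : Set (ProbabilityMeasure X)) : Prop :=
  ∀ ε : ℝ, 0 < ε → ∃ (n : ℕ) (A : (Fin n → X × I) → F), ∀ P ∈ Ps, ∀ f ∈ F,
    Measure.pi (fun _ : Fin n => (P : Measure X)) {x | ε < dist1 P f (A (labelled f x))}
      ≤ ENNReal.ofReal ε

theorem ul_of_pac {F : Set (X → I)} {Ps : Set (ProbabilityMeasure X)} (h : PACLearnable F Ps) :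
    UL F Ps := by
  obtain ⟨A, hA⟩ := h
  intro ε hε
  have h1 := (ENNReal.tendsto_nhds_zero.1 (hA ε hε)) (ENNReal.ofReal ε) (by simpa using hε)
  obtain ⟨m, hm⟩ := h1.exists
  refine ⟨m, A m, ?_⟩
  intro P hP f hf
  refine le_trans ?_ hm
  exact (le_iSup₂ (f := fun f (_ : f ∈ F) => Measure.pi (fun _ : Fin m => (P : Measure X))
    {x | ε < dist1 P f (A m (labelled f x))}) f hf).trans
    (le_iSup₂ (f := fun P (_ : P ∈ Ps) => ⨆ f ∈ F, Measure.pi (fun _ : Fin m => (P : Measure X))
    {x | ε < dist1 P f (A m (labelled f x))}) P hP)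

theorem pac_of_ul {F : Set (X → I)} (f0 : F) {Ps : Set (ProbabilityMeasure X)} (h : UL F Ps) :
    PACLearnable F Ps := by
  classical
  choose n A hA using fun k : ℕ => h (1 / ((k : ℝ) + 1)) (by positivity)
  set K : ℕ → ℕ := fun m => Nat.findGreatest (fun k => n k ≤ m) m with hK
  refine ⟨fun m s => if h : n (K m) ≤ m then A (K m) (fun i => s (Fin.castLE h i)) else f0, ?_⟩
  intro ε hε
  rw [ENNReal.tendsto_nhds_zero]
  intro ε' hε'
  -- choose k0
  obtain ⟨δ, hδ, hδε, hδε'⟩ : ∃ δ : ℝ, 0 < δ ∧ δ ≤ ε ∧ ENNReal.ofReal δ ≤ ε' := by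
    by_cases htop : ε' = ∞
    · exact ⟨ε, hε, le_rfl, by rw [htop]; exact le_top⟩
    · refine ⟨min ε ε'.toReal, lt_min hε (ENNReal.toReal_pos hε'.ne' htop), min_le_left _ _, ?_⟩
      calc ENNReal.ofReal (min ε ε'.toReal) ≤ ENNReal.ofReal ε'.toReal :=
            ENNReal.ofReal_le_ofReal (min_le_right _ _)
        _ = ε' := ENNReal.ofReal_toReal htop
  obtain ⟨k0, hk0⟩ := exists_nat_one_div_lt hδ
  filter_upwards [Filter.eventually_ge_atTop (max k0 (n k0))] with m hm
  have hm1 : k0 ≤ m := (le_max_left _ _).trans hm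
  have hm2 : n k0 ≤ m := (le_max_right _ _).trans hm
  have hKm : k0 ≤ K m := Nat.le_findGreatest hm1 hm2
  have hnK : n (K m) ≤ m := Nat.findGreatest_spec (P := fun k => n k ≤ m) hm1 hm2
  have hsmall : 1 / ((K m : ℝ) + 1) ≤ δ := by
    have : 1 / ((K m : ℝ) + 1) ≤ 1 / ((k0 : ℝ) + 1) := by
      apply one_div_le_one_div_of_le (by positivity)
      have : (k0 : ℝ) ≤ K m := by exact_mod_cast hKm
      linarith
    linarith
  refine iSup₂_le fun P hP => iSup₂_le fun f hf => ?_
  simp only [dif_pos hnK]
  have hinj : Function.Injective (Fin.castLE hnK) := Fin.castLE_injective hnK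
  calc Measure.pi (fun _ : Fin m => (P : Measure X))
        {x | ε < dist1 P f (A (K m) (fun i => labelled f x (Fin.castLE hnK i)))}
      ≤ Measure.pi (fun _ : Fin m => (P : Measure X))
        {x | (fun i => x (Fin.castLE hnK i)) ∈
          {y | 1 / ((K m : ℝ) + 1) < dist1 P f (A (K m) (labelled f y))}} := by
        apply measure_mono
        intro x hx
        have hx' : ε < dist1 P f (A (K m) (fun i => labelled f x (Fin.castLE hnK i))) := hx
        change 1 / ((K m : ℝ) + 1) < dist1 P f (A (K m) (labelled f (fun i => x (Fin.castLE hnK i))))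
        have : (labelled f (fun i => x (Fin.castLE hnK i)))
            = (fun i => labelled f x (Fin.castLE hnK i)) := rfl
        rw [this]
        linarith
    _ ≤ Measure.pi (fun _ : Fin (n (K m)) => (P : Measure X))
          {y | 1 / ((K m : ℝ) + 1) < dist1 P f (A (K m) (labelled f y))} :=
        pi_preimage_le _ _ hinj _
    _ ≤ ENNReal.ofReal (1 / ((K m : ℝ) + 1)) := hA (K m) P hP f hf
    _ ≤ ENNReal.ofReal δ := ENNReal.ofReal_le_ofReal hsmall
    _ ≤ ε' := hδε'

theorem ul_closure {F : Set (X → I)} (hF : ∀ f ∈ F, Measurable f)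
    {Ps : Set (ProbabilityMeasure X)} (h : UL F Ps) : UL F (rhoClosure Ps) := by
  intro ε hε
  obtain ⟨n, A, hA⟩ := h (ε / 4) (by positivity)
  refine ⟨n, A, ?_⟩
  intro Q hQ f hf
  obtain ⟨P, hP, hPQ⟩ := hQ (ε / (4 * ((n : ℝ) + 1))) (by positivity)
  have hn : (0 : ℝ) ≤ n := Nat.cast_nonneg _
  have h1 : rho P Q ≤ ε / 4 := by
    refine hPQ.le.trans ?_
    rw [div_le_div_iff₀ (by positivity) (by positivity)]
    nlinarith
  have h2 : (n : ℝ) * rho P Q ≤ ε / 4 := by
    have : (n : ℝ) * rho P Q ≤ n * (ε / (4 * ((n : ℝ) + 1))) :=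
      mul_le_mul_of_nonneg_left hPQ.le hn
    refine this.trans ?_
    rw [mul_div_assoc', div_le_div_iff₀ (by positivity) (by positivity)]
    nlinarith
  calc Measure.pi (fun _ : Fin n => (Q : Measure X)) {x | ε < dist1 Q f (A (labelled f x))}
      ≤ Measure.pi (fun _ : Fin n => (P : Measure X)) {x | ε < dist1 Q f (A (labelled f x))}
        + ENNReal.ofReal (Fintype.card (Fin n) * rho P Q) := pi_le_add P Q _
    _ ≤ Measure.pi (fun _ : Fin n => (P : Measure X)) {x | ε / 4 < dist1 P f (A (labelled f x))}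
        + ENNReal.ofReal (ε / 4) := by
        apply add_le_add
        · apply measure_mono
          intro x hx
          have hx' : ε < dist1 Q f (A (labelled f x)) := hx
          change ε / 4 < dist1 P f (A (labelled f x))
          have := dist1_le_add P Q (hF f hf) (hF _ (A (labelled f x)).2)
          linarith
        · apply ENNReal.ofReal_le_ofReal
          rw [Fintype.card_fin]
          exact h2
    _ ≤ ENNReal.ofReal (ε / 4) + ENNReal.ofReal (ε / 4) := by
        gcongr
        exact hA P hP f hf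
    _ ≤ ENNReal.ofReal ε := by
        rw [← ENNReal.ofReal_add (by positivity) (by positivity)]
        apply ENNReal.ofReal_le_ofReal
        linarith

theorem ul_mix {F : Set (X → I)} (hF : ∀ f ∈ F, Measurable f) (f0 : F)
    {Ps : Set (ProbabilityMeasure X)} (hPs : TotBdd Ps) (h : UL F Ps) : UL F (mix Ps) := by
  intro ε hε
  set ε1 : ℝ := min (ε / 12) (1 / 8) with hε1
  have hε1pos : 0 < ε1 := lt_min (by positivity) (by norm_num)
  have hε1a : ε1 ≤ ε / 12 := min_le_left _ _
  have hε1b : ε1 ≤ 1 / 8 := min_le_right _ _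
  obtain ⟨m, A, hA⟩ := h ε1 hε1pos
  have hm : (0 : ℝ) ≤ m := Nat.cast_nonneg _
  set δ : ℝ := ε1 / ((m : ℝ) + 1) with hδ
  have hδpos : 0 < δ := by positivity
  have hδ1 : δ ≤ ε1 := by
    rw [hδ, div_le_iff₀ (by positivity)]
    nlinarith
  have hδm : m * δ ≤ 1 / 8 := by
    have : m * δ ≤ ε1 := by
      rw [hδ, mul_div_assoc', div_le_iff₀ (by positivity)]
      nlinarith
    linarith
  obtain ⟨N, P, hP, hnet⟩ := exists_inner_net hPs δ hδpos
  obtain ⟨L, hL⟩ := known F hF f0 A ε1 δ hε1pos (by linarith) hδm P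
    (fun j f hf => (hA (P j) (hP j) f hf).trans (ENNReal.ofReal_le_ofReal hε1b))
  obtain ⟨M, A'', hA''⟩ := unknown F hF f0 (κ := Fin L × Fin m) (4 * ε1) (by positivity) (mix Ps)
    (fun η hη => mix_net hPs η hη) (by
      intro Q hQ
      obtain ⟨c, S, hc, hS, hmass, hsum⟩ := mix_structure P δ hnet Q hQ
      obtain ⟨A', hA'⟩ := hL Q c S hc hS hmass hsum
      refine ⟨A', ?_⟩
      intro f hf
      calc Measure.pi (fun _ : Fin L × Fin m => (Q : Measure X))
            {x | 4 * ε1 < dist1 Q f (A' (labelled f x))}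
          ≤ Measure.pi (fun _ : Fin L × Fin m => (Q : Measure X))
            {x | 3 * ε1 + δ < dist1 Q f (A' (labelled f x))} := by
            apply measure_mono
            intro x hx
            have hx' : 4 * ε1 < dist1 Q f (A' (labelled f x)) := hx
            change 3 * ε1 + δ < dist1 Q f (A' (labelled f x))
            linarith
        _ ≤ ENNReal.ofReal ε1 := hA' f hf
        _ ≤ ENNReal.ofReal (4 * ε1) := ENNReal.ofReal_le_ofReal (by linarith))
  -- reindex
  have e : ((Fin L × Fin m) ⊕ Fin M) ≃ Fin (Fintype.card ((Fin L × Fin m) ⊕ Fin M)) :=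
    Fintype.equivFin _
  refine ⟨Fintype.card ((Fin L × Fin m) ⊕ Fin M), fun s => A'' (fun i => s (e i)), ?_⟩
  intro Q hQ f hf
  calc Measure.pi (fun _ : Fin (Fintype.card ((Fin L × Fin m) ⊕ Fin M)) => (Q : Measure X))
        {x | ε < dist1 Q f (A'' (fun i => labelled f x (e i)))}
      ≤ Measure.pi (fun _ : Fin (Fintype.card ((Fin L × Fin m) ⊕ Fin M)) => (Q : Measure X))
        {x | (fun i => x (e i)) ∈ {y | 2 * (4 * ε1) < dist1 Q f (A'' (labelled f y))}} := by
        apply measure_mono
        intro x hx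
        have hx' : ε < dist1 Q f (A'' (fun i => labelled f x (e i))) := hx
        change 2 * (4 * ε1) < dist1 Q f (A'' (labelled f (fun i => x (e i))))
        have : labelled f (fun i => x (e i)) = (fun i => labelled f x (e i)) := rfl
        rw [this]
        linarith
    _ ≤ Measure.pi (fun _ : (Fin L × Fin m) ⊕ Fin M => (Q : Measure X))
          {y | 2 * (4 * ε1) < dist1 Q f (A'' (labelled f y))} :=
        pi_preimage_le _ _ e.injective _
    _ ≤ ENNReal.ofReal (3 * (4 * ε1)) := hA'' Q hQ f hf
    _ ≤ ENNReal.ofReal ε := ENNReal.ofReal_le_ofReal (by linarith)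

/-- Main theorem: learnability over a totally bounded family passes to its closure, to its convex
hull and to its closed convex hull. -/
theorem result_proof {X : Type u} [MeasurableSpace X] (F : Set (X → I)) (hF : ∀ f ∈ F, Measurable f)
    (Ps : Set (ProbabilityMeasure X)) (hPs : TotBdd Ps) (h : PACLearnable F Ps) :
    PACLearnable F (rhoClosure Ps) ∧ PACLearnable F (mix Ps) ∧
      PACLearnable F (rhoClosure (mix Ps)) := by
  obtain ⟨A, -⟩ := id h
  have f0 : F := A 0 (fun i => i.elim0)
  have hUL := ul_of_pac h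
  exact ⟨pac_of_ul f0 (ul_closure hF hUL), pac_of_ul f0 (ul_mix hF f0 hPs hUL),
    pac_of_ul f0 (ul_closure hF (ul_mix hF f0 hPs hUL))⟩

end Pool.Agent.Results.MP_ab635e_lc.ClosedHull
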