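import Mathlib

set_option autoImplicit false

open MeasureTheory Filter Topology

namespace Pool.Agent.Results.MP_c6df36_pr.ExpectationForm

/-- The uniform distribution on the unit square `[0,1]²`. -/
noncomputable def unifSq : Measure (ℝ × ℝ) :=
  volume.restrict (Set.Icc (0 : ℝ) 1 ×ˢ Set.Icc (0 : ℝ) 1)

/-- The cost `M_n(σ)` of a permutation `σ` for the points `x i` and `y i`. -/
noncomputable def cost (α₁ α₂ C : ℝ) (n : ℕ) (x y : Fin n → ℝ × ℝ)
    (σ : Equiv.Perm (Fin n)) : ℝ :=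
  max (∑ i, Real.exp ((1 / C * √((n : ℝ) / Real.log n) * |(x i).1 - (y (σ i)).1|) ^ α₁))
      (∑ i, Real.exp ((1 / C * √((n : ℝ) / Real.log n) * |(x i).2 - (y (σ i)).2|) ^ α₂))

/-- `E (min_σ M_n(σ))` for `2n` independent points, each uniform on the unit square. -/
noncomputable def expectedMin (α₁ α₂ C : ℝ) (n : ℕ) : ℝ :=
  ∫ z : (Fin n → ℝ × ℝ) × (Fin n → ℝ × ℝ),
    Finset.univ.inf' Finset.univ_nonempty (fun σ => cost α₁ α₂ C n z.1 z.2 σ)
    ∂((Measure.pi fun _ => unifSq).prod (Measure.pi fun _ => unifSq))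

end Pool.Agent.Results.MP_c6df36_pr.ExpectationForm
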