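import Mathlib
import Pool.Agent.H2.SPL.ExpectationFormDefs

set_option autoImplicit false

open MeasureTheory Filter Topology

namespace Pool.Agent.Results.MP_c6df36_pr.ExpectationForm


lemma unifSq_prod (s t : Set ℝ) (hs : MeasurableSet s) (ht : MeasurableSet t) :
    unifSq (s ×ˢ t) = volume (s ∩ Set.Icc 0 1) * volume (t ∩ Set.Icc 0 1) := by
  unfold unifSq
  rw [Measure.restrict_apply (hs.prod ht), Set.prod_inter_prod, Measure.volume_eq_prod,
    Measure.prod_prod]

instance : IsProbabilityMeasure unifSq := by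
  constructor
  have h := unifSq_prod Set.univ Set.univ MeasurableSet.univ MeasurableSet.univ
  rw [Set.univ_prod_univ] at h
  rw [h]
  simp

lemma unifSq_left : unifSq (Set.Icc (0 : ℝ) (1 / 3) ×ˢ Set.univ) = ENNReal.ofReal (1 / 3) := by
  rw [unifSq_prod _ _ measurableSet_Icc MeasurableSet.univ]
  have : Set.Icc (0 : ℝ) (1 / 3) ∩ Set.Icc 0 1 = Set.Icc 0 (1 / 3) := by
    ext x
    simp only [Set.mem_inter_iff, Set.mem_Icc]
    constructor
    · rintro ⟨h, _⟩; exact h
    · rintro ⟨h1, h2⟩; exact ⟨⟨h1, h2⟩, h1, by linarith⟩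
  rw [this]
  simp

lemma unifSq_right : unifSq (Set.Icc (2 / 3 : ℝ) 1 ×ˢ Set.univ) = ENNReal.ofReal (1 / 3) := by
  rw [unifSq_prod _ _ measurableSet_Icc MeasurableSet.univ]
  have : Set.Icc (2 / 3 : ℝ) 1 ∩ Set.Icc 0 1 = Set.Icc (2 / 3) 1 := by
    ext x
    simp only [Set.mem_inter_iff, Set.mem_Icc]
    constructor
    · rintro ⟨h, _⟩; exact h
    · rintro ⟨h1, h2⟩; exact ⟨⟨h1, h2⟩, by linarith, h2⟩
  rw [this, Real.volume_Icc]
  norm_num

/-- The event that every `X_i` lies in the left third and every `Y_i` in the right third. -/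
def badEvent (n : ℕ) : Set ((Fin n → ℝ × ℝ) × (Fin n → ℝ × ℝ)) :=
  (Set.univ.pi fun _ => Set.Icc (0 : ℝ) (1 / 3) ×ˢ Set.univ) ×ˢ
    (Set.univ.pi fun _ => Set.Icc (2 / 3 : ℝ) 1 ×ˢ Set.univ)

lemma badEvent_measurable (n : ℕ) : MeasurableSet (badEvent n) := by
  unfold badEvent
  refine MeasurableSet.prod ?_ ?_
  · exact MeasurableSet.univ_pi fun _ => measurableSet_Icc.prod MeasurableSet.univ
  · exact MeasurableSet.univ_pi fun _ => measurableSet_Icc.prod MeasurableSet.univ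

lemma badEvent_measure (n : ℕ) :
    (((Measure.pi fun _ : Fin n => unifSq).prod (Measure.pi fun _ : Fin n => unifSq)).real
      (badEvent n)) = (1 / 9 : ℝ) ^ n := by
  unfold badEvent Measure.real
  rw [Measure.prod_prod, Measure.pi_pi, Measure.pi_pi]
  simp only [unifSq_left, unifSq_right, Finset.prod_const, Finset.card_univ, Fintype.card_fin]
  rw [← ENNReal.ofReal_pow (by norm_num), ← ENNReal.ofReal_mul (by positivity),
    ENNReal.toReal_ofReal (by positivity), ← mul_pow]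
  norm_num

lemma cost_measurable {α₁ α₂ C : ℝ} (n : ℕ) (σ : Equiv.Perm (Fin n)) :
    Measurable (fun z : (Fin n → ℝ × ℝ) × (Fin n → ℝ × ℝ) => cost α₁ α₂ C n z.1 z.2 σ) := by
  unfold cost
  refine Measurable.max ?_ ?_
  · refine Finset.measurable_sum _ fun i _ => ?_
    refine Real.measurable_exp.comp ?_
    refine Measurable.pow_const ?_ _
    refine Measurable.const_mul ?_ _
    fun_prop
  · refine Finset.measurable_sum _ fun i _ => ?_
    refine Real.measurable_exp.comp ?_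
    refine Measurable.pow_const ?_ _
    refine Measurable.const_mul ?_ _
    fun_prop

lemma min_measurable {α₁ α₂ C : ℝ} (n : ℕ) :
    Measurable (fun z : (Fin n → ℝ × ℝ) × (Fin n → ℝ × ℝ) =>
      Finset.univ.inf' Finset.univ_nonempty (fun σ => cost α₁ α₂ C n z.1 z.2 σ)) := by
  have h : Measurable (Finset.univ.inf' (Finset.univ_nonempty (α := Equiv.Perm (Fin n)))
      (fun σ => fun z : (Fin n → ℝ × ℝ) × (Fin n → ℝ × ℝ) => cost α₁ α₂ C n z.1 z.2 σ)) :=
    Finset.inf'_induction _ _ (fun _ hf _ hg => hf.inf hg) fun σ _ => cost_measurable n σ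
  convert h using 1
  ext z
  rw [Finset.inf'_apply]

lemma cost_pos {α₁ α₂ C : ℝ} {n : ℕ} (x y : Fin n → ℝ × ℝ) (σ : Equiv.Perm (Fin n)) :
    0 ≤ cost α₁ α₂ C n x y σ := by
  unfold cost
  exact le_max_of_le_left (Finset.sum_nonneg fun i _ => (Real.exp_pos _).le)

lemma term_le {α C r : ℝ} (hα : 0 < α) (hC : 0 < C) {n : ℕ} (hr0 : 0 ≤ r) (hr : r ≤ 1) :
    Real.exp ((1 / C * √((n : ℝ) / Real.log n) * r) ^ α) ≤
      Real.exp ((1 / C * √((n : ℝ) / Real.log n)) ^ α) := by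
  apply Real.exp_le_exp.mpr
  apply Real.rpow_le_rpow (by positivity) _ hα.le
  have : 0 ≤ 1 / C * √((n : ℝ) / Real.log n) := by positivity
  nlinarith

lemma ae_unit (n : ℕ) :
    ∀ᵐ z ∂((Measure.pi fun _ : Fin n => unifSq).prod (Measure.pi fun _ : Fin n => unifSq)),
      (∀ i, z.1 i ∈ Set.Icc (0 : ℝ) 1 ×ˢ Set.Icc (0 : ℝ) 1) ∧
      (∀ i, z.2 i ∈ Set.Icc (0 : ℝ) 1 ×ˢ Set.Icc (0 : ℝ) 1) := by
  have hsq : ∀ᵐ w ∂unifSq, w ∈ Set.Icc (0 : ℝ) 1 ×ˢ Set.Icc (0 : ℝ) 1 := by
    unfold unifSq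
    exact ae_restrict_mem (measurableSet_Icc.prod measurableSet_Icc)
  have hpi : ∀ᵐ x ∂(Measure.pi fun _ : Fin n => unifSq),
      ∀ i, x i ∈ Set.Icc (0 : ℝ) 1 ×ˢ Set.Icc (0 : ℝ) 1 := by
    rw [ae_all_iff]
    intro i
    exact (Measure.quasiMeasurePreserving_eval (μ := fun _ : Fin n => unifSq) i).ae hsq
  have h1 := (Measure.quasiMeasurePreserving_fst
    (μ := Measure.pi fun _ : Fin n => unifSq) (ν := Measure.pi fun _ : Fin n => unifSq)).ae hpi
  have h2 := (Measure.quasiMeasurePreserving_snd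
    (μ := Measure.pi fun _ : Fin n => unifSq) (ν := Measure.pi fun _ : Fin n => unifSq)).ae hpi
  filter_upwards [h1, h2] with z hz1 hz2
  exact ⟨hz1, hz2⟩

lemma min_integrable {α₁ α₂ C : ℝ} (h₁ : 0 < α₁) (h₂ : 0 < α₂) (hC : 0 < C) (n : ℕ) :
    Integrable (fun z : (Fin n → ℝ × ℝ) × (Fin n → ℝ × ℝ) =>
      Finset.univ.inf' Finset.univ_nonempty (fun σ => cost α₁ α₂ C n z.1 z.2 σ))
      ((Measure.pi fun _ => unifSq).prod (Measure.pi fun _ => unifSq)) := by
  refine Integrable.of_bound (min_measurable n).aestronglyMeasurable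
    (max ((n : ℝ) * Real.exp ((1 / C * √((n : ℝ) / Real.log n)) ^ α₁))
      ((n : ℝ) * Real.exp ((1 / C * √((n : ℝ) / Real.log n)) ^ α₂))) ?_
  filter_upwards [ae_unit n] with z hz
  have hnn : 0 ≤ Finset.univ.inf' Finset.univ_nonempty (fun σ => cost α₁ α₂ C n z.1 z.2 σ) := by
    rw [Finset.le_inf'_iff]
    intro σ _
    exact cost_pos _ _ σ
  rw [Real.norm_of_nonneg hnn]
  refine (Finset.inf'_le _ (Finset.mem_univ (1 : Equiv.Perm (Fin n)))).trans ?_
  unfold cost
  have hab : ∀ a b : ℝ, a ∈ Set.Icc (0 : ℝ) 1 → b ∈ Set.Icc (0 : ℝ) 1 → |a - b| ≤ 1 := by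
    intro a b ha hb
    rw [abs_le]
    constructor <;> linarith [ha.1, ha.2, hb.1, hb.2]
  apply max_le_max
  · calc _ ≤ ∑ _i : Fin n, Real.exp ((1 / C * √((n : ℝ) / Real.log n)) ^ α₁) :=
          Finset.sum_le_sum fun i _ => term_le h₁ hC (abs_nonneg _)
            (hab _ _ (hz.1 i).1 (hz.2 _).1)
      _ = _ := by simp
  · calc _ ≤ ∑ _i : Fin n, Real.exp ((1 / C * √((n : ℝ) / Real.log n)) ^ α₂) :=
          Finset.sum_le_sum fun i _ => term_le h₂ hC (abs_nonneg _)
            (hab _ _ (hz.1 i).2 (hz.2 _).2)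
      _ = _ := by simp

/-- Lower bound: the event `badEvent` alone gives a huge contribution. -/
lemma expectedMin_lower {α₁ α₂ C : ℝ} (h₁ : 0 < α₁) (h₂ : 0 < α₂) (hC : 0 < C) {n : ℕ}
    (hn : 1 ≤ n) :
    (1 / 9 : ℝ) ^ n * Real.exp ((1 / C * √((n : ℝ) / Real.log n) * (1 / 3)) ^ α₁) ≤
      expectedMin α₁ α₂ C n := by
  unfold expectedMin
  set P := ((Measure.pi fun _ : Fin n => unifSq).prod (Measure.pi fun _ : Fin n => unifSq))
  set f := fun z : (Fin n → ℝ × ℝ) × (Fin n → ℝ × ℝ) =>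
      Finset.univ.inf' Finset.univ_nonempty (fun σ => cost α₁ α₂ C n z.1 z.2 σ) with hf
  have hfint : Integrable f P := min_integrable h₁ h₂ hC n
  have hfnn : ∀ z, 0 ≤ f z := by
    intro z
    rw [hf]
    simp only
    rw [Finset.le_inf'_iff]
    intro σ _
    exact cost_pos _ _ σ
  have hbad : ∀ z ∈ badEvent n,
      Real.exp ((1 / C * √((n : ℝ) / Real.log n) * (1 / 3)) ^ α₁) ≤ f z := by
    intro z hz
    rw [hf]
    simp only
    rw [Finset.le_inf'_iff]
    intro σ _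
    unfold cost
    refine le_max_of_le_left ?_
    have i0 : Fin n := ⟨0, by omega⟩
    refine le_trans ?_ (Finset.single_le_sum (f := fun i => Real.exp
      ((1 / C * √((n : ℝ) / Real.log n) * |(z.1 i).1 - (z.2 (σ i)).1|) ^ α₁))
      (fun i _ => (Real.exp_pos _).le) (Finset.mem_univ i0))
    apply Real.exp_le_exp.mpr
    apply Real.rpow_le_rpow (by positivity) _ h₁.le
    apply mul_le_mul_of_nonneg_left _ (by positivity)
    have hx : (z.1 i0).1 ∈ Set.Icc (0 : ℝ) (1 / 3) := (hz.1 i0 (Set.mem_univ _)).1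
    have hy : (z.2 (σ i0)).1 ∈ Set.Icc (2 / 3 : ℝ) 1 := (hz.2 (σ i0) (Set.mem_univ _)).1
    rw [abs_sub_comm]
    refine le_trans ?_ (le_abs_self _)
    linarith [hx.2, hy.1]
  have h := setIntegral_ge_of_const_le (μ := P) (badEvent_measurable n)
    (measure_ne_top P _) hbad hfint.integrableOn
  rw [badEvent_measure n] at h
  calc _ ≤ ∫ x in badEvent n, f x ∂P := by simpa using h
    _ ≤ ∫ x, f x ∂P := setIntegral_le_integral hfint (ae_of_all _ hfnn)

/-- Both exponents exceed `2` when `1/α₁ + 1/α₂ = 1/2`. -/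
lemma two_lt {α₁ α₂ : ℝ} (h₁ : 0 < α₁) (h₂ : 0 < α₂) (h : 1 / α₁ + 1 / α₂ = 1 / 2) :
    2 < α₁ := by
  have h3 : 0 < 1 / α₂ := by positivity
  have h4 : 1 / α₁ < 1 / 2 := by linarith
  exact (one_div_lt_one_div h₁ (by norm_num)).mp h4

lemma growth {α C : ℝ} (hα : 2 < α) (hC : 0 < C) (K : ℝ) :
    ∀ᶠ n : ℕ in atTop,
      K * n < (1 / C * √((n : ℝ) / Real.log n) * (1 / 3)) ^ α := by
  have hα0 : 0 < α := by linarith
  set s : ℝ := (α - 2) / (2 * α) with hs
  have hs0 : 0 < s := by rw [hs]; apply div_pos <;> linarith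
  set q : ℝ := (α + 2) / 4 with hq
  have hq1 : 1 < q := by rw [hq]; linarith
  have hqs : (1 - s) / 2 * α = q := by
    rw [hs, hq]; field_simp; ring
  -- `log n ≤ n ^ s` eventually
  have hlog : ∀ᶠ x : ℝ in atTop, Real.log x ≤ x ^ s := by
    have := (isLittleO_log_rpow_atTop hs0).bound (c := 1) one_pos
    filter_upwards [this, eventually_ge_atTop (1 : ℝ)] with x hx hx1
    rw [one_mul, Real.norm_of_nonneg (Real.log_nonneg hx1),
      Real.norm_of_nonneg (by positivity)] at hx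
    exact hx
  -- `n ^ (q - 1)` tends to infinity
  set A : ℝ := (1 / C * (1 / 3)) ^ α with hA
  have hA0 : 0 < A := by rw [hA]; positivity
  have hbig : ∀ᶠ x : ℝ in atTop, K / A < x ^ (q - 1) :=
    (tendsto_rpow_atTop (by linarith)).eventually_gt_atTop _
  have main : ∀ᶠ x : ℝ in atTop,
      K * x < (1 / C * √(x / Real.log x) * (1 / 3)) ^ α := by
    filter_upwards [hlog, hbig, eventually_gt_atTop (1 : ℝ)] with x hx1 hx2 hx3
    have hx0 : 0 < x := by linarith
    have hlogpos : 0 < Real.log x := Real.log_pos hx3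
    have h1 : x ^ (1 - s) ≤ x / Real.log x := by
      rw [le_div_iff₀ hlogpos]
      calc x ^ (1 - s) * Real.log x ≤ x ^ (1 - s) * x ^ s := by gcongr
        _ = x := by rw [← Real.rpow_add hx0]; simp
    have h2 : x ^ ((1 - s) / 2) ≤ √(x / Real.log x) := by
      apply Real.le_sqrt_of_sq_le
      calc (x ^ ((1 - s) / 2)) ^ 2 = x ^ (1 - s) := by
            rw [← Real.rpow_natCast, ← Real.rpow_mul hx0.le]; norm_num
        _ ≤ _ := h1
    have h3 : A * x ^ q ≤ (1 / C * √(x / Real.log x) * (1 / 3)) ^ α := by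
      calc A * x ^ q = (1 / C * x ^ ((1 - s) / 2) * (1 / 3)) ^ α := by
            rw [hA, ← hqs, Real.rpow_mul hx0.le, ← Real.mul_rpow (by positivity) (by positivity)]
            congr 1; ring
        _ ≤ _ := by
            apply Real.rpow_le_rpow (by positivity) _ hα0.le
            gcongr
    have h4 : K * x < A * x ^ q := by
      have : x ^ q = x ^ (q - 1) * x := by
        rw [← Real.rpow_add_one hx0.ne']; ring_nf
      rw [this]
      rw [div_lt_iff₀ hA0] at hx2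
      nlinarith
    linarith
  exact tendsto_natCast_atTop_atTop.eventually main

/-- For every admissible pair of exponents and every constant `C > 0`, the expectation
`E (min_σ M_n(σ))` grows faster than every exponential `e^{Kn}`; in particular it is not `O(n)`. -/
theorem result_proof :
    ∀ α₁ α₂ : ℝ, 0 < α₁ → 0 < α₂ → 1 / α₁ + 1 / α₂ = 1 / 2 →
      ∀ C : ℝ, 0 < C → ∀ K : ℝ,
        ∀ᶠ n : ℕ in atTop, Real.exp (K * n) < expectedMin α₁ α₂ C n := by
  intro α₁ α₂ h₁ h₂ h C hC K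
  have hα := two_lt h₁ h₂ h
  filter_upwards [growth hα hC (K + Real.log 9), eventually_ge_atTop 1] with n hn hn1
  refine lt_of_lt_of_le ?_ (expectedMin_lower h₁ h₂ hC hn1)
  have h9 : (1 / 9 : ℝ) ^ n = Real.exp (-(Real.log 9 * n)) := by
    rw [Real.exp_neg, mul_comm, Real.exp_nat_mul, Real.exp_log (by norm_num)]
    simp
  rw [h9, ← Real.exp_add]
  apply Real.exp_lt_exp.mpr
  nlinarith

end Pool.Agent.Results.MP_c6df36_pr.ExpectationForm
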