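import Mathlib

/-!
# Convex bodies containing `k`-fold packings of unit balls (high dimensions)

For every `k` there is `d₀` such that for `d ≥ d₀`, every convex body of `ℝ^d` which contains a
`k`-fold packing of `n ≥ k` unit balls has volume at least that of the sausage of `⌊n/k⌋` balls.

Sketch. Take two centres `a, b` at maximal distance `Δ` and sort the centres by their projection
on the line `ab`.  If `k + 1` consecutive centres all lie within distance `1/2` of the segment `ab`,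
the part of the body over the interval between their extreme projections has volume at least
`2 κ_{d-1}`: the interval has length `L ≥ 1`, some centre has distance `w` from the axis with
`L^2/4 + w^2 ≥ 1`, and the triangle on `a, b` and this centre contributes `≥ (L w / 8) κ_{d-2}`.
If some centre is farther than `1/2` from the axis, then every centre `x` whose projection lies
between those of two such centres has volume at least `c_k κ_{d-2}` of the body within distance
`1 + σ` of it, and the balls of radius `1 + σ` cover only a small set more than `k` times, because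
`k + 1` of them meet in a set of small diameter (parallelogram law).
Since `κ_{d-2} / κ_{d-1} → ∞` these centres give a surplus which pays for everything else.
-/

open MeasureTheory Metric Module Set
open scoped ENNReal RealInnerProductSpace Pointwise

set_option linter.unusedSectionVars false

namespace Pool.Agent.Results.MP_fe456b_co.KFoldSausage

section slice
variable {E : Type*} [NormedAddCommGroup E] [InnerProductSpace ℝ E] [FiniteDimensional ℝ E]
  [MeasurableSpace E] [BorelSpace E]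

/-- The map `(s, v) ↦ a + s • u + v` is measure preserving. -/
lemma mp_slice (a u : E) (hu : ‖u‖ = 1) :
    MeasurePreserving (fun q : ℝ × (ℝ ∙ u)ᗮ => a + (q.1 • u + (q.2 : E)))
      ((volume : Measure ℝ).prod (volume : Measure (ℝ ∙ u)ᗮ)) volume := by
  have h1 : MeasurePreserving (fun x : E => a + x) volume volume :=
    measurePreserving_add_left volume a
  have h2 : MeasurePreserving ((ℝ ∙ u).orthogonalDecomposition.symm) volume volume :=
    LinearIsometryEquiv.measurePreserving _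
  have h3 : MeasurePreserving (@WithLp.toLp 2 ((ℝ ∙ u) × (ℝ ∙ u)ᗮ)) volume volume :=
    WithLp.volume_preserving_toLp _ _
  have h4 : MeasurePreserving (LinearIsometryEquiv.toSpanUnitSingleton (𝕜 := ℝ) u hu)
      volume volume := LinearIsometryEquiv.measurePreserving _
  have h5 : MeasurePreserving
      (Prod.map (LinearIsometryEquiv.toSpanUnitSingleton (𝕜 := ℝ) u hu) (id : (ℝ ∙ u)ᗮ → _))
      ((volume : Measure ℝ).prod (volume : Measure (ℝ ∙ u)ᗮ))
      ((volume : Measure (ℝ ∙ u)).prod (volume : Measure (ℝ ∙ u)ᗮ)) :=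
    h4.prod (MeasurePreserving.id _)
  have h6 := ((h1.comp h2).comp h3).comp h5
  convert h6 using 1
  funext q
  simp

lemma slice (a u : E) (hu : ‖u‖ = 1) {A : Set E} (hA : MeasurableSet A) :
    volume A = ∫⁻ s : ℝ, volume {v : (ℝ ∙ u)ᗮ | a + (s • u + (v : E)) ∈ A} := by
  have h := mp_slice a u hu
  rw [← h.measure_preimage hA.nullMeasurableSet, Measure.prod_apply (h.measurable hA)]
  rfl

end slice


/-- volume of the `n`-dimensional unit ball -/
noncomputable def kap (n : ℕ) : ℝ := √Real.pi ^ n / Real.Gamma (n / 2 + 1)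

lemma kap_pos (n : ℕ) : 0 < kap n := by
  unfold kap
  have : 0 < Real.Gamma ((n : ℝ) / 2 + 1) := Real.Gamma_pos_of_pos (by positivity)
  positivity

/-- ratio bound -/
lemma kap_ratio (n : ℕ) : √((n + 1 : ℝ) / (2 * Real.pi)) * kap (n + 1) ≤ kap n := by
  have hG : 0 < Real.Gamma ((n : ℝ) / 2 + 1) := Real.Gamma_pos_of_pos (by positivity)
  have hG3 : 0 < Real.Gamma ((n : ℝ) / 2 + 3 / 2) := Real.Gamma_pos_of_pos (by positivity)
  have hG1 : 0 < Real.Gamma ((n : ℝ) / 2 + 1 / 2) := Real.Gamma_pos_of_pos (by positivity)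
  have hlc := Real.Gamma_mul_add_mul_le_rpow_Gamma_mul_rpow_Gamma (s := (n : ℝ) / 2 + 1 / 2)
    (t := (n : ℝ) / 2 + 3 / 2) (a := 1 / 2) (b := 1 / 2) (by positivity) (by positivity)
    (by norm_num) (by norm_num) (by norm_num)
  have e1 : (1 / 2 : ℝ) * ((n : ℝ) / 2 + 1 / 2) + 1 / 2 * ((n : ℝ) / 2 + 3 / 2) = (n : ℝ) / 2 + 1 := by
    ring
  rw [e1, ← Real.sqrt_eq_rpow, ← Real.sqrt_eq_rpow] at hlc
  have hrec : Real.Gamma ((n : ℝ) / 2 + 3 / 2) = ((n : ℝ) / 2 + 1 / 2) * Real.Gamma ((n : ℝ) / 2 + 1 / 2) := by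
    have := Real.Gamma_add_one (s := (n : ℝ) / 2 + 1 / 2) (by positivity)
    rw [← this]; congr 1; ring
  -- Γ(n/2+1) * √(n/2+1/2) ≤ Γ(n/2+3/2)
  have key : Real.Gamma ((n : ℝ) / 2 + 1) * √((n : ℝ) / 2 + 1 / 2) ≤ Real.Gamma ((n : ℝ) / 2 + 3 / 2) := by
    have h1 : √(Real.Gamma ((n : ℝ) / 2 + 1 / 2)) * √((n : ℝ) / 2 + 1 / 2)
        = √(Real.Gamma ((n : ℝ) / 2 + 3 / 2)) := by
      rw [hrec, ← Real.sqrt_mul hG1.le, mul_comm]
    calc Real.Gamma ((n : ℝ) / 2 + 1) * √((n : ℝ) / 2 + 1 / 2)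
        ≤ (√(Real.Gamma ((n : ℝ) / 2 + 1 / 2)) * √(Real.Gamma ((n : ℝ) / 2 + 3 / 2))) * √((n : ℝ) / 2 + 1 / 2) := by
          gcongr
      _ = √(Real.Gamma ((n : ℝ) / 2 + 3 / 2)) * √(Real.Gamma ((n : ℝ) / 2 + 3 / 2)) := by
          rw [← h1]; ring
      _ = _ := Real.mul_self_sqrt hG3.le
  unfold kap
  have e2 : ((n + 1 : ℕ) : ℝ) / 2 + 1 = (n : ℝ) / 2 + 3 / 2 := by push_cast; ring
  rw [e2, pow_succ, mul_div_assoc', div_le_div_iff₀ hG3 hG]
  have hsq : √((n + 1 : ℝ) / (2 * Real.pi)) * √Real.pi = √((n : ℝ) / 2 + 1 / 2) := by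
    rw [← Real.sqrt_mul (by positivity)]
    congr 1
    field_simp
  calc √((n + 1 : ℝ) / (2 * Real.pi)) * (√Real.pi ^ n * √Real.pi) * Real.Gamma ((n : ℝ) / 2 + 1)
      = √Real.pi ^ n * (Real.Gamma ((n : ℝ) / 2 + 1) * (√((n + 1 : ℝ) / (2 * Real.pi)) * √Real.pi)) := by ring
    _ ≤ √Real.pi ^ n * Real.Gamma ((n : ℝ) / 2 + 3 / 2) := by
        rw [hsq]; gcongr

lemma kap_succ_le (n : ℕ) (hn : 1 ≤ n) : kap (n + 1) ≤ 2 * kap n := by
  have h := kap_ratio n
  have hpi := Real.pi_lt_four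
  have h1 : (1 / 2 : ℝ) ≤ √((n + 1 : ℝ) / (2 * Real.pi)) := by
    apply Real.le_sqrt_of_sq_le
    rw [le_div_iff₀ (by positivity)]
    have : (1 : ℝ) ≤ n := by exact_mod_cast hn
    nlinarith
  have h2 := kap_pos (n + 1)
  nlinarith [mul_le_mul_of_nonneg_right h1 h2.le]

lemma kap_ratio_tendsto (C : ℝ) : ∃ N : ℕ, ∀ n, N ≤ n → C * kap (n + 1) ≤ kap n := by
  obtain ⟨N, hN⟩ := exists_nat_gt (2 * Real.pi * C ^ 2)
  refine ⟨N, fun n hn => ?_⟩
  have h := kap_ratio n
  have h2 := kap_pos (n + 1)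
  have hn' : (N : ℝ) ≤ n := by exact_mod_cast hn
  have : C ≤ √((n + 1 : ℝ) / (2 * Real.pi)) := by
    apply Real.le_sqrt_of_sq_le
    rw [le_div_iff₀ (by positivity)]
    nlinarith
  nlinarith [mul_le_mul_of_nonneg_right this h2.le]

section balls
variable {E : Type*} [NormedAddCommGroup E] [InnerProductSpace ℝ E] [FiniteDimensional ℝ E]
  [MeasurableSpace E] [BorelSpace E]

lemma vol_cball [Nontrivial E] (x : E) {r : ℝ} (hr : 0 ≤ r) :
    volume (closedBall x r) = ENNReal.ofReal (r ^ finrank ℝ E * kap (finrank ℝ E)) := by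
  rw [InnerProductSpace.volume_closedBall, ENNReal.ofReal_mul (by positivity), ENNReal.ofReal_pow hr]; rfl

lemma vol_cball_one [Nontrivial E] (x : E) :
    volume (closedBall x 1) = ENNReal.ofReal (kap (finrank ℝ E)) := by
  rw [vol_cball x zero_le_one]; simp

lemma vol_ball_one [Nontrivial E] (x : E) :
    volume (ball x 1) = ENNReal.ofReal (kap (finrank ℝ E)) := by
  rw [← vol_cball_one x, Measure.addHaar_closedBall_eq_addHaar_ball]

lemma halfball_eq (a u : E) : volume (closedBall a 1 ∩ {p | ⟪p - a, u⟫ < 0}) =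
    volume (closedBall a 1 ∩ {p | 0 < ⟪p - a, u⟫}) := by
  have h : MeasurePreserving (fun p : E => (a + a) - p) volume volume :=
    Measure.measurePreserving_sub_left volume (a + a)
  have hm : MeasurableSet (closedBall a 1 ∩ {p | 0 < ⟪p - a, u⟫}) := by
    apply measurableSet_closedBall.inter
    exact measurableSet_lt measurable_const (by fun_prop)
  rw [← h.measure_preimage hm.nullMeasurableSet]
  congr 1
  ext p
  have e : a + a - p - a = -(p - a) := by abel
  simp only [mem_inter_iff, mem_closedBall, dist_eq_norm, mem_ofPred_eq, mem_preimage, e, norm_neg,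
    inner_neg_left, Left.neg_pos_iff]

lemma hyperplane_null (a u : E) (hu : ‖u‖ = 1) : volume {p : E | ⟪p - a, u⟫ = 0} = 0 := by
  have hne : (ℝ ∙ u)ᗮ ≠ ⊤ := by
    intro h
    have : u ∈ (ℝ ∙ u)ᗮ := by rw [h]; trivial
    rw [Submodule.mem_orthogonal_singleton_iff_inner_right] at this
    rw [real_inner_self_eq_norm_sq, hu] at this
    norm_num at this
  have h0 := Measure.addHaar_submodule (volume : Measure E) _ hne
  have : {p : E | ⟪p - a, u⟫ = 0} = (fun x => -a + x) ⁻¹' ((ℝ ∙ u)ᗮ : Set E) := by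
    ext p
    simp only [mem_ofPred_eq, mem_preimage, SetLike.mem_coe,
      Submodule.mem_orthogonal_singleton_iff_inner_right]
    rw [real_inner_comm, sub_eq_neg_add]
  rw [this, measure_preimage_add, h0]

lemma halfball_ge [Nontrivial E] (a u : E) (hu : ‖u‖ = 1) :
    ENNReal.ofReal (kap (finrank ℝ E) / 2) ≤ volume (closedBall a 1 ∩ {p | ⟪p - a, u⟫ < 0}) := by
  have h1 : closedBall a 1 ⊆ (closedBall a 1 ∩ {p | ⟪p - a, u⟫ < 0}) ∪
      (closedBall a 1 ∩ {p | 0 < ⟪p - a, u⟫}) ∪ {p : E | ⟪p - a, u⟫ = 0} := by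
    intro p hp
    rcases lt_trichotomy ⟪p - a, u⟫ 0 with h | h | h
    · exact Or.inl (Or.inl ⟨hp, h⟩)
    · exact Or.inr h
    · exact Or.inl (Or.inr ⟨hp, h⟩)
  have h2 := measure_mono (μ := volume) h1
  rw [vol_cball_one] at h2
  have h3 := h2.trans ((measure_union_le _ _).trans (add_le_add_left (measure_union_le _ _) _))
  rw [hyperplane_null a u hu, add_zero, ← halfball_eq, ← two_mul] at h3
  rw [ENNReal.ofReal_div_of_pos (by norm_num)]
  rw [ENNReal.div_le_iff (by norm_num) (by norm_num)]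
  rw [mul_comm]
  simpa using h3

lemma halfball_le [Nontrivial E] (a u : E) :
    volume (closedBall a 1 ∩ {p | ⟪p - a, u⟫ < 0}) ≤ ENNReal.ofReal (kap (finrank ℝ E) / 2) := by
  have h1 : (closedBall a 1 ∩ {p | ⟪p - a, u⟫ < 0}) ∪
      (closedBall a 1 ∩ {p | 0 < ⟪p - a, u⟫}) ⊆ closedBall a 1 := by
    intro p hp
    rcases hp with h | h
    · exact h.1
    · exact h.1
  have h2 := measure_mono (μ := volume) h1
  rw [vol_cball_one] at h2
  have hm : MeasurableSet (closedBall a 1 ∩ {p | 0 < ⟪p - a, u⟫}) := by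
    apply measurableSet_closedBall.inter
    exact measurableSet_lt measurable_const (by fun_prop)
  rw [measure_union _ hm, ← halfball_eq, ← two_mul] at h2
  · rw [ENNReal.ofReal_div_of_pos (by norm_num)]
    rw [ENNReal.le_div_iff_mul_le (by norm_num) (by norm_num), mul_comm]
    simpa using h2
  · rw [Set.disjoint_left]
    rintro p ⟨_, h⟩ ⟨_, h'⟩
    simp only [mem_ofPred_eq] at h h'
    linarith

end balls

section slabs
variable {E : Type*} [NormedAddCommGroup E] [InnerProductSpace ℝ E] [FiniteDimensional ℝ E]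
  [MeasurableSpace E] [BorelSpace E]

lemma inner_slice (a u : E) (hu : ‖u‖ = 1) (s : ℝ) (v : (ℝ ∙ u)ᗮ) :
    ⟪a + (s • u + (v : E)) - a, u⟫ = s := by
  have hv : ⟪(v : E), u⟫ = 0 := by
    have := Submodule.mem_orthogonal_singleton_iff_inner_left.mp v.2
    exact this
  rw [add_sub_cancel_left, inner_add_left, hv, real_inner_smul_left, real_inner_self_eq_norm_sq, hu]
  norm_num

/-- lower bound of a slab by an integral of lower bounds of slices -/
lemma slab_ge (a u : E) (hu : ‖u‖ = 1) {A : Set E} (hA : MeasurableSet A) {I : Set ℝ}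
    (hI : MeasurableSet I) (g : ℝ → ℝ≥0∞)
    (h : ∀ s ∈ I, g s ≤ volume {v : (ℝ ∙ u)ᗮ | a + (s • u + (v : E)) ∈ A}) :
    ∫⁻ s in I, g s ≤ volume (A ∩ {p | ⟪p - a, u⟫ ∈ I}) := by
  have hm : MeasurableSet {p : E | ⟪p - a, u⟫ ∈ I} := by
    have : Measurable (fun p : E => ⟪p - a, u⟫) := by fun_prop
    exact this hI
  rw [slice a u hu (hA.inter hm), ← lintegral_indicator hI]
  apply lintegral_mono
  intro s
  by_cases hs : s ∈ I
  · simp only [hs, indicator_of_mem]
    refine (h s hs).trans (measure_mono ?_)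
    intro v hv
    refine ⟨hv, ?_⟩
    simp only [mem_ofPred_eq, inner_slice a u hu]
    exact hs
  · simp [hs]

lemma slab_le (a u : E) (hu : ‖u‖ = 1) {A : Set E} (hA : MeasurableSet A) {I : Set ℝ}
    (hI : MeasurableSet I) (c : ℝ≥0∞) (hAI : ∀ p ∈ A, ⟪p - a, u⟫ ∈ I)
    (h : ∀ s ∈ I, volume {v : (ℝ ∙ u)ᗮ | a + (s • u + (v : E)) ∈ A} ≤ c) :
    volume A ≤ c * volume I := by
  rw [slice a u hu hA, ← lintegral_indicator_const hI]
  apply lintegral_mono
  intro s
  by_cases hs : s ∈ I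
  · simp only [hs, indicator_of_mem]
    exact h s hs
  · simp only [hs, not_false_eq_true, indicator_of_notMem, nonpos_iff_eq_zero]
    have : {v : (ℝ ∙ u)ᗮ | a + (s • u + (v : E)) ∈ A} = ∅ := by
      ext v
      simp only [mem_ofPred_eq, mem_empty_iff_false, iff_false]
      intro hv
      have := hAI _ hv
      rw [inner_slice a u hu] at this
      exact hs this
    rw [this]; simp

lemma finrank_orth (n : ℕ) (hE : finrank ℝ E = n + 1) (u : E) (hu : ‖u‖ = 1) :
    finrank ℝ (ℝ ∙ u)ᗮ = n := by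
  have : Fact (finrank ℝ E = n + 1) := ⟨hE⟩
  apply Submodule.finrank_orthogonal_span_singleton
  intro h
  rw [h] at hu
  simp at hu

lemma nontriv (n : ℕ) (hE : finrank ℝ E = n + 1) : Nontrivial E :=
  Module.nontrivial_of_finrank_pos (R := ℝ) (by omega)

/-- the stadium lower bound -/
lemma stadium_ge (n : ℕ) (hE : finrank ℝ E = n + 2) (a u : E) (hu : ‖u‖ = 1) (f : ℝ) (hf : 0 ≤ f)
    {A : Set E} (hA : MeasurableSet A) (h : ∀ r ∈ Icc 0 f, closedBall (a + r • u) 1 ⊆ A) :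
    ENNReal.ofReal (kap (n + 2) + f * kap (n + 1)) ≤ volume A := by
  have hEn : Nontrivial E := nontriv (n + 1) hE
  have hF : finrank ℝ (ℝ ∙ u)ᗮ = n + 1 := finrank_orth (n + 1) hE u hu
  have hFn : Nontrivial (ℝ ∙ u)ᗮ := nontriv n hF
  have hmeas : Measurable (fun p : E => ⟪p - a, u⟫) := by fun_prop
  set A1 := A ∩ {p | ⟪p - a, u⟫ < 0} with hA1
  set A2 := A ∩ {p | ⟪p - a, u⟫ ∈ Icc 0 f} with hA2
  set A3 := A ∩ {p | f < ⟪p - a, u⟫} with hA3
  have hm2 : MeasurableSet A2 := hA.inter (hmeas measurableSet_Icc)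
  have hm3 : MeasurableSet A3 := hA.inter (hmeas measurableSet_Ioi)
  have e1 : ENNReal.ofReal (kap (n + 2) / 2) ≤ volume A1 := by
    have := halfball_ge a u hu
    rw [hE] at this
    refine this.trans (measure_mono ?_)
    intro p hp
    refine ⟨?_, hp.2⟩
    have := h 0 ⟨le_refl _, hf⟩
    simp only [zero_smul, add_zero] at this
    exact this hp.1
  have e3 : ENNReal.ofReal (kap (n + 2) / 2) ≤ volume A3 := by
    have := halfball_ge (a + f • u) (-u) (by rwa [norm_neg])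
    rw [hE] at this
    refine this.trans (measure_mono ?_)
    intro p hp
    refine ⟨h f ⟨hf, le_refl _⟩ hp.1, ?_⟩
    have h2 := hp.2
    simp only [mem_ofPred_eq, inner_neg_right, Left.neg_neg_iff] at h2 ⊢
    have : p - a = (p - (a + f • u)) + f • u := by abel
    rw [this, inner_add_left, real_inner_smul_left, real_inner_self_eq_norm_sq, hu]
    linarith
  have e2 : ENNReal.ofReal (f * kap (n + 1)) ≤ volume A2 := by
    have := slab_ge a u hu hA (measurableSet_Icc (a := (0 : ℝ)) (b := f))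
      (fun _ => ENNReal.ofReal (kap (n + 1))) ?_
    · rw [lintegral_const, Measure.restrict_apply MeasurableSet.univ, univ_inter, Real.volume_Icc,
        sub_zero, ← ENNReal.ofReal_mul (kap_pos _).le, mul_comm] at this
      exact this
    · intro s hs
      have hc : ENNReal.ofReal (kap (n + 1)) = volume (closedBall (0 : (ℝ ∙ u)ᗮ) 1) := by
        rw [vol_cball_one, hF]
      rw [hc]
      apply measure_mono
      intro v hv
      apply h s hs
      rw [mem_closedBall, dist_eq_norm] at hv ⊢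
      have : a + (s • u + (v : E)) - (a + s • u) = (v : E) := by abel
      rw [this]
      simpa using hv
  have hd12 : Disjoint A1 (A2 ∪ A3) := by
    rw [Set.disjoint_left]
    rintro p ⟨_, h1⟩ (⟨_, h2⟩ | ⟨_, h3⟩)
    · simp only [mem_ofPred_eq, mem_Icc] at h1 h2; linarith [h2.1]
    · simp only [mem_ofPred_eq] at h1 h3; linarith
  have hd23 : Disjoint A2 A3 := by
    rw [Set.disjoint_left]
    rintro p ⟨_, h1⟩ ⟨_, h2⟩
    simp only [mem_ofPred_eq, mem_Icc] at h1 h2; linarith [h1.2]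
  have hsub : A1 ∪ (A2 ∪ A3) ⊆ A := by
    rintro p (h1 | h1 | h1) <;> exact h1.1
  have hk := kap_pos (n + 2)
  have hk1 := kap_pos (n + 1)
  calc ENNReal.ofReal (kap (n + 2) + f * kap (n + 1))
      = ENNReal.ofReal (kap (n + 2) / 2) + (ENNReal.ofReal (f * kap (n + 1)) +
          ENNReal.ofReal (kap (n + 2) / 2)) := by
        rw [← ENNReal.ofReal_add (by positivity) (by positivity),
          ← ENNReal.ofReal_add (by positivity) (by positivity)]
        congr 1; ring
    _ ≤ volume A1 + (volume A2 + volume A3) := by gcongr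
    _ = volume (A1 ∪ (A2 ∪ A3)) := by
        rw [measure_union hd12 (hm2.union hm3), measure_union hd23 hm3]
    _ ≤ volume A := measure_mono hsub

end slabs

section saus
variable {E : Type*} [NormedAddCommGroup E] [InnerProductSpace ℝ E] [FiniteDimensional ℝ E]
  [MeasurableSpace E] [BorelSpace E]

lemma sausage_le (n : ℕ) (hE : finrank ℝ E = n + 2) (a b : E) :
    volume (segment ℝ a b + closedBall (0 : E) 1) ≤
      ENNReal.ofReal (kap (n + 2) + dist a b * kap (n + 1)) := by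
  have hEn : Nontrivial E := nontriv (n + 1) hE
  rcases eq_or_ne a b with rfl | hab
  · rw [segment_same, singleton_add_closedBall, add_zero, vol_cball_one, hE]
    apply ENNReal.ofReal_le_ofReal
    simp
  set f := dist a b with hf
  have hfpos : 0 < f := dist_pos.mpr hab
  set u : E := f⁻¹ • (b - a) with hu
  have hun : ‖u‖ = 1 := by
    rw [hu, norm_smul, norm_inv, Real.norm_eq_abs, abs_of_pos hfpos, hf, dist_comm, dist_eq_norm]
    have : ‖b - a‖ ≠ 0 := norm_ne_zero_iff.mpr (sub_ne_zero.mpr hab.symm)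
    field_simp
  have hb : b = a + f • u := by
    rw [hu, smul_smul, mul_inv_cancel₀ hfpos.ne', one_smul]; abel
  have hF : finrank ℝ (ℝ ∙ u)ᗮ = n + 1 := finrank_orth (n + 1) hE u hun
  have hFn : Nontrivial (ℝ ∙ u)ᗮ := nontriv n hF
  have hmeas : Measurable (fun p : E => ⟪p - a, u⟫) := by fun_prop
  have huu : ⟪u, u⟫ = 1 := by rw [real_inner_self_eq_norm_sq, hun]; norm_num
  set M : Set E := {p | ⟪p - a, u⟫ ∈ Icc 0 f ∧ ‖p - a - ⟪p - a, u⟫ • u‖ ≤ 1} with hM
  have hMm : MeasurableSet M := by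
    apply (hmeas measurableSet_Icc).inter
    have hmn : Measurable (fun p : E => ‖p - a - ⟪p - a, u⟫ • u‖) := by fun_prop
    exact hmn measurableSet_Iic
  have hsub : segment ℝ a b + closedBall (0 : E) 1 ⊆ (closedBall a 1 ∩ {p | ⟪p - a, u⟫ < 0}) ∪
      ((closedBall b 1 ∩ {p | ⟪p - b, -u⟫ < 0}) ∪ M) := by
    rintro p ⟨z, hz, w, hw, rfl⟩
    rw [segment_eq_image_lineMap] at hz
    obtain ⟨c, ⟨hc0, hc1⟩, rfl⟩ := hz
    rw [AffineMap.lineMap_apply, vsub_eq_sub, vadd_eq_add]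
    have hcz : c • (b - a) + a = a + (c * f) • u := by
      rw [hb, add_sub_cancel_left, smul_smul]; abel
    rw [hcz]
    set r := c * f with hr
    have hr0 : 0 ≤ r := by positivity
    have hrf : r ≤ f := by nlinarith
    have hw1 : ‖w‖ ≤ 1 := by simpa using hw
    have hw2 : ‖w‖ ^ 2 ≤ 1 := by nlinarith [norm_nonneg w]
    have e1 : a + r • u + w - a = r • u + w := by abel
    have e2 : ⟪r • u + w, u⟫ = r + ⟪w, u⟫ := by
      rw [inner_add_left, real_inner_smul_left, huu, mul_one]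
    have e3 : ∀ c : ℝ, ‖c • u + w‖ ^ 2 = c ^ 2 + 2 * c * ⟪w, u⟫ + ‖w‖ ^ 2 := by
      intro c
      rw [norm_add_sq_real, norm_smul, hun, real_inner_smul_left, real_inner_comm]
      simp; ring
    show a + r • u + w ∈ _
    by_cases h1 : r + ⟪w, u⟫ < 0
    · left
      refine ⟨?_, ?_⟩
      · rw [mem_closedBall, dist_eq_norm, e1]
        have := e3 r
        have h3 : ‖r • u + w‖ ^ 2 ≤ 1 := by
          rw [this]; nlinarith
        nlinarith [norm_nonneg (r • u + w)]
      · simp only [mem_ofPred_eq, e1, e2]; exact h1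
    · push Not at h1
      right
      by_cases h2 : f < r + ⟪w, u⟫
      · left
        have e4 : a + r • u + w - b = (r - f) • u + w := by
          rw [hb, sub_smul]; abel
        refine ⟨?_, ?_⟩
        · rw [mem_closedBall, dist_eq_norm, e4]
          have := e3 (r - f)
          have h3 : ‖(r - f) • u + w‖ ^ 2 ≤ 1 := by
            rw [this]; nlinarith
          nlinarith [norm_nonneg ((r - f) • u + w)]
        · simp only [mem_ofPred_eq, e4, inner_neg_right, Left.neg_neg_iff]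
          rw [inner_add_left, real_inner_smul_left, huu]; linarith
      · push Not at h2
        right
        refine ⟨?_, ?_⟩
        · simp only [e1, e2]; exact ⟨h1, h2⟩
        · rw [e1, e2]
          have e5 : r • u + w - (r + ⟪w, u⟫) • u = (-⟪w, u⟫) • u + w := by
            rw [add_smul, neg_smul]; abel
          rw [e5]
          have h3 : ‖(-⟪w, u⟫) • u + w‖ ^ 2 ≤ 1 := by
            rw [e3]; nlinarith [sq_nonneg ⟪w, u⟫]
          nlinarith [norm_nonneg ((-⟪w, u⟫) • u + w)]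
  have hMv : volume M ≤ ENNReal.ofReal (f * kap (n + 1)) := by
    have := slab_le a u hun hMm (measurableSet_Icc (a := (0 : ℝ)) (b := f))
      (ENNReal.ofReal (kap (n + 1))) (fun p hp => hp.1) ?_
    · rw [Real.volume_Icc, sub_zero, ← ENNReal.ofReal_mul (kap_pos _).le, mul_comm] at this
      exact this
    · intro s hs
      have hc : ENNReal.ofReal (kap (n + 1)) = volume (closedBall (0 : (ℝ ∙ u)ᗮ) 1) := by
        rw [vol_cball_one, hF]
      rw [hc]
      apply measure_mono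
      intro v hv
      have h2 := hv.2
      rw [inner_slice a u hun] at h2
      have e : a + (s • u + (v : E)) - a - s • u = (v : E) := by abel
      rw [e] at h2
      simpa using h2
  have h1 := halfball_le a u
  have h2 := halfball_le b (-u)
  rw [hE] at h1 h2
  have hk := kap_pos (n + 2)
  have hk1 := kap_pos (n + 1)
  calc volume (segment ℝ a b + closedBall (0 : E) 1)
      ≤ volume ((closedBall a 1 ∩ {p | ⟪p - a, u⟫ < 0}) ∪
      ((closedBall b 1 ∩ {p | ⟪p - b, -u⟫ < 0}) ∪ M)) := measure_mono hsub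
    _ ≤ volume (closedBall a 1 ∩ {p | ⟪p - a, u⟫ < 0}) +
        (volume (closedBall b 1 ∩ {p | ⟪p - b, -u⟫ < 0}) + volume M) := by
        refine (measure_union_le _ _).trans ?_
        gcongr
        exact measure_union_le _ _
    _ ≤ ENNReal.ofReal (kap (n + 2) / 2) + (ENNReal.ofReal (kap (n + 2) / 2) +
        ENNReal.ofReal (f * kap (n + 1))) := by gcongr
    _ = ENNReal.ofReal (kap (n + 2) + f * kap (n + 1)) := by
        rw [← ENNReal.ofReal_add (by positivity) (by positivity),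
          ← ENNReal.ofReal_add (by positivity) (by positivity)]
        congr 1; ring

/-- a slice containing a unit-ball neighbourhood of a segment -/
lemma slice_stadium (n : ℕ) (hE : finrank ℝ E = n + 3) (a u : E) (hu : ‖u‖ = 1)
    {C D : Set E} (hC : Convex ℝ C) (hD : MeasurableSet D) (hCD : ∀ z ∈ C, closedBall z 1 ⊆ D)
    (s : ℝ) (x0 v0 : (ℝ ∙ u)ᗮ) (f : ℝ) (hf0 : 0 ≤ f) (hf : f ≤ ‖v0‖)
    (h0 : a + (s • u + (x0 : E)) ∈ C) (h1 : a + (s • u + ((x0 + v0 : (ℝ ∙ u)ᗮ) : E)) ∈ C) :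
    ENNReal.ofReal (kap (n + 2) + f * kap (n + 1)) ≤
      volume {v : (ℝ ∙ u)ᗮ | a + (s • u + (v : E)) ∈ D} := by
  have hF : finrank ℝ (ℝ ∙ u)ᗮ = n + 2 := finrank_orth (n + 2) hE u hu
  have hFn : Nontrivial (ℝ ∙ u)ᗮ := nontriv (n + 1) hF
  have hball : ∀ x : (ℝ ∙ u)ᗮ, a + (s • u + (x : E)) ∈ C →
      closedBall x 1 ⊆ {v : (ℝ ∙ u)ᗮ | a + (s • u + (v : E)) ∈ D} := by
    intro x hx v hv
    apply hCD _ hx
    rw [mem_closedBall, dist_eq_norm] at hv ⊢
    have e : a + (s • u + (v : E)) - (a + (s • u + (x : E))) = ((v - x : (ℝ ∙ u)ᗮ) : E) := by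
      rw [Submodule.coe_sub]; abel
    rw [e]
    simpa using hv
  rcases eq_or_lt_of_le hf0 with rfl | hfpos
  · rw [zero_mul, add_zero]
    have hc : ENNReal.ofReal (kap (n + 2)) = volume (closedBall x0 1) := by
      rw [vol_cball_one, hF]
    rw [hc]
    exact measure_mono (hball x0 h0)
  have hv0 : 0 < ‖v0‖ := lt_of_lt_of_le hfpos hf
  set e : (ℝ ∙ u)ᗮ := ‖v0‖⁻¹ • v0 with he
  have hen : ‖e‖ = 1 := by
    rw [he, norm_smul, norm_inv, norm_norm, inv_mul_cancel₀ hv0.ne']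
  have hDm : MeasurableSet {v : (ℝ ∙ u)ᗮ | a + (s • u + (v : E)) ∈ D} := by
    have : Measurable (fun v : (ℝ ∙ u)ᗮ => a + (s • u + (v : E))) := by fun_prop
    exact this hD
  apply stadium_ge n hF x0 e hen f hf0 hDm
  intro r hr
  apply hball
  have hrc : a + (s • u + ((x0 + r • e : (ℝ ∙ u)ᗮ) : E)) =
      (1 - r / ‖v0‖) • (a + (s • u + (x0 : E))) +
      (r / ‖v0‖) • (a + (s • u + ((x0 + v0 : (ℝ ∙ u)ᗮ) : E))) := by
    rw [he]
    simp only [Submodule.coe_add, Submodule.coe_smul]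
    module
  rw [hrc]
  apply hC h0 h1
  · rw [sub_nonneg, div_le_one hv0]; exact hr.2.trans hf
  · exact div_nonneg hr.1 hv0.le
  · ring

end saus

section block
variable {E : Type*} [NormedAddCommGroup E] [InnerProductSpace ℝ E] [FiniteDimensional ℝ E]
  [MeasurableSpace E] [BorelSpace E]

lemma height_left (a u : E) {C : Set E} (hC : Convex ℝ C) (ha : a ∈ C) (y0 : E) (t s : ℝ)
    (ht : 0 < t) (hy : a + (t • u + y0) ∈ C) (hs0 : 0 ≤ s) (hst : s ≤ t) :
    a + (s • u + (s / t) • y0) ∈ C := by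
  have e : a + (s • u + (s / t) • y0) = (1 - s / t) • a + (s / t) • (a + (t • u + y0)) := by
    have : s = (s / t) * t := by field_simp
    nth_rewrite 1 [this]
    module
  rw [e]
  apply hC ha hy
  · rw [sub_nonneg, div_le_one ht]; exact hst
  · positivity
  · ring

lemma height_right (a u : E) {C : Set E} (hC : Convex ℝ C) (Δ : ℝ) (hb : a + Δ • u ∈ C) (y0 : E)
    (t s : ℝ) (ht : t < Δ) (hy : a + (t • u + y0) ∈ C) (hs0 : s ≤ Δ) (hst : t ≤ s) :
    a + (s • u + ((Δ - s) / (Δ - t)) • y0) ∈ C := by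
  have hpos : 0 < Δ - t := by linarith
  have e : a + (s • u + ((Δ - s) / (Δ - t)) • y0) =
      (1 - (Δ - s) / (Δ - t)) • (a + Δ • u) + ((Δ - s) / (Δ - t)) • (a + (t • u + y0)) := by
    have : s = (1 - (Δ - s) / (Δ - t)) * Δ + ((Δ - s) / (Δ - t)) * t := by field_simp; ring
    nth_rewrite 1 [this]
    module
  rw [e]
  apply hC hb hy
  · rw [sub_nonneg, div_le_one hpos]; linarith
  · apply div_nonneg <;> linarith
  · ring

lemma axis_mem (a u : E) {C : Set E} (hC : Convex ℝ C) (ha : a ∈ C) (Δ : ℝ) (hΔ : 0 < Δ)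
    (hb : a + Δ • u ∈ C) (s : ℝ) (hs0 : 0 ≤ s) (hs : s ≤ Δ) : a + s • u ∈ C := by
  have e : a + s • u = (1 - s / Δ) • a + (s / Δ) • (a + Δ • u) := by
    have : s = (s / Δ) * Δ := by field_simp
    nth_rewrite 1 [this]
    module
  rw [e]
  apply hC ha hb
  · rw [sub_nonneg, div_le_one hΔ]; exact hs
  · positivity
  · ring

lemma block_ge (n : ℕ) (hE : finrank ℝ E = n + 3) (a u : E) (hu : ‖u‖ = 1)
    {C D : Set E} (hC : Convex ℝ C) (hD : MeasurableSet D) (hCD : ∀ z ∈ C, closedBall z 1 ⊆ D)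
    (Δ t α β : ℝ) (yp : (ℝ ∙ u)ᗮ) (ha : a ∈ C) (hb : a + Δ • u ∈ C)
    (hy : a + (t • u + (yp : E)) ∈ C) (h0α : 0 ≤ α) (hαt : α ≤ t) (htβ : t ≤ β) (hβΔ : β ≤ Δ) :
    ENNReal.ofReal ((β - α) * kap (n + 2) + ((β - α) * ‖yp‖ / 8) * kap (n + 1)) ≤
      volume (D ∩ {p | ⟪p - a, u⟫ ∈ Ico α β}) := by
  rcases eq_or_lt_of_le (hαt.trans htβ) with rfl | hL
  · simp
  have hk := kap_pos (n + 2)
  have hk1 := kap_pos (n + 1)
  set L := β - α with hLdef
  have hLpos : 0 < L := by rw [hLdef]; linarith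
  set I2 := Icc (α + L / 4) (β - L / 4) with hI2
  have hΔ : 0 < Δ := by linarith
  set g : ℝ → ℝ≥0∞ := fun s => ENNReal.ofReal (kap (n + 2)) +
    I2.indicator (fun _ => ENNReal.ofReal (‖yp‖ / 4 * kap (n + 1))) s with hg
  have hslab := slab_ge a u hu hD (measurableSet_Ico (a := α) (b := β)) g ?_
  · refine le_trans ?_ hslab
    rw [hg, lintegral_add_left measurable_const, lintegral_const,
      lintegral_indicator measurableSet_Icc, lintegral_const,
      Measure.restrict_apply MeasurableSet.univ, univ_inter,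
      Measure.restrict_apply MeasurableSet.univ, univ_inter,
      Measure.restrict_apply measurableSet_Icc, Real.volume_Ico]
    have hsub : I2 ∩ Ico α β = I2 := by
      rw [inter_eq_left]
      intro s hs
      rw [hI2, mem_Icc] at hs
      exact ⟨by linarith [hs.1], by linarith [hs.2]⟩
    rw [hsub, hI2, Real.volume_Icc, ← hLdef]
    have e : β - L / 4 - (α + L / 4) = L / 2 := by rw [hLdef]; ring
    rw [e, ← ENNReal.ofReal_mul hk.le, ← ENNReal.ofReal_mul (by positivity),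
      ← ENNReal.ofReal_add (by positivity) (by positivity)]
    apply ENNReal.ofReal_le_ofReal
    apply le_of_eq; ring
  · intro s hs
    have hs0 : 0 ≤ s := h0α.trans hs.1
    have hsΔ : s ≤ Δ := hs.2.le.trans hβΔ
    have hax : a + (s • u + ((0 : (ℝ ∙ u)ᗮ) : E)) ∈ C := by
      have := axis_mem a u hC ha Δ hΔ hb s hs0 hsΔ
      simpa using this
    by_cases hs2 : s ∈ I2
    · -- wide slice
      rw [hI2, mem_Icc] at hs2
      have hmu : ∃ μ : ℝ, 1 / 4 ≤ μ ∧ a + (s • u + ((μ • yp : (ℝ ∙ u)ᗮ) : E)) ∈ C := by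
        rcases le_total s t with hst | hst
        · have htpos : 0 < t := by linarith [hs2.1]
          refine ⟨s / t, ?_, ?_⟩
          · rw [div_le_div_iff₀ (by norm_num) htpos]
            linarith [hs2.1]
          · have := height_left a u hC ha (yp : E) t s htpos hy hs0 hst
            simpa using this
        · have htΔ : t < Δ := by linarith [hs2.2]
          refine ⟨(Δ - s) / (Δ - t), ?_, ?_⟩
          · rw [div_le_div_iff₀ (by norm_num) (by linarith)]
            linarith [hs2.2]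
          · have := height_right a u hC Δ hb (yp : E) t s htΔ hy hsΔ hst
            simpa using this
      obtain ⟨μ, hμ, hμC⟩ := hmu
      have h := slice_stadium n hE a u hu hC hD hCD s 0 (μ • yp) (‖yp‖ / 4) (by positivity) ?_
        hax (by simpa using hμC)
      · refine le_trans (le_of_eq ?_) h
        have hsI : s ∈ I2 := by rw [hI2, mem_Icc]; exact hs2
        simp only [hg, indicator_of_mem hsI]
        rw [← ENNReal.ofReal_add hk.le (by positivity)]
      · rw [norm_smul, Real.norm_eq_abs, abs_of_pos (by linarith)]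
        nlinarith [norm_nonneg yp]
    · have h := slice_stadium n hE a u hu hC hD hCD s 0 0 0 le_rfl (by simp)
        hax (by simpa using hax)
      rw [zero_mul, add_zero] at h
      simp only [hg, indicator_of_notMem hs2, add_zero]
      exact h

/-- A thin block of centres. -/
lemma thin_block (n : ℕ) (hE : finrank ℝ E = n + 3) (hk16 : 16 * kap (n + 2) ≤ kap (n + 1))
    (a u : E) (hu : ‖u‖ = 1)
    {C D : Set E} (hC : Convex ℝ C) (hD : MeasurableSet D) (hCD : ∀ z ∈ C, closedBall z 1 ⊆ D)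
    (Δ t α β : ℝ) (yp : (ℝ ∙ u)ᗮ) (ha : a ∈ C) (hb : a + Δ • u ∈ C)
    (hy : a + (t • u + (yp : E)) ∈ C) (h0α : 0 ≤ α) (hαt : α ≤ t) (htβ : t ≤ β) (hβΔ : β ≤ Δ)
    (hL : 1 ≤ β - α) (hcirc : 1 ≤ ((β - α) / 2) ^ 2 + ‖yp‖ ^ 2) :
    ENNReal.ofReal (2 * kap (n + 2)) ≤ volume (D ∩ {p | ⟪p - a, u⟫ ∈ Ico α β}) := by
  refine le_trans (ENNReal.ofReal_le_ofReal ?_)
    (block_ge n hE a u hu hC hD hCD Δ t α β yp ha hb hy h0α hαt htβ hβΔ)
  have hk := kap_pos (n + 2)
  have hk1 := kap_pos (n + 1)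
  set L := β - α with hLdef
  have hw0 := norm_nonneg yp
  set w := ‖yp‖ with hw
  by_cases h2 : 2 ≤ L
  · nlinarith [mul_nonneg (mul_nonneg (by linarith : (0 : ℝ) ≤ L) hw0) hk1.le]
  · push Not at h2
    have hwη : (2 - L) / 2 ≤ w := by
      by_contra hcon
      push Not at hcon
      have h3 : w ^ 2 < ((2 - L) / 2) ^ 2 := by nlinarith
      nlinarith
    have h4 : L * w / 8 * (16 * kap (n + 2)) ≤ L * w / 8 * kap (n + 1) :=
      mul_le_mul_of_nonneg_left hk16 (by positivity)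
    nlinarith [mul_nonneg (mul_nonneg (by linarith : (0 : ℝ) ≤ L - 1) hw0) hk.le,
      mul_nonneg (sub_nonneg.mpr hwη) hk.le]

end block

section left
variable {E : Type*} [NormedAddCommGroup E] [InnerProductSpace ℝ E] [FiniteDimensional ℝ E]
  [MeasurableSpace E] [BorelSpace E]

/-- component orthogonal to `u` -/
def perpE (u w : E) : E := w - ⟪w, u⟫ • u

lemma perpE_mem (u : E) (hu : ‖u‖ = 1) (w : E) : perpE u w ∈ (ℝ ∙ u)ᗮ := by
  rw [Submodule.mem_orthogonal_singleton_iff_inner_left, perpE, inner_sub_left,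
    real_inner_smul_left, real_inner_self_eq_norm_sq, hu]
  ring

lemma dist_axis_sq (a u : E) (hu : ‖u‖ = 1) (c : ℝ) (p : E) :
    ‖p - (a + c • u)‖ ^ 2 = (⟪p - a, u⟫ - c) ^ 2 + ‖perpE u (p - a)‖ ^ 2 := by
  have h1 : p - (a + c • u) = (⟪p - a, u⟫ - c) • u + perpE u (p - a) := by
    rw [perpE, sub_smul]; abel
  have h2 : ⟪u, perpE u (p - a)⟫ = 0 :=
    Submodule.mem_orthogonal_singleton_iff_inner_right.mp (perpE_mem u hu (p - a))
  rw [h1, norm_add_sq_real, norm_smul, real_inner_smul_left, h2, hu]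
  simp

lemma decomp (a u p : E) : p = a + (⟪p - a, u⟫ • u + perpE u (p - a)) := by
  rw [perpE]; abel

lemma left_ge (n : ℕ) (hE : finrank ℝ E = n + 3) (hk16 : 16 * kap (n + 2) ≤ kap (n + 1))
    (a u : E) (hu : ‖u‖ = 1)
    {C D : Set E} (hC : Convex ℝ C) (hD : MeasurableSet D) (hCD : ∀ z ∈ C, closedBall z 1 ⊆ D)
    (Δ : ℝ) (ha : a ∈ C) (hb : a + Δ • u ∈ C) (k N : ℕ) (y : ℕ → E)
    (hyC : ∀ i ≤ N, y i ∈ C) (hy0 : ∀ i ≤ N, 0 ≤ ⟪y i - a, u⟫) (hyΔ : ∀ i ≤ N, ⟪y i - a, u⟫ ≤ Δ)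
    (hyp : ∀ i ≤ N, ‖perpE u (y i - a)‖ ≤ 1 / 2)
    (hmono : ∀ i j, i ≤ j → j ≤ N → ⟪y i - a, u⟫ ≤ ⟪y j - a, u⟫)
    (hpack : ∀ i, i + k ≤ N → ∀ p : E, ∃ l, i ≤ l ∧ l ≤ i + k ∧ 1 ≤ dist p (y l)) :
    ∀ j : ℕ, j * k ≤ N → ENNReal.ofReal (kap (n + 3) / 2 + 2 * j * kap (n + 2)) ≤
      volume (D ∩ {p | ⟪p - a, u⟫ < ⟪y (j * k) - a, u⟫}) := by
  have hEn : Nontrivial E := nontriv (n + 2) hE
  have hk := kap_pos (n + 2)
  have hk3 := kap_pos (n + 3)
  have hmeas : Measurable (fun p : E => ⟪p - a, u⟫) := by fun_prop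
  intro j
  induction j with
  | zero =>
    intro _
    have h := halfball_ge a u hu
    rw [hE] at h
    simp only [Nat.cast_zero, mul_zero, zero_mul, add_zero]
    refine h.trans (measure_mono ?_)
    rintro p ⟨hp1, hp2⟩
    refine ⟨hCD a ha hp1, ?_⟩
    simp only [mem_ofPred_eq] at hp2 ⊢
    exact lt_of_lt_of_le hp2 (hy0 0 (Nat.zero_le _))
  | succ j ih =>
    intro hj
    have hjk : (j + 1) * k = j * k + k := by ring
    rw [hjk] at hj ⊢
    have ih' := ih (by omega)
    set α := ⟪y (j * k) - a, u⟫ with hα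
    set β := ⟪y (j * k + k) - a, u⟫ with hβ
    have hαβ : α ≤ β := hmono _ _ (by omega) hj
    obtain ⟨l, hl, hlmax⟩ := Finset.exists_max_image (Finset.Icc (j * k) (j * k + k))
      (fun i => ‖perpE u (y i - a)‖) ⟨j * k, by simp⟩
    rw [Finset.mem_Icc] at hl
    have hlN : l ≤ N := hl.2.trans hj
    set w := ‖perpE u (y l - a)‖ with hw
    have hw2 : w ≤ 1 / 2 := hyp l hlN
    have hw0 : 0 ≤ w := norm_nonneg _
    have hcirc : 1 ≤ ((β - α) / 2) ^ 2 + w ^ 2 := by
      obtain ⟨l', hl'1, hl'2, hd⟩ := hpack (j * k) hj (a + ((α + β) / 2) • u)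
      have h1 := dist_axis_sq a u hu ((α + β) / 2) (y l')
      rw [dist_comm, dist_eq_norm] at hd
      have h2 : ‖perpE u (y l' - a)‖ ≤ w := hlmax l' (Finset.mem_Icc.mpr ⟨hl'1, hl'2⟩)
      have h3 : α ≤ ⟪y l' - a, u⟫ := hmono _ _ hl'1 (hl'2.trans hj)
      have h4 : ⟪y l' - a, u⟫ ≤ β := hmono _ _ hl'2 hj
      have h5 : 1 ≤ ‖y l' - (a + ((α + β) / 2) • u)‖ ^ 2 := by nlinarith
      rw [h1] at h5
      have h6 : ‖perpE u (y l' - a)‖ ^ 2 ≤ w ^ 2 := by
        have := norm_nonneg (perpE u (y l' - a)); nlinarith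
      have h7 : (⟪y l' - a, u⟫ - (α + β) / 2) ^ 2 ≤ ((β - α) / 2) ^ 2 := by
        nlinarith
      linarith
    have hL : 1 ≤ β - α := by
      by_contra hcon
      push Not at hcon
      nlinarith
    have hdec := decomp a u (y l)
    have hyl := hyC l hlN
    rw [hdec] at hyl
    have hb := thin_block n hE hk16 a u hu hC hD hCD Δ ⟪y l - a, u⟫ α β
      ⟨perpE u (y l - a), perpE_mem u hu _⟩ ha hb hyl (hy0 _ (by omega))
      (hmono _ _ hl.1 hlN) (hmono _ _ hl.2 hj) (hyΔ _ hj) hL hcirc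
    have hm2 : MeasurableSet (D ∩ {p | ⟪p - a, u⟫ ∈ Ico α β}) := hD.inter (hmeas measurableSet_Ico)
    have hdisj : Disjoint (D ∩ {p | ⟪p - a, u⟫ < α}) (D ∩ {p | ⟪p - a, u⟫ ∈ Ico α β}) := by
      rw [Set.disjoint_left]
      rintro p ⟨_, h1⟩ ⟨_, h2⟩
      simp only [mem_ofPred_eq, mem_Ico] at h1 h2
      linarith [h2.1]
    have hsub : (D ∩ {p | ⟪p - a, u⟫ < α}) ∪ (D ∩ {p | ⟪p - a, u⟫ ∈ Ico α β}) ⊆
        D ∩ {p | ⟪p - a, u⟫ < β} := by
      rintro p (⟨h1, h2⟩ | ⟨h1, h2⟩)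
      · refine ⟨h1, ?_⟩
        simp only [mem_ofPred_eq] at h2 ⊢
        linarith
      · refine ⟨h1, ?_⟩
        simp only [mem_ofPred_eq, mem_Ico] at h2 ⊢
        linarith [h2.2]
    calc ENNReal.ofReal (kap (n + 3) / 2 + 2 * ((j + 1 : ℕ) : ℝ) * kap (n + 2))
        = ENNReal.ofReal (kap (n + 3) / 2 + 2 * j * kap (n + 2)) +
            ENNReal.ofReal (2 * kap (n + 2)) := by
          rw [← ENNReal.ofReal_add (by positivity) (by positivity)]
          congr 1; push_cast; ring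
      _ ≤ volume (D ∩ {p | ⟪p - a, u⟫ < α}) + volume (D ∩ {p | ⟪p - a, u⟫ ∈ Ico α β}) := by
          gcongr
      _ = volume ((D ∩ {p | ⟪p - a, u⟫ < α}) ∪ (D ∩ {p | ⟪p - a, u⟫ ∈ Ico α β})) := by
          rw [measure_union hdisj hm2]
      _ ≤ _ := measure_mono hsub

end left

section mid
variable {E : Type*} [NormedAddCommGroup E] [InnerProductSpace ℝ E] [FiniteDimensional ℝ E]
  [MeasurableSpace E] [BorelSpace E]

lemma mid_ge (n : ℕ) (hE : finrank ℝ E = n + 3)
    (a u : E) (hu : ‖u‖ = 1)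
    {C D : Set E} (hC : Convex ℝ C) (hD : MeasurableSet D) (hCD : ∀ z ∈ C, closedBall z 1 ⊆ D)
    (Δ : ℝ) (hΔ : 1 ≤ Δ) (ha : a ∈ C) (hb : a + Δ • u ∈ C) (σ : ℝ) (hσ0 : 0 < σ) (hσ : σ ≤ 1 / 8)
    (x : E) (hx : x ∈ C) (hx0 : 0 ≤ ⟪x - a, u⟫) (hx1 : ⟪x - a, u⟫ ≤ Δ / 2)
    (hxb : ‖a + Δ • u - x‖ ≤ Δ)
    (y : E) (hy : y ∈ C) (hy0 : 0 ≤ ⟪y - a, u⟫) (hyx : ⟪y - a, u⟫ ≤ ⟪x - a, u⟫)
    (hyp : 1 / 2 ≤ ‖perpE u (y - a)‖) :
    ENNReal.ofReal (σ ^ 2 / 8 * kap (n + 1)) ≤ volume (D ∩ closedBall x (1 + σ)) := by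
  have hk := kap_pos (n + 2)
  have hk1 := kap_pos (n + 1)
  set sx := ⟪x - a, u⟫ with hsx
  set sy := ⟪y - a, u⟫ with hsy
  set xp : (ℝ ∙ u)ᗮ := ⟨perpE u (x - a), perpE_mem u hu _⟩ with hxp
  set yp : (ℝ ∙ u)ᗮ := ⟨perpE u (y - a), perpE_mem u hu _⟩ with hyp'
  have hynorm : 1 / 2 ≤ ‖yp‖ := hyp
  have hxdec : x = a + (sx • u + (xp : E)) := decomp a u x
  have hydec : y = a + (sy • u + (yp : E)) := decomp a u y
  have hxC : a + (sx • u + (xp : E)) ∈ C := by rw [← hxdec]; exact hx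
  have hyC : a + (sy • u + (yp : E)) ∈ C := by rw [← hydec]; exact hy
  -- a point `z0` in the same slice as `x`, far from `x`
  have hz : ∃ z0 : (ℝ ∙ u)ᗮ, a + (sx • u + (z0 : E)) ∈ C ∧ 1 / 8 ≤ ‖z0 - xp‖ := by
    have h1 := height_right a u hC Δ hb (yp : E) sy sx (by linarith) hyC (by linarith) hyx
    have h2 := axis_mem a u hC ha Δ (by linarith) hb sx hx0 (by linarith)
    set μ := (Δ - sx) / (Δ - sy) with hμ
    have hμ2 : 1 / 2 ≤ μ := by
      rw [hμ, div_le_div_iff₀ (by norm_num) (by linarith)]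
      linarith
    by_cases h3 : 1 / 8 ≤ ‖xp‖
    · refine ⟨0, by simpa using h2, ?_⟩
      rw [zero_sub, norm_neg]; exact h3
    · push Not at h3
      refine ⟨μ • yp, by simpa using h1, ?_⟩
      have h4 : ‖μ • yp‖ = μ * ‖yp‖ := by
        rw [norm_smul, Real.norm_eq_abs, abs_of_pos (by linarith)]
      have h5 : ‖μ • yp‖ - ‖xp‖ ≤ ‖μ • yp - xp‖ := norm_sub_norm_le _ _
      nlinarith
  obtain ⟨z0, hz0, hz1⟩ := hz
  set C' := C ∩ closedBall x σ with hC'
  have hC'c : Convex ℝ C' := hC.inter (convex_closedBall x σ)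
  set D' := D ∩ closedBall x (1 + σ) with hD'
  have hD'm : MeasurableSet D' := hD.inter measurableSet_closedBall
  have hCD' : ∀ z ∈ C', closedBall z 1 ⊆ D' := by
    rintro z ⟨hz2, hz3⟩ p hp
    refine ⟨hCD z hz2 hp, ?_⟩
    rw [mem_closedBall] at hz3 hp ⊢
    calc dist p x ≤ dist p z + dist z x := dist_triangle _ _ _
      _ ≤ 1 + σ := by linarith
  have hslice : ∀ s ∈ Icc sx (sx + σ / 4), ENNReal.ofReal (σ / 2 * kap (n + 1)) ≤
      volume {v : (ℝ ∙ u)ᗮ | a + (s • u + (v : E)) ∈ D'} := by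
    intro s hs
    set h := s - sx with hh
    have hh0 : 0 ≤ h := by linarith [hs.1]
    have hh1 : h ≤ σ / 4 := by linarith [hs.2]
    have hsub : 1 / 2 ≤ Δ - sx := by linarith
    set lam := h / (Δ - sx) with hlam
    have hlam0 : 0 ≤ lam := div_nonneg hh0 (by linarith)
    have hlamh : lam * (Δ - sx) = h := by
      rw [hlam]; field_simp
    have hlam1 : lam ≤ 2 * h := by
      rw [hlam, div_le_iff₀ (by linarith)]
      nlinarith
    have hlamΔ : lam * Δ ≤ 2 * h := by nlinarith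
    -- norm of the translation vector
    set v1 : (ℝ ∙ u)ᗮ := (1 - lam) • (z0 - xp) with hv1
    have hv1n : 1 / 16 ≤ ‖v1‖ := by
      rw [hv1, norm_smul, Real.norm_eq_abs, abs_of_pos (by linarith)]
      nlinarith
    set c := σ / 2 / ‖v1‖ with hc
    have hc0 : 0 ≤ c := by positivity
    have hc1 : c ≤ 1 := by
      rw [hc, div_le_one (by linarith)]; linarith
    set v0 : (ℝ ∙ u)ᗮ := c • v1 with hv0
    have hv0n : ‖v0‖ = σ / 2 := by
      rw [hv0, norm_smul, Real.norm_eq_abs, abs_of_nonneg hc0, hc]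
      field_simp
    have hsdec : s = sx + h := by rw [hh]; ring
    have hpx : a + (s • u + (((1 - lam) • xp : (ℝ ∙ u)ᗮ) : E)) =
        (1 - lam) • x + lam • (a + Δ • u) := by
      conv_rhs => rw [hxdec]
      rw [hsdec, ← hlamh, Submodule.coe_smul]
      module
    have hpxC : a + (s • u + (((1 - lam) • xp : (ℝ ∙ u)ᗮ) : E)) ∈ C := by
      rw [hpx]; exact hC hx hb (by linarith) hlam0 (by ring)
    have hpzC : a + (s • u + (((1 - lam) • z0 : (ℝ ∙ u)ᗮ) : E)) ∈ C := by
      have e : a + (s • u + (((1 - lam) • z0 : (ℝ ∙ u)ᗮ) : E)) =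
        (1 - lam) • (a + (sx • u + (z0 : E))) + lam • (a + Δ • u) := by
        rw [hsdec, ← hlamh, Submodule.coe_smul]
        module
      rw [e]; exact hC hz0 hb (by linarith) hlam0 (by ring)
    have hpxd : dist (a + (s • u + (((1 - lam) • xp : (ℝ ∙ u)ᗮ) : E))) x ≤ σ / 2 := by
      rw [hpx, dist_eq_norm]
      have e : (1 - lam) • x + lam • (a + Δ • u) - x = lam • (a + Δ • u - x) := by module
      rw [e, norm_smul, Real.norm_eq_abs, abs_of_nonneg hlam0]
      nlinarith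
    have hpvC : a + (s • u + (((1 - lam) • xp + v0 : (ℝ ∙ u)ᗮ) : E)) ∈ C := by
      have e : a + (s • u + (((1 - lam) • xp + v0 : (ℝ ∙ u)ᗮ) : E)) =
          (1 - c) • (a + (s • u + (((1 - lam) • xp : (ℝ ∙ u)ᗮ) : E))) +
          c • (a + (s • u + (((1 - lam) • z0 : (ℝ ∙ u)ᗮ) : E))) := by
        rw [hv0, hv1]
        simp only [Submodule.coe_add, Submodule.coe_smul, Submodule.coe_sub]
        module
      rw [e]; exact hC hpxC hpzC (by linarith) hc0 (by ring)
    have hpvd : dist (a + (s • u + (((1 - lam) • xp + v0 : (ℝ ∙ u)ᗮ) : E))) x ≤ σ := by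
      have e : dist (a + (s • u + (((1 - lam) • xp + v0 : (ℝ ∙ u)ᗮ) : E)))
          (a + (s • u + (((1 - lam) • xp : (ℝ ∙ u)ᗮ) : E))) = σ / 2 := by
        rw [dist_eq_norm]
        have : a + (s • u + (((1 - lam) • xp + v0 : (ℝ ∙ u)ᗮ) : E)) -
          (a + (s • u + (((1 - lam) • xp : (ℝ ∙ u)ᗮ) : E))) = (v0 : E) := by
          rw [Submodule.coe_add]; abel
        rw [this]
        exact hv0n
      have := dist_triangle (a + (s • u + (((1 - lam) • xp + v0 : (ℝ ∙ u)ᗮ) : E)))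
        (a + (s • u + (((1 - lam) • xp : (ℝ ∙ u)ᗮ) : E))) x
      linarith
    have hst := slice_stadium n hE a u hu hC'c hD'm hCD' s ((1 - lam) • xp) v0 (σ / 2)
      (by linarith) (by rw [hv0n]) ⟨hpxC, by rw [mem_closedBall]; linarith⟩
      ⟨hpvC, by rw [mem_closedBall]; linarith⟩
    refine le_trans (ENNReal.ofReal_le_ofReal ?_) hst
    linarith
  have hfin := slab_ge a u hu hD'm (measurableSet_Icc (a := sx) (b := sx + σ / 4))
    (fun _ => ENNReal.ofReal (σ / 2 * kap (n + 1))) hslice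
  refine le_trans ?_ (hfin.trans (measure_mono inter_subset_left))
  rw [lintegral_const, Measure.restrict_apply MeasurableSet.univ, univ_inter, Real.volume_Icc,
    ← ENNReal.ofReal_mul (by positivity)]
  apply ENNReal.ofReal_le_ofReal
  apply le_of_eq; ring

end mid

section mult
variable {E : Type*} [NormedAddCommGroup E] [InnerProductSpace ℝ E] [FiniteDimensional ℝ E]
  [MeasurableSpace E] [BorelSpace E]

/-- If every point lies in at most `k` of the sets `A i ⊆ U`, the measures add up to at most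
`k * μ U`. -/
lemma sum_measure_le {ι : Type*} (S : Finset ι) (A : ι → Set E) (hA : ∀ i ∈ S, MeasurableSet (A i))
    (U : Set E) (hU : MeasurableSet U) (hAU : ∀ i ∈ S, A i ⊆ U) (k : ℕ)
    (hmult : ∀ p : E, ∀ J : Finset ι, J ⊆ S → (∀ j ∈ J, p ∈ A j) → J.card ≤ k) :
    ∑ i ∈ S, volume (A i) ≤ k * volume U := by
  classical
  calc ∑ i ∈ S, volume (A i) = ∑ i ∈ S, ∫⁻ p, (A i).indicator (fun _ => (1 : ℝ≥0∞)) p := by
        apply Finset.sum_congr rfl
        intro i hi
        rw [lintegral_indicator_const (hA i hi), one_mul]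
    _ = ∫⁻ p, ∑ i ∈ S, (A i).indicator (fun _ => (1 : ℝ≥0∞)) p := by
        rw [lintegral_finsetSum' S]
        intro i hi
        exact (measurable_const.indicator (hA i hi)).aemeasurable
    _ ≤ ∫⁻ p, U.indicator (fun _ => (k : ℝ≥0∞)) p := by
        apply lintegral_mono
        intro p
        simp only [indicator_apply]
        rw [Finset.sum_ite, Finset.sum_const, Finset.sum_const_zero, add_zero, nsmul_eq_mul, mul_one]
        have hc := hmult p (S.filter (fun i => p ∈ A i)) (Finset.filter_subset _ _)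
          (fun j hj => (Finset.mem_filter.mp hj).2)
        by_cases hp : p ∈ U
        · rw [if_pos hp]; exact_mod_cast hc
        · rw [if_neg hp]
          have : S.filter (fun i => p ∈ A i) = ∅ := by
            rw [Finset.filter_eq_empty_iff]
            intro i hi hpi
            exact hp (hAU i hi hpi)
          rw [this]; simp
    _ = k * volume U := by rw [lintegral_indicator_const hU]

/-- number of centres near a point -/
lemma count_near {ι : Type*} (d : ℕ) (hd : finrank ℝ E = d + 1) (k : ℕ) (x : ι → E)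
    (hpack : ∀ p : E, ∀ J : Finset ι, (∀ j ∈ J, dist p (x j) < 1) → J.card ≤ k)
    (S : Finset ι) (z : E) (r : ℝ) (hr : 0 ≤ r) (hS : ∀ j ∈ S, dist (x j) z ≤ r) :
    (S.card : ℝ) ≤ k * (r + 1) ^ (d + 1) := by
  have hEn : Nontrivial E := nontriv d hd
  have hk := kap_pos (d + 1)
  have h := sum_measure_le S (fun j => ball (x j) 1) (fun i _ => measurableSet_ball)
    (closedBall z (r + 1)) measurableSet_closedBall ?_ k ?_
  · simp only [vol_ball_one] at h
    rw [Finset.sum_const, nsmul_eq_mul, vol_cball z (by linarith : (0 : ℝ) ≤ r + 1), hd,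
      ← ENNReal.ofReal_natCast, ← ENNReal.ofReal_natCast, ← ENNReal.ofReal_mul (by positivity),
      ← ENNReal.ofReal_mul (by positivity), ENNReal.ofReal_le_ofReal_iff (by positivity)] at h
    have h2 : (S.card : ℝ) * kap (d + 1) ≤ (k * (r + 1) ^ (d + 1)) * kap (d + 1) := by
      linarith
    exact le_of_mul_le_mul_right h2 hk
  · intro j hj p hp
    rw [mem_ball] at hp
    rw [mem_closedBall]
    calc dist p z ≤ dist p (x j) + dist (x j) z := dist_triangle _ _ _
      _ ≤ r + 1 := by have := hS j hj; linarith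
  · intro p J _ hJ
    exact hpack p J (fun j hj => hJ j hj)

/-- `(k+1)`-fold intersections of slightly enlarged balls have small diameter. -/
lemma diam_small {ι : Type*} (k : ℕ) (x : ι → E)
    (hpack : ∀ p : E, ∀ J : Finset ι, (∀ j ∈ J, dist p (x j) < 1) → J.card ≤ k)
    (J : Finset ι) (hJ : k < J.card) (R ρ : ℝ) (hρ0 : 0 ≤ ρ) (hR0 : 0 ≤ R)
    (hR : R ^ 2 ≤ 1 + ρ ^ 2)
    (p q : E) (hp : ∀ j ∈ J, dist p (x j) ≤ R) (hq : ∀ j ∈ J, dist q (x j) ≤ R) :
    dist p q ≤ 2 * ρ := by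
  by_contra hcon
  push Not at hcon
  have h1 : ∀ j ∈ J, dist ((1 / 2 : ℝ) • (p + q)) (x j) < 1 := by
    intro j hj
    have hpj := hp j hj
    have hqj := hq j hj
    rw [dist_eq_norm] at hpj hqj hcon ⊢
    have e1 : (1 / 2 : ℝ) • (p + q) - x j = (1 / 2 : ℝ) • ((p - x j) + (q - x j)) := by module
    have e2 : p - q = (p - x j) - (q - x j) := by abel
    have e3 := parallelogram_law_with_norm ℝ (p - x j) (q - x j)
    rw [← e2] at e3
    rw [e1, norm_smul]
    have e4 : ‖(1 / 2 : ℝ)‖ = 1 / 2 := by norm_num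
    rw [e4]
    have n1 := norm_nonneg (p - x j + (q - x j))
    have n2 := norm_nonneg (p - x j)
    have n3 := norm_nonneg (q - x j)
    have n4 := norm_nonneg (p - q)
    have h5 : ‖p - x j‖ * ‖p - x j‖ ≤ R ^ 2 := by nlinarith
    have h6 : ‖q - x j‖ * ‖q - x j‖ ≤ R ^ 2 := by nlinarith
    have h7 : (2 * ρ) * (2 * ρ) < ‖p - q‖ * ‖p - q‖ := by nlinarith
    have h8 : ‖p - x j + (q - x j)‖ * ‖p - x j + (q - x j)‖ < 4 := by nlinarith
    nlinarith
  have := hpack _ J h1
  omega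

/-- The set of points covered more than `k` times by the balls of radius `R`, near `z`. -/
lemma bad_le {ι : Type*} [Fintype ι] (d : ℕ) (hd : finrank ℝ E = d + 1) (k : ℕ) (x : ι → E)
    (hpack : ∀ p : E, ∀ J : Finset ι, (∀ j ∈ J, dist p (x j) < 1) → J.card ≤ k)
    (R ρ : ℝ) (hρ0 : 0 ≤ ρ) (hR0 : 0 ≤ R) (hR1 : R ≤ 3 / 2) (hR : R ^ 2 ≤ 1 + ρ ^ 2)
    (hρ : 2 * ρ ≤ (1 / 4 : ℝ) ^ (k + 1)) (z : E) :
    volume {p : E | dist p z ≤ R ∧ ∃ J : Finset ι, J.card = k + 1 ∧ ∀ j ∈ J, dist p (x j) ≤ R}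
      ≤ ENNReal.ofReal ((k : ℝ) ^ (k + 1) * kap (d + 1)) := by
  classical
  have hEn : Nontrivial E := nontriv d hd
  have hk := kap_pos (d + 1)
  set S : Finset ι := Finset.univ.filter (fun j => dist (x j) z ≤ 2 * R) with hS
  have hcount := count_near d hd k x hpack S z (2 * R) (by linarith)
    (fun j hj => (Finset.mem_filter.mp hj).2)
  have hS4 : (S.card : ℝ) ≤ k * 4 ^ (d + 1) := by
    refine hcount.trans ?_
    gcongr
    linarith
  have hsub : {p : E | dist p z ≤ R ∧ ∃ J : Finset ι, J.card = k + 1 ∧ ∀ j ∈ J, dist p (x j) ≤ R} ⊆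
      ⋃ J ∈ Finset.powersetCard (k + 1) S, {p : E | ∀ j ∈ J, dist p (x j) ≤ R} := by
    rintro p ⟨hpz, J, hJc, hJ⟩
    simp only [mem_iUnion]
    refine ⟨J, ?_, hJ⟩
    rw [Finset.mem_powersetCard]
    refine ⟨?_, hJc⟩
    intro j hj
    rw [hS, Finset.mem_filter]
    refine ⟨Finset.mem_univ _, ?_⟩
    have h1 := hJ j hj
    have h2 := dist_triangle (x j) p z
    rw [dist_comm (x j) p] at h2
    linarith
  have hone : ∀ J ∈ Finset.powersetCard (k + 1) S,
      volume {p : E | ∀ j ∈ J, dist p (x j) ≤ R} ≤ ENNReal.ofReal ((2 * ρ) ^ (d + 1) * kap (d + 1)) := by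
    intro J hJ
    rw [Finset.mem_powersetCard] at hJ
    by_cases hne : ∃ p : E, ∀ j ∈ J, dist p (x j) ≤ R
    · obtain ⟨p, hp⟩ := hne
      have h1 : {p : E | ∀ j ∈ J, dist p (x j) ≤ R} ⊆ closedBall p (2 * ρ) := by
        intro q hq
        rw [mem_closedBall]
        exact diam_small k x hpack J (by omega) R ρ hρ0 hR0 hR q p hq hp
      refine (measure_mono h1).trans ?_
      rw [vol_cball p (by linarith : (0 : ℝ) ≤ 2 * ρ), hd]
    · have h1 : {p : E | ∀ j ∈ J, dist p (x j) ≤ R} = ∅ := by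
        ext q
        simp only [mem_ofPred_eq, mem_empty_iff_false, iff_false]
        intro hq
        exact hne ⟨q, hq⟩
      rw [h1]; simp
  have hcard : ((Finset.powersetCard (k + 1) S).card : ℝ) ≤ (k * 4 ^ (d + 1)) ^ (k + 1) := by
    rw [Finset.card_powersetCard]
    calc ((S.card.choose (k + 1) : ℕ) : ℝ) ≤ ((S.card ^ (k + 1) : ℕ) : ℝ) := by
          exact_mod_cast Nat.choose_le_pow _ _
      _ = (S.card : ℝ) ^ (k + 1) := by push_cast; ring
      _ ≤ _ := by gcongr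
  calc volume {p : E | dist p z ≤ R ∧ ∃ J : Finset ι, J.card = k + 1 ∧ ∀ j ∈ J, dist p (x j) ≤ R}
      ≤ volume (⋃ J ∈ Finset.powersetCard (k + 1) S, {p : E | ∀ j ∈ J, dist p (x j) ≤ R}) :=
        measure_mono hsub
    _ ≤ ∑ J ∈ Finset.powersetCard (k + 1) S, volume {p : E | ∀ j ∈ J, dist p (x j) ≤ R} :=
        measure_biUnion_finset_le _ _
    _ ≤ ∑ J ∈ Finset.powersetCard (k + 1) S, ENNReal.ofReal ((2 * ρ) ^ (d + 1) * kap (d + 1)) :=
        Finset.sum_le_sum hone
    _ = ENNReal.ofReal ((Finset.powersetCard (k + 1) S).card * ((2 * ρ) ^ (d + 1) * kap (d + 1))) := by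
        rw [Finset.sum_const, nsmul_eq_mul, ← ENNReal.ofReal_natCast,
          ← ENNReal.ofReal_mul (by positivity)]
    _ ≤ ENNReal.ofReal ((k : ℝ) ^ (k + 1) * kap (d + 1)) := by
        apply ENNReal.ofReal_le_ofReal
        have h3 : (2 * ρ) ^ (d + 1) ≤ ((1 / 4 : ℝ) ^ (k + 1)) ^ (d + 1) := by gcongr
        have h4 : (k * 4 ^ (d + 1) : ℝ) ^ (k + 1) * ((1 / 4 : ℝ) ^ (k + 1)) ^ (d + 1) =
            (k : ℝ) ^ (k + 1) := by
          rw [mul_pow, ← pow_mul, ← pow_mul, mul_comm (d + 1) (k + 1), mul_assoc, ← mul_pow]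
          norm_num
        calc ((Finset.powersetCard (k + 1) S).card : ℝ) * ((2 * ρ) ^ (d + 1) * kap (d + 1))
            ≤ (k * 4 ^ (d + 1) : ℝ) ^ (k + 1) * (((1 / 4 : ℝ) ^ (k + 1)) ^ (d + 1) * kap (d + 1)) := by
              gcongr
          _ = (k : ℝ) ^ (k + 1) * kap (d + 1) := by rw [← mul_assoc, h4]

end mult

section asm
variable {E : Type*} [NormedAddCommGroup E] [InnerProductSpace ℝ E] [FiniteDimensional ℝ E]
  [MeasurableSpace E] [BorelSpace E]

lemma middle_ge {ι : Type*} [Fintype ι] (d : ℕ) (hd : finrank ℝ E = d + 1) (k : ℕ) (x : ι → E)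
    (hpack : ∀ p : E, ∀ J : Finset ι, (∀ j ∈ J, dist p (x j) < 1) → J.card ≤ k)
    (R ρ : ℝ) (hρ0 : 0 ≤ ρ) (hR0 : 0 ≤ R) (hR1 : R ≤ 3 / 2) (hR : R ^ 2 ≤ 1 + ρ ^ 2)
    (hρ : 2 * ρ ≤ (1 / 4 : ℝ) ^ (k + 1)) {D : Set E} (hD : MeasurableSet D)
    (M : Finset ι) (V0 : ℝ)
    (hV0 : ∀ i ∈ M, ENNReal.ofReal V0 ≤ volume (D ∩ closedBall (x i) R))
    (U : Set E) (hU : MeasurableSet U) (hsub : ∀ i ∈ M, D ∩ closedBall (x i) R ⊆ U) :
    (M.card : ℝ≥0∞) * ENNReal.ofReal (V0 - (k : ℝ) ^ (k + 1) * kap (d + 1)) ≤ k * volume U := by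
  classical
  have hk := kap_pos (d + 1)
  set Bad : Set E := {p : E | ∃ J : Finset ι, J.card = k + 1 ∧ ∀ j ∈ J, dist p (x j) ≤ R} with hBad
  have hBadm : MeasurableSet Bad := by
    have : Bad = ⋃ J : Finset ι, ⋃ _ : J.card = k + 1, ⋂ j ∈ J, closedBall (x j) R := by
      ext p
      simp [hBad]
    rw [this]
    refine MeasurableSet.iUnion fun J => MeasurableSet.iUnion fun _ => ?_
    exact Finset.measurableSet_biInter _ (fun j _ => measurableSet_closedBall)
  set A : ι → Set E := fun i => (D ∩ closedBall (x i) R) \ Bad with hA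
  have hAm : ∀ i ∈ M, MeasurableSet (A i) := fun i _ =>
    (hD.inter measurableSet_closedBall).diff hBadm
  have hmain := sum_measure_le M A hAm U hU (fun i hi => sdiff_subset.trans (hsub i hi)) k ?_
  · refine le_trans ?_ hmain
    rw [← nsmul_eq_mul]
    apply Finset.card_nsmul_le_sum
    intro i hi
    rw [ENNReal.ofReal_sub _ (by positivity), tsub_le_iff_right]
    refine (hV0 i hi).trans ?_
    have h1 : D ∩ closedBall (x i) R ⊆ A i ∪
        {p : E | dist p (x i) ≤ R ∧ ∃ J : Finset ι, J.card = k + 1 ∧ ∀ j ∈ J, dist p (x j) ≤ R} := by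
      intro p hp
      by_cases hb : p ∈ Bad
      · right; exact ⟨hp.2, hb⟩
      · left; exact ⟨hp, hb⟩
    refine (measure_mono h1).trans ((measure_union_le _ _).trans ?_)
    gcongr
    exact bad_le d hd k x hpack R ρ hρ0 hR0 hR1 hR hρ (x i)
  · intro p J hJM hJ
    by_contra hcon
    push Not at hcon
    obtain ⟨J', hJ', hc⟩ := Finset.exists_subset_card_eq (Nat.succ_le_of_lt hcon)
    have hpos : 0 < J'.card := by omega
    obtain ⟨j0, hj0⟩ := Finset.card_pos.mp hpos
    have hpA := hJ j0 (hJ' hj0)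
    exact hpA.2 ⟨J', hc, fun j hj => (hJ j (hJ' hj)).1.2⟩

lemma thin_extent (a u : E) (hu : ‖u‖ = 1) (k N : ℕ) (y : ℕ → E)
    (hyp : ∀ i ≤ N, ‖perpE u (y i - a)‖ ≤ 1 / 2)
    (hmono : ∀ i j, i ≤ j → j ≤ N → ⟪y i - a, u⟫ ≤ ⟪y j - a, u⟫)
    (hpack : ∀ i, i + k ≤ N → ∀ p : E, ∃ l, i ≤ l ∧ l ≤ i + k ∧ 1 ≤ dist p (y l))
    (i : ℕ) (hi : i + k ≤ N) : 3 / 2 ≤ ⟪y (i + k) - a, u⟫ - ⟪y i - a, u⟫ := by
  set α := ⟪y i - a, u⟫ with hα
  set β := ⟪y (i + k) - a, u⟫ with hβ
  have hαβ : α ≤ β := hmono _ _ (by omega) hi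
  obtain ⟨l', hl'1, hl'2, hd⟩ := hpack i hi (a + ((α + β) / 2) • u)
  have h1 := dist_axis_sq a u hu ((α + β) / 2) (y l')
  rw [dist_comm, dist_eq_norm] at hd
  have h2 : ‖perpE u (y l' - a)‖ ≤ 1 / 2 := hyp l' (hl'2.trans hi)
  have h3 : α ≤ ⟪y l' - a, u⟫ := hmono _ _ hl'1 (hl'2.trans hi)
  have h4 : ⟪y l' - a, u⟫ ≤ β := hmono _ _ hl'2 hi
  have h5 : 1 ≤ ‖y l' - (a + ((α + β) / 2) • u)‖ ^ 2 := by nlinarith
  rw [h1] at h5
  have h6 : ‖perpE u (y l' - a)‖ ^ 2 ≤ 1 / 4 := by
    have := norm_nonneg (perpE u (y l' - a)); nlinarith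
  have h7 : (⟪y l' - a, u⟫ - (α + β) / 2) ^ 2 ≤ ((β - α) / 2) ^ 2 := by
    nlinarith
  by_contra hcon
  push Not at hcon
  nlinarith

lemma left_side (n : ℕ) (hE : finrank ℝ E = n + 3) (hk16 : 16 * kap (n + 2) ≤ kap (n + 1))
    (a u : E) (hu : ‖u‖ = 1)
    {C D : Set E} (hC : Convex ℝ C) (hD : MeasurableSet D) (hCD : ∀ z ∈ C, closedBall z 1 ⊆ D)
    (Δ : ℝ) (ha : a ∈ C) (hb : a + Δ • u ∈ C) (k : ℕ) (hk : 1 ≤ k) (R : ℝ) (hR : R ≤ 3 / 2)
    (p : ℕ) (y : ℕ → E)
    (hyC : ∀ i ≤ p, y i ∈ C) (hy0 : ∀ i ≤ p, 0 ≤ ⟪y i - a, u⟫) (hyΔ : ∀ i ≤ p, ⟪y i - a, u⟫ ≤ Δ)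
    (hyp : ∀ i < p, ‖perpE u (y i - a)‖ ≤ 1 / 2)
    (hmono : ∀ i j, i ≤ j → j ≤ p → ⟪y i - a, u⟫ ≤ ⟪y j - a, u⟫)
    (hpack : ∀ i, i + k ≤ p → ∀ p : E, ∃ l, i ≤ l ∧ l ≤ i + k ∧ 1 ≤ dist p (y l)) :
    ENNReal.ofReal ((2 * p / k - 4) * kap (n + 2)) ≤
      volume (D ∩ {q | ⟪q - a, u⟫ < ⟪y p - a, u⟫ - R}) := by
  have hkp := kap_pos (n + 2)
  have hkp3 := kap_pos (n + 3)
  have hkR : (1 : ℝ) ≤ k := by exact_mod_cast hk
  by_cases hpk : p ≤ k
  · have hpkR : (p : ℝ) ≤ k := by exact_mod_cast hpk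
    have : (2 * (p : ℝ) / k - 4) * kap (n + 2) ≤ 0 := by
      apply mul_nonpos_of_nonpos_of_nonneg _ hkp.le
      have : 2 * (p : ℝ) / k ≤ 2 := by
        rw [div_le_iff₀ (by linarith)]; linarith
      linarith
    rw [ENNReal.ofReal_of_nonpos this]
    exact zero_le
  · push Not at hpk
    set Q := (p - 1) / k with hQ
    have hQ1 : 1 ≤ Q := by
      rw [hQ, Nat.le_div_iff_mul_le (by omega)]; omega
    have hQk : Q * k ≤ p - 1 := Nat.div_mul_le_self _ _
    have hQk2 : p - 1 < (Q + 1) * k := by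
      have e1 := Nat.div_add_mod (p - 1) k
      have e2 := Nat.mod_lt (p - 1) (by omega : 0 < k)
      have e3 : (Q + 1) * k = k * ((p - 1) / k) + k := by rw [hQ]; ring
      omega
    obtain ⟨j, hj⟩ : ∃ j, Q = j + 1 := ⟨Q - 1, by omega⟩
    have hjk : j * k + k ≤ p - 1 := by
      have : (j + 1) * k = j * k + k := by ring
      rw [← this, ← hj]; exact hQk
    have h1 := left_ge n hE hk16 a u hu hC hD hCD Δ ha hb k (j * k) y
      (fun i hi => hyC i (by omega)) (fun i hi => hy0 i (by omega)) (fun i hi => hyΔ i (by omega))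
      (fun i hi => hyp i (by omega)) (fun i i' h h' => hmono i i' h (by omega))
      (fun i hi => hpack i (by omega)) j le_rfl
    have h2 := thin_extent a u hu k (j * k + k) y (fun i hi => hyp i (by omega))
      (fun i i' h h' => hmono i i' h (by omega)) (fun i hi => hpack i (by omega)) (j * k) le_rfl
    have h3 := hmono (j * k + k) p (by omega) le_rfl
    have h4 : volume (D ∩ {q | ⟪q - a, u⟫ < ⟪y (j * k) - a, u⟫}) ≤
        volume (D ∩ {q | ⟪q - a, u⟫ < ⟪y p - a, u⟫ - R}) := by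
      apply measure_mono
      rintro q ⟨hq1, hq2⟩
      refine ⟨hq1, ?_⟩
      simp only [mem_ofPred_eq] at hq2 ⊢
      linarith
    refine le_trans (ENNReal.ofReal_le_ofReal ?_) (h1.trans h4)
    have h5 : (p : ℝ) ≤ (j + 2) * k := by
      have : p ≤ (j + 2) * k := by
        have : (Q + 1) * k = (j + 2) * k := by rw [hj]
        omega
      exact_mod_cast this
    have h6 : 2 * (p : ℝ) / k - 4 ≤ 2 * j := by
      rw [sub_le_iff_le_add, div_le_iff₀ (by linarith)]
      nlinarith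
    nlinarith [mul_le_mul_of_nonneg_right h6 hkp.le]

end asm

section core
variable {E : Type*} [NormedAddCommGroup E] [InnerProductSpace ℝ E] [FiniteDimensional ℝ E]
  [MeasurableSpace E] [BorelSpace E]

lemma reflect_inner (a u : E) (hu : ‖u‖ = 1) (Δ : ℝ) (z : E) :
    ⟪z - (a + Δ • u), -u⟫ = Δ - ⟪z - a, u⟫ := by
  have : z - (a + Δ • u) = (z - a) - Δ • u := by abel
  rw [this, inner_neg_right, inner_sub_left, real_inner_smul_left, real_inner_self_eq_norm_sq, hu]
  ring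

lemma reflect_perp (a u : E) (hu : ‖u‖ = 1) (Δ : ℝ) (z : E) :
    perpE (-u) (z - (a + Δ • u)) = perpE u (z - a) := by
  rw [perpE, perpE, reflect_inner a u hu]
  module

theorem sorted_core (n : ℕ) (hE : finrank ℝ E = n + 3) (hk16 : 16 * kap (n + 2) ≤ kap (n + 1))
    (k : ℕ) (hk : 1 ≤ k) (σ ρ : ℝ) (hρ0 : 0 ≤ ρ) (hρ : 2 * ρ ≤ (1 / 4 : ℝ) ^ (k + 1))
    (hσ0 : 0 < σ) (hσ : σ ≤ 1 / 8) (hσρ : (1 + σ) ^ 2 ≤ 1 + ρ ^ 2)
    (hbig : 10 * k * kap (n + 2) ≤ σ ^ 2 / 8 * kap (n + 1) - (k : ℝ) ^ (k + 1) * kap (n + 3))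
    (a u : E) (hu : ‖u‖ = 1)
    {C D : Set E} (hC : Convex ℝ C) (hD : MeasurableSet D) (hCD : ∀ z ∈ C, closedBall z 1 ⊆ D)
    (Δ : ℝ) (hΔ : 1 ≤ Δ) (ha : a ∈ C) (hb : a + Δ • u ∈ C)
    (M N : ℕ) (hM : 2 ≤ M) (hN : N = M * k) (y : ℕ → E)
    (hyC : ∀ i < N, y i ∈ C) (hy0 : ∀ i < N, 0 ≤ ⟪y i - a, u⟫) (hyΔ : ∀ i < N, ⟪y i - a, u⟫ ≤ Δ)
    (hya : ∀ i < N, ‖a - y i‖ ≤ Δ) (hyb : ∀ i < N, ‖a + Δ • u - y i‖ ≤ Δ)
    (hmono : ∀ i j, i ≤ j → j < N → ⟪y i - a, u⟫ ≤ ⟪y j - a, u⟫)
    (hpackF : ∀ p : E, ∀ J : Finset (Fin N), (∀ j ∈ J, dist p (y j) < 1) → J.card ≤ k) :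
    ENNReal.ofReal (kap (n + 3) + 2 * (M - 1) * kap (n + 2)) ≤ volume D := by
  classical
  have hEn : Nontrivial E := nontriv (n + 2) hE
  have hkp1 := kap_pos (n + 1)
  have hkp := kap_pos (n + 2)
  have hkp3 := kap_pos (n + 3)
  have hkap : kap (n + 3) ≤ 2 * kap (n + 2) := kap_succ_le (n + 2) (by omega)
  have hkR : (1 : ℝ) ≤ k := by exact_mod_cast hk
  have hMR : (2 : ℝ) ≤ M := by exact_mod_cast hM
  have hmeas : Measurable (fun p : E => ⟪p - a, u⟫) := by fun_prop
  have hMk : k + k ≤ N := by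
    rw [hN]; nlinarith
  -- consecutive blocks
  have hpack : ∀ i, i + k < N → ∀ p : E, ∃ l, i ≤ l ∧ l ≤ i + k ∧ 1 ≤ dist p (y l) := by
    intro i hi p
    by_contra hcon
    push Not at hcon
    have hlt : ∀ m ∈ Finset.Icc i (i + k), m < N := by
      intro m hm
      rw [Finset.mem_Icc] at hm
      omega
    have h := hpackF p ((Finset.Icc i (i + k)).attachFin hlt) ?_
    · rw [Finset.card_attachFin, Nat.card_Icc] at h
      omega
    · intro j hj
      rw [Finset.mem_attachFin, Finset.mem_Icc] at hj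
      exact hcon j hj.1 hj.2
  by_cases hthin : ∀ i < N, ‖perpE u (y i - a)‖ ≤ 1 / 2
  · -- thin case
    obtain ⟨j, hj⟩ : ∃ j, M = j + 1 := ⟨M - 1, by omega⟩
    have hjk : j * k + k = N := by rw [hN, hj]; ring
    have h1 := left_ge n hE hk16 a u hu hC hD hCD Δ ha hb k (j * k) y
      (fun i hi => hyC i (by omega)) (fun i hi => hy0 i (by omega)) (fun i hi => hyΔ i (by omega))
      (fun i hi => hthin i (by omega)) (fun i i' h h' => hmono i i' h (by omega))
      (fun i hi => hpack i (by omega)) j le_rfl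
    have h2 := halfball_ge (y (j * k)) (-u) (by rwa [norm_neg])
    rw [hE] at h2
    set s0 := ⟪y (j * k) - a, u⟫ with hs0
    have h3 : closedBall (y (j * k)) 1 ∩ {p | ⟪p - y (j * k), -u⟫ < 0} ⊆
        D ∩ {p | s0 < ⟪p - a, u⟫} := by
      rintro p ⟨hp1, hp2⟩
      refine ⟨hCD _ (hyC _ (by omega)) hp1, ?_⟩
      simp only [mem_ofPred_eq, inner_neg_right, Left.neg_neg_iff] at hp2 ⊢
      have e : p - a = (p - y (j * k)) + (y (j * k) - a) := by abel
      rw [e, inner_add_left, ← hs0]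
      linarith
    have hm : MeasurableSet (D ∩ {p | s0 < ⟪p - a, u⟫}) := hD.inter (hmeas measurableSet_Ioi)
    have hdisj : Disjoint (D ∩ {p | ⟪p - a, u⟫ < s0}) (D ∩ {p | s0 < ⟪p - a, u⟫}) := by
      rw [Set.disjoint_left]
      rintro p ⟨_, h1⟩ ⟨_, h2⟩
      simp only [mem_ofPred_eq] at h1 h2
      linarith
    have hMj : (M : ℝ) - 1 = j := by rw [hj]; push_cast; ring
    calc ENNReal.ofReal (kap (n + 3) + 2 * (M - 1) * kap (n + 2))
        = ENNReal.ofReal (kap (n + 3) / 2 + 2 * j * kap (n + 2)) +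
            ENNReal.ofReal (kap (n + 3) / 2) := by
          rw [← ENNReal.ofReal_add (by positivity) (by positivity), hMj]
          congr 1; ring
      _ ≤ volume (D ∩ {p | ⟪p - a, u⟫ < s0}) + volume (D ∩ {p | s0 < ⟪p - a, u⟫}) := by
          gcongr
          exact h2.trans (measure_mono h3)
      _ = volume ((D ∩ {p | ⟪p - a, u⟫ < s0}) ∪ (D ∩ {p | s0 < ⟪p - a, u⟫})) := by
          rw [measure_union hdisj hm]
      _ ≤ volume D := measure_mono (union_subset inter_subset_left inter_subset_left)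
  · -- wide case
    push Not at hthin
    have hex1 : ∃ i, i < N ∧ 1 / 2 < ‖perpE u (y i - a)‖ := by
      obtain ⟨i, hi, hi'⟩ := hthin; exact ⟨i, hi, hi'⟩
    set p := Nat.find hex1 with hp
    have hpN : p < N := (Nat.find_spec hex1).1
    have hpw : 1 / 2 < ‖perpE u (y p - a)‖ := (Nat.find_spec hex1).2
    have hpmin : ∀ i < p, ‖perpE u (y i - a)‖ ≤ 1 / 2 := by
      intro i hi
      have := Nat.find_min hex1 hi
      push Not at this
      exact this (by omega)
    have hex2 : ∃ i, i < N ∧ 1 / 2 < ‖perpE u (y (N - 1 - i) - a)‖ := by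
      obtain ⟨i, hi, hi'⟩ := hthin
      refine ⟨N - 1 - i, by omega, ?_⟩
      have : N - 1 - (N - 1 - i) = i := by omega
      rw [this]; exact hi'
    set q' := Nat.find hex2 with hq'
    have hqN : q' < N := (Nat.find_spec hex2).1
    have hqw : 1 / 2 < ‖perpE u (y (N - 1 - q') - a)‖ := (Nat.find_spec hex2).2
    have hqmin : ∀ i < q', ‖perpE u (y (N - 1 - i) - a)‖ ≤ 1 / 2 := by
      intro i hi
      have := Nat.find_min hex2 hi
      push Not at this
      exact this (by omega)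
    set q := N - 1 - q' with hq
    have hpq : p ≤ q := by
      by_contra hcon
      push Not at hcon
      exact absurd (hpmin q hcon) (not_le.mpr hqw)
    set R := 1 + σ with hR
    have hR32 : R ≤ 3 / 2 := by rw [hR]; linarith
    set b := a + Δ • u with hbdef
    have hun : ‖-u‖ = 1 := by rwa [norm_neg]
    have hab : b + Δ • (-u) = a := by rw [hbdef]; module
    have hri : ∀ z, ⟪z - b, -u⟫ = Δ - ⟪z - a, u⟫ := fun z => reflect_inner a u hu Δ z
    have hrp : ∀ z, perpE (-u) (z - b) = perpE u (z - a) := fun z => reflect_perp a u hu Δ z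
    -- left part
    have hleft := left_side n hE hk16 a u hu hC hD hCD Δ ha hb k hk R hR32 p y
      (fun i hi => hyC i (by omega)) (fun i hi => hy0 i (by omega)) (fun i hi => hyΔ i (by omega))
      hpmin (fun i i' h h' => hmono i i' h (by omega)) (fun i hi => hpack i (by omega))
    -- right part
    have hright := left_side n hE hk16 b (-u) hun hC hD hCD Δ hb (by rw [hab]; exact ha) k hk R hR32
      q' (fun i => y (N - 1 - i))
      (fun i hi => hyC _ (by omega))
      (fun i hi => by rw [hri]; have := hyΔ (N - 1 - i) (by omega); linarith)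
      (fun i hi => by rw [hri]; have := hy0 (N - 1 - i) (by omega); linarith)
      (fun i hi => by rw [hrp]; exact hqmin i hi)
      (fun i i' h h' => by
        rw [hri, hri]
        have := hmono (N - 1 - i') (N - 1 - i) (by omega) (by omega)
        linarith)
      (fun i hi z => by
        obtain ⟨l, hl1, hl2, hl3⟩ := hpack (N - 1 - (i + k)) (by omega) z
        refine ⟨N - 1 - l, by omega, by omega, ?_⟩
        have : N - 1 - (N - 1 - l) = l := by omega
        rw [this]; exact hl3)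
    have hright' : ENNReal.ofReal ((2 * q' / k - 4) * kap (n + 2)) ≤
        volume (D ∩ {z | ⟪y q - a, u⟫ + R < ⟪z - a, u⟫}) := by
      refine hright.trans (measure_mono ?_)
      rintro z ⟨hz1, hz2⟩
      refine ⟨hz1, ?_⟩
      simp only [mem_ofPred_eq, hri] at hz2 ⊢
      linarith
    -- middle part
    set U : Set E := D ∩ {z | ⟪z - a, u⟫ ∈ Icc (⟪y p - a, u⟫ - R) (⟪y q - a, u⟫ + R)} with hU
    have hUm : MeasurableSet U := hD.inter (hmeas measurableSet_Icc)
    have hlt : ∀ m ∈ Finset.Icc p q, m < N := by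
      intro m hm
      rw [Finset.mem_Icc] at hm
      omega
    have hmid := middle_ge (n + 2) hE k (fun i : Fin N => y i) hpackF R ρ hρ0 (by linarith) hR32
      hσρ hρ hD ((Finset.Icc p q).attachFin hlt) (σ ^ 2 / 8 * kap (n + 1)) ?_ U hUm ?_
    · -- final computation
      rw [Finset.card_attachFin, Nat.card_Icc] at hmid
      set c := q + 1 - p with hc
      have hc1 : 1 ≤ c := by omega
      have hsum : p + c + q' = N := by omega
      set VL := D ∩ {z | ⟪z - a, u⟫ < ⟪y p - a, u⟫ - R} with hVL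
      set VR := D ∩ {z | ⟪y q - a, u⟫ + R < ⟪z - a, u⟫} with hVR
      have hVRm : MeasurableSet VR := hD.inter (hmeas measurableSet_Ioi)
      have hspq : ⟪y p - a, u⟫ ≤ ⟪y q - a, u⟫ := hmono p q hpq (by omega)
      have hd1 : Disjoint VL (U ∪ VR) := by
        rw [Set.disjoint_left]
        rintro z ⟨_, h1⟩ (⟨_, h2⟩ | ⟨_, h2⟩)
        · simp only [mem_ofPred_eq, mem_Icc] at h1 h2; linarith [h2.1]
        · simp only [mem_ofPred_eq] at h1 h2; linarith
      have hd2 : Disjoint U VR := by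
        rw [Set.disjoint_left]
        rintro z ⟨_, h1⟩ ⟨_, h2⟩
        simp only [mem_ofPred_eq, mem_Icc] at h1 h2; linarith [h1.2]
      have htot : volume VL + (volume U + volume VR) ≤ volume D := by
        rw [← measure_union hd2 hVRm, ← measure_union hd1 (hUm.union hVRm)]
        apply measure_mono
        exact union_subset inter_subset_left (union_subset inter_subset_left inter_subset_left)
      have hcast : (k : ℝ≥0∞) = ENNReal.ofReal k := by rw [ENNReal.ofReal_natCast]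
      have hccast : (c : ℝ≥0∞) = ENNReal.ofReal c := by rw [ENNReal.ofReal_natCast]
      have hkpos : (0 : ℝ) < k := by linarith
      have hcR : (1 : ℝ) ≤ c := by exact_mod_cast hc1
      have hsumR : (p : ℝ) + c + q' = M * k := by
        have : p + c + q' = M * k := by omega
        exact_mod_cast this
      -- multiply everything by k
      have hkey : (k : ℝ≥0∞) * ENNReal.ofReal (kap (n + 3) + 2 * (M - 1) * kap (n + 2)) ≤
          k * volume D := by
        calc (k : ℝ≥0∞) * ENNReal.ofReal (kap (n + 3) + 2 * (M - 1) * kap (n + 2))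
            = ENNReal.ofReal (k * (kap (n + 3) + 2 * (M - 1) * kap (n + 2))) := by
              rw [hcast, ← ENNReal.ofReal_mul hkpos.le]
          _ ≤ ENNReal.ofReal (k * ((2 * p / k - 4) * kap (n + 2)) +
              (c * (σ ^ 2 / 8 * kap (n + 1) - (k : ℝ) ^ (k + 1) * kap (n + 3)) +
                k * ((2 * q' / k - 4) * kap (n + 2)))) := by
              apply ENNReal.ofReal_le_ofReal
              have e1 : (k : ℝ) * ((2 * p / k - 4) * kap (n + 2)) = (2 * p - 4 * k) * kap (n + 2) := by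
                field_simp
              have e2 : (k : ℝ) * ((2 * q' / k - 4) * kap (n + 2)) =
                  (2 * q' - 4 * k) * kap (n + 2) := by
                field_simp
              rw [e1, e2]
              have e3 : (c : ℝ) * (10 * k * kap (n + 2)) ≤
                  c * (σ ^ 2 / 8 * kap (n + 1) - (k : ℝ) ^ (k + 1) * kap (n + 3)) := by
                gcongr
              have e4 : (k : ℝ) * (kap (n + 3) + 2 * (M - 1) * kap (n + 2)) ≤
                  2 * (M * k) * kap (n + 2) := by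
                nlinarith
              rw [← hsumR] at e4
              refine e4.trans ?_
              have e5 : 0 ≤ (c - 1 : ℝ) * (k - 1) * kap (n + 2) := by
                apply mul_nonneg (mul_nonneg _ _) hkp.le <;> linarith
              nlinarith [mul_nonneg (by linarith : (0 : ℝ) ≤ c - 1) hkp.le,
                mul_nonneg (by linarith : (0 : ℝ) ≤ k - 1) hkp.le]
          _ ≤ ENNReal.ofReal (k * ((2 * p / k - 4) * kap (n + 2))) +
              (ENNReal.ofReal (c * (σ ^ 2 / 8 * kap (n + 1) - (k : ℝ) ^ (k + 1) * kap (n + 3))) +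
                ENNReal.ofReal (k * ((2 * q' / k - 4) * kap (n + 2)))) :=
              ENNReal.ofReal_add_le.trans (by gcongr; exact ENNReal.ofReal_add_le)
          _ = k * ENNReal.ofReal ((2 * p / k - 4) * kap (n + 2)) +
              (c * ENNReal.ofReal (σ ^ 2 / 8 * kap (n + 1) - (k : ℝ) ^ (k + 1) * kap (n + 3)) +
                k * ENNReal.ofReal ((2 * q' / k - 4) * kap (n + 2))) := by
              rw [ENNReal.ofReal_mul hkpos.le, ENNReal.ofReal_mul (by linarith : (0 : ℝ) ≤ c),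
                ENNReal.ofReal_mul hkpos.le, ← hcast, ← hccast]
          _ ≤ k * volume VL + (k * volume U + k * volume VR) := by
              gcongr
          _ = k * (volume VL + (volume U + volume VR)) := by ring
          _ ≤ k * volume D := by gcongr
      have hk0 : (k : ℝ≥0∞) ≠ 0 := by
        simp; omega
      exact (ENNReal.mul_le_mul_iff_right hk0 (ENNReal.natCast_ne_top k)).mp hkey
    · -- each middle centre is fat
      intro i hi
      rw [Finset.mem_attachFin, Finset.mem_Icc] at hi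
      have hiN : (i : ℕ) < N := i.2
      by_cases hhalf : ⟪y i - a, u⟫ ≤ Δ / 2
      · exact mid_ge n hE a u hu hC hD hCD Δ hΔ ha hb σ hσ0 hσ (y i) (hyC _ hiN) (hy0 _ hiN) hhalf
          (hyb _ hiN) (y p) (hyC _ hpN) (hy0 _ hpN) (hmono _ _ hi.1 hiN) hpw.le
      · push Not at hhalf
        refine mid_ge n hE b (-u) hun hC hD hCD Δ hΔ hb (by rw [hab]; exact ha) σ hσ0 hσ (y i)
          (hyC _ hiN) ?_ ?_ ?_ (y q) (hyC _ (by omega)) ?_ ?_ ?_
        · rw [hri]; have := hyΔ _ hiN; linarith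
        · rw [hri]; linarith
        · rw [hab]; exact hya _ hiN
        · rw [hri]; have := hyΔ q (by omega); linarith
        · rw [hri, hri]; have := hmono i q hi.2 (by omega); linarith
        · rw [hrp]; exact hqw.le
    · -- middle pieces lie in the middle slab
      intro i hi z hz
      rw [Finset.mem_attachFin, Finset.mem_Icc] at hi
      refine ⟨hz.1, ?_⟩
      have hz2 := hz.2
      rw [mem_closedBall, dist_eq_norm] at hz2
      have h1 : |⟪z - y i, u⟫| ≤ R := by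
        refine (abs_real_inner_le_norm _ _).trans ?_
        rw [hu, mul_one]; exact hz2
      have h2 : z - a = (z - y i) + (y i - a) := by abel
      have h3 := hmono p i hi.1 i.2
      have h4 := hmono i q hi.2 (by omega)
      rw [abs_le] at h1
      simp only [mem_ofPred_eq, mem_Icc]
      rw [h2, inner_add_left]
      constructor <;> linarith [h1.1, h1.2]

end core

section final
variable {E : Type*} [NormedAddCommGroup E] [InnerProductSpace ℝ E] [FiniteDimensional ℝ E]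
  [MeasurableSpace E] [BorelSpace E]

lemma convex_inner (D : Set E) (hD : Convex ℝ D) : Convex ℝ {z : E | closedBall z 1 ⊆ D} := by
  intro x hx y hy α β hα hβ hαβ p hp
  simp only [mem_ofPred_eq] at hx hy
  rw [mem_closedBall, dist_eq_norm] at hp
  set w := p - (α • x + β • y) with hw
  have e : p = α • (x + w) + β • (y + w) := by
    have : p = (α • x + β • y) + (α + β) • w := by rw [hαβ, one_smul, hw]; abel
    rw [this]; module
  rw [e]
  apply hD (hx _) (hy _) hα hβ hαβ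
  · rw [mem_closedBall, dist_eq_norm, add_sub_cancel_left]; exact hp
  · rw [mem_closedBall, dist_eq_norm, add_sub_cancel_left]; exact hp

theorem core (n : ℕ) (hE : finrank ℝ E = n + 3) (hk16 : 16 * kap (n + 2) ≤ kap (n + 1))
    (k : ℕ) (hk : 1 ≤ k) (σ ρ : ℝ) (hρ0 : 0 ≤ ρ) (hρ : 2 * ρ ≤ (1 / 4 : ℝ) ^ (k + 1))
    (hσ0 : 0 < σ) (hσ : σ ≤ 1 / 8) (hσρ : (1 + σ) ^ 2 ≤ 1 + ρ ^ 2)
    (hbig : 10 * k * kap (n + 2) ≤ σ ^ 2 / 8 * kap (n + 1) - (k : ℝ) ^ (k + 1) * kap (n + 3))
    {D : Set E} (hDc : Convex ℝ D) (hDm : MeasurableSet D)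
    (M N : ℕ) (hM : 2 ≤ M) (hN : N = M * k) (x : Fin N → E)
    (hx : ∀ i, closedBall (x i) 1 ⊆ D)
    (hpack : ∀ p : E, ∀ J : Finset (Fin N), (∀ j ∈ J, dist p (x j) < 1) → J.card ≤ k) :
    ENNReal.ofReal (kap (n + 3) + 2 * (M - 1) * kap (n + 2)) ≤ volume D := by
  classical
  have hNk : k + k ≤ N := by rw [hN]; nlinarith
  have hNpos : 0 < N := by omega
  have : Nonempty (Fin N) := ⟨⟨0, hNpos⟩⟩
  -- a diameter
  obtain ⟨⟨ia, ib⟩, -, hmax⟩ := Finset.exists_max_image (Finset.univ : Finset (Fin N × Fin N))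
    (fun q => dist (x q.1) (x q.2)) Finset.univ_nonempty
  have hmax' : ∀ i j, dist (x i) (x j) ≤ dist (x ia) (x ib) := fun i j =>
    hmax (i, j) (Finset.mem_univ _)
  set Δ := dist (x ia) (x ib) with hΔ
  have hΔ1 : 1 ≤ Δ := by
    by_contra hcon
    push Not at hcon
    have := hpack (x ia) Finset.univ (fun j _ => (hmax' ia j).trans_lt hcon)
    rw [Finset.card_univ, Fintype.card_fin] at this
    omega
  have hΔ0 : 0 < Δ := by linarith
  set a := x ia with ha
  set u : E := Δ⁻¹ • (x ib - a) with hu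
  have hba : ‖x ib - a‖ = Δ := by rw [hΔ, dist_comm, dist_eq_norm]
  have hun : ‖u‖ = 1 := by
    rw [hu, norm_smul, norm_inv, Real.norm_eq_abs, abs_of_pos hΔ0, hba]
    field_simp
  have hb : a + Δ • u = x ib := by
    rw [hu, smul_smul, mul_inv_cancel₀ hΔ0.ne', one_smul]; abel
  set s : Fin N → ℝ := fun j => ⟪x j - a, u⟫ with hs
  have hs0 : ∀ j, 0 ≤ s j := by
    intro j
    have h1 := hmax' j ib
    rw [dist_eq_norm] at h1
    have e : x j - x ib = (x j - a) - Δ • u := by rw [← hb]; abel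
    have h2 : ‖x j - x ib‖ ^ 2 ≤ Δ ^ 2 := by
      have := norm_nonneg (x j - x ib); nlinarith
    rw [e, norm_sub_sq_real, real_inner_smul_right, norm_smul, hun, Real.norm_eq_abs,
      abs_of_pos hΔ0] at h2
    have h3 := sq_nonneg ‖x j - a‖
    have h4 : 0 ≤ Δ * ⟪x j - a, u⟫ := by nlinarith
    exact nonneg_of_mul_nonneg_right h4 hΔ0
  have hsΔ : ∀ j, s j ≤ Δ := by
    intro j
    have h1 := real_inner_le_norm (x j - a) u
    rw [hun, mul_one] at h1
    have h2 := hmax' j ia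
    rw [dist_eq_norm] at h2
    exact h1.trans h2
  set τ := Tuple.sort s with hτ
  have hτm : Monotone (s ∘ τ) := Tuple.monotone_sort s
  set y : ℕ → E := fun i => if h : i < N then x (τ ⟨i, h⟩) else a with hy
  have hyi : ∀ i (h : i < N), y i = x (τ ⟨i, h⟩) := by
    intro i h
    simp only [hy, dif_pos h]
  refine sorted_core n hE hk16 k hk σ ρ hρ0 hρ hσ0 hσ hσρ hbig a u hun (convex_inner D hDc) hDm
    (fun z hz => hz) Δ hΔ1 (hx ia) (by rw [hb]; exact hx ib) M N hM hN y ?_ ?_ ?_ ?_ ?_ ?_ ?_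
  · intro i hi; rw [hyi i hi]; exact hx _
  · intro i hi; rw [hyi i hi]; exact hs0 _
  · intro i hi; rw [hyi i hi]; exact hsΔ _
  · intro i hi; rw [hyi i hi, ← dist_eq_norm]; exact hmax' _ _
  · intro i hi; rw [hyi i hi, hb, ← dist_eq_norm]; exact hmax' _ _
  · intro i j hij hj
    rw [hyi i (by omega), hyi j hj]
    exact hτm (a := ⟨i, by omega⟩) (b := ⟨j, hj⟩) hij
  · intro p J hJ
    have h := hpack p (J.map τ.toEmbedding) ?_
    · rwa [Finset.card_map] at h
    · intro j hj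
      rw [Finset.mem_map] at hj
      obtain ⟨i, hi, rfl⟩ := hj
      have := hJ i hi
      rw [hyi i i.2] at this
      exact this

end final

/-- **k-fold sausage conjecture in high dimensions.** For every `k ≥ 1` there is `d₀` such that
for all `d ≥ d₀` and all `n ≥ k`, every convex body `D` in `ℝ^d` containing a `k`-fold packing of
`n` unit balls has volume at least that of the sausage of `⌊n/k⌋` unit balls. -/
theorem result_proof (k : ℕ) (hk : 1 ≤ k) : ∃ d₀ : ℕ, ∀ d : ℕ, d₀ ≤ d → ∀ n : ℕ, k ≤ n →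
    ∀ x : Fin n → EuclideanSpace ℝ (Fin d),
    (∀ p : EuclideanSpace ℝ (Fin d), ∀ J : Finset (Fin n),
      (∀ j ∈ J, p ∈ interior (closedBall (x j) 1)) → J.card ≤ k) →
    ∀ D : Set (EuclideanSpace ℝ (Fin d)), Convex ℝ D → IsCompact D → (interior D).Nonempty →
    (∀ j, closedBall (x j) 1 ⊆ D) →
    ∀ a b : EuclideanSpace ℝ (Fin d), dist a b = 2 * (((n / k : ℕ) : ℝ) - 1) →
      volume (segment ℝ a b + closedBall (0 : EuclideanSpace ℝ (Fin d)) 1) ≤ volume D := by
  set ρ : ℝ := (1 / 4 : ℝ) ^ (k + 1) / 2 with hρ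
  have hρ0 : 0 < ρ := by positivity
  have hρ1 : ρ ≤ 1 / 2 := by
    rw [hρ]
    have : (1 / 4 : ℝ) ^ (k + 1) ≤ 1 := pow_le_one₀ (by norm_num) (by norm_num)
    linarith
  set σ : ℝ := ρ ^ 2 / 4 with hσ
  have hσ0 : 0 < σ := by positivity
  have hσ1 : σ ≤ 1 / 8 := by rw [hσ]; nlinarith
  have hσρ : (1 + σ) ^ 2 ≤ 1 + ρ ^ 2 := by rw [hσ]; nlinarith
  obtain ⟨n1, hn1⟩ := kap_ratio_tendsto 16
  obtain ⟨n2, hn2⟩ := kap_ratio_tendsto ((10 * k + 2 * (k : ℝ) ^ (k + 1)) * (8 / σ ^ 2))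
  refine ⟨n1 + n2 + 3, fun d hd n hn x hpack D hDc hDk hDi hxD a b hab => ?_⟩
  obtain ⟨m, rfl⟩ : ∃ m, d = m + 3 := ⟨d - 3, by omega⟩
  have hE : finrank ℝ (EuclideanSpace ℝ (Fin (m + 3))) = m + 3 := by simp
  have hEn : Nontrivial (EuclideanSpace ℝ (Fin (m + 3))) := nontriv (m + 2) hE
  have hk16 : 16 * kap (m + 2) ≤ kap (m + 1) := hn1 (m + 1) (by omega)
  have hkp := kap_pos (m + 2)
  have hkp3 := kap_pos (m + 3)
  have hkR : (1 : ℝ) ≤ k := by exact_mod_cast hk
  have hbig : 10 * k * kap (m + 2) ≤ σ ^ 2 / 8 * kap (m + 1) - (k : ℝ) ^ (k + 1) * kap (m + 3) := by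
    have h1 := hn2 (m + 1) (by omega)
    have h2 : kap (m + 3) ≤ 2 * kap (m + 2) := kap_succ_le (m + 2) (by omega)
    have h3 : (10 * k + 2 * (k : ℝ) ^ (k + 1)) * kap (m + 2) ≤ σ ^ 2 / 8 * kap (m + 1) := by
      have h4 : σ ^ 2 / 8 * ((10 * k + 2 * (k : ℝ) ^ (k + 1)) * (8 / σ ^ 2) * kap (m + 2)) ≤
          σ ^ 2 / 8 * kap (m + 1) := by
        apply mul_le_mul_of_nonneg_left h1 (by positivity)
      have h5 : σ ^ 2 / 8 * ((10 * k + 2 * (k : ℝ) ^ (k + 1)) * (8 / σ ^ 2) * kap (m + 2)) =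
          (10 * k + 2 * (k : ℝ) ^ (k + 1)) * kap (m + 2) := by
        field_simp
      linarith
    have h6 : (k : ℝ) ^ (k + 1) * kap (m + 3) ≤ (k : ℝ) ^ (k + 1) * (2 * kap (m + 2)) := by
      gcongr
    nlinarith
  have hpack' : ∀ p : EuclideanSpace ℝ (Fin (m + 3)), ∀ J : Finset (Fin n),
      (∀ j ∈ J, dist p (x j) < 1) → J.card ≤ k := by
    intro p J hJ
    apply hpack p J
    intro j hj
    rw [interior_closedBall _ one_ne_zero]
    exact hJ j hj
  -- number of balls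
  set M := n / k with hM
  have hM1 : 1 ≤ M := by
    rw [hM, Nat.le_div_iff_mul_le (by omega)]; omega
  have hMk : M * k ≤ n := Nat.div_mul_le_self n k
  refine (sausage_le (m + 1) hE a b).trans ?_
  rw [hab]
  rcases eq_or_lt_of_le hM1 with hM1' | hM2
  · -- one ball
    rw [← hM1']
    have : (2 * (((1 : ℕ) : ℝ) - 1)) = 0 := by norm_num
    rw [this, zero_mul, add_zero]
    have h1 : ENNReal.ofReal (kap (m + 3)) = volume (closedBall (x ⟨0, by omega⟩) 1) := by
      rw [vol_cball_one, hE]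
    change ENNReal.ofReal (kap (m + 3)) ≤ volume D
    rw [h1]
    exact measure_mono (hxD _)
  · have h := core m hE hk16 k hk σ ρ hρ0.le (by rw [hρ]; linarith) hσ0 hσ1 hσρ hbig hDc
      hDk.isClosed.measurableSet M (M * k) hM2 rfl (fun i => x (Fin.castLE hMk i))
      (fun i => hxD _) ?_
    · exact h
    · intro p J hJ
      have h1 := hpack' p (J.map (Fin.castLEEmb hMk)) ?_
      · rwa [Finset.card_map] at h1
      · intro j hj
        rw [Finset.mem_map] at hj
        obtain ⟨i, hi, rfl⟩ := hj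
        exact hJ i hi

end Pool.Agent.Results.MP_fe456b_co.KFoldSausage
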