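import Mathlib

set_option autoImplicit false

open MvPolynomial

namespace Pool.Agent.Results.MP_5bb273_ag.MaxRankFails

variable {K : Type*} [Field K]

/-- The homogeneous ideal of the point of `ℙ²` with homogeneous coordinates `p`:
the polynomials `F` with `F(T p) = 0` in `K[T]`. -/
noncomputable def pointIdeal (p : Fin 3 → K) : Ideal (MvPolynomial (Fin 3) K) :=
  RingHom.ker (aeval (fun i => Polynomial.C (p i) * Polynomial.X :
    Fin 3 → Polynomial K) : MvPolynomial (Fin 3) K →ₐ[K] Polynomial K)

/-- The linear system `|d H - ∑ m_i E_i|`: homogeneous polynomials of degree `d` lying in the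
`m_i`-th power of the ideal of `p_i` for every `i`. -/
noncomputable def linSys {r : ℕ} (v : Fin r → Fin 3 → K) (d : ℕ) (m : Fin r → ℕ) :
    Submodule K (MvPolynomial (Fin 3) K) :=
  homogeneousSubmodule (Fin 3) K d ⊓ ⨅ i, ((pointIdeal (v i)) ^ (m i)).restrictScalars K

/-- The Taylor expansion `F(p + T W)` at `p`, a polynomial in `T` over `K[W_0, W_1, W_2]`. -/
noncomputable def expand (p : Fin 3 → K) :
    MvPolynomial (Fin 3) K →ₐ[K] Polynomial (MvPolynomial (Fin 3) K) :=
  aeval (fun i => Polynomial.C (C (p i)) + Polynomial.C (X i) * Polynomial.X)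

/-- The forms of degree `n` on the tangent direction space `K³ / K p` at `p`. -/
noncomputable def excForms (p : Fin 3 → K) (n : ℕ) : Submodule K (MvPolynomial (Fin 3) K) where
  carrier := {G | G.IsHomogeneous n ∧
    ∀ (w : Fin 3 → K) (s : K), eval (fun i => w i + s * p i) G = eval w G}
  add_mem' := by
    rintro a b ⟨ha, ha'⟩ ⟨hb, hb'⟩
    exact ⟨ha.add hb, fun w s => by rw [map_add, map_add, ha', hb']⟩
  zero_mem' := ⟨isHomogeneous_zero _ _ _, fun w s => by simp⟩
  smul_mem' := by
    rintro c a ⟨ha, ha'⟩
    refine ⟨?_, fun w s => ?_⟩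
    · rw [smul_eq_C_mul]
      exact ha.C_mul c
    · rw [smul_eq_C_mul, map_mul, map_mul, ha', eval_C, eval_C]

lemma expand_X (p : Fin 3 → K) (i : Fin 3) :
    expand p (X i) = Polynomial.C (C (p i)) + Polynomial.C (X i) * Polynomial.X := by
  simp [expand]

lemma expand_C (p : Fin 3 → K) (c : K) :
    expand p (C c) = Polynomial.C (C c) := by
  have : expand p (C c) = algebraMap K _ c := by
    rw [← MvPolynomial.algebraMap_eq]
    exact AlgHom.commutes _ _
  rw [this]
  rfl

/-- the coefficient of `T^j` of `F(p + T W)` is homogeneous of degree `j` in `W` -/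
lemma coeff_expand_hom (p : Fin 3 → K) (F : MvPolynomial (Fin 3) K) :
    ∀ j, ((expand p F).coeff j).IsHomogeneous j := by
  induction F using MvPolynomial.induction_on with
  | C c =>
    intro j
    rw [expand_C, Polynomial.coeff_C]
    split_ifs with h
    · subst h
      exact isHomogeneous_C _ _
    · exact isHomogeneous_zero _ _ _
  | add a b ha hb =>
    intro j
    rw [map_add, Polynomial.coeff_add]
    exact (ha j).add (hb j)
  | mul_X a i ha =>
    intro j
    rw [map_mul, expand_X, mul_add, Polynomial.coeff_add, Polynomial.coeff_mul_C, ← mul_assoc]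
    refine IsHomogeneous.add ?_ ?_
    · rw [mul_comm]
      exact (ha j).C_mul _
    · cases j with
      | zero =>
        rw [Polynomial.coeff_mul_X_zero]
        exact isHomogeneous_zero _ _ _
      | succ j =>
        rw [Polynomial.coeff_mul_X, Polynomial.coeff_mul_C]
        exact (ha j).mul (isHomogeneous_X _ _)

/-- expansion of a monomial along `S p + T W` -/
lemma expand_monomial (p : Fin 3 → K) {R : Type*} [CommRing R] [Algebra K R] (S T : R)
    (W : Fin 3 → R) (d : ℕ) : ∀ (s : Fin 3 →₀ ℕ) (c : K), s.degree = d →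
    (∀ j, d < j → (expand p (monomial s c)).coeff j = 0) ∧
    aeval (fun i => algebraMap K R (p i) * S + W i * T) (monomial s c)
      = ∑ j ∈ Finset.range (d + 1), S ^ (d - j) * T ^ j * aeval W ((expand p (monomial s c)).coeff j) := by
  induction d with
  | zero =>
    intro s c hs
    have hs0 : s = 0 := (Finsupp.degree_eq_zero_iff s).mp hs
    subst hs0
    have h1 : (monomial 0 c : MvPolynomial (Fin 3) K) = C c := rfl
    rw [h1, expand_C]
    refine ⟨fun j hj => ?_, ?_⟩
    · rw [Polynomial.coeff_C, if_neg (by omega)]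
    · simp
  | succ d ih =>
    intro s c hs
    obtain ⟨i, hi⟩ : ∃ i, s i ≠ 0 := by
      by_contra hcon
      push Not at hcon
      have : s = 0 := Finsupp.ext hcon
      rw [this] at hs
      simp at hs
    obtain ⟨s', rfl⟩ : ∃ s' : Fin 3 →₀ ℕ, s = s' + Finsupp.single i 1 := by
      refine ⟨s - Finsupp.single i 1, ?_⟩
      rw [tsub_add_cancel_of_le]
      rw [Finsupp.single_le_iff]
      omega
    have hs' : s'.degree = d := by
      rw [map_add, Finsupp.degree_single] at hs
      omega
    obtain ⟨ih1, ih2⟩ := ih s' c hs'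
    have hmon : (monomial (s' + Finsupp.single i 1) c : MvPolynomial (Fin 3) K)
        = monomial s' c * X i := by
      rw [X, monomial_mul, mul_one]
    have hcoeff0 : (expand p (monomial (s' + Finsupp.single i 1) c)).coeff 0
        = (expand p (monomial s' c)).coeff 0 * C (p i) := by
      rw [hmon, map_mul, expand_X, mul_add, Polynomial.coeff_add, Polynomial.coeff_mul_C,
        ← mul_assoc, Polynomial.coeff_mul_X_zero, add_zero]
    have hcoeff : ∀ j, (expand p (monomial (s' + Finsupp.single i 1) c)).coeff (j + 1)
        = (expand p (monomial s' c)).coeff (j + 1) * C (p i)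
          + (expand p (monomial s' c)).coeff j * X i := by
      intro j
      rw [hmon, map_mul, expand_X, mul_add, Polynomial.coeff_add, Polynomial.coeff_mul_C,
        ← mul_assoc, Polynomial.coeff_mul_X, Polynomial.coeff_mul_C]
    refine ⟨fun j hj => ?_, ?_⟩
    · obtain ⟨j', rfl⟩ : ∃ j', j = j' + 1 := ⟨j - 1, by omega⟩
      rw [hcoeff, ih1 _ (by omega), ih1 _ (by omega), zero_mul, zero_mul, add_zero]
    · have e1 : aeval (fun i => algebraMap K R (p i) * S + W i * T)
          (monomial (s' + Finsupp.single i 1) c)
          = aeval (fun i => algebraMap K R (p i) * S + W i * T) (monomial s' c)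
            * (algebraMap K R (p i) * S + W i * T) := by
        rw [hmon, map_mul, aeval_X]
      rw [e1, ih2, Finset.sum_range_succ' _ (d + 1)]
      simp only [hcoeff, hcoeff0, map_add, map_mul, aeval_X, aeval_C]
      rw [mul_add, Finset.sum_mul, Finset.sum_mul]
      have e2 : ∑ j ∈ Finset.range (d + 1), S ^ (d + 1 - (j + 1)) * T ^ (j + 1) *
          (aeval W ((expand p (monomial s' c)).coeff (j + 1)) * algebraMap K R (p i)
            + aeval W ((expand p (monomial s' c)).coeff j) * W i)
          = ∑ j ∈ Finset.range (d + 1), S ^ (d + 1 - (j + 1)) * T ^ (j + 1) *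
          (aeval W ((expand p (monomial s' c)).coeff (j + 1)) * algebraMap K R (p i))
          + ∑ j ∈ Finset.range (d + 1), S ^ (d + 1 - (j + 1)) * T ^ (j + 1) *
          (aeval W ((expand p (monomial s' c)).coeff j) * W i) := by
        rw [← Finset.sum_add_distrib]
        exact Finset.sum_congr rfl fun j _ => by ring
      rw [e2]
      have e3 : ∑ j ∈ Finset.range (d + 1), S ^ (d - j) * T ^ j *
            aeval W ((expand p (monomial s' c)).coeff j) * (algebraMap K R (p i) * S)
          = ∑ j ∈ Finset.range (d + 1), S ^ (d + 1 - (j + 1)) * T ^ (j + 1) *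
          (aeval W ((expand p (monomial s' c)).coeff (j + 1)) * algebraMap K R (p i))
            + S ^ (d + 1 - 0) * T ^ 0 *
            (aeval W ((expand p (monomial s' c)).coeff 0) * algebraMap K R (p i)) := by
        rw [Finset.sum_range_succ' (fun j => S ^ (d - j) * T ^ j *
            aeval W ((expand p (monomial s' c)).coeff j) * (algebraMap K R (p i) * S)) d]
        rw [Finset.sum_range_succ (fun j => S ^ (d + 1 - (j + 1)) * T ^ (j + 1) *
          (aeval W ((expand p (monomial s' c)).coeff (j + 1)) * algebraMap K R (p i))) d]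
        rw [ih1 (d + 1) (by omega)]
        have e4 : ∀ j ∈ Finset.range d, S ^ (d - (j + 1)) * T ^ (j + 1) *
            aeval W ((expand p (monomial s' c)).coeff (j + 1)) * (algebraMap K R (p i) * S)
            = S ^ (d + 1 - (j + 1)) * T ^ (j + 1) *
          (aeval W ((expand p (monomial s' c)).coeff (j + 1)) * algebraMap K R (p i)) := by
          intro j hj
          rw [Finset.mem_range] at hj
          have : d + 1 - (j + 1) = (d - (j + 1)) + 1 := by omega
          rw [this, pow_succ]
          ring
        rw [Finset.sum_congr rfl e4]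
        simp only [map_zero, zero_mul, mul_zero, add_zero, Nat.sub_zero, pow_zero, mul_one]
        rw [pow_succ]
        ring
      rw [e3]
      have e5 : ∑ j ∈ Finset.range (d + 1), S ^ (d - j) * T ^ j *
            aeval W ((expand p (monomial s' c)).coeff j) * (W i * T)
          = ∑ j ∈ Finset.range (d + 1), S ^ (d + 1 - (j + 1)) * T ^ (j + 1) *
          (aeval W ((expand p (monomial s' c)).coeff j) * W i) := by
        refine Finset.sum_congr rfl fun j _ => ?_
        have : d + 1 - (j + 1) = d - j := by omega
        rw [this, pow_succ]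
        ring
      rw [e5]
      ring

/-- expansion of a homogeneous polynomial along `S p + T W` -/
lemma expand_hom (p : Fin 3 → K) {R : Type*} [CommRing R] [Algebra K R] (S T : R)
    (W : Fin 3 → R) {d : ℕ} {F : MvPolynomial (Fin 3) K} (hF : F.IsHomogeneous d) :
    aeval (fun i => algebraMap K R (p i) * S + W i * T) F
      = ∑ j ∈ Finset.range (d + 1), S ^ (d - j) * T ^ j * aeval W ((expand p F).coeff j) := by
  have h : ∀ s ∈ F.support, s.degree = d := fun s hs => by
    have := hF (mem_support_iff.mp hs)
    rw [← this, Finsupp.degree_eq_weight_one]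
    rfl
  conv_lhs => rw [F.as_sum]
  have h2 : ∀ j, (expand p F).coeff j = ∑ s ∈ F.support, (expand p (monomial s (F.coeff s))).coeff j := by
    intro j
    conv_lhs => rw [F.as_sum]
    rw [map_sum, Polynomial.finsetSum_coeff]
  simp only [h2, map_sum, Finset.mul_sum]
  rw [Finset.sum_comm]
  exact Finset.sum_congr rfl fun s hs => (expand_monomial p S T W d s _ (h s hs)).2

/-- a ring homomorphism sending `(X_i)` to `S p` modulo `J` maps the point ideal into `J` -/
lemma map_pointIdeal_le (p : Fin 3 → K) {R : Type*} [CommRing R] [Algebra K R]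
    (φ : MvPolynomial (Fin 3) K →ₐ[K] R) (J : Ideal R) (S : R)
    (h : ∀ i, φ (X i) - algebraMap K R (p i) * S ∈ J) {F : MvPolynomial (Fin 3) K} {m : ℕ}
    (hF : F ∈ (pointIdeal p) ^ m) : φ F ∈ J ^ m := by
  have h1 : Ideal.map φ (pointIdeal p) ≤ J := by
    rw [Ideal.map_le_iff_le_comap]
    intro G hG
    rw [Ideal.mem_comap]
    have hG' : (aeval (fun i => Polynomial.C (p i) * Polynomial.X :
      Fin 3 → Polynomial K)) G = 0 := hG
    have e1 : (Ideal.Quotient.mkₐ K J).comp φ
        = (Polynomial.aeval (Ideal.Quotient.mk J S)).comp (aeval (fun i => Polynomial.C (p i) *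
          Polynomial.X : Fin 3 → Polynomial K)) := by
      apply MvPolynomial.algHom_ext
      intro i
      simp only [AlgHom.comp_apply, aeval_X, map_mul, Polynomial.aeval_C, Polynomial.aeval_X]
      rw [Ideal.Quotient.mkₐ_eq_mk]
      have := Ideal.Quotient.eq.mpr (h i)
      rw [this, map_mul]
      rfl
    have e2 := congrArg (fun f => f G) e1
    simp only [AlgHom.comp_apply] at e2
    rw [hG', map_zero, Ideal.Quotient.mkₐ_eq_mk] at e2
    exact Ideal.Quotient.eq_zero_iff_mem.mp e2
  have h2 : φ F ∈ Ideal.map φ ((pointIdeal p) ^ m) := Ideal.mem_map_of_mem φ hF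
  rw [Ideal.map_pow] at h2
  exact Ideal.pow_right_mono h1 m h2

lemma coeff_expand_of_lt (p : Fin 3 → K) {d : ℕ} {F : MvPolynomial (Fin 3) K}
    (hF : F.IsHomogeneous d) {j : ℕ} (hj : d < j) : (expand p F).coeff j = 0 := by
  have h : ∀ s ∈ F.support, s.degree = d := fun s hs => by
    have := hF (mem_support_iff.mp hs)
    rw [← this, Finsupp.degree_eq_weight_one]
    rfl
  rw [F.as_sum, map_sum, Polynomial.finsetSum_coeff]
  refine Finset.sum_eq_zero fun s hs => ?_
  exact (expand_monomial p (0 : K) 0 (fun _ => 0) d s _ (h s hs)).1 j hj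

lemma X_pow_dvd_expand {p : Fin 3 → K} {F : MvPolynomial (Fin 3) K} {m : ℕ}
    (hF : F ∈ (pointIdeal p) ^ m) : Polynomial.X ^ m ∣ expand p F := by
  have h := map_pointIdeal_le p (expand p) (Ideal.span {Polynomial.X}) 1 (fun i => by
    rw [expand_X, Ideal.mem_span_singleton]
    refine ⟨Polynomial.C (X i), ?_⟩
    have : algebraMap K (Polynomial (MvPolynomial (Fin 3) K)) (p i)
        = Polynomial.C (C (p i)) := rfl
    rw [this]
    ring) hF
  rw [Ideal.span_singleton_pow, Ideal.mem_span_singleton] at h
  exact h

lemma coeff_expand_of_mem {p : Fin 3 → K} {F : MvPolynomial (Fin 3) K} {m : ℕ}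
    (hF : F ∈ (pointIdeal p) ^ m) {j : ℕ} (hj : j < m) : (expand p F).coeff j = 0 :=
  Polynomial.X_pow_dvd_iff.mp (X_pow_dvd_expand hF) j hj

/-- the leading coefficient at `p` of a form in the `m`-th power of the point ideal is a form of
degree `m` on `K³ / K p` -/
lemma lead_mem {p : Fin 3 → K} {F : MvPolynomial (Fin 3) K} {d m : ℕ}
    (hF : F.IsHomogeneous d) (hm : F ∈ (pointIdeal p) ^ m) :
    (expand p F).coeff m ∈ excForms p m := by
  refine ⟨coeff_expand_hom p F m, fun w s => ?_⟩
  by_cases hmd : d < m
  · rw [coeff_expand_of_lt p hF hmd, map_zero, map_zero]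
  · push Not at hmd
    have hev : ∀ (u : Fin 3 → K) (G : MvPolynomial (Fin 3) K),
        aeval (fun i => Polynomial.C (u i)) G = Polynomial.C (eval u G) := by
      intro u G
      have h1 : (aeval (fun i => Polynomial.C (u i)) : MvPolynomial (Fin 3) K →ₐ[K] Polynomial K)
          = (Algebra.ofId K (Polynomial K)).comp (aeval u) := by
        apply MvPolynomial.algHom_ext
        intro i
        simp
      rw [h1, AlgHom.comp_apply, MvPolynomial.aeval_eq_eval]
      rfl
    have h1 := expand_hom p (1 : Polynomial K) Polynomial.X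
      (fun i => Polynomial.C (w i + s * p i)) hF
    have h2 := expand_hom p (1 + Polynomial.C s * Polynomial.X : Polynomial K) Polynomial.X
      (fun i => Polynomial.C (w i)) hF
    have h3 : (fun i => algebraMap K (Polynomial K) (p i) * 1
        + Polynomial.C (w i + s * p i) * Polynomial.X)
        = (fun i => algebraMap K (Polynomial K) (p i) * (1 + Polynomial.C s * Polynomial.X)
        + Polynomial.C (w i) * Polynomial.X) := by
      funext i
      have : algebraMap K (Polynomial K) (p i) = Polynomial.C (p i) := rfl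
      rw [this, Polynomial.C_add, Polynomial.C_mul]
      ring
    rw [h3, h2] at h1
    have h4 := congrArg (fun P => Polynomial.coeff P m) h1
    simp only [Polynomial.finsetSum_coeff, hev] at h4
    rw [Finset.sum_eq_single m, Finset.sum_eq_single m] at h4
    · simp only [one_pow, one_mul, Polynomial.coeff_mul_C] at h4
      rw [Polynomial.coeff_mul_X_pow', if_pos le_rfl, Nat.sub_self, Polynomial.coeff_X_pow,
        if_pos rfl, one_mul, Polynomial.coeff_zero_eq_eval_zero] at h4
      simpa using h4.symm
    · intro j _ hj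
      rcases lt_or_gt_of_ne hj with h5 | h5
      · rw [coeff_expand_of_mem hm h5, map_zero, map_zero, mul_zero, Polynomial.coeff_zero]
      · rw [Polynomial.coeff_mul_C, one_pow, one_mul, Polynomial.coeff_X_pow,
          if_neg (by omega), zero_mul]
    · intro h5
      exact absurd (Finset.mem_range.mpr (by omega)) h5
    · intro j _ hj
      rcases lt_or_gt_of_ne hj with h5 | h5
      · rw [coeff_expand_of_mem hm h5, map_zero, map_zero, mul_zero, Polynomial.coeff_zero]
      · rw [Polynomial.coeff_mul_C, Polynomial.coeff_mul_X_pow', if_neg (by omega), zero_mul]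
    · intro h5
      exact absurd (Finset.mem_range.mpr (by omega)) h5

/-- The restriction map `ρ : H⁰(O_X(D)) → H⁰(O_E(D|_E))` for `D = d H - ∑ m_i E_i` and `E = E_e`:
it sends a form `F` to the coefficient of `T^(m_e)` of `F(p_e + T W)`, a form of degree `m_e` on
`K³ / K p_e`. -/
noncomputable def rho {r : ℕ} (v : Fin r → Fin 3 → K) (d : ℕ) (m : Fin r → ℕ) (e : Fin r) :
    linSys v d m →ₗ[K] excForms (v e) (m e) where
  toFun F := ⟨(expand (v e) F.1).coeff (m e), lead_mem (d := d)
    ((mem_homogeneousSubmodule _ _).mp F.2.1) ((Submodule.mem_iInf _).mp F.2.2 e)⟩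
  map_add' F G := by
    apply Subtype.ext
    simp
  map_smul' c F := by
    apply Subtype.ext
    simp

/-- `|D|` has a fixed curve: either (the proper transform of) an irreducible plane curve `G = 0`
contained in every member, or an exceptional curve `E_i` contained in every member. -/
def HasFixedComponent {r : ℕ} (v : Fin r → Fin 3 → K) (d : ℕ) (m : Fin r → ℕ) : Prop :=
  (∃ G : MvPolynomial (Fin 3) K, Irreducible G ∧ ∀ F ∈ linSys v d m, G ∣ F) ∨
  (∃ i, ∀ F ∈ linSys v d m, F ∈ (pointIdeal (v i)) ^ (m i + 1))

/-! ### Linear algebra in `K³` -/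

end Pool.Agent.Results.MP_5bb273_ag.MaxRankFails
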