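import Mathlib
import Pool.Agent.H2.SPL.MaxRankFailsDefs

set_option autoImplicit false

open MvPolynomial

namespace Pool.Agent.Results.MP_5bb273_ag.MaxRankFails

variable {K : Type*} [Field K]


/-- the value at `T = 0` -/
lemma coeff_zero_expand (p : Fin 3 → K) (F : MvPolynomial (Fin 3) K) :
    (expand p F).coeff 0 = C (eval p F) := by
  induction F using MvPolynomial.induction_on with
  | C c => rw [expand_C, Polynomial.coeff_C_zero, eval_C]
  | add a b ha hb => rw [map_add, Polynomial.coeff_add, ha, hb, map_add, map_add]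
  | mul_X a i ha =>
    rw [map_mul, expand_X, mul_add, Polynomial.coeff_add, Polynomial.coeff_mul_C, ← mul_assoc,
      Polynomial.coeff_mul_X_zero, ha, add_zero, map_mul, map_mul, eval_X]


/-- a form vanishing at `p` lies in the point ideal -/
lemma mem_pointIdeal {p : Fin 3 → K} {F : MvPolynomial (Fin 3) K} {d : ℕ}
    (hF : F.IsHomogeneous d) (h : eval p F = 0) : F ∈ pointIdeal p := by
  show (aeval (fun i => Polynomial.C (p i) * Polynomial.X : Fin 3 → Polynomial K)) F = 0
  have h1 := expand_hom p (Polynomial.X : Polynomial K) 0 (fun _ => 0) hF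
  have h2 : (fun i => algebraMap K (Polynomial K) (p i) * Polynomial.X + (0 : Polynomial K) * 0)
      = (fun i => Polynomial.C (p i) * Polynomial.X : Fin 3 → Polynomial K) := by
    funext i
    simp
  rw [h2] at h1
  rw [h1]
  refine Finset.sum_eq_zero fun j _ => ?_
  cases j with
  | zero =>
    rw [coeff_zero_expand, h]
    simp
  | succ j => simp


/-! ### Linear algebra in `K³` -/

/-- the determinant of three vectors -/
def det3 (a b c : Fin 3 → K) : K :=
  (a 1 * b 2 - a 2 * b 1) * c 0 + (a 2 * b 0 - a 0 * b 2) * c 1 + (a 0 * b 1 - a 1 * b 0) * c 2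

/-- the linear form `w ↦ det(a, b, w)` -/
noncomputable def lin (a b : Fin 3 → K) : MvPolynomial (Fin 3) K :=
  C (a 1 * b 2 - a 2 * b 1) * X 0 + C (a 2 * b 0 - a 0 * b 2) * X 1
    + C (a 0 * b 1 - a 1 * b 0) * X 2

lemma eval_lin (a b w : Fin 3 → K) : eval w (lin a b) = det3 a b w := by
  simp [lin, det3]

lemma lin_hom (a b : Fin 3 → K) : (lin a b).IsHomogeneous 1 := by
  unfold lin
  exact (((isHomogeneous_X _ _).C_mul _).add ((isHomogeneous_X _ _).C_mul _)).add
    ((isHomogeneous_X _ _).C_mul _)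

lemma cramer {p a b : Fin 3 → K} (h : det3 p a b ≠ 0) (u : Fin 3 → K) :
    u = fun i => det3 a b u / det3 p a b * p i + (det3 b p u / det3 p a b * a i
      + det3 p a u / det3 p a b * b i) := by
  funext i
  have key : det3 p a b * u i = det3 a b u * p i + (det3 b p u * a i + det3 p a u * b i) := by
    fin_cases i
    · simp only [Fin.zero_eta, Fin.isValue]
      unfold det3
      ring
    · simp only [Fin.mk_one, Fin.isValue]
      unfold det3
      ring
    · simp only [Fin.reduceFinMk]
      unfold det3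
      ring
  calc u i = (det3 p a b * u i) / det3 p a b := by rw [mul_div_cancel_left₀ _ h]
    _ = _ := by rw [key]; ring

lemma det3_comb (a b p q : Fin 3 → K) (x y z : K) (r : Fin 3 → K) :
    det3 p q (fun i => z * r i + (x * a i + y * b i))
      = z * det3 p q r + x * det3 p q a + y * det3 p q b := by
  unfold det3
  ring

lemma exists_comb {N : ℕ} {ι : Type*} [Fintype ι] (h : Fintype.card ι < N)
    (M : Fin N → MvPolynomial (Fin 3) K) (x : ι → Fin 3 → K) :
    ∃ c : Fin N → K, c ≠ 0 ∧ ∀ i, eval (x i) (∑ k, C (c k) * M k) = 0 := by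
  let φ : (Fin N → K) →ₗ[K] (ι → K) :=
    { toFun := fun c i => ∑ k, c k * eval (x i) (M k)
      map_add' := fun c c' => by
        funext i
        simp [add_mul, Finset.sum_add_distrib]
      map_smul' := fun t c => by
        funext i
        simp [mul_assoc, Finset.mul_sum] }
  have h1 : LinearMap.ker φ ≠ ⊥ := by
    apply LinearMap.ker_ne_bot_of_finrank_lt
    simpa using h
  obtain ⟨c, hc, hc0⟩ := (Submodule.ne_bot_iff _).mp h1
  refine ⟨c, hc0, fun i => ?_⟩
  have := congrFun (LinearMap.mem_ker.mp hc) i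
  rw [map_sum]
  simpa [φ] using this

lemma eval_comb_hom (w b : Fin 3 → K) (x y : K)
    {d : ℕ} {F : MvPolynomial (Fin 3) K} (hF : F.IsHomogeneous d) :
    eval (fun i => x * w i + y * b i) F
      = ∑ j ∈ Finset.range (d + 1), x ^ (d - j) * y ^ j * eval b ((expand w F).coeff j) := by
  have h := expand_hom w x y b hF
  rw [show (fun i => x * w i + y * b i) = (fun i => algebraMap K K (w i) * x + b i * y) by
    funext i; simp; ring]
  exact h

/-- a quadratic form on a combination of two vectors -/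
lemma eval_comb_two (w b : Fin 3 → K) (x y : K) {F : MvPolynomial (Fin 3) K}
    (hF : F.IsHomogeneous 2) :
    eval (fun i => x * w i + y * b i) F
      = x ^ 2 * eval w F + x * y * eval b ((expand w F).coeff 1) + y ^ 2 * eval b F := by
  have h1 := eval_comb_hom w b x y hF
  have h2 := eval_comb_hom w b 0 1 hF
  simp only [Finset.sum_range_succ, Finset.sum_range_zero, coeff_zero_expand, eval_C] at h1 h2
  norm_num at h1 h2
  rw [h1, ← h2]

/-- a cubic form on a combination of two vectors -/
lemma eval_comb_three (w b : Fin 3 → K) (x y : K) {F : MvPolynomial (Fin 3) K}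
    (hF : F.IsHomogeneous 3) :
    eval (fun i => x * w i + y * b i) F
      = x ^ 3 * eval w F + x ^ 2 * y * eval b ((expand w F).coeff 1)
        + x * y ^ 2 * eval b ((expand w F).coeff 2) + y ^ 3 * eval b F := by
  have h1 := eval_comb_hom w b x y hF
  have h2 := eval_comb_hom w b 0 1 hF
  simp only [Finset.sum_range_succ, Finset.sum_range_zero, coeff_zero_expand, eval_C] at h1 h2
  norm_num at h1 h2
  rw [h1, ← h2]

/-- existence of the nodal cubic -/
lemma exists_cubic [Infinite K] (p a b : Fin 3 → K) (h : det3 p a b ≠ 0)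
    (x : Fin 6 → Fin 3 → K) :
    ∃ G : MvPolynomial (Fin 3) K, G ≠ 0 ∧ G.IsHomogeneous 3 ∧ G ∈ (pointIdeal p) ^ 2 ∧
      ∀ i, eval (x i) G = 0 := by
  have hp1 : lin b p ∈ pointIdeal p := mem_pointIdeal (lin_hom _ _) (by
    rw [eval_lin]; unfold det3; ring)
  have hp2 : lin p a ∈ pointIdeal p := mem_pointIdeal (lin_hom _ _) (by
    rw [eval_lin]; unfold det3; ring)
  let M : Fin 7 → MvPolynomial (Fin 3) K := ![
    lin a b * (lin b p * lin b p), lin a b * (lin b p * lin p a), lin a b * (lin p a * lin p a),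
    lin b p * (lin b p * lin b p), lin p a * (lin b p * lin b p), lin b p * (lin p a * lin p a),
    lin p a * (lin p a * lin p a)]
  obtain ⟨c, hc, hcx⟩ := exists_comb (by simp : Fintype.card (Fin 6) < 7) M x
  refine ⟨∑ k, C (c k) * M k, ?_, ?_, ?_, hcx⟩
  · intro h0
    apply hc
    -- evaluate on combinations
    have key : ∀ z x y : K, z * (c 0 * x ^ 2 + c 1 * (x * y) + c 2 * y ^ 2)
        + (c 3 * x ^ 3 + c 4 * (x ^ 2 * y) + c 5 * (x * y ^ 2) + c 6 * y ^ 3) = 0 := by
      intro z x y
      have h1 := congrArg (eval (fun i => z * p i + (x * a i + y * b i))) h0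
      rw [map_zero, map_sum] at h1
      simp only [map_mul, eval_C, Fin.sum_univ_seven, M] at h1
      simp only [Matrix.cons_val_zero, Matrix.cons_val_one, Matrix.cons_val, map_mul,
        eval_lin, det3_comb] at h1
      have e1 : det3 a b p = det3 p a b := by unfold det3; ring
      have e2 : det3 a b a = 0 := by unfold det3; ring
      have e3 : det3 a b b = 0 := by unfold det3; ring
      have e4 : det3 b p p = 0 := by unfold det3; ring
      have e5 : det3 b p a = det3 p a b := by unfold det3; ring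
      have e6 : det3 b p b = 0 := by unfold det3; ring
      have e7 : det3 p a p = 0 := by unfold det3; ring
      have e8 : det3 p a a = 0 := by unfold det3; ring
      rw [e1, e2, e3, e4, e5, e6, e7, e8] at h1
      have h3 : det3 p a b ^ 3 ≠ 0 := pow_ne_zero _ h
      apply (mul_eq_zero.mp (?_ : det3 p a b ^ 3 * _ = 0)).resolve_left h3
      linear_combination h1
    classical
    obtain ⟨t, ht⟩ := Infinite.exists_notMem_finset ({0, 1} : Finset K)
    simp only [Finset.mem_insert, Finset.mem_singleton, not_or] at ht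
    have k3 : c 3 = 0 := by have := key 0 1 0; simpa using this
    have k6 : c 6 = 0 := by have := key 0 0 1; simpa using this
    have k0 : c 0 = 0 := by have := key 1 1 0; rw [k3] at this; simpa using this
    have k2 : c 2 = 0 := by have := key 1 0 1; rw [k6] at this; simpa using this
    have k45 : c 4 + c 5 = 0 := by
      have := key 0 1 1; rw [k3, k6] at this; linear_combination this
    have k45' : c 4 * t + c 5 * t ^ 2 = 0 := by
      have := key 0 1 t; rw [k3, k6] at this; linear_combination this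
    have k5 : c 5 = 0 := by
      have h5 : t * (t - 1) * c 5 = 0 := by linear_combination k45' - t * k45
      have h6 : t * (t - 1) ≠ 0 := mul_ne_zero ht.1 (sub_ne_zero.mpr ht.2)
      exact (mul_eq_zero.mp h5).resolve_left h6
    have k4 : c 4 = 0 := by rw [k5, add_zero] at k45; exact k45
    have k1 : c 1 = 0 := by
      have := key 1 1 1
      rw [k0, k2, k3, k4, k5, k6] at this
      simpa using this
    funext i
    fin_cases i <;> assumption
  · refine IsHomogeneous.sum _ _ _ fun k _ => IsHomogeneous.C_mul ?_ _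
    have hab := lin_hom (K := K) a b
    have hbp := lin_hom (K := K) b p
    have hpa := lin_hom (K := K) p a
    fin_cases k
    · exact hab.mul (hbp.mul hbp)
    · exact hab.mul (hbp.mul hpa)
    · exact hab.mul (hpa.mul hpa)
    · exact hbp.mul (hbp.mul hbp)
    · exact hpa.mul (hbp.mul hbp)
    · exact hbp.mul (hpa.mul hpa)
    · exact hpa.mul (hpa.mul hpa)
  · refine Ideal.sum_mem _ fun k _ => Ideal.mul_mem_left _ _ ?_
    rw [pow_two]
    fin_cases k
    · exact Ideal.mul_mem_left _ _ (Ideal.mul_mem_mul hp1 hp1)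
    · exact Ideal.mul_mem_left _ _ (Ideal.mul_mem_mul hp1 hp2)
    · exact Ideal.mul_mem_left _ _ (Ideal.mul_mem_mul hp2 hp2)
    · exact Ideal.mul_mem_left _ _ (Ideal.mul_mem_mul hp1 hp1)
    · exact Ideal.mul_mem_left _ _ (Ideal.mul_mem_mul hp1 hp1)
    · exact Ideal.mul_mem_left _ _ (Ideal.mul_mem_mul hp2 hp2)
    · exact Ideal.mul_mem_left _ _ (Ideal.mul_mem_mul hp2 hp2)

/-- no three of the seven points on a line, no six on a conic -/
def GP (v : Fin 7 → Fin 3 → K) : Prop :=
  (∀ i j k, i ≠ j → i ≠ k → j ≠ k → det3 (v i) (v j) (v k) ≠ 0) ∧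
  (∀ (o : Fin 7) (Q : MvPolynomial (Fin 3) K), Q.IsHomogeneous 2 →
    (∀ i, i ≠ o → eval (v i) Q = 0) → Q = 0)

lemma det3_zero_of {p w c a b : Fin 3 → K} (h : det3 p w c ≠ 0) (ha : det3 p w a = 0)
    (hb : det3 p w b = 0) : det3 p a b = 0 := by
  have h1 := cramer h a
  have h2 := cramer h b
  rw [ha] at h1
  rw [hb] at h2
  rw [h1, h2]
  unfold det3
  ring

lemma eval_cubic {p : Fin 3 → K} {G : MvPolynomial (Fin 3) K} (hG : G.IsHomogeneous 3)
    (hG2 : G ∈ (pointIdeal p) ^ 2) (z : K) (u : Fin 3 → K) :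
    eval (fun i => z * p i + u i) G = z * eval u ((expand p G).coeff 2) + eval u G := by
  have h1 := eval_comb_three p u z 1 hG
  have h2 : (expand p G).coeff 1 = 0 := coeff_expand_of_mem hG2 (by norm_num)
  have h3 : (expand p G).coeff 0 = 0 := coeff_expand_of_mem hG2 (by norm_num)
  rw [coeff_zero_expand] at h3
  have h4 : eval p G = 0 := by
    have := congrArg (eval p) h3
    simpa using this
  rw [h2, h4] at h1
  rw [show (fun i => z * p i + u i) = (fun i => z * p i + 1 * u i) by funext i; ring]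
  rw [h1]
  simp

lemma not_both_zero [Infinite K] {v : Fin 7 → Fin 3 → K} (hv : GP v)
    {G : MvPolynomial (Fin 3) K} (hG0 : G ≠ 0) (hG : G.IsHomogeneous 3)
    (hG2 : G ∈ (pointIdeal (v 6)) ^ 2) (hGv : ∀ i, i ≠ 6 → eval (v i) G = 0)
    (w b : Fin 3 → K) (hwb : det3 (v 6) w b ≠ 0)
    (h1 : eval w ((expand (v 6) G).coeff 2) = 0) (h2 : eval w G = 0) : False := by
  set p := v 6 with hp
  set Q2 := (expand p G).coeff 2 with hQ2
  have hQ2h : Q2.IsHomogeneous 2 := coeff_expand_hom p G 2
  set δ := det3 p w b with hδ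
  set B := eval b ((expand w Q2).coeff 1) with hB
  set C1 := eval b ((expand w G).coeff 1) with hC1
  set D1 := eval b ((expand w G).coeff 2) with hD1
  set Zp : MvPolynomial (Fin 3) K := C (1 / δ) * lin w b with hZ
  set Xp : MvPolynomial (Fin 3) K := C (1 / δ) * lin b p with hX
  set Yp : MvPolynomial (Fin 3) K := C (1 / δ) * lin p w with hY
  set q : MvPolynomial (Fin 3) K := Zp * (C B * Xp + C (eval b Q2) * Yp) + (C C1 * (Xp * Xp)
    + C D1 * (Xp * Yp) + C (eval b G) * (Yp * Yp)) with hq
  have hqh : q.IsHomogeneous 2 := by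
    have z1 : Zp.IsHomogeneous 1 := (lin_hom _ _).C_mul _
    have x1 : Xp.IsHomogeneous 1 := (lin_hom _ _).C_mul _
    have y1 : Yp.IsHomogeneous 1 := (lin_hom _ _).C_mul _
    exact (z1.mul ((x1.C_mul _).add (y1.C_mul _))).add
      ((((x1.mul x1).C_mul _).add ((x1.mul y1).C_mul _)).add ((y1.mul y1).C_mul _))
  have hGq : ∀ u, eval u G = eval u Yp * eval u q := by
    intro u
    have hu := cramer hwb u
    conv_lhs => rw [hu]
    rw [eval_cubic hG hG2, eval_comb_two w b _ _ hQ2h, eval_comb_three w b _ _ hG, h1, h2]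
    rw [hq, hX, hY, hZ]
    simp only [map_add, map_mul, eval_C, eval_lin]
    ring
  have hYe : ∀ u, eval u Yp = 1 / δ * det3 p w u := by
    intro u
    rw [hY, map_mul, eval_C, eval_lin]
  have hqv : ∀ i, i ≠ 6 → det3 p w (v i) ≠ 0 → eval (v i) q = 0 := by
    intro i hi hdi
    have := hGq (v i)
    rw [hGv i hi, hYe] at this
    rcases mul_eq_zero.mp this.symm with h5 | h5
    · exact absurd h5 (mul_ne_zero (one_div_ne_zero hwb) hdi)
    · exact h5
  have hq6 : eval (v 6) q = 0 := by
    rw [hq, hX, hY, hZ]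
    simp only [map_add, map_mul, eval_C, eval_lin]
    have e4 : det3 b p (v 6) = 0 := by rw [hp]; unfold det3; ring
    have e7 : det3 p w (v 6) = 0 := by rw [hp]; unfold det3; ring
    rw [e4, e7]
    ring
  have hq0 : q = 0 := by
    by_cases hex : ∃ i, i ≠ 6 ∧ det3 p w (v i) = 0
    · obtain ⟨o, ho6, ho⟩ := hex
      refine hv.2 o q hqh fun i hi => ?_
      by_cases hi6 : i = 6
      · rw [hi6]; exact hq6
      · refine hqv i hi6 fun h5 => ?_
        exact hv.1 6 o i (Ne.symm ho6) (Ne.symm hi6) (Ne.symm hi) (det3_zero_of hwb ho h5)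
    · push Not at hex
      refine hv.2 0 q hqh fun i hi => ?_
      by_cases hi6 : i = 6
      · rw [hi6]; exact hq6
      · exact hqv i hi6 (hex i hi6)
  apply hG0
  apply MvPolynomial.funext
  intro u
  rw [hGq u, hq0, map_zero, mul_zero]

/-! ### Conics through five of the points -/

lemma pointIdeal_prime (p : Fin 3 → K) {a b : MvPolynomial (Fin 3) K}
    (h : a * b ∈ pointIdeal p) : a ∈ pointIdeal p ∨ b ∈ pointIdeal p := by
  have h1 : (aeval (fun i => Polynomial.C (p i) * Polynomial.X :
    Fin 3 → Polynomial K)) (a * b) = 0 := h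
  rw [map_mul] at h1
  exact mul_eq_zero.mp h1

lemma eval_of_mem_pointIdeal {p : Fin 3 → K} {a : MvPolynomial (Fin 3) K}
    (h : a ∈ pointIdeal p) (t : K) : eval (fun i => p i * t) a = 0 := by
  have h1 : (aeval (fun i => Polynomial.C (p i) * Polynomial.X :
    Fin 3 → Polynomial K)) a = 0 := h
  have h2 := congrArg (Polynomial.eval t) h1
  rw [Polynomial.eval_zero] at h2
  rw [← h2, ← Polynomial.coe_evalRingHom]
  have h3 : (Polynomial.evalRingHom t) ((aeval (fun i => Polynomial.C (p i) * Polynomial.X :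
    Fin 3 → Polynomial K)) a) = ((Polynomial.aeval t).comp (aeval (fun i => Polynomial.C (p i) *
      Polynomial.X : Fin 3 → Polynomial K))) a := rfl
  rw [h3, MvPolynomial.comp_aeval]
  simp

/-- a polynomial of degree at most one in three independent point ideals is zero -/
lemma eq_zero_of_mem_three [Infinite K] {a b c : Fin 3 → K} (h : det3 a b c ≠ 0)
    {F : MvPolynomial (Fin 3) K} (hd : F.totalDegree ≤ 1) (ha : F ∈ pointIdeal a)
    (hb : F ∈ pointIdeal b) (hc : F ∈ pointIdeal c) : F = 0 := by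
  have hsum : F = homogeneousComponent 0 F + homogeneousComponent 1 F := by
    conv_lhs => rw [← sum_homogeneousComponent F]
    have : Finset.range (F.totalDegree + 1) ⊆ Finset.range 2 := by
      intro x hx
      simp only [Finset.mem_range] at hx ⊢
      omega
    rw [Finset.sum_subset this]
    · rw [Finset.sum_range_succ, Finset.sum_range_one]
    · intro x _ hx
      apply homogeneousComponent_eq_zero
      simp only [Finset.mem_range, not_lt] at hx
      omega
  rw [homogeneousComponent_zero] at hsum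
  set F1 := homogeneousComponent 1 F with hF1
  have hF1h : F1.IsHomogeneous 1 := homogeneousComponent_isHomogeneous 1 F
  have hlin : ∀ (w b : Fin 3 → K) (x y : K), eval (fun i => x * w i + y * b i) F1
      = x * eval w F1 + y * eval b F1 := by
    intro w b x y
    have h1 := eval_comb_hom w b x y hF1h
    have h2 := eval_comb_hom w b 0 1 hF1h
    simp only [Finset.sum_range_succ, Finset.sum_range_zero, coeff_zero_expand, eval_C] at h1 h2
    norm_num at h1 h2
    rw [h1, ← h2]
  have hF1z : eval (fun _ => (0 : K)) F1 = 0 := by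
    have := hlin 0 0 0 0
    simpa using this
  have hc0 : coeff 0 F = 0 := by
    have h1 := eval_of_mem_pointIdeal ha 0
    rw [hsum, map_add, eval_C] at h1
    simp only [mul_zero] at h1
    rw [hF1z, add_zero] at h1
    exact h1
  have hpt : ∀ p : Fin 3 → K, F ∈ pointIdeal p → eval p F1 = 0 := by
    intro p hp
    have h1 := eval_of_mem_pointIdeal hp 1
    rw [hsum, map_add, eval_C, hc0] at h1
    simpa using h1
  apply MvPolynomial.funext
  intro u
  rw [hsum, hc0, map_zero, zero_add, map_zero]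
  have hu := cramer h u
  rw [hu]
  have e1 := hlin a (fun i => det3 c a u / det3 a b c * b i + det3 a b u / det3 a b c * c i)
    (det3 b c u / det3 a b c) 1
  simp only [one_mul] at e1
  rw [e1, hlin, hpt a ha, hpt b hb, hpt c hc]
  ring

/-- data of a conic through the five points other than `v i`, `v j` -/
structure Conic (v : Fin 7 → Fin 3 → K) (i j : Fin 7) where
  Q : MvPolynomial (Fin 3) K
  hom : Q.IsHomogeneous 2
  irr : Irreducible Q
  van : ∀ k, k ≠ i → k ≠ j → eval (v k) Q = 0
  nei : eval (v i) Q ≠ 0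
  nej : eval (v j) Q ≠ 0
  simple : ∀ k, k ≠ i → k ≠ j → (expand (v k) Q).coeff 1 ≠ 0

lemma card_pair : ∀ i j : Fin 7, i ≠ j →
    ((Finset.univ : Finset (Fin 7)).filter (fun k => k ≠ i ∧ k ≠ j)).card = 5 := by
  decide

lemma card_triple : ∀ i j k : Fin 7,
    2 < ((Finset.univ : Finset (Fin 7)).filter (fun l => l ≠ i ∧ l ≠ j ∧ l ≠ k)).card := by
  decide

lemma exists_conic [Infinite K] {v : Fin 7 → Fin 3 → K} (hv : GP v) (i j : Fin 7) (hij : i ≠ j) :
    Nonempty (Conic v i j) := by
  classical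
  let M : Fin 6 → MvPolynomial (Fin 3) K := ![X 0 * X 0, X 0 * X 1, X 0 * X 2, X 1 * X 1,
    X 1 * X 2, X 2 * X 2]
  have hcard : Fintype.card {k : Fin 7 // k ≠ i ∧ k ≠ j} < 6 := by
    rw [Fintype.card_subtype, card_pair i j hij]
    norm_num
  obtain ⟨c, hc, hcx⟩ := exists_comb hcard M (fun k => v k.1)
  set Q : MvPolynomial (Fin 3) K := ∑ k, C (c k) * M k with hQdef
  have hQh : Q.IsHomogeneous 2 := by
    refine IsHomogeneous.sum _ _ _ fun k _ => IsHomogeneous.C_mul ?_ _
    fin_cases k <;> exact (isHomogeneous_X _ _).mul (isHomogeneous_X _ _)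
  have hvan : ∀ k, k ≠ i → k ≠ j → eval (v k) Q = 0 := fun k hi hj => hcx ⟨k, hi, hj⟩
  have hQ0 : Q ≠ 0 := by
    intro h0
    apply hc
    have key : ∀ x y z : K, c 0 * (x * x) + c 1 * (x * y) + c 2 * (x * z) + c 3 * (y * y)
        + c 4 * (y * z) + c 5 * (z * z) = 0 := by
      intro x y z
      have h1 := congrArg (eval ![x, y, z]) h0
      rw [map_zero, hQdef, map_sum] at h1
      simp only [map_mul, eval_C, Fin.sum_univ_six, M] at h1
      simp only [Matrix.cons_val_zero, Matrix.cons_val_one, Matrix.cons_val, map_mul,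
        eval_X] at h1
      exact h1
    have k0 : c 0 = 0 := by have := key 1 0 0; simpa using this
    have k3 : c 3 = 0 := by have := key 0 1 0; simpa using this
    have k5 : c 5 = 0 := by have := key 0 0 1; simpa using this
    have k1 : c 1 = 0 := by have := key 1 1 0; rw [k0, k3] at this; simpa using this
    have k2 : c 2 = 0 := by have := key 1 0 1; rw [k0, k5] at this; simpa using this
    have k4 : c 4 = 0 := by have := key 0 1 1; rw [k3, k5] at this; simpa using this
    funext l
    fin_cases l <;> assumption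
  have hnei : eval (v i) Q ≠ 0 := by
    intro h0
    apply hQ0
    refine hv.2 j Q hQh fun k hk => ?_
    by_cases hki : k = i
    · rw [hki]; exact h0
    · exact hvan k hki hk
  have hnej : eval (v j) Q ≠ 0 := by
    intro h0
    apply hQ0
    refine hv.2 i Q hQh fun k hk => ?_
    by_cases hkj : k = j
    · rw [hkj]; exact h0
    · exact hvan k hk hkj
  have htd : Q.totalDegree = 2 := hQh.totalDegree hQ0
  have hirr : Irreducible Q := by
    refine ⟨?_, ?_⟩
    · intro hu
      have h1 : IsUnit (eval (v i) Q) := hu.map (eval (v i))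
      obtain ⟨r, hr⟩ := MvPolynomial.isUnit_iff_eq_C_of_isReduced.mp hu
      have : Q.totalDegree = 0 := by rw [hr.2, totalDegree_C]
      omega
    · intro a b hab
      have ha0 : a ≠ 0 := by rintro rfl; exact hQ0 (by rw [hab, zero_mul])
      have hb0 : b ≠ 0 := by rintro rfl; exact hQ0 (by rw [hab, mul_zero])
      have hdeg := totalDegree_mul_of_isDomain ha0 hb0
      rw [← hab, htd] at hdeg
      by_cases hda : a.totalDegree = 0
      · left
        have h5 := (totalDegree_eq_zero_iff_eq_C).mp hda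
        rw [h5]
        refine IsUnit.map C (isUnit_iff_ne_zero.mpr fun h6 => ha0 ?_)
        rw [h5, h6, map_zero]
      by_cases hdb : b.totalDegree = 0
      · right
        have h5 := (totalDegree_eq_zero_iff_eq_C).mp hdb
        rw [h5]
        refine IsUnit.map C (isUnit_iff_ne_zero.mpr fun h6 => hb0 ?_)
        rw [h5, h6, map_zero]
      exfalso
      have hda1 : a.totalDegree ≤ 1 := by omega
      have hdb1 : b.totalDegree ≤ 1 := by omega
      set S := (Finset.univ : Finset (Fin 7)).filter (fun k => k ≠ i ∧ k ≠ j) with hS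
      have hScard : S.card = 5 := card_pair i j hij
      have hor : ∀ k ∈ S, a ∈ pointIdeal (v k) ∨ b ∈ pointIdeal (v k) := by
        intro k hk
        rw [hS, Finset.mem_filter] at hk
        apply pointIdeal_prime
        rw [← hab]
        exact mem_pointIdeal hQh (hvan k hk.2.1 hk.2.2)
      have hsplit := Finset.card_filter_add_card_filter_not (s := S)
        (fun k => a ∈ pointIdeal (v k))
      have h3 : 2 < (S.filter (fun k => a ∈ pointIdeal (v k))).card ∨
          2 < (S.filter (fun k => ¬ a ∈ pointIdeal (v k))).card := by omega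
      rcases h3 with h3 | h3
      · obtain ⟨k, hk, l, hl, m, hm, hkl, hkm, hlm⟩ := Finset.two_lt_card.mp h3
        rw [Finset.mem_filter] at hk hl hm
        exact ha0 (eq_zero_of_mem_three (hv.1 k l m hkl hkm hlm) hda1 hk.2 hl.2 hm.2)
      · obtain ⟨k, hk, l, hl, m, hm, hkl, hkm, hlm⟩ := Finset.two_lt_card.mp h3
        rw [Finset.mem_filter] at hk hl hm
        exact hb0 (eq_zero_of_mem_three (hv.1 k l m hkl hkm hlm) hdb1
          ((hor k hk.1).resolve_left hk.2) ((hor l hl.1).resolve_left hl.2)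
          ((hor m hm.1).resolve_left hm.2))
  refine ⟨⟨Q, hQh, hirr, hvan, hnei, hnej, ?_⟩⟩
  intro k hki hkj h0
  set S := (Finset.univ : Finset (Fin 7)).filter (fun l => l ≠ i ∧ l ≠ j ∧ l ≠ k) with hS
  have hScard : 2 < S.card := card_triple i j k
  obtain ⟨a, ha, b, hb, e, he, hab, hae, hbe⟩ := Finset.two_lt_card.mp hScard
  rw [hS, Finset.mem_filter] at ha hb he
  obtain ⟨_, ha1, ha2, ha3⟩ := ha
  obtain ⟨_, hb1, hb2, hb3⟩ := hb
  obtain ⟨_, he1, he2, he3⟩ := he
  have hδ := hv.1 k a b (Ne.symm ha3) (Ne.symm hb3) hab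
  have hshift : ∀ (z : K) (u : Fin 3 → K), eval (fun l => z * v k l + u l) Q = eval u Q := by
    intro z u
    have h1 := eval_comb_two (v k) u z 1 hQh
    rw [h0, hvan k hki hkj] at h1
    rw [show (fun l => z * v k l + u l) = (fun l => z * v k l + 1 * u l) by funext l; ring]
    rw [h1]
    simp
  have hall : ∀ u, eval u Q = (det3 (v b) (v k) u / det3 (v k) (v a) (v b)) *
      (det3 (v k) (v a) u / det3 (v k) (v a) (v b)) *
      eval (v b) ((expand (v a) Q).coeff 1) := by
    intro u
    have hu := cramer hδ u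
    conv_lhs => rw [hu]
    rw [hshift, eval_comb_two (v a) (v b) _ _ hQh, hvan a ha1 ha2, hvan b hb1 hb2]
    ring
  have hB : eval (v b) ((expand (v a) Q).coeff 1) = 0 := by
    have h1 := hall (v e)
    rw [hvan e he1 he2] at h1
    rcases mul_eq_zero.mp h1.symm with h2 | h2
    · exfalso
      rcases mul_eq_zero.mp h2 with h3 | h3
      · exact div_ne_zero (hv.1 b k e hb3 hbe (Ne.symm he3)) hδ h3
      · exact div_ne_zero (hv.1 k a e (Ne.symm ha3) (Ne.symm he3) hae) hδ h3
    · exact h2
  apply hQ0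
  apply MvPolynomial.funext
  intro u
  rw [hall u, hB, mul_zero, map_zero]

/-! ### The linear system `|6H - 2E_1 - ... - 2E_6 - 3E_7|` -/

/-- the multiplicities `(2,2,2,2,2,2,3)` -/
def mult : Fin 7 → ℕ := ![2, 2, 2, 2, 2, 2, 3]

lemma mem_linSys {v : Fin 7 → Fin 3 → K} {F : MvPolynomial (Fin 3) K} (hF : F.IsHomogeneous 6)
    (h : ∀ i, F ∈ (pointIdeal (v i)) ^ (mult i)) : F ∈ linSys v 6 mult := by
  refine ⟨(mem_homogeneousSubmodule _ _).mpr hF, ?_⟩
  exact (Submodule.mem_iInf _).mpr h

lemma mem_of_linSys {v : Fin 7 → Fin 3 → K} {F : MvPolynomial (Fin 3) K}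
    (h : F ∈ linSys v 6 mult) : F.IsHomogeneous 6 ∧ ∀ i, F ∈ (pointIdeal (v i)) ^ (mult i) :=
  ⟨(mem_homogeneousSubmodule _ _).mp h.1,
    (Submodule.mem_iInf (fun i => ((pointIdeal (v i)) ^ (mult i)).restrictScalars K)).mp h.2⟩

lemma mult_le : ∀ i : Fin 7, i ≠ 6 → mult i ≤ 2 := by decide

lemma exists_cubic' [Infinite K] {v : Fin 7 → Fin 3 → K} (hv : GP v) :
    ∃ G : MvPolynomial (Fin 3) K, G ≠ 0 ∧ G.IsHomogeneous 3 ∧ G ∈ (pointIdeal (v 6)) ^ 2 ∧
      ∀ i, i ≠ 6 → eval (v i) G = 0 := by
  obtain ⟨G, hG0, hG, hG2, hGv⟩ := exists_cubic (v 6) (v 0) (v 1)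
    (hv.1 6 0 1 (by decide) (by decide) (by decide)) (fun i => v (Fin.castSucc i))
  refine ⟨G, hG0, hG, hG2, fun i hi => ?_⟩
  obtain ⟨i', rfl⟩ := Fin.exists_castSucc_eq.mpr (show i ≠ Fin.last 6 from hi)
  exact hGv i'

theorem not_injective [Infinite K] {v : Fin 7 → Fin 3 → K} (hv : GP v) :
    ¬ Function.Injective (rho v 6 mult 6) := by
  obtain ⟨G, hG0, hG, hG2, hGv⟩ := exists_cubic' hv
  intro hinj
  have hF : G * G ∈ linSys v 6 mult := by
    refine mem_linSys (hG.mul hG) fun i => ?_
    by_cases hi : i = 6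
    · subst hi
      have h1 : G * G ∈ (pointIdeal (v 6)) ^ 2 * (pointIdeal (v 6)) ^ 2 := Ideal.mul_mem_mul hG2 hG2
      rw [← pow_add] at h1
      exact Ideal.pow_le_pow_right (show mult 6 ≤ 2 + 2 by decide) h1
    · have h1 : G ∈ pointIdeal (v i) := mem_pointIdeal hG (hGv i hi)
      have h2 : G * G ∈ (pointIdeal (v i)) ^ 2 := by
        rw [pow_two]
        exact Ideal.mul_mem_mul h1 h1
      exact Ideal.pow_le_pow_right (mult_le i hi) h2
  have h0 : rho v 6 mult 6 ⟨G * G, hF⟩ = 0 := by
    apply Subtype.ext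
    show (expand (v 6) (G * G)).coeff (mult 6) = 0
    have h1 : (Polynomial.X : Polynomial (MvPolynomial (Fin 3) K)) ^ 4 ∣ expand (v 6) (G * G) := by
      rw [map_mul]
      have := mul_dvd_mul (X_pow_dvd_expand hG2) (X_pow_dvd_expand hG2)
      rwa [← pow_add] at this
    exact Polynomial.X_pow_dvd_iff.mp h1 _ (by decide)
  have h1 := hinj (h0.trans (map_zero _).symm)
  have h2 : G * G = 0 := congrArg Subtype.val h1
  exact hG0 (mul_self_eq_zero.mp h2)

/-- product of three conics -/
lemma prod_mem {v : Fin 7 → Fin 3 → K} {a b c d e f : Fin 7} (C1 : Conic v a b)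
    (C2 : Conic v c d) (C3 : Conic v e f)
    (h : ∀ i, (i = 6 ∧ i ≠ a ∧ i ≠ b ∧ i ≠ c ∧ i ≠ d ∧ i ≠ e ∧ i ≠ f) ∨
      (i ≠ 6 ∧ ((i ≠ a ∧ i ≠ b ∧ i ≠ c ∧ i ≠ d) ∨ (i ≠ a ∧ i ≠ b ∧ i ≠ e ∧ i ≠ f) ∨
      (i ≠ c ∧ i ≠ d ∧ i ≠ e ∧ i ≠ f)))) :
    C1.Q * C2.Q * C3.Q ∈ linSys v 6 mult := by
  refine mem_linSys ((C1.hom.mul C2.hom).mul C3.hom) fun i => ?_
  rcases h i with ⟨h6, ha, hb, hc, hd, he, hf⟩ | ⟨h6, h | h | h⟩
  · have e1 : mult i = 1 + 1 + 1 := by rw [h6]; rfl
    rw [e1, pow_add, pow_add, pow_one]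
    exact Ideal.mul_mem_mul (Ideal.mul_mem_mul (mem_pointIdeal C1.hom (C1.van i ha hb))
      (mem_pointIdeal C2.hom (C2.van i hc hd))) (mem_pointIdeal C3.hom (C3.van i he hf))
  · have e1 : mult i ≤ 1 + 1 := mult_le i h6
    refine Ideal.pow_le_pow_right e1 ?_
    rw [pow_add, pow_one]
    exact Ideal.mul_mem_right _ _ (Ideal.mul_mem_mul (mem_pointIdeal C1.hom (C1.van i h.1 h.2.1))
      (mem_pointIdeal C2.hom (C2.van i h.2.2.1 h.2.2.2)))
  · have e1 : mult i ≤ 1 + 1 := mult_le i h6
    refine Ideal.pow_le_pow_right e1 ?_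
    rw [pow_add, pow_one, mul_right_comm]
    exact Ideal.mul_mem_right _ _ (Ideal.mul_mem_mul (mem_pointIdeal C1.hom (C1.van i h.1 h.2.1))
      (mem_pointIdeal C3.hom (C3.van i h.2.2.1 h.2.2.2)))
  · have e1 : mult i ≤ 1 + 1 := mult_le i h6
    refine Ideal.pow_le_pow_right e1 ?_
    rw [pow_add, pow_one, mul_assoc]
    exact Ideal.mul_mem_left _ _ (Ideal.mul_mem_mul (mem_pointIdeal C2.hom (C2.van i h.1 h.2.1))
      (mem_pointIdeal C3.hom (C3.van i h.2.2.1 h.2.2.2)))

/-- order of vanishing of products in `R[T]` -/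
lemma not_dvd_two {R : Type*} [CommRing R] [IsDomain R] {A B D : Polynomial R}
    (hA : A.coeff 0 ≠ 0) (hB0 : B.coeff 0 = 0) (hB1 : B.coeff 1 ≠ 0) (hD0 : D.coeff 0 = 0)
    (hD1 : D.coeff 1 ≠ 0) : ¬ Polynomial.X ^ 3 ∣ A * B * D := by
  obtain ⟨B', rfl⟩ := Polynomial.X_dvd_iff.mpr hB0
  obtain ⟨D', rfl⟩ := Polynomial.X_dvd_iff.mpr hD0
  rw [Polynomial.coeff_X_mul] at hB1 hD1
  intro h
  have h1 : A * (Polynomial.X * B') * (Polynomial.X * D') = Polynomial.X ^ 2 * (A * B' * D') := by
    ring
  rw [h1, show (3 : ℕ) = 2 + 1 from rfl, pow_succ] at h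
  have h2 := (mul_dvd_mul_iff_left (pow_ne_zero 2 Polynomial.X_ne_zero)).mp h
  rw [Polynomial.X_dvd_iff, Polynomial.mul_coeff_zero, Polynomial.mul_coeff_zero] at h2
  rcases mul_eq_zero.mp h2 with h3 | h3
  · rcases mul_eq_zero.mp h3 with h4 | h4
    · exact hA h4
    · exact hB1 h4
  · exact hD1 h3

lemma not_dvd_three {R : Type*} [CommRing R] [IsDomain R] {A B D : Polynomial R}
    (hA0 : A.coeff 0 = 0) (hA1 : A.coeff 1 ≠ 0) (hB0 : B.coeff 0 = 0) (hB1 : B.coeff 1 ≠ 0)
    (hD0 : D.coeff 0 = 0) (hD1 : D.coeff 1 ≠ 0) : ¬ Polynomial.X ^ 4 ∣ A * B * D := by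
  obtain ⟨A', rfl⟩ := Polynomial.X_dvd_iff.mpr hA0
  rw [Polynomial.coeff_X_mul] at hA1
  intro h
  have h1 : Polynomial.X * A' * B * D = Polynomial.X * (A' * B * D) := by ring
  rw [h1, show (4 : ℕ) = 3 + 1 from rfl, pow_succ'] at h
  have h2 := (mul_dvd_mul_iff_left Polynomial.X_ne_zero).mp h
  exact not_dvd_two hA1 hB0 hB1 hD0 hD1 h2

lemma Conic.coeff_zero {v : Fin 7 → Fin 3 → K} {a b : Fin 7} (C1 : Conic v a b) (i : Fin 7)
    (h1 : i ≠ a) (h2 : i ≠ b) : (expand (v i) C1.Q).coeff 0 = 0 := by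
  rw [coeff_zero_expand, C1.van i h1 h2, map_zero]

lemma coeff_zero_ne {p : Fin 3 → K} {Q : MvPolynomial (Fin 3) K} (h : eval p Q ≠ 0) :
    (expand p Q).coeff 0 ≠ 0 := by
  rw [coeff_zero_expand]
  intro h0
  apply h
  exact (map_eq_zero_iff C (C_injective _ _)).mp h0

/-- two conics through different quintuples have no common factor -/
lemma conic_coprime {v : Fin 7 → Fin 3 → K} {a b c d : Fin 7} (C1 : Conic v a b)
    (C2 : Conic v c d) {G : MvPolynomial (Fin 3) K} (hG : Irreducible G) (h1 : G ∣ C1.Q)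
    (h2 : G ∣ C2.Q) (h : (a ≠ c ∧ a ≠ d) ∨ (b ≠ c ∧ b ≠ d)) : False := by
  have e1 := hG.associated_of_dvd C1.irr h1
  have e2 := hG.associated_of_dvd C2.irr h2
  obtain ⟨u, hu⟩ := (e2.symm.trans e1)
  rcases h with h | h
  · apply C1.nei
    rw [← hu, map_mul, C2.van a h.1 h.2, zero_mul]
  · apply C1.nej
    rw [← hu, map_mul, C2.van b h.1 h.2, zero_mul]

theorem no_fixed [Infinite K] {v : Fin 7 → Fin 3 → K} (hv : GP v) :
    ¬ HasFixedComponent v 6 mult := by
  obtain ⟨A1⟩ := exists_conic hv 0 1 (by decide)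
  obtain ⟨A2⟩ := exists_conic hv 2 3 (by decide)
  obtain ⟨A3⟩ := exists_conic hv 4 5 (by decide)
  obtain ⟨B1⟩ := exists_conic hv 0 2 (by decide)
  obtain ⟨B2⟩ := exists_conic hv 1 4 (by decide)
  obtain ⟨B3⟩ := exists_conic hv 3 5 (by decide)
  have hA : A1.Q * A2.Q * A3.Q ∈ linSys v 6 mult := prod_mem A1 A2 A3 (by decide)
  have hB : B1.Q * B2.Q * B3.Q ∈ linSys v 6 mult := prod_mem B1 B2 B3 (by decide)
  rintro (⟨G, hG, hdiv⟩ | ⟨i, hi⟩)
  · have hp : Prime G := hG.prime
    have d1 := hdiv _ hA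
    have d2 := hdiv _ hB
    rcases hp.dvd_or_dvd d1 with d1 | d1
    · rcases hp.dvd_or_dvd d1 with d1 | d1
      · rcases hp.dvd_or_dvd d2 with d2 | d2
        · rcases hp.dvd_or_dvd d2 with d2 | d2
          · exact conic_coprime A1 B1 hG d1 d2 (by decide)
          · exact conic_coprime A1 B2 hG d1 d2 (by decide)
        · exact conic_coprime A1 B3 hG d1 d2 (by decide)
      · rcases hp.dvd_or_dvd d2 with d2 | d2
        · rcases hp.dvd_or_dvd d2 with d2 | d2
          · exact conic_coprime A2 B1 hG d1 d2 (by decide)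
          · exact conic_coprime A2 B2 hG d1 d2 (by decide)
        · exact conic_coprime A2 B3 hG d1 d2 (by decide)
    · rcases hp.dvd_or_dvd d2 with d2 | d2
      · rcases hp.dvd_or_dvd d2 with d2 | d2
        · exact conic_coprime A3 B1 hG d1 d2 (by decide)
        · exact conic_coprime A3 B2 hG d1 d2 (by decide)
      · exact conic_coprime A3 B3 hG d1 d2 (by decide)
  · have h1 := X_pow_dvd_expand (hi _ hA)
    rw [map_mul, map_mul] at h1
    have key : (i = 0 ∨ i = 1) ∨ (i = 2 ∨ i = 3) ∨ (i = 4 ∨ i = 5) ∨ i = 6 := by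
      clear h1 hi
      revert i
      decide
    rcases key with h | h | h | h
    · have e1 : mult i + 1 = 3 := by rcases h with h | h <;> rw [h] <;> rfl
      rw [e1] at h1
      have n1 : eval (v i) A1.Q ≠ 0 := by
        rcases h with h | h
        · rw [h]; exact A1.nei
        · rw [h]; exact A1.nej
      have m1 : i ≠ 2 ∧ i ≠ 3 ∧ i ≠ 4 ∧ i ≠ 5 := by rcases h with h | h <;> rw [h] <;> decide
      exact not_dvd_two (coeff_zero_ne n1) (A2.coeff_zero i m1.1 m1.2.1)
        (A2.simple i m1.1 m1.2.1) (A3.coeff_zero i m1.2.2.1 m1.2.2.2)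
        (A3.simple i m1.2.2.1 m1.2.2.2) h1
    · have e1 : mult i + 1 = 3 := by rcases h with h | h <;> rw [h] <;> rfl
      rw [e1, mul_comm (expand (v i) A1.Q)] at h1
      have n1 : eval (v i) A2.Q ≠ 0 := by
        rcases h with h | h
        · rw [h]; exact A2.nei
        · rw [h]; exact A2.nej
      have m1 : i ≠ 0 ∧ i ≠ 1 ∧ i ≠ 4 ∧ i ≠ 5 := by rcases h with h | h <;> rw [h] <;> decide
      exact not_dvd_two (coeff_zero_ne n1) (A1.coeff_zero i m1.1 m1.2.1)
        (A1.simple i m1.1 m1.2.1) (A3.coeff_zero i m1.2.2.1 m1.2.2.2)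
        (A3.simple i m1.2.2.1 m1.2.2.2) h1
    · have e1 : mult i + 1 = 3 := by rcases h with h | h <;> rw [h] <;> rfl
      rw [e1, mul_comm (expand (v i) A1.Q * expand (v i) A2.Q), ← mul_assoc] at h1
      have n1 : eval (v i) A3.Q ≠ 0 := by
        rcases h with h | h
        · rw [h]; exact A3.nei
        · rw [h]; exact A3.nej
      have m1 : i ≠ 0 ∧ i ≠ 1 ∧ i ≠ 2 ∧ i ≠ 3 := by rcases h with h | h <;> rw [h] <;> decide
      exact not_dvd_two (coeff_zero_ne n1) (A1.coeff_zero i m1.1 m1.2.1)
        (A1.simple i m1.1 m1.2.1) (A2.coeff_zero i m1.2.2.1 m1.2.2.2)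
        (A2.simple i m1.2.2.1 m1.2.2.2) h1
    · subst h
      exact not_dvd_three (A1.coeff_zero 6 (by decide) (by decide))
        (A1.simple 6 (by decide) (by decide)) (A2.coeff_zero 6 (by decide) (by decide))
        (A2.simple 6 (by decide) (by decide)) (A3.coeff_zero 6 (by decide) (by decide))
        (A3.simple 6 (by decide) (by decide)) h1

lemma aeval_poly_eval (W : Fin 3 → Polynomial K) (F : MvPolynomial (Fin 3) K) (t : K) :
    (aeval W F).eval t = eval (fun i => (W i).eval t) F := by
  induction F using MvPolynomial.induction_on with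
  | C k => simp
  | add p q hp hq => simp [hp, hq]
  | mul_X p i hp => simp [hp]

/-- a good projection centre direction -/
lemma exists_direction [IsAlgClosed K] {v : Fin 7 → Fin 3 → K} (hv : GP v)
    {Q2 : MvPolynomial (Fin 3) K} (hQ2h : Q2.IsHomogeneous 2) (h0 : eval (v 0) Q2 ≠ 0) :
    ∃ τ : K, τ ≠ 0 ∧ (∀ i : Fin 6, det3 (v 6) (v i.castSucc) (fun j => v 0 j + τ * v 1 j) ≠ 0) ∧
      eval (fun j => v 0 j + τ * v 1 j) Q2 ≠ 0 := by
  have : Infinite K := IsAlgClosed.instInfinite
  let A : Fin 6 → Polynomial K := fun i => Polynomial.C (det3 (v 6) (v i.castSucc) (v 0))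
    + Polynomial.C (det3 (v 6) (v i.castSucc) (v 1)) * Polynomial.X
  let B : Polynomial K := Polynomial.C (eval (v 0) Q2)
    + Polynomial.C (eval (v 1) ((expand (v 0) Q2).coeff 1)) * Polynomial.X
    + Polynomial.C (eval (v 1) Q2) * Polynomial.X ^ 2
  have hA : ∀ i, A i ≠ 0 := by
    intro i hi
    have h1 := congrArg (fun P => Polynomial.coeff P 0) hi
    have h2 := congrArg (fun P => Polynomial.coeff P 1) hi
    simp [A] at h1 h2
    by_cases hi0 : i = 0
    · subst hi0
      exact hv.1 6 0 1 (by decide) (by decide) (by decide) h2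
    · refine hv.1 6 i.castSucc 0 ?_ (by decide) ?_ h1
      · exact (Fin.castSucc_lt_last i).ne'
      · intro h3
        apply hi0
        exact Fin.castSucc_injective 6 (by simpa using h3)
  have hB : B ≠ 0 := by
    intro hB0
    have h1 := congrArg (fun P => Polynomial.coeff P 0) hB0
    simp [B] at h1
    exact h0 h1
  have hP : (Polynomial.X * (∏ i, A i) * B) ≠ 0 :=
    mul_ne_zero (mul_ne_zero Polynomial.X_ne_zero (Finset.prod_ne_zero_iff.mpr fun i _ => hA i)) hB
  obtain ⟨τ, hτ⟩ : ∃ τ, (Polynomial.X * (∏ i, A i) * B).eval τ ≠ 0 := by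
    by_contra hcon
    push Not at hcon
    apply hP
    apply Polynomial.funext
    intro r
    rw [hcon r, Polynomial.eval_zero]
  rw [Polynomial.eval_mul, Polynomial.eval_mul, Polynomial.eval_X, Polynomial.eval_prod] at hτ
  have h1 := left_ne_zero_of_mul (left_ne_zero_of_mul hτ)
  have h2 := right_ne_zero_of_mul (left_ne_zero_of_mul hτ)
  have h3 := right_ne_zero_of_mul hτ
  refine ⟨τ, h1, fun i => ?_, ?_⟩
  · have h4 := Finset.prod_ne_zero_iff.mp h2 i (Finset.mem_univ i)
    simp only [A, Polynomial.eval_add, Polynomial.eval_mul, Polynomial.eval_C,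
      Polynomial.eval_X] at h4
    intro h5
    apply h4
    rw [← h5]
    unfold det3
    ring
  · simp only [B, Polynomial.eval_add, Polynomial.eval_mul, Polynomial.eval_C,
      Polynomial.eval_X, Polynomial.eval_pow] at h3
    intro h5
    apply h3
    have h6 := eval_comb_two (v 0) (v 1) 1 τ hQ2h
    rw [show (fun j => v 0 j + τ * v 1 j) = (fun j => 1 * v 0 j + τ * v 1 j) by
      funext j; ring] at h5
    rw [h5] at h6
    linear_combination -h6

theorem not_surjective [IsAlgClosed K] {v : Fin 7 → Fin 3 → K} (hv : GP v) :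
    ¬ Function.Surjective (rho v 6 mult 6) := by
  have : Infinite K := IsAlgClosed.instInfinite
  obtain ⟨G, hG0, hG, hG2, hGv⟩ := exists_cubic' hv
  set p := v 6 with hp
  set Q2 := (expand p G).coeff 2 with hQ2
  have hQ2h : Q2.IsHomogeneous 2 := coeff_expand_hom p G 2
  have hd01 : det3 p (v 0) (v 1) ≠ 0 := hv.1 6 0 1 (by decide) (by decide) (by decide)
  have hQ20 : eval (v 0) Q2 ≠ 0 := fun h =>
    not_both_zero hv hG0 hG hG2 hGv (v 0) (v 1) hd01 h (hGv 0 (by decide))
  obtain ⟨τ, hτ0, hτ1, hτ2⟩ := exists_direction hv hQ2h hQ20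
  set u1 := v 0 with hu1
  set u2 : Fin 3 → K := fun j => v 0 j + τ * v 1 j with hu2
  set δ := det3 p u1 u2 with hδdef
  have hδ : δ ≠ 0 := by
    have : δ = τ * det3 p (v 0) (v 1) := by
      rw [hδdef, hu1, hu2]
      unfold det3
      ring
    rw [this]
    exact mul_ne_zero hτ0 hd01
  -- the moving point on the line `u1 + t u2`
  set W : Fin 3 → Polynomial K := fun j => Polynomial.C (u1 j) + Polynomial.C (u2 j) * Polynomial.X
    with hW
  set w : K → Fin 3 → K := fun t j => u1 j + t * u2 j with hw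
  have hWe : ∀ t, (fun i => (W i).eval t) = w t := by
    intro t
    funext i
    simp [hW, hw]
    ring
  set q2 : Polynomial K := aeval W Q2 with hq2
  set q3 : Polynomial K := aeval W G with hq3
  have hq2e : ∀ t, q2.eval t = eval (w t) Q2 := fun t => by rw [hq2, aeval_poly_eval, hWe]
  have hq3e : ∀ t, q3.eval t = eval (w t) G := fun t => by rw [hq3, aeval_poly_eval, hWe]
  have hdetw : ∀ t, det3 p (w t) u2 ≠ 0 := by
    intro t
    have : det3 p (w t) u2 = δ := by
      rw [hδdef, hw]
      unfold det3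
      ring
    rw [this]
    exact hδ
  have hnb : ∀ t, q2.eval t = 0 → q3.eval t = 0 → False := by
    intro t h1 h2
    rw [hq2e] at h1
    rw [hq3e] at h2
    exact not_both_zero hv hG0 hG hG2 hGv (w t) u2 (hdetw t) h1 h2
  -- explicit form and degree of `q2`
  have hq2form : q2 = Polynomial.C (eval u2 Q2) * Polynomial.X ^ 2
      + Polynomial.C (eval u2 ((expand u1 Q2).coeff 1)) * Polynomial.X
      + Polynomial.C (eval u1 Q2) := by
    apply Polynomial.funext
    intro t
    rw [hq2e]
    have h6 := eval_comb_two u1 u2 1 t hQ2h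
    rw [show w t = (fun j => 1 * u1 j + t * u2 j) by funext j; rw [hw]; ring]
    rw [h6]
    simp only [Polynomial.eval_add, Polynomial.eval_mul, Polynomial.eval_C,
      Polynomial.eval_X, Polynomial.eval_pow]
    ring
  have hq2deg : q2.natDegree = 2 := by
    rw [hq2form]
    exact Polynomial.natDegree_quadratic hτ2
  have hq20 : q2 ≠ 0 := by
    intro h
    rw [h, Polynomial.natDegree_zero] at hq2deg
    omega
  have hWdeg : ∀ i, (W i).natDegree ≤ 1 := by
    intro i
    rw [hW]
    exact Polynomial.natDegree_add_le_of_degree_le (by simp)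
      ((Polynomial.natDegree_C_mul_le _ _).trans Polynomial.natDegree_X_le)
  have hq3deg : q3.natDegree ≤ 3 := by
    have := aeval_natDegree_le G (hG.totalDegree_le) W hWdeg
    simpa using this
  -- the six parameters
  have hcr : ∀ i : Fin 6, ∃ z β s : K, β ≠ 0 ∧
      v i.castSucc = fun j => z * p j + β * w s j := by
    intro i
    have hnum : det3 u2 p (v i.castSucc) ≠ 0 := by
      have : det3 u2 p (v i.castSucc) = det3 p (v i.castSucc) u2 := by
        unfold det3
        ring
      rw [this]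
      exact hτ1 i
    have hβ : det3 u2 p (v i.castSucc) / δ ≠ 0 := div_ne_zero hnum hδ
    refine ⟨det3 u1 u2 (v i.castSucc) / δ, det3 u2 p (v i.castSucc) / δ,
      (det3 p u1 (v i.castSucc) / δ) / (det3 u2 p (v i.castSucc) / δ), hβ, ?_⟩
    have h1 := cramer hδ (v i.castSucc)
    rw [← hδdef] at h1
    conv_lhs => rw [h1]
    funext j
    rw [hw]
    field_simp
  choose z β s hβ hvs using hcr
  have hGi : ∀ i : Fin 6, z i * q2.eval (s i) + β i * q3.eval (s i) = 0 := by
    intro i
    have h1 : eval (v i.castSucc) G = 0 := hGv _ (Fin.castSucc_lt_last i).ne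
    rw [hvs i, eval_cubic hG hG2] at h1
    have h2 := eval_comb_two (w (s i)) (w (s i)) (β i) 0 hQ2h
    have h3 := eval_comb_three (w (s i)) (w (s i)) (β i) 0 hG
    rw [show (fun j => β i * w (s i) j + 0 * w (s i) j) = (fun j => β i * w (s i) j) by
      funext j; ring] at h2 h3
    rw [← hQ2, h2, h3] at h1
    rw [hq2e, hq3e]
    have h4 : β i ^ 2 * (z i * eval (w (s i)) Q2 + β i * eval (w (s i)) G) = 0 := by
      linear_combination h1
    exact (mul_eq_zero.mp h4).resolve_left (pow_ne_zero _ (hβ i))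
  have hq2s : ∀ i, q2.eval (s i) ≠ 0 := by
    intro i h
    have h1 := hGi i
    rw [h, mul_zero, zero_add] at h1
    exact hnb (s i) h ((mul_eq_zero.mp h1).resolve_left (hβ i))
  have hsinj : Function.Injective s := by
    intro i j hij
    by_contra hne
    apply hv.1 6 i.castSucc j.castSucc (Fin.castSucc_lt_last i).ne' (Fin.castSucc_lt_last j).ne'
      (fun h => hne (Fin.castSucc_injective 6 h))
    rw [← hp, hvs i, hvs j, hij]
    unfold det3
    ring
  -- the rational parametrisation of the nodal cubic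
  set ν : Fin 3 → Polynomial K := fun j => algebraMap K (Polynomial K) (p j) * (-q3) + W j * q2
    with hν
  have hνdeg : ∀ j, (ν j).natDegree ≤ 3 := by
    intro j
    rw [hν]
    refine Polynomial.natDegree_add_le_of_degree_le ?_ ?_
    · refine (Polynomial.natDegree_C_mul_le _ _).trans ?_
      rw [Polynomial.natDegree_neg]
      exact hq3deg
    · refine Polynomial.natDegree_mul_le.trans ?_
      have := hWdeg j
      omega
  -- the key property
  have key : ∀ F ∈ linSys v 6 mult, ∀ a, q2.eval a = 0 →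
      (aeval W ((expand p F).coeff 3)).eval a = 0 → q2 ∣ aeval W ((expand p F).coeff 3) := by
    intro F hF a ha hfa
    obtain ⟨hFh, hFm⟩ := mem_of_linSys hF
    have hF6 : F ∈ (pointIdeal p) ^ 3 := hFm 6
    set f3 := aeval W ((expand p F).coeff 3) with hf3
    have hexp := expand_hom p (-q3) q2 W hFh
    rw [← hν] at hexp
    have e0 : (expand p F).coeff 0 = 0 := coeff_expand_of_mem hF6 (by norm_num)
    have e1 : (expand p F).coeff 1 = 0 := coeff_expand_of_mem hF6 (by norm_num)
    have e2 : (expand p F).coeff 2 = 0 := coeff_expand_of_mem hF6 (by norm_num)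
    simp only [Finset.sum_range_succ, Finset.sum_range_zero, e0, e1, e2, map_zero, mul_zero,
      add_zero, zero_add] at hexp
    norm_num at hexp
    set A : Polynomial K := q3 ^ 2 * aeval W ((expand p F).coeff 4)
      - q3 * q2 * aeval W ((expand p F).coeff 5) + q2 ^ 2 * aeval W ((expand p F).coeff 6) with hA
    set H : Polynomial K := -(q3 ^ 3 * f3) + q2 * A with hH
    have hFH : aeval ν F = q2 ^ 3 * H := by
      rw [hexp, hH, hA, hf3]
      ring
    -- double zeros
    have hdbl : ∀ i : Fin 6, (Polynomial.X - Polynomial.C (s i)) ^ 2 ∣ H := by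
      intro i
      have h1 := map_pointIdeal_le (v i.castSucc) (aeval ν)
        (Ideal.span {Polynomial.X - Polynomial.C (s i)})
        (Polynomial.C (q2.eval (s i) / β i)) (fun j => by
          rw [Ideal.mem_span_singleton, Polynomial.dvd_iff_isRoot, Polynomial.IsRoot.def,
            aeval_X]
          have h2 : algebraMap K (Polynomial K) (v i.castSucc j)
            = Polynomial.C (v i.castSucc j) := rfl
          have h3 : algebraMap K (Polynomial K) (p j) = Polynomial.C (p j) := rfl
          rw [hν]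
          simp only [h2, h3, Polynomial.eval_sub, Polynomial.eval_add, Polynomial.eval_mul,
            Polynomial.eval_C, Polynomial.eval_neg]
          have h4 : (W j).eval (s i) = w (s i) j := congrFun (hWe (s i)) j
          rw [h4]
          have h5 := congrFun (hvs i) j
          rw [h5]
          have h6 := hGi i
          have h7 := hβ i
          field_simp
          linear_combination (-p j) * h6) (hFm i.castSucc)
      rw [Ideal.span_singleton_pow, Ideal.mem_span_singleton] at h1
      have hm2 : mult i.castSucc = 2 := by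
        clear h1
        revert i
        decide
      rw [hm2, hFH] at h1
      refine IsCoprime.dvd_of_dvd_mul_left ?_ h1
      refine IsCoprime.pow ?_
      refine (Polynomial.isCoprime_iff_aeval_ne_zero_of_isAlgClosed K K _ _).mpr ?_
      intro x
      by_cases hx : x = s i
      · right
        rw [hx]
        simpa using hq2s i
      · left
        simpa [sub_eq_zero] using hx
    have hHdeg : H ≠ 0 → H.natDegree ≤ 12 := by
      intro hH0
      have h1 := aeval_natDegree_le F hFh.totalDegree_le ν hνdeg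
      rw [hFH, Polynomial.natDegree_mul (pow_ne_zero _ hq20) hH0, Polynomial.natDegree_pow,
        hq2deg] at h1
      omega
    have hHa : H.eval a = 0 := by
      rw [hH]
      simp only [Polynomial.eval_add, Polynomial.eval_neg, Polynomial.eval_mul,
        Polynomial.eval_pow]
      rw [ha, hfa]
      ring
    have hH0 : H = 0 := by
      by_contra hne
      have h1 : (∏ i : Fin 6, (Polynomial.X - Polynomial.C (s i)) ^ 2) ∣ H := by
        refine Fintype.prod_dvd_of_coprime ?_ hdbl
        intro i j hij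
        exact (Polynomial.pairwise_coprime_X_sub_C hsinj hij).pow
      have h2 : (Polynomial.X - Polynomial.C a) ∣ H := Polynomial.dvd_iff_isRoot.mpr hHa
      have h3 : IsCoprime (Polynomial.X - Polynomial.C a)
          (∏ i : Fin 6, (Polynomial.X - Polynomial.C (s i)) ^ 2) := by
        refine IsCoprime.prod_right fun i _ => IsCoprime.pow_right ?_
        apply Polynomial.isCoprime_X_sub_C_of_isUnit_sub
        refine IsUnit.mk0 _ (sub_ne_zero.mpr ?_)
        rintro rfl
        exact hq2s i ha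
      have h4 := h3.mul_dvd h2 h1
      have h5 := Polynomial.natDegree_le_of_dvd h4 hne
      have h6 := hHdeg hne
      have h7 : (∏ i : Fin 6, (Polynomial.X - Polynomial.C (s i)) ^ 2) ≠ 0 :=
        Finset.prod_ne_zero_iff.mpr fun i _ => pow_ne_zero _ (Polynomial.X_sub_C_ne_zero _)
      rw [Polynomial.natDegree_mul (Polynomial.X_sub_C_ne_zero _) h7,
        Polynomial.natDegree_X_sub_C, Polynomial.natDegree_prod _ _
          (fun i _ => pow_ne_zero _ (Polynomial.X_sub_C_ne_zero _))] at h5
      simp only [Polynomial.natDegree_pow, Polynomial.natDegree_X_sub_C, Finset.sum_const,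
        Finset.card_univ, Fintype.card_fin] at h5
      simp at h5
      omega
    have hdvd : q2 ∣ q3 ^ 3 * f3 := by
      refine ⟨A, ?_⟩
      rw [hH] at hH0
      linear_combination -hH0
    refine IsCoprime.dvd_of_dvd_mul_left ?_ hdvd
    refine IsCoprime.pow_right ?_
    refine (Polynomial.isCoprime_iff_aeval_ne_zero_of_isAlgClosed K K _ _).mpr ?_
    intro x
    by_contra hcon
    push Not at hcon
    exact hnb x (by simpa using hcon.1) (by simpa using hcon.2)
  -- choose a root of `q2` and a form not in the image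
  intro hsurj
  obtain ⟨a, ha⟩ := IsAlgClosed.exists_root q2 (by
    rw [Polynomial.degree_eq_natDegree hq20, hq2deg]
    norm_num)
  have hinv : ∀ (b : Fin 3 → K) (x : Fin 3 → K) (c : K),
      eval (fun i => x i + c * p i) (lin p b) = eval x (lin p b) := by
    intro b x c
    rw [eval_lin, eval_lin]
    unfold det3
    ring
  have hg : lin p (w a) * (lin p u2 * lin p u2) ∈ excForms (v 6) (mult 6) := by
    refine ⟨(lin_hom _ _).mul ((lin_hom _ _).mul (lin_hom _ _)), fun x c => ?_⟩
    rw [map_mul, map_mul, map_mul, map_mul, ← hp, hinv, hinv]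
  obtain ⟨F, hF⟩ := hsurj ⟨_, hg⟩
  have hF' : (expand p F.1).coeff 3 = lin p (w a) * (lin p u2 * lin p u2) :=
    congrArg Subtype.val hF
  have hk := key F.1 F.2 a ha
  rw [hF'] at hk
  have hform : aeval W (lin p (w a) * (lin p u2 * lin p u2))
      = Polynomial.C (δ * (δ * δ)) * (Polynomial.X - Polynomial.C a) := by
    apply Polynomial.funext
    intro t
    rw [aeval_poly_eval, hWe, map_mul, map_mul, eval_lin, eval_lin]
    simp only [Polynomial.eval_mul, Polynomial.eval_C, Polynomial.eval_sub, Polynomial.eval_X]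
    have h1 : det3 p (w a) (w t) = (t - a) * δ := by
      rw [hδdef, hw]
      unfold det3
      ring
    have h2 : det3 p u2 (w t) = -δ := by
      rw [hδdef, hw]
      unfold det3
      ring
    rw [h1, h2]
    ring
  rw [hform] at hk
  have h1 := hk (by simp)
  have hc0 : δ * (δ * δ) ≠ 0 := mul_ne_zero hδ (mul_ne_zero hδ hδ)
  have h2 := Polynomial.natDegree_le_of_dvd h1
    (mul_ne_zero (Polynomial.C_ne_zero.mpr hc0) (Polynomial.X_sub_C_ne_zero a))
  rw [hq2deg, Polynomial.natDegree_C_mul hc0, Polynomial.natDegree_X_sub_C] at h2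
  omega

/-! ### Seven general points are in general position -/

/-- the six quadratic monomials at a vector -/
def mon {R : Type*} [CommRing R] (x : Fin 3 → R) : Fin 6 → R :=
  ![x 0 * x 0, x 0 * x 1, x 0 * x 2, x 1 * x 1, x 1 * x 2, x 2 * x 2]

lemma eval_linear {F : MvPolynomial (Fin 3) K} (hF : F.IsHomogeneous 1) (w b : Fin 3 → K)
    (x y : K) : eval (fun i => x * w i + y * b i) F = x * eval w F + y * eval b F := by
  have h1 := eval_comb_hom w b x y hF
  have h2 := eval_comb_hom w b 0 1 hF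
  simp only [Finset.sum_range_succ, Finset.sum_range_zero, coeff_zero_expand, eval_C] at h1 h2
  norm_num at h1 h2
  rw [h1, ← h2]

lemma quad_form {Q : MvPolynomial (Fin 3) K} (hQ : Q.IsHomogeneous 2) :
    ∃ c : Fin 6 → K, ∀ x : Fin 3 → K, eval x Q = ∑ k, mon x k * c k := by
  let e0 : Fin 3 → K := ![1, 0, 0]
  let e1 : Fin 3 → K := ![0, 1, 0]
  let e2 : Fin 3 → K := ![0, 0, 1]
  let L := (expand e0 Q).coeff 1
  have hL : L.IsHomogeneous 1 := coeff_expand_hom e0 Q 1
  refine ⟨![eval e0 Q, eval e1 L, eval e2 L, eval e1 Q, eval e2 ((expand e1 Q).coeff 1),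
    eval e2 Q], fun x => ?_⟩
  have h1 := eval_comb_two e0 (fun i => x 1 * e1 i + x 2 * e2 i) (x 0) 1 hQ
  have h2 := eval_comb_two e1 e2 (x 1) (x 2) hQ
  have h3 := eval_linear hL e1 e2 (x 1) (x 2)
  have hx : (fun i => x 0 * e0 i + 1 * (x 1 * e1 i + x 2 * e2 i)) = x := by
    funext i
    fin_cases i <;> simp [e0, e1, e2]
  rw [hx, h2] at h1
  rw [h1]
  simp only [L] at h3 ⊢
  rw [h3]
  simp only [mon, Fin.sum_univ_six]
  simp only [Matrix.cons_val_zero, Matrix.cons_val_one, Matrix.cons_val]
  ring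

/-- the determinant of three of the seven indeterminate points -/
noncomputable def detP (K : Type*) [Field K] (i j k : Fin 7) : MvPolynomial (Fin 7 × Fin 3) K :=
  (X (i, 1) * X (j, 2) - X (i, 2) * X (j, 1)) * X (k, 0)
    + (X (i, 2) * X (j, 0) - X (i, 0) * X (j, 2)) * X (k, 1)
    + (X (i, 0) * X (j, 1) - X (i, 1) * X (j, 0)) * X (k, 2)

lemma eval_detP (v : Fin 7 → Fin 3 → K) (i j k : Fin 7) :
    eval (fun q : Fin 7 × Fin 3 => v q.1 q.2) (detP K i j k) = det3 (v i) (v j) (v k) := by
  simp [detP, det3]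

/-- the conic determinant of the six indeterminate points other than the point `o` -/
noncomputable def conP (K : Type*) [Field K] (o : Fin 7) : MvPolynomial (Fin 7 × Fin 3) K :=
  Matrix.det (Matrix.of fun a k : Fin 6 => mon (fun j => X (o.succAbove a, j)) k)

lemma eval_conP (v : Fin 7 → Fin 3 → K) (o : Fin 7) :
    eval (fun q : Fin 7 × Fin 3 => v q.1 q.2) (conP K o)
      = Matrix.det (Matrix.of fun a k : Fin 6 => mon (v (o.succAbove a)) k) := by
  rw [conP, RingHom.map_det]
  congr 1
  ext a k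
  fin_cases k <;> simp [mon]

lemma gp_of_ne [Infinite K] {v : Fin 7 → Fin 3 → K}
    (h1 : ∀ i j k : Fin 7, i ≠ j → i ≠ k → j ≠ k →
      eval (fun q : Fin 7 × Fin 3 => v q.1 q.2) (detP K i j k) ≠ 0)
    (h2 : ∀ o : Fin 7, eval (fun q : Fin 7 × Fin 3 => v q.1 q.2) (conP K o) ≠ 0) : GP v := by
  refine ⟨fun i j k hij hik hjk => ?_, fun o Q hQ hv => ?_⟩
  · rw [← eval_detP]
    exact h1 i j k hij hik hjk
  · obtain ⟨c, hc⟩ := quad_form hQ
    have h3 := h2 o
    rw [eval_conP] at h3
    have h4 : c = 0 := by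
      apply Matrix.eq_zero_of_mulVec_eq_zero h3
      funext a
      rw [Matrix.mulVec, dotProduct, Pi.zero_apply, ← hv (o.succAbove a) (Fin.succAbove_ne o a),
        hc]
      rfl
    apply MvPolynomial.funext
    intro x
    rw [hc x, h4]
    simp

lemma detP_ne_zero (K : Type*) [Field K] {i j k : Fin 7} (hij : i ≠ j) (hik : i ≠ k)
    (hjk : j ≠ k) : detP K i j k ≠ 0 := by
  intro h
  let v : Fin 7 → Fin 3 → K := fun l =>
    if l = i then ![1, 0, 0] else if l = j then ![0, 1, 0] else ![0, 0, 1]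
  have h1 := eval_detP v i j k
  rw [h, map_zero] at h1
  have e1 : v i = ![1, 0, 0] := by simp [v]
  have e2 : v j = ![0, 1, 0] := by simp [v, hij.symm]
  have e3 : v k = ![0, 0, 1] := by simp [v, hik.symm, hjk.symm]
  rw [e1, e2, e3] at h1
  simp [det3] at h1

lemma conP_ne_zero (K : Type*) [Field K] (o : Fin 7) : conP K o ≠ 0 := by
  intro h
  let pts : Fin 6 → Fin 3 → K := ![![1, 0, 0], ![0, 1, 0], ![0, 0, 1], ![1, 1, 0], ![1, 0, 1],
    ![0, 1, 1]]
  let v : Fin 7 → Fin 3 → K := o.insertNth (0 : Fin 3 → K) pts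
  have h1 := eval_conP v o
  rw [h, map_zero] at h1
  obtain ⟨c, hc0, hc⟩ := Matrix.exists_mulVec_eq_zero_iff.mpr h1.symm
  apply hc0
  have key : ∀ a : Fin 6, ∑ k, mon (pts a) k * c k = 0 := by
    intro a
    have h2 := congrFun hc a
    rw [Matrix.mulVec, dotProduct, Pi.zero_apply] at h2
    have h3 : v (o.succAbove a) = pts a := Fin.insertNth_apply_succAbove _ _ _ _
    simpa only [Matrix.of_apply, h3] using h2
  have k0 := key 0
  have k1 := key 1
  have k2 := key 2
  have k3 := key 3
  have k4 := key 4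
  have k5 := key 5
  simp [pts, mon, Fin.sum_univ_six] at k0 k1 k2 k3 k4 k5
  rw [k0, k1] at k3
  rw [k0, k2] at k4
  rw [k1, k2] at k5
  funext l
  fin_cases l
  · exact k0
  · simpa using k3
  · simpa using k4
  · exact k1
  · simpa using k5
  · exact k2

/-- **Restriction to a `(-1)`-curve need not have maximal rank.**

Seven general points of the plane over an algebraically closed field, `D = 6H - 2E_1 - … - 2E_6
- 3E_7` and `E = E_7`: the linear system `|D|` has no fixed component, and the restriction map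
`H⁰(O_X(D)) → H⁰(O_E(D|_E))` is neither injective nor surjective. -/
theorem result_proof (K : Type*) [Field K] [IsAlgClosed K] :
    ∃ Δ : MvPolynomial (Fin 7 × Fin 3) K, Δ ≠ 0 ∧
      ∀ v : Fin 7 → Fin 3 → K, eval (fun q => v q.1 q.2) Δ ≠ 0 →
        ¬ HasFixedComponent v 6 ![2, 2, 2, 2, 2, 2, 3] ∧
        ¬ Function.Injective (rho v 6 ![2, 2, 2, 2, 2, 2, 3] 6) ∧
        ¬ Function.Surjective (rho v 6 ![2, 2, 2, 2, 2, 2, 3] 6) := by
  classical
  have : Infinite K := IsAlgClosed.instInfinite
  let D3 : MvPolynomial (Fin 7 × Fin 3) K := ∏ t : Fin 7 × Fin 7 × Fin 7,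
    if t.1 ≠ t.2.1 ∧ t.1 ≠ t.2.2 ∧ t.2.1 ≠ t.2.2 then detP K t.1 t.2.1 t.2.2 else 1
  let D6 : MvPolynomial (Fin 7 × Fin 3) K := ∏ o : Fin 7, conP K o
  refine ⟨D3 * D6, mul_ne_zero ?_ ?_, fun v hv => ?_⟩
  · refine Finset.prod_ne_zero_iff.mpr fun t _ => ?_
    split_ifs with ht
    · exact detP_ne_zero K ht.1 ht.2.1 ht.2.2
    · exact one_ne_zero
  · exact Finset.prod_ne_zero_iff.mpr fun o _ => conP_ne_zero K o
  · rw [map_mul] at hv
    have h3 := left_ne_zero_of_mul hv
    have h6 := right_ne_zero_of_mul hv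
    rw [map_prod] at h3 h6
    have hgp : GP v := by
      refine gp_of_ne (fun i j k hij hik hjk => ?_) (fun o => ?_)
      · have := Finset.prod_ne_zero_iff.mp h3 (i, j, k) (Finset.mem_univ _)
        rwa [if_pos ⟨hij, hik, hjk⟩] at this
      · exact Finset.prod_ne_zero_iff.mp h6 o (Finset.mem_univ _)
    exact ⟨no_fixed hgp, not_injective hgp, not_surjective hgp⟩

end Pool.Agent.Results.MP_5bb273_ag.MaxRankFails
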