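import Mathlib

set_option autoImplicit false

namespace Pool.Agent.Results.MP_fcf9e8_nt.NearPower

open Finset Filter

/-- `G x = |cos (π x)|`. -/
noncomputable def G (x : ℝ) : ℝ := |Real.cos (x * Real.pi)|

theorem G_nonneg (x : ℝ) : 0 ≤ G x := abs_nonneg _

theorem G_le_one (x : ℝ) : G x ≤ 1 := Real.abs_cos_le_one _

theorem G_add_int (x : ℝ) (k : ℤ) : G (x + k) = G x := by
  unfold G
  rw [add_mul, Real.cos_add_int_mul_pi, abs_mul]
  have : |((-1 : ℝ)) ^ k| = 1 := by
    rw [abs_zpow, abs_neg, abs_one, one_zpow]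
  rw [this, one_mul]

theorem G_zero : G 0 = 1 := by simp [G]

theorem G_le_of_ge {b : ℕ} (hb : 2 ≤ b) (x : ℝ) (h1 : 1 / (2 * (b : ℝ)) ≤ |x|) (h2 : |x| ≤ 1 / 2) :
    G x ≤ Real.cos (Real.pi / (2 * b)) := by
  have hb' : (0 : ℝ) < b := by positivity
  unfold G
  rw [← Real.cos_abs, abs_mul, abs_of_pos Real.pi_pos]
  have hpi := Real.pi_pos
  have hnn : 0 ≤ Real.cos (|x| * Real.pi) := by
    apply Real.cos_nonneg_of_neg_pi_div_two_le_of_le
    · have : 0 ≤ |x| * Real.pi := by positivity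
      linarith
    · nlinarith
  rw [abs_of_nonneg hnn]
  apply Real.cos_le_cos_of_nonneg_of_le_pi
  · positivity
  · nlinarith [abs_nonneg x]
  · rw [div_le_iff₀ (by positivity)]
    have h3 : 1 ≤ |x| * (2 * b) := by
      rw [div_le_iff₀ (by positivity)] at h1
      exact h1
    nlinarith

/-- `W b R x = ∏_{j<R} G (b^j x)`. -/
noncomputable def W (b R : ℕ) (x : ℝ) : ℝ := ∏ j ∈ range R, G ((b : ℝ) ^ j * x)

theorem W_nonneg (b R : ℕ) (x : ℝ) : 0 ≤ W b R x := prod_nonneg fun _ _ => G_nonneg _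

theorem W_le_one (b R : ℕ) (x : ℝ) : W b R x ≤ 1 :=
  prod_le_one (fun _ _ => G_nonneg _) (fun _ _ => G_le_one _)

theorem W_zero_arg (b R : ℕ) : W b R 0 = 1 := by
  unfold W; simp [G_zero]

theorem W_add_int (b R : ℕ) (x : ℝ) (k : ℤ) : W b R (x + k) = W b R x := by
  unfold W
  apply prod_congr rfl
  intro j _
  have : (b : ℝ) ^ j * (x + k) = (b : ℝ) ^ j * x + (((b : ℤ) ^ j * k : ℤ) : ℝ) := by
    push_cast; ring
  rw [this, G_add_int]

theorem W_succ (b R : ℕ) (x : ℝ) : W b (R + 1) x = G x * W b R (b * x) := by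
  unfold W
  rw [prod_range_succ']
  rw [mul_comm]
  congr 1
  · simp
  · apply prod_congr rfl
    intro j _
    congr 1
    ring

/-- Key moment lemma: for a `b^{-R}`-separated family of points of `[-1/2,1/2)`. -/
theorem moment {b : ℕ} (hb : 2 ≤ b) (m : ℕ) {ι : Type*} (R : ℕ) :
    ∀ (T : Finset ι) (x : ι → ℝ), (∀ t ∈ T, -(1 / 2 : ℝ) ≤ x t ∧ x t < 1 / 2) →
      (∀ t ∈ T, ∀ s ∈ T, t ≠ s → 1 / (b : ℝ) ^ R ≤ |x t - x s|) →
      ∑ t ∈ T, (W b R (x t)) ^ m ≤ (1 + 2 * b * Real.cos (Real.pi / (2 * b)) ^ m) ^ R := by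
  classical
  have hb' : (0 : ℝ) < b := by positivity
  set ρ := Real.cos (Real.pi / (2 * b)) with hρ
  have hρ0 : 0 ≤ ρ := by
    apply Real.cos_nonneg_of_neg_pi_div_two_le_of_le
    · have : 0 ≤ Real.pi / (2 * b) := by positivity
      linarith [Real.pi_pos]
    · apply div_le_div_of_nonneg_left Real.pi_pos.le (by norm_num)
      have : (2 : ℝ) ≤ b := by exact_mod_cast hb
      linarith
  induction R with
  | zero =>
    intro T x hx hsep
    have hcard : T.card ≤ 1 := by
      rw [Finset.card_le_one]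
      intro t ht s hs
      by_contra hne
      have h1 := hsep t ht s hs hne
      have h2 := hx t ht
      have h3 := hx s hs
      simp only [pow_zero, div_one] at h1
      have : |x t - x s| < 1 := by
        rw [abs_lt]; constructor <;> linarith
      linarith
    have : ∑ t ∈ T, (W b 0 (x t)) ^ m = T.card := by
      simp [W]
    rw [this]
    simpa using hcard
  | succ R ih =>
    intro T x hx hsep
    have hmaps : ∀ t ∈ T, round ((b : ℝ) * x t) ∈ Finset.Icc (-(b : ℤ)) b := by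
      intro t ht
      have h2 := hx t ht
      have h4 : |(b : ℝ) * x t - round ((b : ℝ) * x t)| ≤ 1 / 2 := abs_sub_round _
      rw [abs_le] at h4
      have h5 : (b : ℝ) * x t < b * (1 / 2) := by
        exact mul_lt_mul_of_pos_left h2.2 hb'
      have h6 : b * (-(1 / 2)) ≤ (b : ℝ) * x t := by
        exact mul_le_mul_of_nonneg_left h2.1 hb'.le
      have hb2 : (2 : ℝ) ≤ b := by exact_mod_cast hb
      rw [Finset.mem_Icc]
      constructor
      · have : (-(b : ℝ)) ≤ round ((b : ℝ) * x t) := by linarith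
        exact_mod_cast this
      · have : (round ((b : ℝ) * x t) : ℝ) ≤ b := by linarith
        exact_mod_cast this
    rw [← Finset.sum_fiberwise_of_maps_to hmaps]
    have hbound : ∀ J ∈ Finset.Icc (-(b : ℤ)) b,
        ∑ t ∈ T with round ((b : ℝ) * x t) = J, (W b (R + 1) (x t)) ^ m
          ≤ (if J = 0 then 1 else ρ ^ m) * (1 + 2 * b * ρ ^ m) ^ R := by
      intro J _
      have hW : ∀ t ∈ T.filter (fun t => round ((b : ℝ) * x t) = J),
          (W b (R + 1) (x t)) ^ m ≤ (if J = 0 then 1 else ρ ^ m) * (W b R (b * x t - J)) ^ m := by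
        intro t ht
        rw [Finset.mem_filter] at ht
        obtain ⟨htT, htJ⟩ := ht
        have e1 : W b R (b * x t) = W b R (b * x t - J) := by
          have := W_add_int b R (b * x t - J) J
          rw [sub_add_cancel] at this
          exact this
        rw [W_succ, e1, mul_pow]
        apply mul_le_mul_of_nonneg_right _ (pow_nonneg (W_nonneg _ _ _) _)
        split_ifs with hJ
        · exact pow_le_one₀ (G_nonneg _) (G_le_one _)
        · apply pow_le_pow_left₀ (G_nonneg _)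
          apply G_le_of_ge hb
          · -- |x t| ≥ 1/(2b)
            have h4 : |(b : ℝ) * x t - round ((b : ℝ) * x t)| ≤ 1 / 2 := abs_sub_round _
            rw [htJ] at h4
            have h5 : (1 : ℝ) ≤ |(J : ℝ)| := by
              have : (1 : ℤ) ≤ |J| := Int.one_le_abs hJ
              exact_mod_cast this
            have h6 : 1 / 2 ≤ |(b : ℝ) * x t| := by
              have := abs_sub_abs_le_abs_sub (J : ℝ) ((b : ℝ) * x t)
              rw [abs_sub_comm] at this
              linarith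
            rw [abs_mul, abs_of_pos hb'] at h6
            rw [div_le_iff₀ (by positivity)]
            linarith
          · rw [abs_le]
            have := hx t htT
            constructor <;> linarith [this.1, this.2]
      calc ∑ t ∈ T with round ((b : ℝ) * x t) = J, (W b (R + 1) (x t)) ^ m
          ≤ ∑ t ∈ T with round ((b : ℝ) * x t) = J,
              (if J = 0 then 1 else ρ ^ m) * (W b R (b * x t - J)) ^ m := Finset.sum_le_sum hW
        _ = (if J = 0 then 1 else ρ ^ m) *
              ∑ t ∈ T with round ((b : ℝ) * x t) = J, (W b R (b * x t - J)) ^ m := by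
            rw [Finset.mul_sum]
        _ ≤ (if J = 0 then 1 else ρ ^ m) * (1 + 2 * b * ρ ^ m) ^ R := by
            apply mul_le_mul_of_nonneg_left
            · apply ih (T.filter (fun t => round ((b : ℝ) * x t) = J)) (fun t => b * x t - J)
              · intro t ht
                rw [Finset.mem_filter] at ht
                obtain ⟨htT, htJ⟩ := ht
                have h1 : round ((b : ℝ) * x t) = ⌊(b : ℝ) * x t + 1 / 2⌋ := round_eq _
                rw [htJ] at h1
                have h2 := Int.floor_le ((b : ℝ) * x t + 1 / 2)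
                have h3 := Int.lt_floor_add_one ((b : ℝ) * x t + 1 / 2)
                rw [← h1] at h2 h3
                constructor
                · linarith
                · linarith
              · intro t ht s hs hne
                rw [Finset.mem_filter] at ht hs
                have h1 := hsep t ht.1 s hs.1 hne
                have : ((b : ℝ) * x t - J) - (b * x s - J) = b * (x t - x s) := by ring
                rw [this, abs_mul, abs_of_pos hb']
                rw [pow_succ] at h1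
                calc 1 / (b : ℝ) ^ R = b * (1 / (b ^ R * b)) := by field_simp
                  _ ≤ b * |x t - x s| := mul_le_mul_of_nonneg_left h1 hb'.le
            · split_ifs
              · exact zero_le_one
              · positivity
    calc ∑ J ∈ Finset.Icc (-(b : ℤ)) b, ∑ t ∈ T with round ((b : ℝ) * x t) = J,
          (W b (R + 1) (x t)) ^ m
        ≤ ∑ J ∈ Finset.Icc (-(b : ℤ)) b,
            (if J = 0 then 1 else ρ ^ m) * (1 + 2 * b * ρ ^ m) ^ R := Finset.sum_le_sum hbound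
      _ = (∑ J ∈ Finset.Icc (-(b : ℤ)) b, (if J = 0 then 1 else ρ ^ m)) *
            (1 + 2 * b * ρ ^ m) ^ R := by rw [Finset.sum_mul]
      _ = (1 + 2 * b * ρ ^ m) ^ (R + 1) := by
          rw [pow_succ, mul_comm]
          congr 1
          have hmem : (0 : ℤ) ∈ Finset.Icc (-(b : ℤ)) b := by
            rw [Finset.mem_Icc]; constructor <;> omega
          rw [← Finset.add_sum_erase _ _ hmem]
          simp only [if_true]
          congr 1
          rw [Finset.sum_congr rfl (g := fun _ => ρ ^ m)]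
          · rw [Finset.sum_const, Finset.card_erase_of_mem hmem, Int.card_Icc, nsmul_eq_mul]
            congr 1
            have : ((b : ℤ) + 1 - -(b : ℤ)).toNat - 1 = 2 * b := by omega
            rw [this]; push_cast; ring
          · intro J hJ
            rw [if_neg (Finset.ne_of_mem_erase hJ)]

theorem prod_windows (b m R : ℕ) (x : ℝ) :
    ∏ j ∈ range (m * R), G ((b : ℝ) ^ j * x) = ∏ l ∈ range m, W b R ((b : ℝ) ^ (l * R) * x) := by
  induction m with
  | zero => simp
  | succ m ih =>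
    rw [prod_range_succ, ← ih, Nat.succ_mul, prod_range_add]
    congr 1
    unfold W
    apply prod_congr rfl
    intro j _
    congr 1
    rw [pow_add]; ring

theorem prod_le_sum_pow {m : ℕ} (hm : 1 ≤ m) (a : ℕ → ℝ) (ha : ∀ l, 0 ≤ a l) :
    ∏ l ∈ range m, a l ≤ ∑ l ∈ range m, (a l) ^ m := by
  have hne : (range m).Nonempty := by
    rw [nonempty_range_iff]; omega
  obtain ⟨l0, hl0, hmax⟩ := Finset.exists_max_image (range m) a hne
  calc ∏ l ∈ range m, a l ≤ ∏ l ∈ range m, a l0 :=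
        prod_le_prod (fun l _ => ha l) (fun l hl => hmax l hl)
    _ = (a l0) ^ m := by simp
    _ ≤ ∑ l ∈ range m, (a l) ^ m :=
        Finset.single_le_sum (f := fun l => (a l) ^ m) (fun l _ => pow_nonneg (ha l) m) hl0

/-- Sum over a family that is separated in every window. -/
theorem windows {b : ℕ} (hb : 2 ≤ b) {m R : ℕ} (hm : 1 ≤ m) {ι : Type*} [DecidableEq ι]
    (T : Finset ι) (x : ι → ℝ) (t0 : ι) (ht0 : t0 ∈ T) (hx0 : x t0 = 0)
    (hsep : ∀ l < m, ∀ t ∈ T, ∀ s ∈ T, t ≠ s → ∀ k : ℤ,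
      1 / (b : ℝ) ^ R ≤ |(b : ℝ) ^ (l * R) * (x t - x s) - k|) :
    ∑ t ∈ T.erase t0, ∏ j ∈ range (m * R), G ((b : ℝ) ^ j * x t)
      ≤ m * ((1 + 2 * b * Real.cos (Real.pi / (2 * b)) ^ m) ^ R - 1) := by
  have h1 : ∀ t ∈ T.erase t0, ∏ j ∈ range (m * R), G ((b : ℝ) ^ j * x t)
      ≤ ∑ l ∈ range m, (W b R ((b : ℝ) ^ (l * R) * x t)) ^ m := by
    intro t _
    rw [prod_windows]
    exact prod_le_sum_pow hm _ (fun l => W_nonneg _ _ _)
  refine (Finset.sum_le_sum h1).trans ?_
  rw [Finset.sum_comm]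
  have h2 : ∀ l ∈ range m, ∑ t ∈ T.erase t0, (W b R ((b : ℝ) ^ (l * R) * x t)) ^ m
      ≤ (1 + 2 * b * Real.cos (Real.pi / (2 * b)) ^ m) ^ R - 1 := by
    intro l hl
    rw [Finset.mem_range] at hl
    have h3 := moment hb m R T
      (fun t => (b : ℝ) ^ (l * R) * x t - round ((b : ℝ) ^ (l * R) * x t)) (by
        intro t _
        have h1 : round ((b : ℝ) ^ (l * R) * x t) = ⌊(b : ℝ) ^ (l * R) * x t + 1 / 2⌋ := round_eq _
        have h2 := Int.floor_le ((b : ℝ) ^ (l * R) * x t + 1 / 2)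
        have h3 := Int.lt_floor_add_one ((b : ℝ) ^ (l * R) * x t + 1 / 2)
        rw [← h1] at h2 h3
        constructor <;> linarith) (by
        intro t ht s hs hne
        have := hsep l hl t ht s hs hne
          (round ((b : ℝ) ^ (l * R) * x t) - round ((b : ℝ) ^ (l * R) * x s))
        have e : (b : ℝ) ^ (l * R) * (x t - x s) -
            ((round ((b : ℝ) ^ (l * R) * x t) - round ((b : ℝ) ^ (l * R) * x s) : ℤ) : ℝ)
            = ((b : ℝ) ^ (l * R) * x t - round ((b : ℝ) ^ (l * R) * x t)) -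
              ((b : ℝ) ^ (l * R) * x s - round ((b : ℝ) ^ (l * R) * x s)) := by
          push_cast; ring
        rw [e] at this
        exact this)
    have h4 : ∀ t, W b R ((b : ℝ) ^ (l * R) * x t - round ((b : ℝ) ^ (l * R) * x t))
        = W b R ((b : ℝ) ^ (l * R) * x t) := by
      intro t
      have := W_add_int b R ((b : ℝ) ^ (l * R) * x t - round ((b : ℝ) ^ (l * R) * x t))
        (round ((b : ℝ) ^ (l * R) * x t))
      rw [sub_add_cancel] at this
      exact this.symm
    simp only [h4] at h3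
    rw [← Finset.add_sum_erase _ _ ht0, hx0, mul_zero, W_zero_arg, one_pow] at h3
    linarith
  calc ∑ l ∈ range m, ∑ t ∈ T.erase t0, (W b R ((b : ℝ) ^ (l * R) * x t)) ^ m
      ≤ ∑ l ∈ range m, ((1 + 2 * b * Real.cos (Real.pi / (2 * b)) ^ m) ^ R - 1) :=
        Finset.sum_le_sum h2
    _ = m * ((1 + 2 * b * Real.cos (Real.pi / (2 * b)) ^ m) ^ R - 1) := by
        rw [Finset.sum_const, card_range, nsmul_eq_mul]

/-- `ee x = exp(2π i x)`. -/
noncomputable def ee (x : ℝ) : ℂ := Complex.exp ((2 * Real.pi * x : ℝ) * Complex.I)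

theorem ee_zero : ee 0 = 1 := by simp [ee]

theorem ee_add (x y : ℝ) : ee (x + y) = ee x * ee y := by
  unfold ee
  rw [← Complex.exp_add]
  congr 1
  push_cast; ring

theorem ee_sum {ι : Type*} (s : Finset ι) (f : ι → ℝ) : ee (∑ i ∈ s, f i) = ∏ i ∈ s, ee (f i) := by
  classical
  induction s using Finset.induction_on with
  | empty => simp [ee_zero]
  | insert a s ha ih => rw [sum_insert ha, prod_insert ha, ee_add, ih]

theorem norm_ee (x : ℝ) : ‖ee x‖ = 1 := Complex.norm_exp_ofReal_mul_I _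

theorem ee_int (k : ℤ) : ee k = 1 := by
  unfold ee
  rw [Complex.exp_eq_one_iff]
  refine ⟨k, ?_⟩
  push_cast; ring

theorem norm_one_add_ee (x : ℝ) : ‖1 + ee x‖ = 2 * G x := by
  have h : 1 + ee x = (2 * Real.cos (x * Real.pi) : ℝ) *
      Complex.exp ((Real.pi * x : ℝ) * Complex.I) := by
    unfold ee
    push_cast
    rw [Complex.cos]
    have h1 : Complex.exp (2 * (Real.pi : ℂ) * x * Complex.I)
        = Complex.exp ((x : ℂ) * Real.pi * Complex.I) * Complex.exp ((Real.pi : ℂ) * x * Complex.I) := by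
      rw [← Complex.exp_add]; congr 1; ring
    have h2 : (1 : ℂ) = Complex.exp (-((x : ℂ) * Real.pi) * Complex.I) *
        Complex.exp ((Real.pi : ℂ) * x * Complex.I) := by
      rw [← Complex.exp_add]
      have : -((x : ℂ) * Real.pi) * Complex.I + (Real.pi : ℂ) * x * Complex.I = 0 := by ring
      rw [this, Complex.exp_zero]
    rw [h1]
    nth_rewrite 1 [h2]
    ring
  rw [h, norm_mul, Complex.norm_exp_ofReal_mul_I, mul_one, Complex.norm_real, Real.norm_eq_abs,
    abs_mul, abs_of_pos (by norm_num : (0 : ℝ) < 2)]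
  rfl

theorem norm_prod_one_add (b D : ℕ) (x : ℝ) :
    ‖∏ j ∈ range D, (1 + ee ((b : ℝ) ^ j * x))‖ = 2 ^ D * ∏ j ∈ range D, G ((b : ℝ) ^ j * x) := by
  rw [norm_prod]
  have : ∀ j ∈ range D, ‖1 + ee ((b : ℝ) ^ j * x)‖ = 2 * G ((b : ℝ) ^ j * x) :=
    fun j _ => norm_one_add_ee _
  rw [prod_congr rfl this, prod_mul_distrib, prod_const, card_range]

theorem prod_one_add_ee (b D : ℕ) (x : ℝ) :
    ∏ j ∈ range D, (1 + ee ((b : ℝ) ^ j * x))
      = ∑ F ∈ (range D).powerset, ee ((∑ j ∈ F, (b : ℝ) ^ j) * x) := by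
  rw [prod_one_add]
  apply sum_congr rfl
  intro F _
  rw [← ee_sum, sum_mul]

theorem ee_eq_one {x : ℝ} (h : ee x = 1) : ∃ k : ℤ, x = k := by
  unfold ee at h
  rw [Complex.exp_eq_one_iff] at h
  obtain ⟨k, hk⟩ := h
  refine ⟨k, ?_⟩
  have h2 : ((2 * Real.pi * x : ℝ) : ℂ) = ((k * (2 * Real.pi) : ℝ) : ℂ) := by
    have hI : Complex.I ≠ 0 := Complex.I_ne_zero
    apply mul_right_cancel₀ hI
    rw [hk]
    push_cast; ring
  have h3 : 2 * Real.pi * x = k * (2 * Real.pi) := by exact_mod_cast h2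
  have hpi := Real.pi_pos
  have : (2 * Real.pi) * (x - k) = 0 := by linarith
  rcases mul_eq_zero.1 this with h | h
  · linarith
  · linarith

theorem ee_pow (x : ℝ) (t : ℕ) : ee x ^ t = ee (t * x) := by
  induction t with
  | zero => simp [ee_zero]
  | succ t ih => rw [pow_succ, ih, ← ee_add]; congr 1; push_cast; ring

theorem geom_zero {q n : ℕ} (hq : 0 < q) (hn : ¬ q ∣ n) :
    ∑ t ∈ range q, ee ((n : ℝ) * ((t : ℝ) / q)) = 0 := by
  have hq' : (0 : ℝ) < q := by exact_mod_cast hq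
  have h1 : ∀ t ∈ range q, ee ((n : ℝ) * ((t : ℝ) / q)) = (ee ((n : ℝ) / q)) ^ t := by
    intro t _
    rw [ee_pow]; congr 1; field_simp
  rw [sum_congr rfl h1]
  have hz : ee ((n : ℝ) / q) ≠ 1 := by
    intro h
    obtain ⟨k, hk⟩ := ee_eq_one h
    have h2 : (n : ℝ) = k * q := by
      rw [div_eq_iff hq'.ne'] at hk; exact hk
    have h3 : (n : ℤ) = k * q := by exact_mod_cast h2
    apply hn
    have : (q : ℤ) ∣ (n : ℤ) := ⟨k, by rw [h3]; ring⟩
    exact_mod_cast this
  have hzq : (ee ((n : ℝ) / q)) ^ q = 1 := by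
    rw [ee_pow]
    have : (q : ℝ) * ((n : ℝ) / q) = ((n : ℤ) : ℝ) := by push_cast; field_simp
    rw [this, ee_int]
  have := mul_geom_sum (ee ((n : ℝ) / q)) q
  rw [hzq, sub_self] at this
  rcases mul_eq_zero.1 this with h | h
  · exact absurd (sub_eq_zero.1 h) hz
  · exact h

/-- Exact multiples: every `q ≤ b^R` coprime to `b` has a nonzero multiple with base-`b` digits
`0,1` and at most `m*R` digits, once `m` is of logarithmic size in `R`. -/
theorem exists_multiple {b : ℕ} (hb : 2 ≤ b) {q R m : ℕ} (hq : 0 < q) (hcop : Nat.Coprime q b)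
    (hqR : q ≤ b ^ R) (hm : 1 ≤ m)
    (hsmall : (m : ℝ) * ((1 + 2 * b * Real.cos (Real.pi / (2 * b)) ^ m) ^ R - 1) ≤ 1 / 2)
    (hbig : 2 * q < 2 ^ (m * R)) :
    ∃ F ⊆ range (m * R), F.Nonempty ∧ q ∣ ∑ j ∈ F, b ^ j := by
  by_contra hno
  push Not at hno
  have hq' : (0 : ℝ) < q := by exact_mod_cast hq
  have hb' : (0 : ℝ) < b := by positivity
  set D := m * R with hD
  set Z : ℂ := ∑ t ∈ range q, ∏ j ∈ range D, (1 + ee ((b : ℝ) ^ j * ((t : ℝ) / q))) with hZ
  have hZ1 : Z = q := by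
    have : Z = ∑ F ∈ (range D).powerset, ∑ t ∈ range q,
        ee ((∑ j ∈ F, (b : ℝ) ^ j) * ((t : ℝ) / q)) := by
      rw [hZ, sum_comm]
      apply sum_congr rfl
      intro t _
      exact prod_one_add_ee b D _
    rw [this, ← Finset.add_sum_erase _ _ (Finset.empty_mem_powerset (range D))]
    have h0 : ∑ F ∈ (range D).powerset.erase ∅, ∑ t ∈ range q,
        ee ((∑ j ∈ F, (b : ℝ) ^ j) * ((t : ℝ) / q)) = 0 := by
      apply sum_eq_zero
      intro F hF
      rw [Finset.mem_erase, Finset.mem_powerset] at hF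
      have h1 := geom_zero hq (hno F hF.2 (Finset.nonempty_iff_ne_empty.2 hF.1))
      push_cast at h1
      exact h1
    rw [h0, add_zero]
    simp [ee_zero]
  have hlow : (2 : ℝ) ^ D / 2 ≤ ‖Z‖ := by
    have hmem : (0 : ℕ) ∈ range q := mem_range.2 hq
    rw [hZ, ← Finset.add_sum_erase _ _ hmem]
    have h0 : ∏ j ∈ range D, (1 + ee ((b : ℝ) ^ j * (((0 : ℕ) : ℝ) / q))) = ((2 ^ D : ℝ) : ℂ) := by
      simp [ee_zero]
      norm_num
    rw [h0]
    have h1 : ‖∑ t ∈ (range q).erase 0, ∏ j ∈ range D, (1 + ee ((b : ℝ) ^ j * ((t : ℝ) / q)))‖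
        ≤ 2 ^ D / 2 := by
      refine (norm_sum_le _ _).trans ?_
      have h2 : ∀ t ∈ (range q).erase 0,
          ‖∏ j ∈ range D, (1 + ee ((b : ℝ) ^ j * ((t : ℝ) / q)))‖
          = 2 ^ D * ∏ j ∈ range D, G ((b : ℝ) ^ j * ((t : ℝ) / q)) :=
        fun t _ => norm_prod_one_add b D _
      rw [sum_congr rfl h2, ← mul_sum]
      have h3 := windows hb hm (range q) (fun t : ℕ => (t : ℝ) / q) 0 hmem (by simp)
        (R := R) (by
          intro l _ t ht s hs hne k
          rw [mem_range] at ht hs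
          have e : (b : ℝ) ^ (l * R) * ((t : ℝ) / q - (s : ℝ) / q) - k
              = (((b : ℤ) ^ (l * R) * ((t : ℤ) - s) - k * q : ℤ) : ℝ) / q := by
            push_cast; field_simp
          rw [e, abs_div, abs_of_pos hq']
          have hne0 : (b : ℤ) ^ (l * R) * ((t : ℤ) - s) - k * q ≠ 0 := by
            intro h
            have hdvd : (q : ℤ) ∣ (b : ℤ) ^ (l * R) * ((t : ℤ) - s) := ⟨k, by linarith⟩
            have hcop' : IsCoprime (q : ℤ) ((b : ℤ) ^ (l * R)) :=
              (Nat.isCoprime_iff_coprime.2 hcop).pow_right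
            have hdvd2 : (q : ℤ) ∣ ((t : ℤ) - s) := hcop'.dvd_of_dvd_mul_left hdvd
            have h5 : ((t : ℤ) - s) = 0 := by
              apply Int.eq_zero_of_abs_lt_dvd hdvd2
              rw [abs_lt]; constructor <;> omega
            omega
          have h6 : (1 : ℝ) ≤ |(((b : ℤ) ^ (l * R) * ((t : ℤ) - s) - k * q : ℤ) : ℝ)| := by
            have := Int.one_le_abs hne0
            exact_mod_cast this
          have h7 : (q : ℝ) ≤ (b : ℝ) ^ R := by exact_mod_cast hqR
          calc 1 / (b : ℝ) ^ R ≤ 1 / q := one_div_le_one_div_of_le hq' h7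
            _ ≤ _ := div_le_div_of_nonneg_right h6 hq'.le)
      calc (2 : ℝ) ^ D * ∑ t ∈ (range q).erase 0, ∏ j ∈ range D, G ((b : ℝ) ^ j * ((t : ℝ) / q))
          ≤ 2 ^ D * (1 / 2) := by
            apply mul_le_mul_of_nonneg_left _ (by positivity)
            exact h3.trans hsmall
        _ = 2 ^ D / 2 := by ring
    have h2 : ‖((2 ^ D : ℝ) : ℂ)‖ = 2 ^ D := by
      rw [Complex.norm_real]
      exact abs_of_pos (by positivity)
    have h3 := norm_sub_le_norm_add ((2 ^ D : ℝ) : ℂ)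
      (∑ t ∈ (range q).erase 0, ∏ j ∈ range D, (1 + ee ((b : ℝ) ^ j * ((t : ℝ) / q))))
    rw [h2] at h3
    linarith
  rw [hZ1] at hlow
  have h1 : ‖(q : ℂ)‖ = q := by simp
  rw [h1] at hlow
  have h2 : (2 : ℝ) * q < 2 ^ D := by exact_mod_cast hbig
  linarith

theorem conj_ee (x : ℝ) : (starRingEnd ℂ) (ee x) = ee (-x) := by
  unfold ee
  rw [← Complex.exp_conj]
  congr 1
  rw [map_mul, Complex.conj_ofReal, Complex.conj_I]
  push_cast; ring

theorem ee_add_int (x : ℝ) (k : ℤ) : ee (x + k) = ee x := by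
  rw [ee_add, ee_int, mul_one]

theorem norm_ee_sub_one (x : ℝ) : ‖ee x - 1‖ = 2 * |Real.sin (Real.pi * x)| := by
  have h : ee x - 1 = (2 * Real.sin (Real.pi * x) : ℝ) * Complex.I *
      Complex.exp ((Real.pi * x : ℝ) * Complex.I) := by
    unfold ee
    push_cast
    rw [Complex.sin]
    have h1 : Complex.exp (2 * (Real.pi : ℂ) * x * Complex.I)
        = Complex.exp ((Real.pi : ℂ) * x * Complex.I) * Complex.exp ((Real.pi : ℂ) * x * Complex.I) := by
      rw [← Complex.exp_add]; congr 1; ring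
    have h2 : (1 : ℂ) = Complex.exp (-((Real.pi : ℂ) * x) * Complex.I) *
        Complex.exp ((Real.pi : ℂ) * x * Complex.I) := by
      rw [← Complex.exp_add]
      have : -((Real.pi : ℂ) * x) * Complex.I + (Real.pi : ℂ) * x * Complex.I = 0 := by ring
      rw [this, Complex.exp_zero]
    rw [h1]
    have hI : Complex.I * Complex.I = -1 := Complex.I_mul_I
    linear_combination (-(Complex.exp (-((Real.pi : ℂ) * x) * Complex.I) -
      Complex.exp ((Real.pi : ℂ) * x * Complex.I)) * Complex.exp ((Real.pi : ℂ) * x * Complex.I)) * hI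
      - h2
  rw [h, norm_mul, norm_mul, Complex.norm_exp_ofReal_mul_I, mul_one, Complex.norm_real,
    Complex.norm_I, mul_one, Real.norm_eq_abs, abs_mul, abs_of_pos (by norm_num : (0 : ℝ) < 2)]

theorem norm_ee_sub_one_ge {x δ : ℝ} (h : ∀ k : ℤ, δ ≤ |x - k|) :
    4 * δ ≤ ‖ee x - 1‖ := by
  have e : ee x = ee (x - round x) := by
    have := ee_add_int (x - round x) (round x)
    rw [sub_add_cancel] at this
    exact this
  rw [e, norm_ee_sub_one]
  have h1 := h (round x)
  have h2 := abs_sub_round x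
  set y := x - round x with hy
  have h3 : |Real.sin (Real.pi * y)| = Real.sin (Real.pi * |y|) := by
    rcases le_total 0 y with h0 | h0
    · rw [abs_of_nonneg h0, abs_of_nonneg]
      apply Real.sin_nonneg_of_nonneg_of_le_pi
      · have := Real.pi_pos; positivity
      · rw [abs_of_nonneg h0] at h2
        nlinarith [Real.pi_pos]
    · rw [abs_of_nonpos h0]
      have : Real.pi * -y = -(Real.pi * y) := by ring
      rw [this, Real.sin_neg, abs_of_nonpos]
      rw [← neg_nonneg, ← Real.sin_neg, ← this]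
      apply Real.sin_nonneg_of_nonneg_of_le_pi
      · have := Real.pi_pos; have : 0 ≤ -y := by linarith
        positivity
      · rw [abs_of_nonpos h0] at h2
        nlinarith [Real.pi_pos]
  rw [h3]
  have h4 := Real.mul_le_sin (x := Real.pi * |y|) (by have := Real.pi_pos; positivity) (by
    nlinarith [Real.pi_pos])
  have h5 : 2 / Real.pi * (Real.pi * |y|) = 2 * |y| := by
    have := Real.pi_pos.ne'
    field_simp
  rw [h5] at h4
  linarith

theorem norm_geom_le {x δ : ℝ} (hδ : 0 < δ) (h : ∀ k : ℤ, δ ≤ |x - k|) (S : ℕ) :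
    ‖∑ s ∈ range S, ee (s * x)‖ ≤ 1 / (2 * δ) := by
  have h1 : ∀ s ∈ range S, ee ((s : ℝ) * x) = (ee x) ^ s := by
    intro s _
    rw [ee_pow]
  rw [sum_congr rfl h1]
  have h2 := mul_geom_sum (ee x) S
  have h3 := norm_ee_sub_one_ge h
  have h4 : ‖ee x ^ S - 1‖ ≤ 2 := by
    calc ‖ee x ^ S - 1‖ ≤ ‖ee x ^ S‖ + ‖(1 : ℂ)‖ := norm_sub_le _ _
      _ = 2 := by rw [norm_pow, norm_ee]; norm_num
  have h5 : ‖ee x - 1‖ * ‖∑ i ∈ range S, ee x ^ i‖ ≤ 2 := by
    rw [← norm_mul, h2]; exact h4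
  rw [le_div_iff₀ (by positivity)]
  nlinarith [norm_nonneg (∑ i ∈ range S, ee x ^ i)]

/-- The generic real case. -/
theorem exists_small {b : ℕ} (hb : 2 ≤ b) {S R m : ℕ} {θ δ : ℝ} (hS : 0 < S) (hδ : 0 < δ)
    (hSδ : 1 ≤ (S : ℝ) * δ ^ 2) (hm : 1 ≤ m)
    (hsmall : (m : ℝ) * ((1 + 2 * b * Real.cos (Real.pi / (2 * b)) ^ m) ^ R - 1) ≤ 1 / 2)
    (hbig : 4 * S < 2 ^ (m * R))
    (hsep : ∀ l < m, ∀ s : ℕ, 0 < s → s < S → ∀ k : ℤ,
      1 / (b : ℝ) ^ R ≤ |(b : ℝ) ^ (l * R) * (s * θ) - k|) :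
    ∃ F ⊆ range (m * R), F.Nonempty ∧ ∃ k : ℤ, |(∑ j ∈ F, (b : ℝ) ^ j) * θ - k| ≤ δ := by
  by_contra hno
  push Not at hno
  set D := m * R with hD
  set N : Finset ℕ → ℝ := fun F => ∑ j ∈ F, (b : ℝ) ^ j with hN
  set K : ℝ := ∑ F ∈ (range D).powerset, ‖∑ s ∈ range S, ee (s * (N F * θ))‖ ^ 2 with hK
  have hSpos : (0 : ℝ) < S := by exact_mod_cast hS
  -- upper bound
  have hup : K ≤ S ^ 2 + 2 ^ D * (1 / (2 * δ)) ^ 2 := by
    rw [hK, ← Finset.add_sum_erase _ _ (Finset.empty_mem_powerset (range D))]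
    apply add_le_add
    · simp [hN, ee_zero]
    · calc ∑ F ∈ (range D).powerset.erase ∅, ‖∑ s ∈ range S, ee (s * (N F * θ))‖ ^ 2
          ≤ ∑ F ∈ (range D).powerset.erase ∅, (1 / (2 * δ)) ^ 2 := by
            apply sum_le_sum
            intro F hF
            rw [Finset.mem_erase, Finset.mem_powerset] at hF
            apply pow_le_pow_left₀ (norm_nonneg _)
            apply norm_geom_le hδ
            intro k
            exact (hno F hF.2 (Finset.nonempty_iff_ne_empty.2 hF.1) k).le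
        _ = (((range D).powerset.erase ∅).card : ℝ) * (1 / (2 * δ)) ^ 2 := by
            rw [sum_const, nsmul_eq_mul]
        _ ≤ 2 ^ D * (1 / (2 * δ)) ^ 2 := by
            apply mul_le_mul_of_nonneg_right _ (by positivity)
            have : ((range D).powerset.erase ∅).card ≤ 2 ^ D := by
              refine (Finset.card_erase_le).trans ?_
              rw [card_powerset, card_range]
            exact_mod_cast this
  -- lower bound
  have hKc : (K : ℂ) = ∑ s ∈ range S, ∑ s' ∈ range S,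
      ∏ j ∈ range D, (1 + ee ((b : ℝ) ^ j * (((s : ℝ) - s') * θ))) := by
    rw [hK]
    push_cast
    have h1 : ∀ F ∈ (range D).powerset, (‖∑ s ∈ range S, ee (s * (N F * θ))‖ : ℂ) ^ 2
        = ∑ s ∈ range S, ∑ s' ∈ range S, ee (N F * (((s : ℝ) - s') * θ)) := by
      intro F _
      have h2 := Complex.mul_conj (∑ s ∈ range S, ee (s * (N F * θ)))
      rw [Complex.normSq_eq_norm_sq] at h2
      push_cast at h2
      rw [← h2, map_sum, sum_mul_sum]
      apply sum_congr rfl
      intro s _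
      apply sum_congr rfl
      intro s' _
      rw [conj_ee, ← ee_add]
      congr 1; ring
    rw [sum_congr rfl h1, sum_comm]
    apply sum_congr rfl
    intro s _
    rw [sum_comm]
    apply sum_congr rfl
    intro s' _
    rw [prod_one_add_ee]
  have hlow : (S : ℝ) * 2 ^ D / 2 ≤ K := by
    have hdiag : ∀ s ∈ range S, ‖(∑ s' ∈ range S,
        ∏ j ∈ range D, (1 + ee ((b : ℝ) ^ j * (((s : ℝ) - s') * θ)))) - 2 ^ D‖ ≤ 2 ^ D / 2 := by
      intro s hs
      rw [← Finset.add_sum_erase _ _ hs]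
      have h0 : ∏ j ∈ range D, (1 + ee ((b : ℝ) ^ j * (((s : ℝ) - s) * θ))) = (2 : ℂ) ^ D := by
        simp [ee_zero]
        norm_num
      rw [h0, add_sub_cancel_left]
      refine (norm_sum_le _ _).trans ?_
      have h2 : ∀ s' ∈ (range S).erase s,
          ‖∏ j ∈ range D, (1 + ee ((b : ℝ) ^ j * (((s : ℝ) - s') * θ)))‖
          = 2 ^ D * ∏ j ∈ range D, G ((b : ℝ) ^ j * (((s : ℝ) - s') * θ)) :=
        fun s' _ => norm_prod_one_add b D _
      rw [sum_congr rfl h2, ← mul_sum]
      have h3 := windows hb hm (range S) (fun s' : ℕ => ((s : ℝ) - s') * θ) s hs (by simp)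
        (R := R) (by
          intro l hl t ht t' ht' hne k
          rw [mem_range] at ht ht'
          rcases lt_or_gt_of_ne hne with h | h
          · have := hsep l hl (t' - t) (by omega) (by omega) k
            rw [Nat.cast_sub h.le] at this
            have e : (b : ℝ) ^ (l * R) * (((s : ℝ) - t) * θ - ((s : ℝ) - t') * θ) - k
                = (b : ℝ) ^ (l * R) * (((t' : ℝ) - t) * θ) - k := by ring
            rw [e]; exact this
          · have := hsep l hl (t - t') (by omega) (by omega) (-k)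
            rw [Nat.cast_sub h.le] at this
            have e : (b : ℝ) ^ (l * R) * (((s : ℝ) - t) * θ - ((s : ℝ) - t') * θ) - k
                = -((b : ℝ) ^ (l * R) * (((t : ℝ) - t') * θ) - ((-k : ℤ) : ℝ)) := by
              push_cast; ring
            rw [e, abs_neg]; exact this)
      calc (2 : ℝ) ^ D * ∑ s' ∈ (range S).erase s,
            ∏ j ∈ range D, G ((b : ℝ) ^ j * (((s : ℝ) - s') * θ))
          ≤ 2 ^ D * (1 / 2) := by
            apply mul_le_mul_of_nonneg_left _ (by positivity)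
            exact h3.trans hsmall
        _ = 2 ^ D / 2 := by ring
    have h1 : ‖(K : ℂ) - S * 2 ^ D‖ ≤ S * (2 ^ D / 2) := by
      rw [hKc]
      have e : (S : ℂ) * 2 ^ D = ∑ s ∈ range S, (2 : ℂ) ^ D := by
        rw [sum_const, card_range, nsmul_eq_mul]
      rw [e, ← sum_sub_distrib]
      refine (norm_sum_le _ _).trans ?_
      refine (sum_le_sum hdiag).trans ?_
      rw [sum_const, card_range, nsmul_eq_mul]
    have h2 : ‖(K : ℂ) - S * 2 ^ D‖ = |K - S * 2 ^ D| := by
      rw [← Real.norm_eq_abs, ← Complex.norm_real]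
      push_cast; rfl
    rw [h2, abs_le] at h1
    linarith [h1.1]
  -- contradiction
  have h1 : (1 / (2 * δ)) ^ 2 ≤ S / 4 := by
    rw [div_pow, one_pow, div_le_div_iff₀ (by positivity) (by norm_num)]
    nlinarith
  have h2 : (2 : ℝ) ^ D * (1 / (2 * δ)) ^ 2 ≤ 2 ^ D * (S / 4) :=
    mul_le_mul_of_nonneg_left h1 (by positivity)
  have h3 : (S : ℝ) * 2 ^ D / 4 ≤ S ^ 2 := by linarith
  have h4 : (4 : ℝ) * S < 2 ^ D := by exact_mod_cast hbig
  nlinarith

/-- every `s > 0` divides `b^v * s'` with `s' ∣ s` coprime to `b` and `v ≤ log₂ s`. -/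
theorem split_coprime (b : ℕ) : ∀ s : ℕ, 0 < s →
    ∃ v s' : ℕ, v ≤ Nat.log 2 s ∧ s' ∣ s ∧ Nat.Coprime s' b ∧ s ∣ b ^ v * s' := by
  intro s
  induction s using Nat.strong_induction_on with
  | _ s ih =>
    intro hs
    by_cases hc : Nat.Coprime s b
    · exact ⟨0, s, Nat.zero_le _, dvd_rfl, hc, by simp⟩
    · set g := Nat.gcd s b with hg
      have hg1 : g ≠ 1 := hc
      have hg0 : 0 < g := Nat.gcd_pos_of_pos_left _ hs
      have hg2 : 2 ≤ g := by omega
      obtain ⟨s1, hs1⟩ := Nat.gcd_dvd_left s b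
      rw [← hg] at hs1
      have hs1pos : 0 < s1 := by
        rcases Nat.eq_zero_or_pos s1 with h | h
        · rw [h, mul_zero] at hs1; omega
        · exact h
      have hlt : s1 < s := by
        rw [hs1]; nlinarith
      obtain ⟨v, s', hv, hd, hcop, hdvd⟩ := ih s1 hlt hs1pos
      refine ⟨v + 1, s', ?_, ?_, hcop, ?_⟩
      · have h1 : s1 * 2 ≤ s := by rw [hs1]; nlinarith
        have h2 : Nat.log 2 (s1 * 2) ≤ Nat.log 2 s := Nat.log_mono_right h1
        rw [Nat.log_mul_base (by norm_num) hs1pos.ne'] at h2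
        omega
      · rw [hs1]; exact Dvd.dvd.mul_left hd g
      · have hgb : g ∣ b := Nat.gcd_dvd_right s b
        have : g * s1 ∣ b * (b ^ v * s') := mul_dvd_mul hgb hdvd
        rw [← hs1] at this
        have e : b * (b ^ v * s') = b ^ (v + 1) * s' := by ring
        rw [e] at this
        exact this

/-- Dichotomy: the main finite statement. -/
theorem main_finite {b : ℕ} (hb : 2 ≤ b) {k m1 m R : ℕ} (hk : 1 ≤ k) (hm1 : b + 1 ≤ m1)
    (hm : 1 ≤ m) (hR : 2 * k * b + m1 * (2 * k) + k ≤ R)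
    (hsmall1 : (m1 : ℝ) * ((1 + 2 * b * Real.cos (Real.pi / (2 * b)) ^ m1) ^ (2 * k) - 1) ≤ 1 / 2)
    (hsmall : (m : ℝ) * ((1 + 2 * b * Real.cos (Real.pi / (2 * b)) ^ m) ^ R - 1) ≤ 1 / 2)
    (θ : ℝ) :
    ∃ F ⊆ range (m * R), F.Nonempty ∧
      ∃ z : ℤ, |(∑ j ∈ F, (b : ℝ) ^ j) * θ - z| ≤ 1 / (b : ℝ) ^ k := by
  have hb0 : 0 < b := by omega
  have hb' : (0 : ℝ) < b := by positivity
  have hbpow : b ^ (2 * k) ≤ 2 ^ (2 * k * b) := by
    calc b ^ (2 * k) ≤ (2 ^ b) ^ (2 * k) := Nat.pow_le_pow_left (Nat.lt_two_pow_self).le _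
      _ = 2 ^ (2 * k * b) := by rw [← pow_mul]; congr 1; ring
  by_cases hsep : ∀ l < m, ∀ s : ℕ, 0 < s → s < b ^ (2 * k) → ∀ z : ℤ,
      1 / (b : ℝ) ^ R ≤ |(b : ℝ) ^ (l * R) * (s * θ) - z|
  · apply exists_small hb (S := b ^ (2 * k)) (by positivity) (by positivity) _ hm hsmall _ hsep
    · push_cast
      rw [div_pow, one_pow, ← pow_mul, mul_comm k 2]
      rw [mul_one_div, div_self (by positivity)]
    · calc 4 * b ^ (2 * k) ≤ 2 ^ 2 * 2 ^ (2 * k * b) := by
            have := hbpow; omega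
        _ = 2 ^ (2 + 2 * k * b) := by rw [← pow_add]
        _ < 2 ^ (m * R) := by
            apply Nat.pow_lt_pow_right (by norm_num)
            have h1 : R ≤ m * R := Nat.le_mul_of_pos_left R (by omega)
            have h2 : 3 ≤ m1 := by omega
            have h3 : 3 * (2 * 1) ≤ m1 * (2 * k) := by
              apply Nat.mul_le_mul h2; omega
            omega
  · push Not at hsep
    obtain ⟨l, hl, s, hs0, hsS, z, hz⟩ := hsep
    obtain ⟨v, s', hv, hd, hcop, hdvd⟩ := split_coprime b s hs0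
    have hs'0 : 0 < s' := Nat.pos_of_dvd_of_pos hd hs0
    have hs'le : s' ≤ b ^ (2 * k) := (Nat.le_of_dvd hs0 hd).trans hsS.le
    have hvle : v ≤ 2 * k * b := by
      have h1 : Nat.log 2 s ≤ Nat.log 2 (2 ^ (2 * k * b)) :=
        Nat.log_mono_right (hsS.le.trans hbpow)
      rw [Nat.log_pow (by norm_num)] at h1
      omega
    have hbig1 : 2 * s' < 2 ^ (m1 * (2 * k)) := by
      calc 2 * s' ≤ 2 * 2 ^ (2 * k * b) := by
            have := hs'le.trans hbpow; omega
        _ = 2 ^ (1 + 2 * k * b) := by rw [pow_add, pow_one]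
        _ < 2 ^ (m1 * (2 * k)) := by
            apply Nat.pow_lt_pow_right (by norm_num)
            have h3 : (b + 1) * (2 * k) ≤ m1 * (2 * k) := Nat.mul_le_mul_right _ hm1
            have h4 : (b + 1) * (2 * k) = 2 * k * b + 2 * k := by ring
            omega
    obtain ⟨F1, hF1, hF1ne, hF1dvd⟩ := exists_multiple hb hs'0 hcop hs'le (by omega) hsmall1 hbig1
    set n1 := ∑ j ∈ F1, b ^ j with hn1
    have hn1lt : n1 < b ^ (m1 * (2 * k)) := by
      apply Nat.geomSum_lt hb
      intro j hj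
      exact mem_range.1 (hF1 hj)
    obtain ⟨c, hc⟩ : s ∣ b ^ v * n1 := hdvd.trans (Nat.mul_dvd_mul_left _ hF1dvd)
    have hcle : c ≤ b ^ (v + m1 * (2 * k)) := by
      calc c ≤ s * c := Nat.le_mul_of_pos_left c hs0
        _ = b ^ v * n1 := hc.symm
        _ ≤ b ^ v * b ^ (m1 * (2 * k)) := Nat.mul_le_mul_left _ hn1lt.le
        _ = b ^ (v + m1 * (2 * k)) := by rw [← pow_add]
    refine ⟨F1.map (addLeftEmbedding (l * R + v)), ?_, ?_, c * z, ?_⟩
    · intro j hj
      rw [Finset.mem_map] at hj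
      obtain ⟨i, hi, rfl⟩ := hj
      have hi' := mem_range.1 (hF1 hi)
      rw [mem_range, addLeftEmbedding_apply]
      have h1 : (l + 1) * R ≤ m * R := Nat.mul_le_mul_right _ hl
      have h2 : (l + 1) * R = l * R + R := by ring
      omega
    · simpa using hF1ne
    · rw [Finset.sum_map]
      simp only [addLeftEmbedding_apply]
      have e1 : ∑ j ∈ F1, (b : ℝ) ^ (l * R + v + j) = (b : ℝ) ^ (l * R) * (s * c) := by
        have h1 : ((b ^ v * n1 : ℕ) : ℝ) = ((s * c : ℕ) : ℝ) := by rw [hc]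
        push_cast at h1
        rw [← h1, hn1]
        push_cast
        rw [mul_sum, mul_sum]
        apply sum_congr rfl
        intro j _
        rw [pow_add, pow_add]; ring
      rw [e1]
      have e2 : (b : ℝ) ^ (l * R) * (s * c) * θ - ((c * z : ℤ) : ℝ)
          = c * ((b : ℝ) ^ (l * R) * (s * θ) - z) := by
        push_cast; ring
      rw [e2, abs_mul, abs_of_nonneg (Nat.cast_nonneg c)]
      calc (c : ℝ) * |(b : ℝ) ^ (l * R) * (s * θ) - z|
          ≤ (b : ℝ) ^ (v + m1 * (2 * k)) * (1 / (b : ℝ) ^ R) := by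
            apply mul_le_mul _ hz.le (abs_nonneg _) (by positivity)
            exact_mod_cast hcle
        _ ≤ 1 / (b : ℝ) ^ k := by
            rw [mul_one_div, div_le_div_iff₀ (by positivity) (by positivity), one_mul, ← pow_add]
            apply pow_le_pow_right₀
            · exact_mod_cast hb0
            · omega

theorem small_of {b n m : ℕ} {r : ℝ} (hb : 1 ≤ b) (hm : 1 ≤ m) (hr : 0 ≤ r)
    (h : 8 * (b : ℝ) * n * m * r ^ m ≤ 1) :
    (m : ℝ) * ((1 + 2 * b * r ^ m) ^ n - 1) ≤ 1 / 2 := by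
  have hb' : (1 : ℝ) ≤ b := by exact_mod_cast hb
  have hm' : (1 : ℝ) ≤ m := by exact_mod_cast hm
  have hrm : 0 ≤ r ^ m := pow_nonneg hr m
  set y : ℝ := n * (2 * b * r ^ m) with hy
  have hy0 : 0 ≤ y := by positivity
  have hmy : 4 * (m * y) ≤ 1 := by
    have : 4 * (m * y) = 8 * (b : ℝ) * n * m * r ^ m := by rw [hy]; ring
    rw [this]; exact h
  have hy1 : y ≤ 1 := by nlinarith
  have h1 : (1 + 2 * b * r ^ m) ^ n ≤ Real.exp y := by
    have h2 : 1 + 2 * b * r ^ m ≤ Real.exp (2 * b * r ^ m) := by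
      have := Real.add_one_le_exp (2 * b * r ^ m); linarith
    calc (1 + 2 * b * r ^ m) ^ n ≤ (Real.exp (2 * b * r ^ m)) ^ n :=
          pow_le_pow_left₀ (by positivity) h2 n
      _ = Real.exp y := by rw [← Real.exp_nat_mul]
  have h3 : Real.exp y - 1 ≤ 2 * y := by
    have := Real.abs_exp_sub_one_le (x := y) (by rw [abs_of_nonneg hy0]; exact hy1)
    rw [abs_of_nonneg hy0] at this
    exact (le_abs_self _).trans this
  calc (m : ℝ) * ((1 + 2 * b * r ^ m) ^ n - 1) ≤ m * (2 * y) := by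
        apply mul_le_mul_of_nonneg_left _ (by positivity); linarith
    _ ≤ 1 / 2 := by nlinarith

theorem cos_bounds {b : ℕ} (hb : 2 ≤ b) :
    0 ≤ Real.cos (Real.pi / (2 * b)) ∧ Real.cos (Real.pi / (2 * b)) < 1 := by
  have hb2 : (2 : ℝ) ≤ b := by exact_mod_cast hb
  have hpi := Real.pi_pos
  have h1 : 0 < Real.pi / (2 * b) := by positivity
  have h2 : Real.pi / (2 * b) ≤ Real.pi / 2 := by
    apply div_le_div_of_nonneg_left hpi.le (by norm_num); linarith
  constructor
  · apply Real.cos_nonneg_of_neg_pi_div_two_le_of_le <;> linarith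
  · have := Real.cos_lt_cos_of_nonneg_of_le_pi (x := 0) (y := Real.pi / (2 * b)) le_rfl
      (by linarith) h1
    simpa using this

theorem exists_A {b : ℕ} (hb : 2 ≤ b) : ∃ A : ℕ, b + 1 ≤ A ∧
    64 * (b : ℝ) * A * (2 * b + 2 * A + 1) * Real.cos (Real.pi / (2 * b)) ^ A ≤ 1 := by
  obtain ⟨h0, h1⟩ := cos_bounds hb
  set r := Real.cos (Real.pi / (2 * b)) with hr
  have hb2 : (2 : ℝ) ≤ b := by exact_mod_cast hb
  have ht := tendsto_pow_const_mul_const_pow_of_abs_lt_one 2 (r := r) (by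
    rw [abs_of_nonneg h0]; exact h1)
  have hpos : (0 : ℝ) < 1 / (64 * b * (2 * b + 3)) := by positivity
  have hev : ∀ᶠ n : ℕ in atTop, (n : ℝ) ^ 2 * r ^ n < 1 / (64 * b * (2 * b + 3)) :=
    ht.eventually_lt_const hpos
  obtain ⟨A, hA, hAb⟩ := (hev.and (eventually_ge_atTop (b + 1))).exists
  refine ⟨A, hAb, ?_⟩
  have hA1 : (1 : ℝ) ≤ A := by exact_mod_cast (by omega : 1 ≤ A)
  have hrA : 0 ≤ r ^ A := pow_nonneg h0 A
  rw [lt_div_iff₀ (by positivity)] at hA
  have h3 : 2 * (b : ℝ) + 2 * A + 1 ≤ (2 * b + 3) * A := by nlinarith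
  calc 64 * (b : ℝ) * A * (2 * b + 2 * A + 1) * r ^ A
      ≤ 64 * (b : ℝ) * A * ((2 * b + 3) * A) * r ^ A := by
        apply mul_le_mul_of_nonneg_right _ hrA
        apply mul_le_mul_of_nonneg_left h3 (by positivity)
    _ = (A : ℝ) ^ 2 * r ^ A * (64 * b * (2 * b + 3)) := by ring
    _ ≤ 1 := hA.le

/-- Integer form of the near-power bound. -/
theorem main_int {b : ℕ} (hb : 2 ≤ b) : ∃ B : ℕ, 1 ≤ B ∧ ∀ k : ℕ, 1 ≤ k → ∀ θ : ℝ,
    ∃ F ⊆ range (B * (k * (Nat.log 2 k + 1) ^ 2)), F.Nonempty ∧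
      ∃ z : ℤ, |(∑ j ∈ F, (b : ℝ) ^ j) * θ - z| ≤ 1 / (b : ℝ) ^ k := by
  obtain ⟨A, hAb, hA⟩ := exists_A hb
  obtain ⟨h0, h1⟩ := cos_bounds hb
  set r := Real.cos (Real.pi / (2 * b)) with hr
  have hb2 : (2 : ℝ) ≤ b := by exact_mod_cast hb
  have hA1 : (1 : ℝ) ≤ A := by exact_mod_cast (by omega : 1 ≤ A)
  refine ⟨A * (2 * b + 2 * A + 1), ?_, ?_⟩
  · have : 0 < A * (2 * b + 2 * A + 1) := by
      apply Nat.mul_pos <;> omega
    omega
  intro k hk θ
  set L := Nat.log 2 k + 1 with hL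
  have hL1 : 1 ≤ L := by omega
  have hkL : k < 2 ^ L := Nat.lt_pow_succ_log_self (by norm_num) k
  set m := A * L with hm
  set R := k * ((2 * b + 2 * A + 1) * L) with hR
  have hm1 : b + 1 ≤ m := by
    calc b + 1 ≤ A := hAb
      _ ≤ A * L := Nat.le_mul_of_pos_right A (by omega)
  have hRge : 2 * k * b + m * (2 * k) + k ≤ R := by
    have e : 2 * k * b + m * (2 * k) + k = k * (2 * b + 2 * A * L + 1) := by rw [hm]; ring
    rw [e, hR]
    apply Nat.mul_le_mul_left
    nlinarith
  -- real inequality for R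
  have hLr : (1 : ℝ) ≤ L := by exact_mod_cast hL1
  have hkLr : (k : ℝ) ≤ 2 ^ L := by exact_mod_cast hkL.le
  have hLL : (L : ℝ) ≤ 2 ^ L := by exact_mod_cast (Nat.lt_two_pow_self (n := L)).le
  have hrA : 0 ≤ r ^ A := pow_nonneg h0 A
  have h8 : 8 * r ^ A ≤ 1 := by
    have h9 : (1 : ℝ) ≤ b * A * (2 * b + 2 * A + 1) := by
      have : (1 : ℝ) ≤ b * A := by nlinarith
      have h10 : (1 : ℝ) ≤ 2 * b + 2 * A + 1 := by linarith
      nlinarith
    have h11 : 64 * (b : ℝ) * A * (2 * b + 2 * A + 1) * r ^ A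
        = 64 * (b * A * (2 * b + 2 * A + 1)) * r ^ A := by ring
    rw [h11] at hA
    nlinarith
  have hkey : 8 * (b : ℝ) * R * m * r ^ m ≤ 1 := by
    have e1 : r ^ m = (r ^ A) ^ L := by rw [hm, pow_mul]
    have e2 : (R : ℝ) = k * ((2 * b + 2 * A + 1) * L) := by rw [hR]; push_cast; ring
    have e3 : (m : ℝ) = A * L := by rw [hm]; push_cast; ring
    rw [e1, e2, e3]
    have h12 : (k : ℝ) * L * L ≤ 8 ^ L := by
      calc (k : ℝ) * L * L ≤ 2 ^ L * 2 ^ L * 2 ^ L := by
            apply mul_le_mul _ hLL (by positivity) (by positivity)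
            apply mul_le_mul hkLr hLL (by positivity) (by positivity)
        _ = 8 ^ L := by rw [← mul_pow, ← mul_pow]; norm_num
    have h13 : (8 * r ^ A) ^ L ≤ 8 * r ^ A := by
      calc (8 * r ^ A) ^ L ≤ (8 * r ^ A) ^ 1 :=
            pow_le_pow_of_le_one (by positivity) h8 hL1
        _ = 8 * r ^ A := pow_one _
    calc 8 * (b : ℝ) * (k * ((2 * b + 2 * A + 1) * L)) * (A * L) * (r ^ A) ^ L
        = 8 * b * A * (2 * b + 2 * A + 1) * ((k * L * L) * (r ^ A) ^ L) := by ring
      _ ≤ 8 * b * A * (2 * b + 2 * A + 1) * (8 ^ L * (r ^ A) ^ L) := by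
          apply mul_le_mul_of_nonneg_left _ (by positivity)
          apply mul_le_mul_of_nonneg_right h12 (by positivity)
      _ = 8 * b * A * (2 * b + 2 * A + 1) * (8 * r ^ A) ^ L := by rw [mul_pow]
      _ ≤ 8 * b * A * (2 * b + 2 * A + 1) * (8 * r ^ A) := by
          apply mul_le_mul_of_nonneg_left h13 (by positivity)
      _ = 64 * (b : ℝ) * A * (2 * b + 2 * A + 1) * r ^ A := by ring
      _ ≤ 1 := hA
  have hkey1 : 8 * (b : ℝ) * ((2 * k : ℕ) : ℝ) * m * r ^ m ≤ 1 := by
    refine le_trans ?_ hkey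
    apply mul_le_mul_of_nonneg_right _ (by positivity)
    apply mul_le_mul_of_nonneg_right _ (by positivity)
    apply mul_le_mul_of_nonneg_left _ (by positivity)
    have : 2 * k ≤ R := by
      have : m * (2 * k) ≤ R := by omega
      have h2 : 2 * k ≤ m * (2 * k) := Nat.le_mul_of_pos_left _ (by omega)
      omega
    exact_mod_cast this
  have hres := main_finite hb hk hm1 (by omega : 1 ≤ m) hRge
    (small_of (by omega) (by omega) h0 hkey1) (small_of (by omega) (by omega) h0 hkey) θ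
  have e : m * R = A * (2 * b + 2 * A + 1) * (k * L ^ 2) := by rw [hm, hR]; ring
  rw [e] at hres
  exact hres

/-- Near-power saving for digit-restricted multipliers: for every base `b ≥ 2` there are constants
`c, C > 0` such that for every real `γ` and every integer `N ≥ 16` there is an integer `n` with
`1 ≤ n ≤ N` whose base-`b` expansion only uses the digits `0` and `1` (that is,
`n = ∑_{d ∈ F} b ^ d` for a nonempty finite set `F`), with
`‖γ n‖ ≤ C exp (-c log N / (log log N)^2)`. -/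
theorem result_proof (b : ℕ) (hb : 2 ≤ b) : ∃ c C : ℝ, 0 < c ∧ 0 < C ∧
    ∀ (γ : ℝ) (N : ℕ), 16 ≤ N → ∃ F : Finset ℕ, F.Nonempty ∧ ∑ d ∈ F, b ^ d ≤ N ∧
      |γ * ((∑ d ∈ F, b ^ d : ℕ) : ℝ) - round (γ * ((∑ d ∈ F, b ^ d : ℕ) : ℝ))|
        ≤ C * Real.exp (-c * (Real.log N / Real.log (Real.log N) ^ 2)) := by
  obtain ⟨B, hB1, hB⟩ := main_int hb
  have hb2 : (2 : ℝ) ≤ b := by exact_mod_cast hb
  have hb0 : (0 : ℝ) < b := by linarith
  have hB1' : (1 : ℝ) ≤ B := by exact_mod_cast hB1
  have hlogb : 0 < Real.log b := Real.log_pos (by linarith)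
  have hlog2 : Real.log 2 ≤ Real.log b := Real.log_le_log (by norm_num) hb2
  have hlog2lo := Real.log_two_gt_d9
  set c0 : ℝ := 1 / (9 * B * Real.log b) with hc0
  have hc0pos : 0 < c0 := by positivity
  have hc0le : c0 ≤ 1 := by
    rw [hc0, div_le_one (by positivity)]
    nlinarith
  refine ⟨c0 * Real.log b, b, by positivity, hb0, ?_⟩
  intro γ N hN
  set x := Real.log N with hx
  set y := Real.log x with hy
  have hN' : (16 : ℝ) ≤ N := by exact_mod_cast hN
  have hx16 : Real.log 16 ≤ x := Real.log_le_log (by norm_num) hN'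
  have h16 : Real.log 16 = 4 * Real.log 2 := by
    rw [show (16 : ℝ) = 2 ^ (4 : ℕ) by norm_num, Real.log_pow]; norm_num
  have hx277 : 2.77 ≤ x := by rw [h16] at hx16; linarith
  have hy1 : 1 ≤ y := by
    rw [hy, Real.le_log_iff_exp_le (by linarith)]
    have := Real.exp_one_lt_d9
    linarith
  have hx0 : 0 < x := by linarith
  have hy0 : 0 < y := by linarith
  set u := c0 * (x / y ^ 2) with hu
  have hu0 : 0 ≤ u := by positivity
  have hexp : Real.exp (-(c0 * Real.log b) * (x / y ^ 2)) = Real.exp (-(u * Real.log b)) := by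
    congr 1; rw [hu]; ring
  rw [hexp]
  by_cases hk : 1 ≤ ⌊u⌋₊
  · set k := ⌊u⌋₊ with hkdef
    obtain ⟨F, hF, hFne, z, hz⟩ := hB k hk γ
    refine ⟨F, hFne, ?_, ?_⟩
    · -- size
      have hlt : ∑ d ∈ F, b ^ d < b ^ (B * (k * (Nat.log 2 k + 1) ^ 2)) := by
        apply Nat.geomSum_lt hb
        intro j hj
        exact mem_range.1 (hF hj)
      have hkle : (k : ℝ) ≤ u := Nat.floor_le hu0
      have hkpos : (0 : ℝ) < k := by exact_mod_cast (by omega : 0 < k)
      have hkx : (k : ℝ) ≤ x := by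
        have h1 : x / y ^ 2 ≤ x := by
          apply div_le_self hx0.le
          nlinarith
        have h2 : u ≤ x := by
          rw [hu]
          calc c0 * (x / y ^ 2) ≤ 1 * (x / y ^ 2) := by
                apply mul_le_mul_of_nonneg_right hc0le (by positivity)
            _ ≤ x := by rw [one_mul]; exact h1
        linarith
      have hLk : ((Nat.log 2 k : ℕ) : ℝ) * Real.log 2 ≤ y := by
        have h1 : ((2 ^ Nat.log 2 k : ℕ) : ℝ) ≤ k := by
          exact_mod_cast Nat.pow_log_le_self 2 (by omega)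
        have h2 : Real.log ((2 ^ Nat.log 2 k : ℕ) : ℝ) ≤ Real.log x :=
          Real.log_le_log (by positivity) (h1.trans hkx)
        push_cast at h2
        rw [Real.log_pow] at h2
        exact h2
      have hL3 : ((Nat.log 2 k : ℕ) : ℝ) + 1 ≤ 3 * y := by
        have h3 : ((Nat.log 2 k : ℕ) : ℝ) ≤ 2 * y := by
          have : (0 : ℝ) ≤ ((Nat.log 2 k : ℕ) : ℝ) := by positivity
          nlinarith
        linarith
      have hexpo : ((B * (k * (Nat.log 2 k + 1) ^ 2) : ℕ) : ℝ) * Real.log b ≤ x := by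
        push_cast
        have h4 : (k : ℝ) * (((Nat.log 2 k : ℕ) : ℝ) + 1) ^ 2 ≤ u * (3 * y) ^ 2 := by
          apply mul_le_mul hkle _ (by positivity) hu0
          apply pow_le_pow_left₀ (by positivity) hL3
        have h5 : u * (3 * y) ^ 2 = 9 * c0 * x := by
          rw [hu]; field_simp; ring
        rw [h5] at h4
        calc (B : ℝ) * (k * (((Nat.log 2 k : ℕ) : ℝ) + 1) ^ 2) * Real.log b
            ≤ B * (9 * c0 * x) * Real.log b := by
              apply mul_le_mul_of_nonneg_right _ hlogb.le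
              apply mul_le_mul_of_nonneg_left h4 (by positivity)
          _ = x := by rw [hc0]; field_simp
      have hpow : ((b ^ (B * (k * (Nat.log 2 k + 1) ^ 2)) : ℕ) : ℝ) ≤ N := by
        have hNpos : (0 : ℝ) < N := by linarith
        rw [← Real.log_le_log_iff (by positivity) hNpos]
        push_cast
        rw [Real.log_pow]
        exact hexpo
      have hpow' : b ^ (B * (k * (Nat.log 2 k + 1) ^ 2)) ≤ N := by exact_mod_cast hpow
      omega
    · have h1 := round_le (γ * ((∑ d ∈ F, b ^ d : ℕ) : ℝ)) z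
      refine h1.trans ?_
      have h2 : γ * ((∑ d ∈ F, b ^ d : ℕ) : ℝ) - z = (∑ j ∈ F, (b : ℝ) ^ j) * γ - z := by
        push_cast; ring
      rw [h2]
      refine hz.trans ?_
      have h3 : 1 / (b : ℝ) ^ k = Real.exp (-(k * Real.log b)) := by
        rw [Real.exp_neg, Real.exp_nat_mul, Real.exp_log hb0, one_div]
      rw [h3]
      have h4 : (b : ℝ) * Real.exp (-(u * Real.log b)) = Real.exp (Real.log b - u * Real.log b) := by
        rw [sub_eq_add_neg, Real.exp_add, Real.exp_log hb0]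
      rw [h4]
      apply Real.exp_le_exp.2
      have h5 : u < k + 1 := Nat.lt_floor_add_one u
      nlinarith
  · have hu1 : u < 1 := by
      by_contra h
      push Not at h
      apply hk
      exact Nat.le_floor (by simpa using h)
    refine ⟨{0}, by simp, ?_, ?_⟩
    · simp; omega
    · refine (abs_sub_round _).trans ?_
      have h4 : (b : ℝ) * Real.exp (-(u * Real.log b)) = Real.exp (Real.log b - u * Real.log b) := by
        rw [sub_eq_add_neg, Real.exp_add, Real.exp_log hb0]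
      rw [h4]
      have : (1 : ℝ) ≤ Real.exp (Real.log b - u * Real.log b) := by
        apply Real.one_le_exp
        nlinarith
      linarith

end Pool.Agent.Results.MP_fcf9e8_nt.NearPower
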