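import Mathlib

open MeasureTheory Filter Set
open scoped Topology

namespace Pool.Agent.Results.MP_be5f19_an.OverRecurrent

variable {X : Type*}

section basic

variable (T : Equiv.Perm X)

lemma image_zpow_add (m n : ℤ) (A : Set X) :
    (T ^ (m + n)) '' A = (T ^ m) '' ((T ^ n) '' A) := by
  rw [zpow_add, Equiv.Perm.coe_mul, Set.image_comp]

lemma image_zpow_inter (n : ℤ) (A B : Set X) :
    (T ^ n) '' (A ∩ B) = (T ^ n) '' A ∩ (T ^ n) '' B :=
  Set.image_inter (T ^ n).injective

variable {T} [MeasurableSpace X]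

lemma measurable_zpow (hT : Measurable T) (hT' : Measurable T.symm) (n : ℤ) :
    Measurable (T ^ n : Equiv.Perm X) := by
  have hnat : ∀ k : ℕ, Measurable ((T ^ k : Equiv.Perm X) : X → X) := by
    intro k
    induction k with
    | zero => simpa using measurable_id
    | succ k ih =>
      rw [pow_succ, Equiv.Perm.coe_mul]
      exact ih.comp hT
  have hnat' : ∀ k : ℕ, Measurable ((T⁻¹ ^ k : Equiv.Perm X) : X → X) := by
    intro k
    induction k with
    | zero => simpa using measurable_id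
    | succ k ih =>
      rw [pow_succ, Equiv.Perm.coe_mul]
      exact ih.comp hT'
  cases n with
  | ofNat k => simpa using hnat k
  | negSucc k =>
    rw [zpow_negSucc, ← inv_pow]
    exact hnat' (k + 1)

lemma measurableSet_image (hT : Measurable T) (hT' : Measurable T.symm) (n : ℤ) {A : Set X}
    (hA : MeasurableSet A) : MeasurableSet ((T ^ n) '' A) := by
  rw [Equiv.image_eq_preimage_symm]
  have : ((T ^ n : Equiv.Perm X).symm : X → X) = ((T ^ (-n) : Equiv.Perm X) : X → X) := by
    rw [zpow_neg]; rfl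
  rw [this]
  exact measurable_zpow hT hT' (-n) hA

variable {μ : Measure X}

lemma measure_image_one (hT : MeasurePreserving T μ μ) {A : Set X}
    (hA : MeasurableSet (T '' A)) : μ (T '' A) = μ A := by
  have h := hT.measure_preimage hA.nullMeasurableSet
  rw [Set.preimage_image_eq _ T.injective] at h
  exact h.symm

lemma measure_image (hT : MeasurePreserving T μ μ) (hT' : Measurable T.symm) (n : ℤ) {A : Set X}
    (hA : MeasurableSet A) : μ ((T ^ n) '' A) = μ A := by
  have hnat : ∀ k : ℕ, ∀ A : Set X, MeasurableSet A → μ ((T ^ (k : ℤ)) '' A) = μ A := by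
    intro k
    induction k with
    | zero => intro A _; simp
    | succ k ih =>
      intro A hA
      have h1 : ((k + 1 : ℕ) : ℤ) = 1 + (k : ℤ) := by push_cast; ring
      rw [h1, image_zpow_add, zpow_one]
      rw [measure_image_one hT]
      · exact ih A hA
      · have := measurableSet_image hT.measurable hT' (1 + (k : ℤ)) hA
        rw [image_zpow_add, zpow_one] at this
        exact this
  cases n with
  | ofNat k => exact hnat k A hA
  | negSucc k =>
    have h2 := hnat (k + 1) ((T ^ (Int.negSucc k)) '' A) (measurableSet_image hT.measurable hT' _ hA)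
    rw [← image_zpow_add] at h2
    have h3 : ((k + 1 : ℕ) : ℤ) + Int.negSucc k = 0 := by
      rw [Int.negSucc_eq]; push_cast; ring
    rw [h3] at h2
    simpa using h2.symm

lemma real_image (hT : MeasurePreserving T μ μ) (hT' : Measurable T.symm) (n : ℤ) {A : Set X}
    (hA : MeasurableSet A) : μ.real ((T ^ n) '' A) = μ.real A := by
  simp only [Measure.real, measure_image hT hT' n hA]

end basic

section construction

variable [MeasurableSpace X] {μ : Measure X} [IsProbabilityMeasure μ] {T : Equiv.Perm X}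

/-- The union of the images of `E` under the first `L` powers of `T`. -/
def U (T : Equiv.Perm X) (E : Set X) (L : ℕ) : Set X := ⋃ j ∈ Finset.range L, (T ^ (j : ℤ)) '' E

lemma U_succ (E : Set X) (L : ℕ) : U T E (L + 1) = U T E L ∪ (T ^ (L : ℤ)) '' E := by
  unfold U
  rw [Finset.range_add_one, Finset.set_biUnion_insert, Set.union_comm]

lemma U_mono (E : Set X) : Monotone (U T E) := by
  refine monotone_nat_of_le_succ fun L => ?_
  rw [U_succ]
  exact Set.subset_union_left

lemma measurableSet_U (hT : MeasurePreserving T μ μ) (hT' : Measurable T.symm) {E : Set X}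
    (hE : MeasurableSet E) (L : ℕ) : MeasurableSet (U T E L) :=
  Finset.measurableSet_biUnion _ fun _ _ => measurableSet_image hT.measurable hT' _ hE

lemma real_U_succ_le (hT : MeasurePreserving T μ μ) (hT' : Measurable T.symm) {E : Set X}
    (hE : MeasurableSet E) (L : ℕ) : μ.real (U T E (L + 1)) ≤ μ.real (U T E L) + μ.real E := by
  rw [U_succ]
  refine (measureReal_union_le _ _).trans ?_
  rw [real_image hT hT' _ hE]

lemma real_U_le (hT : MeasurePreserving T μ μ) (hT' : Measurable T.symm) {E : Set X}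
    (hE : MeasurableSet E) (L : ℕ) : μ.real (U T E L) ≤ L * μ.real E := by
  induction L with
  | zero => simp [U]
  | succ L ih =>
    refine (real_U_succ_le hT hT' hE L).trans ?_
    push_cast
    linarith

/-- A long union of images is almost invariant. -/
lemma real_U_inter (hT : MeasurePreserving T μ μ) (hT' : Measurable T.symm) {E : Set X}
    (hE : MeasurableSet E) (L n : ℕ) :
    μ.real (U T E L) - n * μ.real E ≤ μ.real (U T E L ∩ (T ^ (n : ℤ)) '' U T E L) := by
  have hsub : U T E L ⊆ U T E n ∪ (U T E L ∩ (T ^ (n : ℤ)) '' U T E L) := by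
    intro x hx
    by_cases hxn : x ∈ U T E n
    · exact Or.inl hxn
    · right
      refine ⟨hx, ?_⟩
      unfold U at hx hxn
      simp only [Finset.mem_range, Set.mem_iUnion, exists_prop, not_exists, not_and] at hx hxn
      obtain ⟨j, hjL, hxj⟩ := hx
      have hnj : n ≤ j := by
        by_contra hlt
        exact hxn j (not_le.mp hlt) hxj
      obtain ⟨i, rfl⟩ := Nat.exists_eq_add_of_le hnj
      have h1 : ((n + i : ℕ) : ℤ) = (n : ℤ) + (i : ℤ) := by push_cast; ring
      rw [h1, image_zpow_add] at hxj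
      refine Set.image_mono ?_ hxj
      intro y hy
      unfold U
      simp only [Finset.mem_range, Set.mem_iUnion, exists_prop]
      exact ⟨i, by omega, hy⟩
  have h1 : μ.real (U T E L) ≤ μ.real (U T E n) + μ.real (U T E L ∩ (T ^ (n : ℤ)) '' U T E L) :=
    (measureReal_mono hsub).trans (measureReal_union_le _ _)
  have h2 := real_U_le hT hT' hE n
  linarith

/-- Mixing, stated with real-valued measures. -/
def Mix (μ : Measure X) (T : Equiv.Perm X) : Prop :=
  ∀ A B : Set X, MeasurableSet A → MeasurableSet B →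
    Tendsto (fun n : ℕ => μ.real (A ∩ (T ^ (n : ℤ)) '' B)) atTop (𝓝 (μ.real A * μ.real B))

lemma tendsto_real_U (hT : MeasurePreserving T μ μ) (hT' : Measurable T.symm)
    (hmix : Mix μ T) {E : Set X} (hE : MeasurableSet E) (hpos : 0 < μ.real E) :
    Tendsto (fun L => μ.real (U T E L)) atTop (𝓝 1) := by
  set V : Set X := ⋃ L, U T E L with hV
  have hVm : MeasurableSet V := MeasurableSet.iUnion fun L => measurableSet_U hT hT' hE L
  have hEV : E ⊆ V := by
    intro x hx
    refine Set.mem_iUnion.mpr ⟨1, ?_⟩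
    rw [U_succ]
    right
    simpa using hx
  have hTV : ∀ n : ℕ, (T ^ (n : ℤ)) '' V ⊆ V := by
    intro n x hx
    obtain ⟨y, hy, rfl⟩ := hx
    obtain ⟨L, hL⟩ := Set.mem_iUnion.mp hy
    unfold U at hL
    simp only [Finset.mem_range, Set.mem_iUnion, exists_prop] at hL
    obtain ⟨j, hjL, hj⟩ := hL
    refine Set.mem_iUnion.mpr ⟨n + j + 1, ?_⟩
    unfold U
    simp only [Finset.mem_range, Set.mem_iUnion, exists_prop]
    refine ⟨n + j, by omega, ?_⟩
    have h1 : ((n + j : ℕ) : ℤ) = (n : ℤ) + (j : ℤ) := by push_cast; ring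
    rw [h1, image_zpow_add]
    exact Set.mem_image_of_mem _ hj
  have hzero : ∀ n : ℕ, μ.real (Vᶜ ∩ (T ^ (n : ℤ)) '' V) = 0 := by
    intro n
    have : Vᶜ ∩ (T ^ (n : ℤ)) '' V = ∅ := by
      ext x
      simp only [Set.mem_inter_iff, Set.mem_compl_iff, Set.mem_empty_iff_false, iff_false, not_and]
      intro hx hx'
      exact hx (hTV n hx')
    rw [this]; simp
  have hlim := hmix Vᶜ V hVm.compl hVm
  have hz : Tendsto (fun n : ℕ => μ.real (Vᶜ ∩ (T ^ (n : ℤ)) '' V)) atTop (𝓝 0) := by
    simp only [hzero]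
    exact tendsto_const_nhds
  have hprod : μ.real Vᶜ * μ.real V = 0 := tendsto_nhds_unique hlim hz
  have hVpos : 0 < μ.real V := lt_of_lt_of_le hpos (measureReal_mono hEV)
  have hVc : μ.real Vᶜ = 0 := by
    rcases mul_eq_zero.mp hprod with h | h
    · exact h
    · exact absurd h hVpos.ne'
  have hV1 : μ.real V = 1 := by
    have := probReal_compl_eq_one_sub (μ := μ) hVm
    linarith
  have hcont : Tendsto (fun L => μ (U T E L)) atTop (𝓝 (μ V)) :=
    tendsto_measure_iUnion_atTop (U_mono E)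
  have h3 := (ENNReal.tendsto_toReal (measure_ne_top μ V)).comp hcont
  have h4 : (μ V).toReal = 1 := hV1
  rw [h4] at h3
  exact h3

lemma exists_small (hmix : Mix μ T) (hT : MeasurePreserving T μ μ) (hT' : Measurable T.symm)
    (hne : ∃ A, MeasurableSet A ∧ 0 < μ.real A ∧ μ.real A < 1)
    {ε : ℝ} (hε : 0 < ε) : ∃ E, MeasurableSet E ∧ 0 < μ.real E ∧ μ.real E < ε := by
  obtain ⟨A, hA, hpos, hlt⟩ := hne
  set m := μ.real A with hm
  set θ := (1 + m) / 2 with hθ
  have hθ1 : θ < 1 := by rw [hθ]; linarith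
  have hθm : m < θ := by rw [hθ]; linarith
  have hθ0 : 0 < θ := lt_trans hpos hθm
  have key : ∀ k : ℕ, ∃ E, MeasurableSet E ∧ 0 < μ.real E ∧ μ.real E ≤ m * θ ^ k := by
    intro k
    induction k with
    | zero => exact ⟨A, hA, hpos, by simp [hm]⟩
    | succ k ih =>
      obtain ⟨E, hE, hEpos, hEle⟩ := ih
      have hEm : μ.real E ≤ m := by
        refine hEle.trans ?_
        have : θ ^ k ≤ 1 := pow_le_one₀ hθ0.le hθ1.le
        nlinarith
      have hlim := hmix E E hE hE
      have h1 : μ.real E * μ.real E < θ * μ.real E := by nlinarith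
      have h2 : 0 < μ.real E * μ.real E := by positivity
      have hev := (hlim.eventually (lt_mem_nhds h2)).and (hlim.eventually (gt_mem_nhds h1))
      obtain ⟨n, hn1, hn2⟩ := hev.exists
      refine ⟨E ∩ (T ^ (n : ℤ)) '' E, hE.inter (measurableSet_image hT.measurable hT' _ hE), hn1, ?_⟩
      refine hn2.le.trans ?_
      rw [pow_succ]
      nlinarith
  have hpow : Tendsto (fun k : ℕ => m * θ ^ k) atTop (𝓝 (m * 0)) :=
    (tendsto_pow_atTop_nhds_zero_of_lt_one hθ0.le hθ1).const_mul m
  rw [mul_zero] at hpow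
  obtain ⟨k, hk⟩ := (hpow.eventually (gt_mem_nhds hε)).exists
  obtain ⟨E, hE, hEpos, hEle⟩ := key k
  exact ⟨E, hE, hEpos, lt_of_le_of_lt hEle hk⟩

/-- The building block: an almost invariant set of measure about `β`, almost independent of `P`. -/
lemma exists_block (hmix : Mix μ T) (hT : MeasurePreserving T μ μ) (hT' : Measurable T.symm)
    (hne : ∃ A, MeasurableSet A ∧ 0 < μ.real A ∧ μ.real A < 1)
    {P : Set X} (hP : MeasurableSet P) {β : ℝ} (hβ : 0 < β) (hβ1 : β ≤ 1) (N : ℕ) :
    ∃ B, MeasurableSet B ∧ β / 2 ≤ μ.real B ∧ μ.real B ≤ β ∧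
      μ.real (P ∩ B) ≤ μ.real P * μ.real B + β / 16 ∧
      ∀ n : ℕ, n ≤ N → μ.real B - β / 20 ≤ μ.real (B ∩ (T ^ (n : ℤ)) '' B) := by
  have hε : 0 < min (β / 2) (β / (20 * (N + 1))) := by positivity
  obtain ⟨E, hE, hEpos, hElt⟩ := exists_small hmix hT hT' hne hε
  have hE1 : μ.real E < β / 2 := lt_of_lt_of_le hElt (min_le_left _ _)
  have hE2 : μ.real E < β / (20 * (N + 1)) := lt_of_lt_of_le hElt (min_le_right _ _)
  have hex : ∃ L, β / 2 ≤ μ.real (U T E L) := by
    have hlim := tendsto_real_U hT hT' hmix hE hEpos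
    have h1 : β / 2 < 1 := by linarith
    obtain ⟨L, hL⟩ := (hlim.eventually (lt_mem_nhds h1)).exists
    exact ⟨L, hL.le⟩
  classical
  set L := Nat.find hex with hL
  have hLspec : β / 2 ≤ μ.real (U T E L) := Nat.find_spec hex
  have hLle : μ.real (U T E L) ≤ β := by
    rcases Nat.eq_zero_or_pos L with h0 | hpos'
    · rw [h0]; simp [U]; exact hβ.le
    · obtain ⟨l, hl⟩ := Nat.exists_eq_succ_of_ne_zero hpos'.ne'
      have hlt : ¬ β / 2 ≤ μ.real (U T E l) := Nat.find_min hex (by omega)
      have := real_U_succ_le (μ := μ) hT hT' hE l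
      rw [hl]
      simp only [Nat.succ_eq_add_one]
      linarith [not_le.mp hlt]
  have hUm := measurableSet_U (T := T) hT hT' hE L
  have hlim := hmix P (U T E L) hP hUm
  have hlt : μ.real P * μ.real (U T E L) < μ.real P * μ.real (U T E L) + β / 16 := by linarith
  obtain ⟨m, hm⟩ := (hlim.eventually (gt_mem_nhds hlt)).exists
  refine ⟨(T ^ (m : ℤ)) '' U T E L, measurableSet_image hT.measurable hT' _ hUm, ?_, ?_, ?_, ?_⟩
  · rw [real_image hT hT' _ hUm]; exact hLspec
  · rw [real_image hT hT' _ hUm]; exact hLle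
  · rw [real_image hT hT' _ hUm]; exact hm.le
  · intro n hn
    rw [real_image hT hT' _ hUm, ← image_zpow_add, add_comm, image_zpow_add, ← image_zpow_inter,
      real_image hT hT' _ (hUm.inter (measurableSet_image hT.measurable hT' _ hUm))]
    refine le_trans ?_ (real_U_inter hT hT' hE L n)
    have hnN : (n : ℝ) * μ.real E ≤ β / 20 := by
      have h1 : (n : ℝ) ≤ N + 1 := by
        have : (n : ℝ) ≤ N := by exact_mod_cast hn
        linarith
      calc (n : ℝ) * μ.real E ≤ (N + 1) * (β / (20 * (N + 1))) := by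
            apply mul_le_mul h1 hE2.le hEpos.le (by positivity)
        _ = β / 20 := by field_simp
    linarith

/-- The elementary inequality behind the construction. -/
lemma gap {A P B : Set X} (T' : Set X → Set X) (hTmono : ∀ C D : Set X, C ⊆ D → T' C ⊆ T' D)
    (hmeas : MeasurableSet (B ∩ T' B))
    (hPA : P ⊆ A) (hBA : B ⊆ A) {β c : ℝ} (hβ : 0 < β) (hβc : β ≤ c) (hc : c = 1 / 256)
    (h1 : μ.real P ^ 2 - β / 8 ≤ μ.real (P ∩ T' P))
    (h2 : μ.real B - β / 20 ≤ μ.real (B ∩ T' B)) (h3 : β / 2 ≤ μ.real B)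
    (h4 : μ.real (P ∩ B) ≤ 2 * c * β + β / 16) (h5 : μ.real P ≤ 2 * c)
    (h6 : μ.real A ≤ μ.real P + 4 * β) :
    μ.real A ^ 2 + β / 8 < μ.real (A ∩ T' A) := by
  have hsub : (P ∩ T' P) ∪ (B ∩ T' B) ⊆ A ∩ T' A := by
    apply Set.union_subset
    · exact Set.inter_subset_inter hPA (hTmono _ _ hPA)
    · exact Set.inter_subset_inter hBA (hTmono _ _ hBA)
  have hun : μ.real (P ∩ T' P) + μ.real (B ∩ T' B) =
      μ.real ((P ∩ T' P) ∪ (B ∩ T' B)) + μ.real ((P ∩ T' P) ∩ (B ∩ T' B)) :=
    (measureReal_union_add_inter hmeas).symm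
  have hint : μ.real ((P ∩ T' P) ∩ (B ∩ T' B)) ≤ μ.real (P ∩ B) :=
    measureReal_mono (fun x hx => ⟨hx.1.1, hx.2.1⟩)
  have hle : μ.real ((P ∩ T' P) ∪ (B ∩ T' B)) ≤ μ.real (A ∩ T' A) := measureReal_mono hsub
  have hA0 : 0 ≤ μ.real A := measureReal_nonneg
  have hP0 : 0 ≤ μ.real P := measureReal_nonneg
  have hsq : μ.real A ^ 2 ≤ (μ.real P + 4 * β) ^ 2 := by
    apply pow_le_pow_left₀ hA0 h6
  have h7 : μ.real P * β ≤ 2 * c * β := by nlinarith
  have h8 : β * β ≤ c * β := by nlinarith
  subst hc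
  nlinarith

end construction

/-- **Over-recurrent sets exist in every non-trivial mixing system, with arbitrarily slow rate.** -/
theorem result_proof {X : Type*} [MeasurableSpace X] (μ : Measure X) [IsProbabilityMeasure μ]
    (T : Equiv.Perm X) (hT : MeasurePreserving T μ μ) (hT' : Measurable T.symm)
    (hmix : ∀ A B : Set X, MeasurableSet A → MeasurableSet B →
      Tendsto (fun n : ℕ => μ (A ∩ (T ^ (n : ℤ)) '' B)) atTop (𝓝 (μ A * μ B)))
    (hne : ∃ A, MeasurableSet A ∧ 0 < μ A ∧ μ A < 1)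
    (ε : ℕ → ℝ) (hε0 : ∀ n, 0 ≤ ε n) (hε : Tendsto ε atTop (𝓝 0)) :
    ∃ A, MeasurableSet A ∧ 0 < μ A ∧ ∃ η : ℝ, 0 < η ∧
      ∀ n : ℤ, n ≠ 0 → μ.real A ^ 2 + η * ε n.natAbs < μ.real (A ∩ (T ^ n) '' A) := by
  -- real-valued mixing
  have hMix : Mix μ T := by
    intro A B hA hB
    have h := (ENNReal.tendsto_toReal (by finiteness : μ A * μ B ≠ ⊤)).comp (hmix A B hA hB)
    simpa [Measure.real, Function.comp_def] using h
  have hne' : ∃ A, MeasurableSet A ∧ 0 < μ.real A ∧ μ.real A < 1 := by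
    obtain ⟨A, hA, h0, h1⟩ := hne
    refine ⟨A, hA, ENNReal.toReal_pos h0.ne' (measure_ne_top μ A), ?_⟩
    have := (ENNReal.toReal_lt_toReal (measure_ne_top μ A) ENNReal.one_ne_top).mpr h1
    simpa [Measure.real] using this
  set c : ℝ := 1 / 256 with hc
  set β : ℕ → ℝ := fun k => c * (1 / 2) ^ k with hβdef
  have hβpos : ∀ k, 0 < β k := fun k => by simp only [hβdef, hc]; positivity
  have hβsucc : ∀ k, β (k + 1) = β k / 2 := fun k => by
    simp only [hβdef, pow_succ]; ring
  have hβle : ∀ k, β k ≤ c := fun k => by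
    simp only [hβdef]
    have : ((1 : ℝ) / 2) ^ k ≤ 1 := pow_le_one₀ (by norm_num) (by norm_num)
    nlinarith [show (0 : ℝ) < c by norm_num [hc]]
  have hβ1 : ∀ k, β k ≤ 1 := fun k => (hβle k).trans (by norm_num [hc])
  -- thresholds
  have hMex : ∀ (P : Set X) (k : ℕ), ∃ M : ℕ, MeasurableSet P → (k ≤ M ∧ ∀ n : ℕ, M ≤ n →
      μ.real P ^ 2 - β (k + 1) / 8 ≤ μ.real (P ∩ (T ^ (n : ℤ)) '' P) ∧ ε n ≤ β (k + 1)) := by
    intro P k
    by_cases hP : MeasurableSet P
    · have hlim := hMix P P hP hP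
      have h1 : μ.real P ^ 2 - β (k + 1) / 8 < μ.real P * μ.real P := by
        have := hβpos (k + 1); nlinarith
      have h2 := (hlim.eventually (lt_mem_nhds h1)).and
        (hε.eventually (gt_mem_nhds (hβpos (k + 1))))
      obtain ⟨M, hM⟩ := Filter.eventually_atTop.mp h2
      refine ⟨max M k, fun _ => ⟨le_max_right _ _, fun n hn => ?_⟩⟩
      have := hM n (le_trans (le_max_left _ _) hn)
      exact ⟨this.1.le, this.2.le⟩
    · exact ⟨0, fun h => absurd h hP⟩
  choose M hM using hMex
  have hBex : ∀ (P : Set X) (k : ℕ), ∃ B : Set X, MeasurableSet P → (MeasurableSet B ∧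
      β k / 2 ≤ μ.real B ∧ μ.real B ≤ β k ∧
      μ.real (P ∩ B) ≤ μ.real P * μ.real B + β k / 16 ∧
      ∀ n : ℕ, n ≤ M P k → μ.real B - β k / 20 ≤ μ.real (B ∩ (T ^ (n : ℤ)) '' B)) := by
    intro P k
    by_cases hP : MeasurableSet P
    · obtain ⟨B, hB⟩ := exists_block hMix hT hT' hne' hP (hβpos k) (hβ1 k) (M P k)
      exact ⟨B, fun _ => hB⟩
    · exact ⟨∅, fun h => absurd h hP⟩
  choose B hB using hBex
  -- the increasing sequence of finite unions
  let P : ℕ → Set X := fun k => Nat.rec ∅ (fun k Q => Q ∪ B Q k) k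
  have hP0 : P 0 = ∅ := rfl
  have hPs : ∀ k, P (k + 1) = P k ∪ B (P k) k := fun k => rfl
  have hPm : ∀ k, MeasurableSet (P k) := by
    intro k
    induction k with
    | zero => rw [hP0]; exact MeasurableSet.empty
    | succ k ih => rw [hPs]; exact ih.union (hB (P k) k ih).1
  have hPmono : Monotone P := monotone_nat_of_le_succ fun k => by
    rw [hPs]; exact Set.subset_union_left
  have hPbound : ∀ i j, μ.real (P (i + j)) + 2 * β (i + j) ≤ μ.real (P i) + 2 * β i := by
    intro i j
    induction j with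
    | zero => simp
    | succ j ih =>
      have h1 : μ.real (P (i + (j + 1))) ≤ μ.real (P (i + j)) + β (i + j) := by
        rw [← add_assoc, hPs]
        refine (measureReal_union_le _ _).trans ?_
        have := (hB (P (i + j)) (i + j) (hPm _)).2.2.1
        linarith
      have h2 : β (i + (j + 1)) = β (i + j) / 2 := by rw [← add_assoc, hβsucc]
      rw [h2]
      linarith
  have hPsmall : ∀ k, μ.real (P k) ≤ 2 * c := by
    intro k
    have := hPbound 0 k
    rw [zero_add, hP0] at this
    have h0 : β 0 = c := by simp [hβdef]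
    rw [h0] at this
    have := hβpos k
    simp at *
    linarith
  set A : Set X := ⋃ k, P k with hA
  have hAm : MeasurableSet A := MeasurableSet.iUnion hPm
  have hPA : ∀ k, P k ⊆ A := fun k => Set.subset_iUnion P k
  have hBA : ∀ k, B (P k) k ⊆ A := fun k =>
    (Set.subset_union_right).trans ((hPs k).symm.subset.trans (hPA (k + 1)))
  have hAle : ∀ k, μ.real A ≤ μ.real (P k) + 2 * β k := by
    intro k
    have hcont : Tendsto (fun L => μ (P L)) atTop (𝓝 (μ A)) := tendsto_measure_iUnion_atTop hPmono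
    have h3 := (ENNReal.tendsto_toReal (measure_ne_top μ A)).comp hcont
    refine le_of_tendsto h3 ?_
    refine Filter.eventually_atTop.mpr ⟨k, fun n hn => ?_⟩
    obtain ⟨j, rfl⟩ := Nat.exists_eq_add_of_le hn
    have := hPbound k j
    have := hβpos (k + j)
    simp only [Function.comp_def]
    change μ.real (P (k + j)) ≤ _
    linarith
  have hposA : 0 < μ.real A := by
    have h1 := (hB (P 0) 0 (hPm 0)).2.1
    have h2 : μ.real (B (P 0) 0) ≤ μ.real A := measureReal_mono (hBA 0)
    have := hβpos 0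
    linarith
  -- the main estimate for natural `n`
  have hTmono : ∀ (n : ℤ) (C D : Set X), C ⊆ D → (T ^ n) '' C ⊆ (T ^ n) '' D :=
    fun n C D h => Set.image_mono h
  have hbi : ∀ (k : ℕ) (n : ℤ), MeasurableSet (B (P k) k ∩ (T ^ n) '' B (P k) k) := fun k n =>
    ((hB (P k) k (hPm k)).1).inter (measurableSet_image hT.measurable hT' n (hB (P k) k (hPm k)).1)
  have hPB : ∀ k, μ.real (P k ∩ B (P k) k) ≤ 2 * c * β k + β k / 16 := by
    intro k
    have h := hB (P k) k (hPm k)
    have h1 := h.2.2.2.1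
    have h2 := hPsmall k
    have h3 := h.2.2.1
    have h4 : 0 ≤ μ.real (B (P k) k) := measureReal_nonneg
    have h5 : 0 ≤ μ.real (P k) := measureReal_nonneg
    have h6 : μ.real (P k) * μ.real (B (P k) k) ≤ 2 * c * β k :=
      mul_le_mul h2 h3 h4 (h5.trans h2)
    exact h1.trans (add_le_add h6 le_rfl)
  -- small `n`
  have hsmall : ∀ n : ℕ, n ≤ M (P 0) 0 →
      μ.real A ^ 2 + β 0 / 8 < μ.real (A ∩ (T ^ (n : ℤ)) '' A) := by
    intro n hn
    have h := hB (P 0) 0 (hPm 0)
    refine gap (P := P 0) (B := B (P 0) 0) (fun C => (T ^ (n : ℤ)) '' C) (hTmono n) (hbi 0 n)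
      (hPA 0) (hBA 0) (hβpos 0) (hβle 0) hc ?_ (h.2.2.2.2 n hn) h.2.1 (hPB 0) (hPsmall 0) ?_
    · rw [hP0]
      have := hβpos 0
      simp
      linarith
    · have := hAle 0
      have := hβpos 0
      linarith
  -- large `n`
  have hlarge : ∀ k n : ℕ, M (P k) k ≤ n → n ≤ M (P (k + 1)) (k + 1) →
      μ.real A ^ 2 + β (k + 1) / 8 < μ.real (A ∩ (T ^ (n : ℤ)) '' A) := by
    intro k n hn hn'
    have h := hB (P (k + 1)) (k + 1) (hPm (k + 1))
    refine gap (P := P k) (B := B (P (k + 1)) (k + 1)) (fun C => (T ^ (n : ℤ)) '' C) (hTmono n)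
      (hbi (k + 1) n) (hPA k) (hBA (k + 1)) (hβpos (k + 1)) (hβle (k + 1)) hc
      (((hM (P k) k (hPm k)).2 n hn).1) (h.2.2.2.2 n hn') h.2.1 ?_ (hPsmall k) ?_
    · refine le_trans (measureReal_mono ?_) (hPB (k + 1))
      exact Set.inter_subset_inter_left _ (hPmono (Nat.le_succ k))
    · have := hAle k
      have := hβsucc k
      linarith
  -- a bound for the sequence `ε`
  obtain ⟨S, hS⟩ : ∃ S : ℝ, ∀ n, ε n ≤ S := by
    obtain ⟨S, hS⟩ := hε.bddAbove_range
    exact ⟨S, fun n => hS ⟨n, rfl⟩⟩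
  have hS0 : 0 ≤ S := (hε0 0).trans (hS 0)
  set η : ℝ := min (1 / 8) (β 0 / (8 * (S + 1))) with hη
  have hηpos : 0 < η := by
    have := hβpos 0
    positivity
  have hη8 : η ≤ 1 / 8 := min_le_left _ _
  have hηS : η * S ≤ β 0 / 8 := by
    have h1 : η ≤ β 0 / (8 * (S + 1)) := min_le_right _ _
    have := hβpos 0
    calc η * S ≤ (β 0 / (8 * (S + 1))) * (S + 1) := by
          apply mul_le_mul h1 (by linarith) hS0 (by positivity)
      _ = β 0 / 8 := by field_simp
  have hnat : ∀ n : ℕ, μ.real A ^ 2 + η * ε n < μ.real (A ∩ (T ^ (n : ℤ)) '' A) := by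
    intro n
    by_cases hn : n ≤ M (P 0) 0
    · have h1 := hsmall n hn
      have h2 : η * ε n ≤ η * S := mul_le_mul_of_nonneg_left (hS n) hηpos.le
      linarith
    · have hex : ∃ k, n ≤ M (P k) k := ⟨n, (hM (P n) n (hPm n)).1⟩
      classical
      have hk := Nat.find_spec hex
      have hk0 : Nat.find hex ≠ 0 := by
        intro h0
        rw [h0] at hk
        exact hn hk
      obtain ⟨k, hkk⟩ := Nat.exists_eq_succ_of_ne_zero hk0
      have hlt : ¬ n ≤ M (P k) k := Nat.find_min hex (by omega)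
      rw [hkk] at hk
      have hk1 : M (P k) k ≤ n := (not_le.mp hlt).le
      have h1 := hlarge k n hk1 hk
      have h2 := ((hM (P k) k (hPm k)).2 n hk1).2
      have h3 : η * ε n ≤ 1 / 8 * β (k + 1) :=
        mul_le_mul hη8 h2 (hε0 n) (by norm_num)
      linarith
  refine ⟨A, hAm, ?_, η, hηpos, ?_⟩
  · exact (ENNReal.toReal_pos_iff.mp hposA).1
  · intro n _
    cases n with
    | ofNat k => simpa using hnat k
    | negSucc k =>
      have h1 := hnat (k + 1)
      have h2 : (Int.negSucc k).natAbs = k + 1 := rfl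
      rw [h2]
      have h3 : μ.real (A ∩ (T ^ (Int.negSucc k)) '' A) =
          μ.real (A ∩ (T ^ ((k + 1 : ℕ) : ℤ)) '' A) := by
        have hm := hAm.inter (measurableSet_image hT.measurable hT' (Int.negSucc k) hAm)
        rw [← real_image hT hT' ((k + 1 : ℕ) : ℤ) hm, image_zpow_inter, ← image_zpow_add]
        have h4 : ((k + 1 : ℕ) : ℤ) + Int.negSucc k = 0 := by
          rw [Int.negSucc_eq]; push_cast; ring
        rw [h4, Set.inter_comm]
        simp
      rw [h3]
      exact h1

end Pool.Agent.Results.MP_be5f19_an.OverRecurrent
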