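import Mathlib

/-!
# Rich lines: the conjectured bound fails in every dimension `d ≥ 4`

For a finite set `V` of `n` points of `ℂ^d` let `L_r(V)` be the set of complex lines meeting `V` in at
least `r` points and let `s_ℓ` be the maximal number of points of `V` on an `ℓ`-flat. We show that the
bound `|L_r(V)| ≤ C_d (n² r^{-d-1} + ∑_{ℓ=2}^{d-1} n s_ℓ r^{-ℓ-1} + n r^{-1})` fails for every `d ≥ 4`,
even by a factor `n^{1/12}` and even for points with integer coordinates.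

The points are `(x, y, z, xz - y², 0, …, 0)` with `0 ≤ x < B³`, `0 ≤ y < 2B⁴`, `0 ≤ z < 2B⁵`; they lie on
a quadric of the coordinate `4`-space that contains the lines with directions `(1, b, b², ⋯)`.
Here `r = B³`, `n = 4B¹²`, `|L_r(V)| ≥ B¹⁰`, `s_2 ≤ 10B⁵`, `s_3 ≤ 12B⁹`, and the bracket is at most
`48 d B⁹`.
-/

set_option autoImplicit false

namespace Pool.Agent.Results.MP_0eaff0_co.QuadricRichLines

open Finset

/-- The set of complex lines that meet `V` in at least `r` points. -/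
def richLines {d : ℕ} (V : Finset (Fin d → ℂ)) (r : ℕ) : Set (AffineSubspace ℂ (Fin d → ℂ)) :=
  {L | Module.finrank ℂ L.direction = 1 ∧ r ≤ ((V : Set (Fin d → ℂ)) ∩ L).ncard}

/-- `s_ℓ(V)`: the maximal number of points of `V` on a complex affine subspace of dimension `ℓ`. -/
noncomputable def sFlat {d : ℕ} (V : Finset (Fin d → ℂ)) (ℓ : ℕ) : ℕ :=
  sSup {k : ℕ | ∃ F : AffineSubspace ℂ (Fin d → ℂ),
    Module.finrank ℂ F.direction = ℓ ∧ k = ((V : Set (Fin d → ℂ)) ∩ F).ncard}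

/-- The bracket `n² r^{-d-1} + ∑_{ℓ=2}^{d-1} n s_ℓ r^{-ℓ-1} + n r^{-1}`. -/
noncomputable def bracket {d : ℕ} (V : Finset (Fin d → ℂ)) (r : ℕ) : ℝ :=
  (V.card : ℝ) ^ 2 / (r : ℝ) ^ (d + 1)
    + ∑ ℓ ∈ Finset.Icc 2 (d - 1), (V.card : ℝ) * (sFlat V ℓ : ℝ) / (r : ℝ) ^ (ℓ + 1)
    + (V.card : ℝ) / (r : ℝ)

end Pool.Agent.Results.MP_0eaff0_co.QuadricRichLines
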