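import Mathlib
import Pool.Agent.H2.SPL.QuadricRichLinesDefs

/-!
# Rich lines: the conjectured bound fails in every dimension `d ≥ 4`

For a finite set `V` of `n` points of `ℂ^d` let `L_r(V)` be the set of complex lines meeting `V` in at
least `r` points and let `s_ℓ` be the maximal number of points of `V` on an `ℓ`-flat. We show that the
bound `|L_r(V)| ≤ C_d (n² r^{-d-1} + ∑_{ℓ=2}^{d-1} n s_ℓ r^{-ℓ-1} + n r^{-1})` fails for every `d ≥ 4`,
even by a factor `n^{1/12}` and even for points with integer coordinates.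

The points are `(x, y, z, xz - y², 0, …, 0)` with `0 ≤ x < B³`, `0 ≤ y < 2B⁴`, `0 ≤ z < 2B⁵`; they lie on
a quadric of the coordinate `4`-space that contains the lines with directions `(1, b, b², ⋯)`.
Here `r = B³`, `n = 4B¹²`, `|L_r(V)| ≥ B¹⁰`, `s_2 ≤ 10B⁵`, `s_3 ≤ 12B⁹`, and the bracket is at most
`48 d B⁹`.
-/

set_option autoImplicit false

namespace Pool.Agent.Results.MP_0eaff0_co.QuadricRichLines

open Finset

/-! ### Counting -/

/-- A nonzero polynomial of degree at most two has at most two roots among `0, …, N-1`. -/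
theorem quad_card (N : ℕ) (a b c : ℂ) (h : ¬ (a = 0 ∧ b = 0 ∧ c = 0)) :
    ((range N).filter (fun t : ℕ => a * (t : ℂ) ^ 2 + b * (t : ℂ) + c = 0)).card ≤ 2 := by
  classical
  by_contra hcon
  push Not at hcon
  obtain ⟨x, hx, y, hy, z, hz, hxy, hxz, hyz⟩ := two_lt_card.mp hcon
  simp only [mem_filter] at hx hy hz
  have hxy' : (x : ℂ) - y ≠ 0 := sub_ne_zero.mpr (by exact_mod_cast hxy)
  have hxz' : (x : ℂ) - z ≠ 0 := sub_ne_zero.mpr (by exact_mod_cast hxz)
  have hyz' : (y : ℂ) - z ≠ 0 := sub_ne_zero.mpr (by exact_mod_cast hyz)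
  have e1 : ((x : ℂ) - y) * (a * (x + y) + b) = 0 := by linear_combination hx.2 - hy.2
  have e2 : ((x : ℂ) - z) * (a * (x + z) + b) = 0 := by linear_combination hx.2 - hz.2
  have f1 := (mul_eq_zero.mp e1).resolve_left hxy'
  have f2 := (mul_eq_zero.mp e2).resolve_left hxz'
  have e3 : ((y : ℂ) - z) * a = 0 := by linear_combination f1 - f2
  have ha := (mul_eq_zero.mp e3).resolve_left hyz'
  have hb : b = 0 := by rw [ha] at f1; simpa using f1
  have hc : c = 0 := by have := hx.2; rw [ha, hb] at this; simpa using this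
  exact h ⟨ha, hb, hc⟩

/-- A nonzero polynomial of degree at most one has at most one root among `0, …, N-1`. -/
theorem lin_card (N : ℕ) (a b : ℂ) (h : ¬ (a = 0 ∧ b = 0)) :
    ((range N).filter (fun t : ℕ => a * (t : ℂ) + b = 0)).card ≤ 1 := by
  classical
  rw [card_le_one]
  intro x hx y hy
  simp only [mem_filter] at hx hy
  by_contra hxy
  have hxy' : (x : ℂ) - y ≠ 0 := sub_ne_zero.mpr (by exact_mod_cast hxy)
  have e1 : ((x : ℂ) - y) * a = 0 := by linear_combination hx.2 - hy.2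
  have ha := (mul_eq_zero.mp e1).resolve_left hxy'
  have hb : b = 0 := by have := hx.2; rw [ha] at this; simpa using this
  exact h ⟨ha, hb⟩

/-- Box of lattice points. -/
abbrev box (a b c : ℕ) : Finset (ℕ × ℕ × ℕ) := range a ×ˢ range b ×ˢ range c

theorem card_box (a b c : ℕ) : (box a b c).card = a * (b * c) := by
  simp [box]

/-- If the first two coordinates determine the point. -/
theorem card_xy {a b c : ℕ} (S : Finset (ℕ × ℕ × ℕ)) (hS : S ⊆ box a b c)
    (h : ∀ p ∈ S, ∀ q ∈ S, p.1 = q.1 → p.2.1 = q.2.1 → p.2.2 = q.2.2) : S.card ≤ a * b := by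
  classical
  have : S.card ≤ (range a ×ˢ range b).card := by
    apply card_le_card_of_injOn (fun p => (p.1, p.2.1))
    · intro p hp
      have := hS hp
      simp only [box, mem_product] at this
      simp only [coe_product, Set.mem_prod, mem_coe]
      exact ⟨this.1, this.2.1⟩
    · intro p hp q hq hpq
      simp only [Prod.mk.injEq] at hpq
      exact Prod.ext hpq.1 (Prod.ext hpq.2 (h p hp q hq hpq.1 hpq.2))
  simpa using this

/-- Number of points of a box on a (possibly degenerate) quadric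
`α₀ x + α₁ y + α₂ z + α₃ (x z - y²) = e`. -/
theorem count3 (a b c : ℕ) (α₀ α₁ α₂ α₃ e : ℂ)
    (hα : ¬ (α₀ = 0 ∧ α₁ = 0 ∧ α₂ = 0 ∧ α₃ = 0)) :
    ((box a b c).filter (fun p : ℕ × ℕ × ℕ =>
      α₀ * (p.1 : ℂ) + α₁ * (p.2.1 : ℂ) + α₂ * (p.2.2 : ℂ)
        + α₃ * ((p.1 : ℂ) * p.2.2 - (p.2.1 : ℂ) ^ 2) = e)).card
      ≤ a * b + (2 * c + a * c + b * c) := by
  classical
  set S := (box a b c).filter (fun p : ℕ × ℕ × ℕ =>
      α₀ * (p.1 : ℂ) + α₁ * (p.2.1 : ℂ) + α₂ * (p.2.2 : ℂ)
        + α₃ * ((p.1 : ℂ) * p.2.2 - (p.2.1 : ℂ) ^ 2) = e) with hSdef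
  rw [← card_filter_add_card_filter_not (s := S) (fun p => α₂ + α₃ * (p.1 : ℂ) ≠ 0)]
  apply Nat.add_le_add
  · -- generic points
    apply card_xy (c := c)
    · exact (filter_subset _ _).trans (filter_subset _ _)
    · intro p hp q hq h1 h2
      simp only [mem_filter, hSdef] at hp hq
      obtain ⟨⟨-, hp1⟩, hp2⟩ := hp
      obtain ⟨⟨-, hq1⟩, -⟩ := hq
      rw [← h1, ← h2] at hq1
      have : (α₂ + α₃ * (p.1 : ℂ)) * ((p.2.2 : ℂ) - q.2.2) = 0 := by
        linear_combination hp1 - hq1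
      have h3 := (mul_eq_zero.mp this).resolve_left hp2
      have h4 : (p.2.2 : ℂ) = q.2.2 := sub_eq_zero.mp h3
      exact_mod_cast h4
  · -- special points
    by_cases h3 : α₃ = 0
    · by_cases h1 : α₁ = 0
      · by_cases h2 : α₂ = 0
        · have h0 : α₀ ≠ 0 := fun h0 => hα ⟨h0, h1, h2, h3⟩
          -- `x` is determined
          have hsub : S.filter (fun p => ¬ (α₂ + α₃ * (p.1 : ℂ) ≠ 0)) ⊆
              ((range a).filter (fun t : ℕ => α₀ * (t : ℂ) + (-e) = 0)) ×ˢ range b ×ˢ range c := by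
            intro p hp
            simp only [mem_filter, hSdef, box, mem_product, mem_range] at hp ⊢
            obtain ⟨⟨⟨hp1, hp2, hp3⟩, hp4⟩, -⟩ := hp
            refine ⟨⟨hp1, ?_⟩, hp2, hp3⟩
            rw [h1, h2, h3] at hp4
            linear_combination hp4
          calc _ ≤ _ := card_le_card hsub
            _ ≤ 1 * (b * c) := by
                rw [card_product, card_product, card_range, card_range]
                exact Nat.mul_le_mul_right _ (lin_card a α₀ (-e) (fun h => h0 h.1))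
            _ ≤ 2 * c + a * c + b * c := by rw [one_mul]; exact Nat.le_add_left _ _
        · -- no points at all
          have hemp : S.filter (fun p => ¬ (α₂ + α₃ * (p.1 : ℂ) ≠ 0)) = ∅ := by
            rw [filter_eq_empty_iff]
            intro p _
            rw [h3]; simpa using h2
          rw [hemp]; simp
      · -- `y` is determined by `x`
        have hsub : (S.filter (fun p => ¬ (α₂ + α₃ * (p.1 : ℂ) ≠ 0))).card
            ≤ (range a ×ˢ range c).card := by
          apply card_le_card_of_injOn (fun p => (p.1, p.2.2))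
          · intro p hp
            have hp' := (filter_subset _ _).trans (filter_subset _ _) hp
            simp only [box, mem_product] at hp'
            simp only [coe_product, Set.mem_prod, mem_coe]
            exact ⟨hp'.1, hp'.2.2⟩
          · intro p hp q hq hpq
            simp only [Prod.mk.injEq] at hpq
            simp only [mem_coe, mem_filter, hSdef] at hp hq
            obtain ⟨⟨-, hp1⟩, -⟩ := hp
            obtain ⟨⟨-, hq1⟩, -⟩ := hq
            rw [← hpq.1, ← hpq.2, h3] at hq1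
            rw [h3] at hp1
            have : α₁ * ((p.2.1 : ℂ) - q.2.1) = 0 := by linear_combination hp1 - hq1
            have h4 : (p.2.1 : ℂ) = q.2.1 := sub_eq_zero.mp ((mul_eq_zero.mp this).resolve_left h1)
            have h5 : p.2.1 = q.2.1 := by exact_mod_cast h4
            exact Prod.ext hpq.1 (Prod.ext h5 hpq.2)
        rw [card_product, card_range, card_range] at hsub
        omega
    · -- `x` is determined, then at most two `y`
      set x₀ : ℂ := - α₂ / α₃ with hx₀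
      have hsub : S.filter (fun p => ¬ (α₂ + α₃ * (p.1 : ℂ) ≠ 0)) ⊆
          ((range a).filter (fun t : ℕ => α₃ * (t : ℂ) + α₂ = 0)) ×ˢ
          ((range b).filter (fun t : ℕ => α₃ * (t : ℂ) ^ 2 + (-α₁) * (t : ℂ) + (e - α₀ * x₀) = 0))
            ×ˢ range c := by
        intro p hp
        simp only [mem_filter, hSdef, box, mem_product, mem_range, not_not] at hp ⊢
        obtain ⟨⟨⟨hp1, hp2, hp3⟩, hp4⟩, hp5⟩ := hp
        have hx : (p.1 : ℂ) = x₀ := by
          rw [hx₀, eq_div_iff h3]; linear_combination hp5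
        refine ⟨⟨hp1, by linear_combination hp5⟩, ⟨hp2, ?_⟩, hp3⟩
        rw [← hx]
        linear_combination (p.2.2 : ℂ) * hp5 - hp4
      calc _ ≤ _ := card_le_card hsub
        _ ≤ 1 * (2 * c) := by
            rw [card_product, card_product, card_range]
            exact Nat.mul_le_mul (lin_card a α₃ α₂ (fun h => h3 h.1))
              (Nat.mul_le_mul_right _ (quad_card b _ _ _ (fun h => h3 h.1)))
        _ ≤ 2 * c + a * c + b * c := by rw [one_mul, Nat.add_assoc]; exact Nat.le_add_right _ _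

theorem count2a (a b c : ℕ) (α₀ α₁ α₂ e₁ β₀ β₁ β₃ e₂ : ℂ) (h2 : α₂ ≠ 0)
    (hβ : ¬ (β₀ = 0 ∧ β₁ = 0 ∧ β₃ = 0)) (S : Finset (ℕ × ℕ × ℕ)) (hS : S ⊆ box a b c)
    (hS1 : ∀ p ∈ S, α₀ * (p.1 : ℂ) + α₁ * (p.2.1 : ℂ) + α₂ * (p.2.2 : ℂ) = e₁)
    (hS2 : ∀ p ∈ S, β₀ * (p.1 : ℂ) + β₁ * (p.2.1 : ℂ)
      + β₃ * ((p.1 : ℂ) * p.2.2 - (p.2.1 : ℂ) ^ 2) = e₂) :
    S.card ≤ 2 * a + b := by
  classical
  -- `(x, y)` determines `z`
  have hz : ∀ p ∈ S, ∀ q ∈ S, p.1 = q.1 → p.2.1 = q.2.1 → p = q := by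
    intro p hp q hq h1 h3
    have e1 := hS1 p hp
    have e2 := hS1 q hq
    rw [← h1, ← h3] at e2
    have : α₂ * ((p.2.2 : ℂ) - q.2.2) = 0 := by linear_combination e1 - e2
    have h4 : (p.2.2 : ℂ) = q.2.2 := sub_eq_zero.mp ((mul_eq_zero.mp this).resolve_left h2)
    have h5 : p.2.2 = q.2.2 := by exact_mod_cast h4
    exact Prod.ext h1 (Prod.ext h3 h5)
  by_cases h3 : β₃ = 0
  · by_cases h1 : β₁ = 0
    · have h0 : β₀ ≠ 0 := fun h0 => hβ ⟨h0, h1, h3⟩
      -- `x` is constant, `y` determines the point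
      have hle : S.card ≤ (range b).card := by
        apply card_le_card_of_injOn (fun p => p.2.1)
        · intro p hp
          have := hS hp
          simp only [box, mem_product] at this
          exact this.2.1
        · intro p hp q hq hpq
          simp only at hpq
          have e1 := hS2 p hp
          have e2 := hS2 q hq
          rw [h3, h1] at e1 e2
          have : β₀ * ((p.1 : ℂ) - q.1) = 0 := by linear_combination e1 - e2
          have h4 : (p.1 : ℂ) = q.1 := sub_eq_zero.mp ((mul_eq_zero.mp this).resolve_left h0)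
          have h5 : p.1 = q.1 := by exact_mod_cast h4
          exact hz p hp q hq h5 hpq
      rw [card_range] at hle
      omega
    · have hle : S.card ≤ (range a).card := by
        apply card_le_card_of_injOn (fun p => p.1)
        · intro p hp
          have := hS hp
          simp only [box, mem_product] at this
          exact this.1
        · intro p hp q hq hpq
          simp only at hpq
          have e1 := hS2 p hp
          have e2 := hS2 q hq
          rw [h3] at e1 e2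
          rw [← hpq] at e2
          have : β₁ * ((p.2.1 : ℂ) - q.2.1) = 0 := by linear_combination e1 - e2
          have h4 : (p.2.1 : ℂ) = q.2.1 := sub_eq_zero.mp ((mul_eq_zero.mp this).resolve_left h1)
          have h5 : p.2.1 = q.2.1 := by exact_mod_cast h4
          exact hz p hp q hq hpq h5
      rw [card_range] at hle
      omega
  · have hle : S.card ≤ 2 * (range a).card := by
      apply card_le_mul_card_image_of_maps_to (f := fun p => p.1)
      · intro p hp
        have := hS hp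
        simp only [box, mem_product] at this
        exact this.1
      · intro x _
        calc (S.filter (fun p => p.1 = x)).card
            ≤ ((range b).filter (fun t : ℕ => (-(α₂ * β₃)) * (t : ℂ) ^ 2
                + (β₁ * α₂ - β₃ * x * α₁) * (t : ℂ)
                + (β₀ * x * α₂ + β₃ * x * (e₁ - α₀ * x) - e₂ * α₂) = 0)).card := by
              apply card_le_card_of_injOn (fun p => p.2.1)
              · intro p hp
                simp only [coe_filter, Set.mem_ofPred_eq, mem_filter] at hp ⊢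
                obtain ⟨hpS, hpx⟩ := hp
                have hb := hS hpS
                simp only [box, mem_product] at hb
                refine ⟨hb.2.1, ?_⟩
                have e1 := hS1 p hpS
                have e2 := hS2 p hpS
                rw [hpx] at e1 e2
                linear_combination α₂ * e2 - β₃ * x * e1
              · intro p hp q hq hpq
                simp only [coe_filter, Set.mem_ofPred_eq] at hp hq
                exact hz p hp.1 q hq.1 (hp.2.trans hq.2.symm) hpq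
          _ ≤ 2 := quad_card b _ _ _ (fun h => by
              have := h.1
              rw [neg_eq_zero, mul_eq_zero] at this
              exact this.elim h2 h3)
    rw [card_range] at hle
    omega

theorem count2b (a b c : ℕ) (α₀ α₁ e₁ β₀ β₂ β₃ e₂ : ℂ) (h1 : α₁ ≠ 0)
    (hβ : ¬ (β₀ = 0 ∧ β₂ = 0 ∧ β₃ = 0)) (S : Finset (ℕ × ℕ × ℕ)) (hS : S ⊆ box a b c)
    (hS1 : ∀ p ∈ S, α₀ * (p.1 : ℂ) + α₁ * (p.2.1 : ℂ) = e₁)
    (hS2 : ∀ p ∈ S, β₀ * (p.1 : ℂ) + β₂ * (p.2.2 : ℂ)
      + β₃ * ((p.1 : ℂ) * p.2.2 - (p.2.1 : ℂ) ^ 2) = e₂) :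
    S.card ≤ a + c := by
  classical
  -- `x` determines `y`
  have hy : ∀ p ∈ S, ∀ q ∈ S, p.1 = q.1 → p.2.1 = q.2.1 := by
    intro p hp q hq h0
    have e1 := hS1 p hp
    have e2 := hS1 q hq
    rw [← h0] at e2
    have : α₁ * ((p.2.1 : ℂ) - q.2.1) = 0 := by linear_combination e1 - e2
    have h4 : (p.2.1 : ℂ) = q.2.1 := sub_eq_zero.mp ((mul_eq_zero.mp this).resolve_left h1)
    exact_mod_cast h4
  rw [← card_filter_add_card_filter_not (s := S) (fun p => β₂ + β₃ * (p.1 : ℂ) ≠ 0)]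
  apply Nat.add_le_add
  · rw [← card_range a]
    apply card_le_card_of_injOn (fun p => p.1)
    · intro p hp
      have := hS (filter_subset _ _ hp)
      simp only [box, mem_product] at this
      exact this.1
    · intro p hp q hq hpq
      simp only [coe_filter, Set.mem_ofPred_eq] at hp hq hpq
      have h3 := hy p hp.1 q hq.1 hpq
      have e1 := hS2 p hp.1
      have e2 := hS2 q hq.1
      rw [← hpq, ← h3] at e2
      have : (β₂ + β₃ * (p.1 : ℂ)) * ((p.2.2 : ℂ) - q.2.2) = 0 := by linear_combination e1 - e2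
      have h4 : (p.2.2 : ℂ) = q.2.2 := sub_eq_zero.mp ((mul_eq_zero.mp this).resolve_left hp.2)
      have h5 : p.2.2 = q.2.2 := by exact_mod_cast h4
      exact Prod.ext hpq (Prod.ext h3 h5)
  · -- all these points have the same `x`
    have hx : ∀ p ∈ S.filter (fun p => ¬ (β₂ + β₃ * (p.1 : ℂ) ≠ 0)),
        ∀ q ∈ S.filter (fun p => ¬ (β₂ + β₃ * (p.1 : ℂ) ≠ 0)), p.1 = q.1 := by
      intro p hp q hq
      simp only [mem_filter, not_not] at hp hq
      by_cases h3 : β₃ = 0
      · have h2 : β₂ = 0 := by have := hp.2; rw [h3] at this; simpa using this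
        have h0 : β₀ ≠ 0 := fun h0 => hβ ⟨h0, h2, h3⟩
        have e1 := hS2 p hp.1
        have e2 := hS2 q hq.1
        rw [h2, h3] at e1 e2
        have : β₀ * ((p.1 : ℂ) - q.1) = 0 := by linear_combination e1 - e2
        have h4 : (p.1 : ℂ) = q.1 := sub_eq_zero.mp ((mul_eq_zero.mp this).resolve_left h0)
        exact_mod_cast h4
      · have : β₃ * ((p.1 : ℂ) - q.1) = 0 := by linear_combination hp.2 - hq.2
        have h4 : (p.1 : ℂ) = q.1 := sub_eq_zero.mp ((mul_eq_zero.mp this).resolve_left h3)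
        exact_mod_cast h4
    rw [← card_range c]
    apply card_le_card_of_injOn (fun p => p.2.2)
    · intro p hp
      have := hS (filter_subset _ _ hp)
      simp only [box, mem_product] at this
      exact this.2.2
    · intro p hp q hq hpq
      have h0 := hx p hp q hq
      have hp' := filter_subset _ _ hp
      have hq' := filter_subset _ _ hq
      exact Prod.ext h0 (Prod.ext (hy p hp' q hq' h0) hpq)

theorem count2c (a b c : ℕ) (α₀ e₁ β₁ β₂ β₃ e₂ : ℂ) (h0 : α₀ ≠ 0)
    (hβ : ¬ (β₁ = 0 ∧ β₂ = 0 ∧ β₃ = 0)) (S : Finset (ℕ × ℕ × ℕ)) (hS : S ⊆ box a b c)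
    (hS1 : ∀ p ∈ S, α₀ * (p.1 : ℂ) = e₁)
    (hS2 : ∀ p ∈ S, β₁ * (p.2.1 : ℂ) + β₂ * (p.2.2 : ℂ)
      + β₃ * ((p.1 : ℂ) * p.2.2 - (p.2.1 : ℂ) ^ 2) = e₂) :
    S.card ≤ b + 2 * c := by
  classical
  set x₀ : ℂ := e₁ / α₀ with hx₀
  have hx : ∀ p ∈ S, (p.1 : ℂ) = x₀ := by
    intro p hp
    rw [hx₀, eq_div_iff h0]; linear_combination hS1 p hp
  have hxn : ∀ p ∈ S, ∀ q ∈ S, p.1 = q.1 := by
    intro p hp q hq
    have := (hx p hp).trans (hx q hq).symm
    exact_mod_cast this
  by_cases hg : β₂ + β₃ * x₀ = 0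
  · have hsub : S.card ≤ ((range b).filter
        (fun t : ℕ => (-β₃) * (t : ℂ) ^ 2 + β₁ * (t : ℂ) + (-e₂) = 0) ×ˢ range c).card := by
      apply card_le_card_of_injOn (fun p => p.2)
      · intro p hp
        have hb := hS hp
        simp only [box, mem_product] at hb
        simp only [coe_product, Set.mem_prod, mem_coe, mem_filter]
        refine ⟨⟨hb.2.1, ?_⟩, hb.2.2⟩
        have e2 := hS2 p hp
        rw [hx p hp] at e2
        linear_combination e2 - (p.2.2 : ℂ) * hg
      · intro p hp q hq hpq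
        exact Prod.ext (hxn p hp q hq) hpq
    rw [card_product, card_range] at hsub
    have hq : ((range b).filter
        (fun t : ℕ => (-β₃) * (t : ℂ) ^ 2 + β₁ * (t : ℂ) + (-e₂) = 0)).card ≤ 2 := by
      apply quad_card
      rintro ⟨h3, h1, -⟩
      have h3' : β₃ = 0 := neg_eq_zero.mp h3
      have h2 : β₂ = 0 := by rw [h3'] at hg; simpa using hg
      exact hβ ⟨h1, h2, h3'⟩
    have := Nat.mul_le_mul_right c hq
    omega
  · have hle : S.card ≤ (range b).card := by
      apply card_le_card_of_injOn (fun p => p.2.1)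
      · intro p hp
        have := hS hp
        simp only [box, mem_product] at this
        exact this.2.1
      · intro p hp q hq hpq
        simp only at hpq
        have e1 := hS2 p hp
        have e2 := hS2 q hq
        rw [hx p hp] at e1
        rw [hx q hq, ← hpq] at e2
        have : (β₂ + β₃ * x₀) * ((p.2.2 : ℂ) - q.2.2) = 0 := by linear_combination e1 - e2
        have h4 : (p.2.2 : ℂ) = q.2.2 := sub_eq_zero.mp ((mul_eq_zero.mp this).resolve_left hg)
        have h5 : p.2.2 = q.2.2 := by exact_mod_cast h4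
        exact Prod.ext (hxn p hp q hq) (Prod.ext hpq h5)
    rw [card_range] at hle
    omega


theorem sFlat_le {d : ℕ} (V : Finset (Fin d → ℂ)) (ℓ B : ℕ)
    (h : ∀ F : AffineSubspace ℂ (Fin d → ℂ), Module.finrank ℂ F.direction = ℓ →
      ((V : Set (Fin d → ℂ)) ∩ F).ncard ≤ B) : sFlat V ℓ ≤ B := by
  unfold sFlat
  rcases Set.eq_empty_or_nonempty {k : ℕ | ∃ F : AffineSubspace ℂ (Fin d → ℂ),
    Module.finrank ℂ F.direction = ℓ ∧ k = ((V : Set (Fin d → ℂ)) ∩ F).ncard} with he | hne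
  · rw [he]; simp
  · apply csSup_le hne
    rintro k ⟨F, hF, rfl⟩
    exact h F hF

/-- Sanity check: `sFlat V ℓ` is at least the number of points of `V` on any `ℓ`-flat. -/
theorem le_sFlat {d : ℕ} (V : Finset (Fin d → ℂ)) (F : AffineSubspace ℂ (Fin d → ℂ)) :
    ((V : Set (Fin d → ℂ)) ∩ F).ncard ≤ sFlat V (Module.finrank ℂ F.direction) := by
  apply le_csSup
  · refine ⟨V.card, ?_⟩
    rintro k ⟨G, -, rfl⟩
    calc ((V : Set (Fin d → ℂ)) ∩ G).ncard ≤ (V : Set (Fin d → ℂ)).ncard :=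
          Set.ncard_le_ncard Set.inter_subset_left V.finite_toSet
      _ = V.card := Set.ncard_coe_finset V
  · exact ⟨F, rfl, rfl⟩

theorem sFlat_le_card {d : ℕ} (V : Finset (Fin d → ℂ)) (ℓ : ℕ) : sFlat V ℓ ≤ V.card := by
  apply sFlat_le
  intro F _
  calc ((V : Set (Fin d → ℂ)) ∩ F).ncard ≤ (V : Set (Fin d → ℂ)).ncard :=
        Set.ncard_le_ncard Set.inter_subset_left V.finite_toSet
    _ = V.card := Set.ncard_coe_finset V

/-- A linear relation between `m` coordinates on a subspace of dimension `< m`. -/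
theorem exists_relation {d m : ℕ} (W : Submodule ℂ (Fin d → ℂ)) (hW : Module.finrank ℂ W < m)
    (ι : Fin m → Fin d) :
    ∃ α : Fin m → ℂ, α ≠ 0 ∧ ∀ w ∈ W, ∑ j, α j * w (ι j) = 0 := by
  let f : (Fin m → ℂ) →ₗ[ℂ] Module.Dual ℂ W :=
    { toFun := fun α =>
        { toFun := fun w => ∑ j, α j * (w : Fin d → ℂ) (ι j)
          map_add' := by
            intro x y
            rw [← Finset.sum_add_distrib]
            apply Finset.sum_congr rfl
            intro j _
            simp [mul_add]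
          map_smul' := by
            intro t x
            simp only [Submodule.coe_smul, Pi.smul_apply, smul_eq_mul, RingHom.id_apply,
              Finset.mul_sum]
            apply Finset.sum_congr rfl
            intro j _
            ring }
      map_add' := by
        intro x y
        ext w
        simp only [Pi.add_apply, LinearMap.coe_mk, AddHom.coe_mk, LinearMap.add_apply]
        rw [← Finset.sum_add_distrib]
        apply Finset.sum_congr rfl
        intro j _
        ring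
      map_smul' := by
        intro t x
        ext w
        simp only [Pi.smul_apply, smul_eq_mul, LinearMap.coe_mk, AddHom.coe_mk,
          LinearMap.smul_apply, RingHom.id_apply, Finset.mul_sum]
        apply Finset.sum_congr rfl
        intro j _
        ring }
  have hker : LinearMap.ker f ≠ ⊥ := by
    apply LinearMap.ker_ne_bot_of_finrank_lt
    rw [Subspace.dual_finrank_eq]
    simpa using hW
  obtain ⟨α, hα, hα0⟩ := Submodule.exists_mem_ne_zero_of_ne_bot hker
  refine ⟨α, hα0, ?_⟩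
  intro w hw
  have h1 : f α = 0 := hα
  have h2 := congrArg (fun g : Module.Dual ℂ W => g ⟨w, hw⟩) h1
  simpa [f] using h2

/-! ### The configuration -/

/-- The point `(x, y, z, xz - y², 0, …, 0)`. -/
def pt (d : ℕ) (x y z : ℂ) : Fin d → ℂ := fun i =>
  if i.val = 0 then x else if i.val = 1 then y else if i.val = 2 then z
  else if i.val = 3 then x * z - y ^ 2 else 0

/-- The point with natural coordinates. -/
def ptn (d : ℕ) (p : ℕ × ℕ × ℕ) : Fin d → ℂ := pt d p.1 p.2.1 p.2.2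

theorem ptn_injective (d : ℕ) (hd : 4 ≤ d) : Function.Injective (ptn d) := by
  intro p q h
  have h0 := congrFun h ⟨0, by omega⟩
  have h1 := congrFun h ⟨1, by omega⟩
  have h2 := congrFun h ⟨2, by omega⟩
  simp only [ptn, pt] at h0 h1 h2
  norm_num at h0 h1 h2
  exact Prod.ext h0 (Prod.ext h1 h2)

/-- The point set. -/
noncomputable def conf (d a b c : ℕ) : Finset (Fin d → ℂ) := by
  classical
  exact (box a b c).image (ptn d)

theorem mem_conf (d a b c : ℕ) (v : Fin d → ℂ) :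
    v ∈ conf d a b c ↔ ∃ p ∈ box a b c, ptn d p = v := by
  classical
  simp [conf]

theorem card_conf (d a b c : ℕ) (hd : 4 ≤ d) : (conf d a b c).card = a * (b * c) := by
  classical
  rw [conf, card_image_of_injective _ (ptn_injective d hd), card_box]

theorem ncard_inter (d a b c : ℕ) (hd : 4 ≤ d) (F : AffineSubspace ℂ (Fin d → ℂ)) :
    ∃ S : Finset (ℕ × ℕ × ℕ), S ⊆ box a b c ∧ (∀ p ∈ S, ptn d p ∈ F) ∧
      ((conf d a b c : Set (Fin d → ℂ)) ∩ F).ncard = S.card := by
  classical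
  refine ⟨(box a b c).filter (fun p => ptn d p ∈ F), filter_subset _ _, ?_, ?_⟩
  · intro p hp; exact (mem_filter.mp hp).2
  · have : ((conf d a b c : Set (Fin d → ℂ)) ∩ F)
        = (((box a b c).filter (fun p => ptn d p ∈ F)).image (ptn d) : Finset _) := by
      ext v
      simp only [Set.mem_inter_iff, mem_coe, mem_conf, mem_image, mem_filter, SetLike.mem_coe]
      constructor
      · rintro ⟨⟨p, hp, rfl⟩, h⟩
        exact ⟨p, ⟨hp, h⟩, rfl⟩
      · rintro ⟨p, ⟨hp, h⟩, rfl⟩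
        exact ⟨⟨p, hp, rfl⟩, h⟩
    rw [this, Set.ncard_coe_finset, card_image_of_injective _ (ptn_injective d hd)]

/-- Relations on `F` from relations on its direction. -/
theorem relation_const {d m : ℕ} (F : AffineSubspace ℂ (Fin d → ℂ)) (ι : Fin m → Fin d)
    (α : Fin m → ℂ) (hα : ∀ w ∈ F.direction, ∑ j, α j * w (ι j) = 0) :
    ∃ e : ℂ, ∀ v ∈ F, ∑ j, α j * v (ι j) = e := by
  by_cases hF : ∃ v₀, v₀ ∈ F
  · obtain ⟨v₀, hv₀⟩ := hF
    refine ⟨∑ j, α j * v₀ (ι j), ?_⟩
    intro v hv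
    have h1 := hα (v -ᵥ v₀) (AffineSubspace.vsub_mem_direction hv hv₀)
    simp only [vsub_eq_sub, Pi.sub_apply, mul_sub, Finset.sum_sub_distrib] at h1
    exact sub_eq_zero.mp h1
  · exact ⟨0, fun v hv => absurd ⟨v, hv⟩ hF⟩

theorem s3_bound (d a b c : ℕ) (hd : 4 ≤ d) :
    sFlat (conf d a b c) 3 ≤ a * b + (2 * c + a * c + b * c) := by
  classical
  apply sFlat_le
  intro F hF
  obtain ⟨S, hS, hSF, hcard⟩ := ncard_inter d a b c hd F
  rw [hcard]
  let ι : Fin 4 → Fin d := fun j => ⟨j.val, by omega⟩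
  obtain ⟨α, hα0, hα⟩ := exists_relation F.direction (m := 4) (by omega) ι
  obtain ⟨e, he⟩ := relation_const F ι α hα
  have hne : ¬ (α 0 = 0 ∧ α 1 = 0 ∧ α 2 = 0 ∧ α 3 = 0) := by
    rintro ⟨h0, h1, h2, h3⟩
    apply hα0
    funext j
    fin_cases j
    · exact h0
    · exact h1
    · exact h2
    · exact h3
  refine le_trans (card_le_card ?_) (count3 a b c (α 0) (α 1) (α 2) (α 3) e hne)
  intro p hp
  rw [mem_filter]
  refine ⟨hS hp, ?_⟩
  have := he _ (hSF p hp)
  simp only [Fin.sum_univ_four, ι, ptn, pt] at this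
  norm_num at this
  exact this

theorem s2_bound (d a b c : ℕ) (hd : 4 ≤ d) :
    sFlat (conf d a b c) 2 ≤ 2 * (a + b + c) := by
  classical
  apply sFlat_le
  intro F hF
  obtain ⟨S, hS, hSF, hcard⟩ := ncard_inter d a b c hd F
  rw [hcard]
  let ι : Fin 3 → Fin d := fun j => ⟨j.val, by omega⟩
  obtain ⟨α, hα0, hα⟩ := exists_relation F.direction (m := 3) (by omega) ι
  obtain ⟨e₁, he₁⟩ := relation_const F ι α hα
  have hr1 : ∀ p ∈ S, α 0 * (p.1 : ℂ) + α 1 * (p.2.1 : ℂ) + α 2 * (p.2.2 : ℂ) = e₁ := by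
    intro p hp
    have := he₁ _ (hSF p hp)
    simp only [Fin.sum_univ_three, ι, ptn, pt] at this
    norm_num at this
    exact this
  by_cases h2 : α 2 = 0
  · by_cases h1 : α 1 = 0
    · have h0 : α 0 ≠ 0 := by
        intro h0
        apply hα0
        funext j
        fin_cases j
        · exact h0
        · exact h1
        · exact h2
      -- second relation among the coordinates 1, 2, 3
      let κ : Fin 3 → Fin d := ![⟨1, by omega⟩, ⟨2, by omega⟩, ⟨3, by omega⟩]
      obtain ⟨β, hβ0, hβ⟩ := exists_relation F.direction (m := 3) (by omega) κ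
      obtain ⟨e₂, he₂⟩ := relation_const F κ β hβ
      have hr2 : ∀ p ∈ S, β 0 * (p.2.1 : ℂ) + β 1 * (p.2.2 : ℂ)
          + β 2 * ((p.1 : ℂ) * p.2.2 - (p.2.1 : ℂ) ^ 2) = e₂ := by
        intro p hp
        have := he₂ _ (hSF p hp)
        simp only [Fin.sum_univ_three, κ, ptn, pt] at this
        norm_num at this
        exact this
      have := count2c a b c (α 0) e₁ (β 0) (β 1) (β 2) e₂ h0 (by
        rintro ⟨k0, k1, k2⟩
        apply hβ0
        funext j
        fin_cases j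
        · exact k0
        · exact k1
        · exact k2) S hS (by
          intro p hp
          have := hr1 p hp
          rw [h1, h2] at this
          linear_combination this) hr2
      omega
    · let κ : Fin 3 → Fin d := ![⟨0, by omega⟩, ⟨2, by omega⟩, ⟨3, by omega⟩]
      obtain ⟨β, hβ0, hβ⟩ := exists_relation F.direction (m := 3) (by omega) κ
      obtain ⟨e₂, he₂⟩ := relation_const F κ β hβ
      have hr2 : ∀ p ∈ S, β 0 * (p.1 : ℂ) + β 1 * (p.2.2 : ℂ)
          + β 2 * ((p.1 : ℂ) * p.2.2 - (p.2.1 : ℂ) ^ 2) = e₂ := by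
        intro p hp
        have := he₂ _ (hSF p hp)
        simp only [Fin.sum_univ_three, κ, ptn, pt] at this
        norm_num at this
        exact this
      have := count2b a b c (α 0) (α 1) e₁ (β 0) (β 1) (β 2) e₂ h1 (by
        rintro ⟨k0, k1, k2⟩
        apply hβ0
        funext j
        fin_cases j
        · exact k0
        · exact k1
        · exact k2) S hS (by
          intro p hp
          have := hr1 p hp
          rw [h2] at this
          linear_combination this) hr2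
      omega
  · let κ : Fin 3 → Fin d := ![⟨0, by omega⟩, ⟨1, by omega⟩, ⟨3, by omega⟩]
    obtain ⟨β, hβ0, hβ⟩ := exists_relation F.direction (m := 3) (by omega) κ
    obtain ⟨e₂, he₂⟩ := relation_const F κ β hβ
    have hr2 : ∀ p ∈ S, β 0 * (p.1 : ℂ) + β 1 * (p.2.1 : ℂ)
        + β 2 * ((p.1 : ℂ) * p.2.2 - (p.2.1 : ℂ) ^ 2) = e₂ := by
      intro p hp
      have := he₂ _ (hSF p hp)
      simp only [Fin.sum_univ_three, κ, ptn, pt] at this
      norm_num at this
      exact this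
    have := count2a a b c (α 0) (α 1) (α 2) e₁ (β 0) (β 1) (β 2) e₂ h2 (by
      rintro ⟨k0, k1, k2⟩
      apply hβ0
      funext j
      fin_cases j
      · exact k0
      · exact k1
      · exact k2) S hS hr1 hr2
    omega

/-! ### Finiteness of the set of rich lines -/

theorem finite_richLines {d : ℕ} (V : Finset (Fin d → ℂ)) (r : ℕ) (hr : 2 ≤ r) :
    (richLines V r).Finite := by
  classical
  have hfin : ((fun p : (Fin d → ℂ) × (Fin d → ℂ) =>
      affineSpan ℂ ({p.1, p.2} : Set (Fin d → ℂ))) '' ((V ×ˢ V : Finset _) : Set _)).Finite :=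
    (Finset.finite_toSet _).image _
  refine hfin.subset ?_
  rintro L ⟨hL, hcard⟩
  have hfinVL : ((V : Set (Fin d → ℂ)) ∩ L).Finite := V.finite_toSet.subset Set.inter_subset_left
  obtain ⟨p, hp, q, hq, hpq⟩ := (Set.one_lt_ncard hfinVL).mp (by omega)
  refine ⟨(p, q), ?_, ?_⟩
  · simp only [coe_product, Set.mem_prod, mem_coe]
    exact ⟨hp.1, hq.1⟩
  · have hle : affineSpan ℂ ({p, q} : Set (Fin d → ℂ)) ≤ L :=
      affineSpan_pair_le_of_mem_of_mem hp.2 hq.2
    have hdir : (affineSpan ℂ ({p, q} : Set (Fin d → ℂ))).direction = L.direction := by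
      apply Submodule.eq_of_le_of_finrank_eq (AffineSubspace.direction_le hle)
      rw [direction_affineSpan, vectorSpan_pair, hL, finrank_span_singleton]
      rw [vsub_eq_sub]
      exact sub_ne_zero.mpr hpq
    exact AffineSubspace.eq_of_direction_eq_of_nonempty_of_le hdir
      ⟨p, subset_affineSpan ℂ _ (by simp)⟩ hle

/-! ### The lines of the configuration -/

/-- Direction of a line. -/
def dir (d : ℕ) (y z b : ℂ) : Fin d → ℂ := fun i =>
  if i.val = 0 then 1 else if i.val = 1 then b else if i.val = 2 then b ^ 2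
  else if i.val = 3 then z - 2 * b * y else 0

/-- The line through `(0, y, z, -y²)` with direction `(1, b, b², z - 2by)`; the parameter triple is
`(b, y, z)`. -/
def theLine (d : ℕ) (p : ℕ × ℕ × ℕ) : AffineSubspace ℂ (Fin d → ℂ) :=
  AffineSubspace.mk' (pt d 0 p.2.1 p.2.2) (Submodule.span ℂ {dir d p.2.1 p.2.2 p.1})

theorem dir_ne_zero (d : ℕ) (hd : 4 ≤ d) (y z b : ℂ) : dir d y z b ≠ 0 := by
  intro h
  have := congrFun h ⟨0, by omega⟩
  simp [dir] at this

theorem finrank_theLine (d : ℕ) (hd : 4 ≤ d) (p : ℕ × ℕ × ℕ) :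
    Module.finrank ℂ (theLine d p).direction = 1 := by
  rw [theLine, AffineSubspace.direction_mk']
  exact finrank_span_singleton (dir_ne_zero d hd _ _ _)

theorem pt_add_dir (d : ℕ) (y z b t : ℂ) :
    pt d t (y + b * t) (z + b ^ 2 * t) = pt d 0 y z + t • dir d y z b := by
  funext i
  simp only [pt, dir, Pi.add_apply, Pi.smul_apply, smul_eq_mul]
  split_ifs <;> ring

theorem pt_mem_theLine (d : ℕ) (p : ℕ × ℕ × ℕ) (t : ℂ) :
    pt d t (p.2.1 + p.1 * t) (p.2.2 + (p.1 : ℂ) ^ 2 * t) ∈ theLine d p := by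
  rw [theLine, AffineSubspace.mem_mk', pt_add_dir, vsub_eq_sub, add_sub_cancel_left]
  exact Submodule.smul_mem _ _ (Submodule.mem_span_singleton_self _)

theorem theLine_injective (d : ℕ) (hd : 4 ≤ d) : Function.Injective (theLine d) := by
  intro p q h
  have hp : pt d 0 p.2.1 p.2.2 ∈ theLine d q := by
    rw [← h]
    have := pt_mem_theLine d p 0
    simpa using this
  have hp1 : pt d 1 (p.2.1 + p.1) (p.2.2 + (p.1 : ℂ) ^ 2) ∈ theLine d q := by
    rw [← h]
    have := pt_mem_theLine d p 1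
    simpa using this
  rw [theLine, AffineSubspace.mem_mk', vsub_eq_sub, Submodule.mem_span_singleton] at hp hp1
  obtain ⟨s, hs⟩ := hp
  obtain ⟨t, ht⟩ := hp1
  have hs0 := congrFun hs ⟨0, by omega⟩
  have hs1 := congrFun hs ⟨1, by omega⟩
  have hs2 := congrFun hs ⟨2, by omega⟩
  have ht0 := congrFun ht ⟨0, by omega⟩
  have ht1 := congrFun ht ⟨1, by omega⟩
  simp only [pt, dir, Pi.smul_apply, Pi.sub_apply, smul_eq_mul] at hs0 hs1 hs2 ht0 ht1
  norm_num at hs0 hs1 hs2 ht0 ht1
  rw [hs0] at hs1 hs2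
  rw [ht0] at ht1
  have h1 : (p.2.1 : ℂ) = q.2.1 := by linear_combination -hs1
  have h2 : (p.2.2 : ℂ) = q.2.2 := by linear_combination -hs2
  have h3 : (p.1 : ℂ) = q.1 := by linear_combination -ht1 - h1
  exact Prod.ext (by exact_mod_cast h3) (Prod.ext (by exact_mod_cast h1) (by exact_mod_cast h2))

theorem rich_theLine (d B : ℕ) (hd : 4 ≤ d) (p : ℕ × ℕ × ℕ) (hp : p ∈ box B (B ^ 4) (B ^ 5)) :
    theLine d p ∈ richLines (conf d (B ^ 3) (2 * B ^ 4) (2 * B ^ 5)) (B ^ 3) := by
  classical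
  refine ⟨finrank_theLine d hd p, ?_⟩
  simp only [box, mem_product, mem_range] at hp
  obtain ⟨hb, hy, hz⟩ := hp
  let g : ℕ → (Fin d → ℂ) := fun t => ptn d (t, p.2.1 + p.1 * t, p.2.2 + p.1 ^ 2 * t)
  have hg : Function.Injective g := by
    intro s t hst
    have := ptn_injective d hd hst
    exact (Prod.mk.injEq _ _ _ _ ▸ this).1
  have hsub : (((range (B ^ 3)).image g : Finset _) : Set (Fin d → ℂ)) ⊆
      ((conf d (B ^ 3) (2 * B ^ 4) (2 * B ^ 5) : Finset _) : Set (Fin d → ℂ)) ∩ theLine d p := by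
    intro v hv
    simp only [coe_image, coe_range, Set.mem_image, Set.mem_Iio] at hv
    obtain ⟨t, ht, rfl⟩ := hv
    constructor
    · rw [mem_coe, mem_conf]
      refine ⟨(t, p.2.1 + p.1 * t, p.2.2 + p.1 ^ 2 * t), ?_, rfl⟩
      simp only [box, mem_product, mem_range]
      refine ⟨ht, ?_, ?_⟩
      · have h1 : p.1 * t ≤ B * B ^ 3 := Nat.mul_le_mul hb.le ht.le
        have h2 : B * B ^ 3 = B ^ 4 := by ring
        omega
      · have h1 : p.1 ^ 2 * t ≤ B ^ 2 * B ^ 3 := Nat.mul_le_mul (Nat.pow_le_pow_left hb.le 2) ht.le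
        have h2 : B ^ 2 * B ^ 3 = B ^ 5 := by ring
        omega
    · have := pt_mem_theLine d p (t : ℂ)
      simp only [g, ptn, SetLike.mem_coe]
      push_cast
      exact this
  calc B ^ 3 = ((range (B ^ 3)).image g).card := by
        rw [card_image_of_injective _ hg, card_range]
    _ = (((range (B ^ 3)).image g : Finset _) : Set (Fin d → ℂ)).ncard :=
        (Set.ncard_coe_finset _).symm
    _ ≤ _ := Set.ncard_le_ncard hsub ((Finset.finite_toSet _).subset Set.inter_subset_left)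

theorem ncard_richLines_ge (d B : ℕ) (hd : 4 ≤ d) (hB : 2 ≤ B) :
    B ^ 10 ≤ (richLines (conf d (B ^ 3) (2 * B ^ 4) (2 * B ^ 5)) (B ^ 3)).ncard := by
  classical
  have hr : 2 ≤ B ^ 3 := hB.trans (Nat.le_self_pow (by norm_num) B)
  have hsub : (((box B (B ^ 4) (B ^ 5)).image (theLine d) : Finset _) :
      Set (AffineSubspace ℂ (Fin d → ℂ))) ⊆
      richLines (conf d (B ^ 3) (2 * B ^ 4) (2 * B ^ 5)) (B ^ 3) := by
    intro L hL
    simp only [coe_image, Set.mem_image, mem_coe] at hL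
    obtain ⟨p, hp, rfl⟩ := hL
    exact rich_theLine d B hd p hp
  calc B ^ 10 = ((box B (B ^ 4) (B ^ 5)).image (theLine d)).card := by
        rw [card_image_of_injective _ (theLine_injective d hd), card_box]; ring
    _ = (((box B (B ^ 4) (B ^ 5)).image (theLine d) : Finset _) :
          Set (AffineSubspace ℂ (Fin d → ℂ))).ncard := (Set.ncard_coe_finset _).symm
    _ ≤ _ := Set.ncard_le_ncard hsub (finite_richLines _ _ hr)

theorem bracket_le (d B : ℕ) (hd : 4 ≤ d) (hB : 2 ≤ B) :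
    bracket (conf d (B ^ 3) (2 * B ^ 4) (2 * B ^ 5)) (B ^ 3) ≤ 48 * d * (B : ℝ) ^ 9 := by
  set V := conf d (B ^ 3) (2 * B ^ 4) (2 * B ^ 5) with hV
  have hn : (V.card : ℝ) = 4 * (B : ℝ) ^ 12 := by
    rw [hV, card_conf d _ _ _ hd]; push_cast; ring
  have hB1 : (1 : ℝ) ≤ B := by exact_mod_cast (by omega : 1 ≤ B)
  have hB0 : (0 : ℝ) < B := by linarith
  have hr0 : (0 : ℝ) < (B : ℝ) ^ 3 := by positivity
  have hr1 : (1 : ℝ) ≤ (B : ℝ) ^ 3 := one_le_pow₀ hB1
  have hpow : ∀ {i j : ℕ}, i ≤ j → (B : ℝ) ^ i ≤ (B : ℝ) ^ j := fun h => pow_le_pow_right₀ hB1 h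
  -- the three kinds of terms
  have hs2 : (sFlat V 2 : ℝ) ≤ 10 * (B : ℝ) ^ 5 := by
    have h := s2_bound d (B ^ 3) (2 * B ^ 4) (2 * B ^ 5) hd
    have h' : (sFlat V 2 : ℝ) ≤ 2 * ((B : ℝ) ^ 3 + 2 * (B : ℝ) ^ 4 + 2 * (B : ℝ) ^ 5) := by
      exact_mod_cast h
    have h1 := hpow (show 3 ≤ 5 by norm_num)
    have h2 := hpow (show 4 ≤ 5 by norm_num)
    linarith
  have hs3 : (sFlat V 3 : ℝ) ≤ 12 * (B : ℝ) ^ 9 := by
    have h := s3_bound d (B ^ 3) (2 * B ^ 4) (2 * B ^ 5) hd
    have h' : (sFlat V 3 : ℝ) ≤ (B : ℝ) ^ 3 * (2 * (B : ℝ) ^ 4)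
        + (2 * (2 * (B : ℝ) ^ 5) + (B : ℝ) ^ 3 * (2 * (B : ℝ) ^ 5)
          + 2 * (B : ℝ) ^ 4 * (2 * (B : ℝ) ^ 5)) := by
      exact_mod_cast h
    have h1 := hpow (show 7 ≤ 9 by norm_num)
    have h2 := hpow (show 5 ≤ 9 by norm_num)
    have h3 := hpow (show 8 ≤ 9 by norm_num)
    nlinarith [h', h1, h2, h3]
  have hterm : ∀ ℓ ∈ Finset.Icc 2 (d - 1),
      (V.card : ℝ) * (sFlat V ℓ : ℝ) / ((B : ℝ) ^ 3) ^ (ℓ + 1) ≤ 48 * (B : ℝ) ^ 9 := by
    intro ℓ hℓ
    rw [Finset.mem_Icc] at hℓ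
    rw [div_le_iff₀ (by positivity)]
    rcases Nat.lt_or_ge ℓ 4 with hlt | hge
    · have : ℓ = 2 ∨ ℓ = 3 := by omega
      rcases this with rfl | rfl
      · rw [hn]
        calc 4 * (B : ℝ) ^ 12 * (sFlat V 2 : ℝ) ≤ 4 * (B : ℝ) ^ 12 * (10 * (B : ℝ) ^ 5) := by
              gcongr
          _ = 40 * (B : ℝ) ^ 17 := by ring
          _ ≤ 48 * (B : ℝ) ^ 18 := by
              have := hpow (show 17 ≤ 18 by norm_num)
              have h0 : (0 : ℝ) ≤ (B : ℝ) ^ 17 := by positivity
              linarith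
          _ = 48 * (B : ℝ) ^ 9 * ((B : ℝ) ^ 3) ^ (2 + 1) := by ring
      · rw [hn]
        calc 4 * (B : ℝ) ^ 12 * (sFlat V 3 : ℝ) ≤ 4 * (B : ℝ) ^ 12 * (12 * (B : ℝ) ^ 9) := by
              gcongr
          _ = 48 * (B : ℝ) ^ 9 * ((B : ℝ) ^ 3) ^ (3 + 1) := by ring
    · have hsn : (sFlat V ℓ : ℝ) ≤ 4 * (B : ℝ) ^ 12 := by
        rw [← hn]; exact_mod_cast sFlat_le_card V ℓ
      rw [hn]
      calc 4 * (B : ℝ) ^ 12 * (sFlat V ℓ : ℝ) ≤ 4 * (B : ℝ) ^ 12 * (4 * (B : ℝ) ^ 12) := by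
            gcongr
        _ = 16 * (B : ℝ) ^ 9 * ((B : ℝ) ^ 3) ^ (4 + 1) := by ring
        _ ≤ 48 * (B : ℝ) ^ 9 * ((B : ℝ) ^ 3) ^ (ℓ + 1) := by
            have h1 : ((B : ℝ) ^ 3) ^ (4 + 1) ≤ ((B : ℝ) ^ 3) ^ (ℓ + 1) :=
              pow_le_pow_right₀ hr1 (by omega)
            gcongr
            norm_num
  have hsum : ∑ ℓ ∈ Finset.Icc 2 (d - 1),
      (V.card : ℝ) * (sFlat V ℓ : ℝ) / ((B : ℝ) ^ 3) ^ (ℓ + 1) ≤ (d - 2 : ℝ) * (48 * (B : ℝ) ^ 9) := by
    have h1 := Finset.sum_le_card_nsmul _ _ _ hterm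
    rw [Nat.card_Icc, nsmul_eq_mul] at h1
    have h2 : ((d - 1 + 1 - 2 : ℕ) : ℝ) = (d : ℝ) - 2 := by
      rw [show d - 1 + 1 - 2 = d - 2 by omega, Nat.cast_sub (by omega)]; norm_num
    rw [h2] at h1
    exact h1
  have hfirst : (V.card : ℝ) ^ 2 / ((B : ℝ) ^ 3) ^ (d + 1) ≤ 16 * (B : ℝ) ^ 9 := by
    rw [div_le_iff₀ (by positivity), hn]
    calc (4 * (B : ℝ) ^ 12) ^ 2 = 16 * (B : ℝ) ^ 9 * ((B : ℝ) ^ 3) ^ (4 + 1) := by ring
      _ ≤ 16 * (B : ℝ) ^ 9 * ((B : ℝ) ^ 3) ^ (d + 1) := by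
          have h1 : ((B : ℝ) ^ 3) ^ (4 + 1) ≤ ((B : ℝ) ^ 3) ^ (d + 1) :=
            pow_le_pow_right₀ hr1 (by omega)
          gcongr
  have hlast : (V.card : ℝ) / ((B : ℝ) ^ 3) ≤ 4 * (B : ℝ) ^ 9 := by
    rw [div_le_iff₀ (by positivity), hn]
    exact le_of_eq (by ring)
  unfold bracket
  push_cast
  have h9 : (0 : ℝ) ≤ (B : ℝ) ^ 9 := by positivity
  nlinarith [hsum, hfirst, hlast, h9]

theorem final_ineq (d B : ℕ) (hd : 4 ≤ d) (hB : 2 ≤ B) :
    1 / (100 * (d : ℝ)) * ((conf d (B ^ 3) (2 * B ^ 4) (2 * B ^ 5)).card : ℝ) ^ ((1 : ℝ) / 12)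
      * bracket (conf d (B ^ 3) (2 * B ^ 4) (2 * B ^ 5)) (B ^ 3)
    < ((richLines (conf d (B ^ 3) (2 * B ^ 4) (2 * B ^ 5)) (B ^ 3)).ncard : ℝ) := by
  have hlines := ncard_richLines_ge d B hd hB
  have hbr := bracket_le d B hd hB
  have hn : ((conf d (B ^ 3) (2 * B ^ 4) (2 * B ^ 5)).card : ℝ) = 4 * (B : ℝ) ^ 12 := by
    rw [card_conf d _ _ _ hd]; push_cast; ring
  have hbr0 : 0 ≤ bracket (conf d (B ^ 3) (2 * B ^ 4) (2 * B ^ 5)) (B ^ 3) := by
    unfold bracket
    positivity
  generalize conf d (B ^ 3) (2 * B ^ 4) (2 * B ^ 5) = V at *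
  generalize bracket V (B ^ 3) = br at *
  generalize (richLines V (B ^ 3)).ncard = L at *
  have hB0 : (0 : ℝ) < B := by
    have : 0 < B := by omega
    exact_mod_cast this
  have hB10 : (0 : ℝ) < (B : ℝ) ^ 10 := pow_pos hB0 10
  have hroot : (V.card : ℝ) ^ ((1 : ℝ) / 12) ≤ 2 * B := by
    have h1 : (V.card : ℝ) ≤ (2 * (B : ℝ)) ^ (12 : ℕ) := by
      rw [hn, mul_pow]
      have : (0 : ℝ) ≤ (B : ℝ) ^ 12 := (pow_pos hB0 12).le
      nlinarith
    calc (V.card : ℝ) ^ ((1 : ℝ) / 12) ≤ ((2 * (B : ℝ)) ^ (12 : ℕ)) ^ ((1 : ℝ) / 12) :=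
          Real.rpow_le_rpow (by positivity) h1 (by norm_num)
      _ = 2 * B := by
          rw [← Real.rpow_natCast, ← Real.rpow_mul (by positivity)]
          norm_num
  have hd0 : (0 : ℝ) < d := by
    have : (4 : ℝ) ≤ d := by exact_mod_cast hd
    linarith
  have hlines' : (B : ℝ) ^ 10 ≤ (L : ℝ) := by exact_mod_cast hlines
  calc 1 / (100 * (d : ℝ)) * (V.card : ℝ) ^ ((1 : ℝ) / 12) * br
      ≤ 1 / (100 * (d : ℝ)) * (2 * B) * (48 * d * (B : ℝ) ^ 9) := by
        gcongr
    _ = 96 / 100 * (B : ℝ) ^ 10 := by field_simp; ring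
    _ < (B : ℝ) ^ 10 := by linarith
    _ ≤ _ := hlines'

/-- **The bound fails, by a factor `n^{1/12}`, in every dimension `d ≥ 4`.** For every `d ≥ 4` there
is `c > 0` such that there are arbitrarily large finite sets `V` of points with integer coordinates
and integers `r ≥ 2` with `|L_r(V)| > c n^{1/12} (n² r^{-d-1} + ∑_ℓ n s_ℓ r^{-ℓ-1} + n r^{-1})`.
In particular no constant `C_d` works. -/
theorem result_proof : ∀ d : ℕ, 4 ≤ d → ∃ c : ℝ, 0 < c ∧ ∀ N : ℕ,
    ∃ (V : Finset (Fin d → ℂ)) (r : ℕ),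
      (∀ v ∈ V, ∀ i, ∃ z : ℤ, v i = (z : ℂ)) ∧ N ≤ V.card ∧ 2 ≤ r ∧
      c * (V.card : ℝ) ^ ((1 : ℝ) / 12) * bracket V r < ((richLines V r).ncard : ℝ) := by
  intro d hd
  refine ⟨1 / (100 * d), by positivity, ?_⟩
  intro N
  obtain ⟨B, hB, hNB⟩ : ∃ B : ℕ, 2 ≤ B ∧ N ≤ B := ⟨N + 2, by omega, by omega⟩
  refine ⟨conf d (B ^ 3) (2 * B ^ 4) (2 * B ^ 5), B ^ 3, ?_, ?_, ?_, final_ineq d B hd hB⟩
  · intro v hv i
    rw [mem_conf] at hv
    obtain ⟨p, -, rfl⟩ := hv
    simp only [ptn, pt]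
    split_ifs
    · exact ⟨p.1, by simp⟩
    · exact ⟨p.2.1, by simp⟩
    · exact ⟨p.2.2, by simp⟩
    · exact ⟨p.1 * p.2.2 - p.2.1 ^ 2, by simp⟩
    · exact ⟨0, by simp⟩
  · rw [card_conf d _ _ _ hd]
    have h1 : B ≤ B ^ 3 := Nat.le_self_pow (by norm_num) B
    have hpos : 0 < B := by omega
    have h2 : 0 < 2 * B ^ 4 * (2 * B ^ 5) := by
      have := pow_pos hpos 4
      have := pow_pos hpos 5
      positivity
    calc N ≤ B := hNB
      _ ≤ B ^ 3 := h1
      _ ≤ B ^ 3 * (2 * B ^ 4 * (2 * B ^ 5)) := Nat.le_mul_of_pos_right _ h2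
  · exact hB.trans (Nat.le_self_pow (by norm_num) B)

end Pool.Agent.Results.MP_0eaff0_co.QuadricRichLines
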