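import Mathlib

set_option autoImplicit false

open Topology Filter Set

universe u

namespace Pool.Agent.Results.MP_501377_al.UniversalGroup

/-!
A metrically universal separable group with left-invariant metric (Shkarin's question).

The universal group is `GG`, the group of all bijective isometries of a complete separable metric
space `XX` with a dense sequence `v 0, v 1, …`, with the left-invariant metric
`dG g g' = sup_n dist (g (v n)) (g' (v n)) / Lc n`, where `Lc 0 = 1` and the weights `Lc n`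
increase to infinity (and faster than `dist (v 0) (v n)`), so that `dG` induces pointwise
convergence.

* `pat` is the matrix of distances of the points `v n`.  It is generic: every Katetov function on
  `v 0, …, v m` is, up to `r`, the restriction of the distances of `v n` for arbitrarily large
  `n`, the distances of `v n` to the points in between being the free ones (`pat_generic`).
* For a separable group `H` with a left-invariant metric we build an `H`-invariant pseudometric on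
  `H × ℕ` which extends `pat` on `{1} × ℕ`, in which `(h, 0)` has distance `dist 1 h` to
  `(1, 0)`, in which `(h, i)` has distance at most `Lc i * dist 1 h` to `(1, i)`, and in which
  `{1} × ℕ` is dense (`exists_limit`).  Then `H` acts on `XX` by isometries, and the weighted
  supremum distance of the isometries given by `h` and `k` is exactly `dist h k`.
* The points are added one at a time (`St.extend`).  The new point is put close to a given point
  `x = (h0, j0)` by the Katetov function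
  `y ↦ min (min_c (pat (n + 1) c + D (c, y))) (ρ + inf_k (Lc (n + 1) * dist 1 k + D (y, k x)))`
  (`St.target`); because of the second term the new point moves in a Lipschitz way under `H`,
  although `x` itself only moves continuously.  Between two such steps the points are
  added freely (`St.free`, `St.block`).
-/

/-- `p` is a pseudometric on the index set `{0, …, m}`. -/
def PM (m : ℕ) (p : ℕ → ℕ → ℝ) : Prop :=
  (∀ i ≤ m, p i i = 0) ∧ (∀ i ≤ m, ∀ j ≤ m, p i j = p j i) ∧
    (∀ i ≤ m, ∀ j ≤ m, ∀ k ≤ m, p i k ≤ p i j + p j k)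

/-- `f` is a Katetov function on `{0, …, m}` for `p`. -/
def Kat (m : ℕ) (p : ℕ → ℕ → ℝ) (f : ℕ → ℝ) : Prop :=
  ∀ i ≤ m, ∀ j ≤ m, f i ≤ f j + p i j ∧ p i j ≤ f i + f j

/-- The free extension of `g` from `{0, …, m}`. -/
noncomputable def fext (m : ℕ) (p : ℕ → ℕ → ℝ) (g : ℕ → ℝ) (c : ℕ) : ℝ :=
  (Finset.range (m + 1)).inf' ⟨0, by simp⟩ (fun c' => g c' + p c' c)

lemma fext_le {m : ℕ} {p : ℕ → ℕ → ℝ} {g : ℕ → ℝ} {c c' : ℕ} (h : c' ≤ m) :
    fext m p g c ≤ g c' + p c' c :=
  Finset.inf'_le (f := fun c' => g c' + p c' c) (by simp; omega)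

lemma exists_fext (m : ℕ) (p : ℕ → ℕ → ℝ) (g : ℕ → ℝ) (c : ℕ) :
    ∃ c' ≤ m, fext m p g c = g c' + p c' c := by
  obtain ⟨c', hc', h⟩ := Finset.exists_mem_eq_inf' (s := Finset.range (m + 1)) ⟨0, by simp⟩
    (fun c' => g c' + p c' c)
  exact ⟨c', by simp at hc'; omega, h⟩

lemma fext_eq {m : ℕ} {p : ℕ → ℕ → ℝ} {g : ℕ → ℝ} (hp : PM m p) (hg : Kat m p g) {c : ℕ}
    (hc : c ≤ m) : fext m p g c = g c := by
  apply le_antisymm
  · have := fext_le (p := p) (g := g) (c := c) hc
    rw [hp.1 c hc] at this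
    linarith
  · obtain ⟨c', hc', h⟩ := exists_fext m p g c
    rw [h]
    have := (hg c hc c' hc').1
    rw [hp.2.1 c' hc' c hc]
    exact this

lemma Kat.mono {m n : ℕ} {p : ℕ → ℕ → ℝ} {g : ℕ → ℝ} (h : Kat n p g) (hmn : m ≤ n) :
    Kat m p g :=
  fun i hi j hj => h i (hi.trans hmn) j (hj.trans hmn)

lemma fext_kat {m n : ℕ} {p : ℕ → ℕ → ℝ} {g : ℕ → ℝ} (hp : PM n p) (hmn : m ≤ n)
    (hg : Kat m p g) : Kat n p (fext m p g) := by
  intro i hi j hj
  constructor
  · obtain ⟨c, hc, h⟩ := exists_fext m p g j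
    rw [h]
    have h1 := fext_le (p := p) (g := g) (c := i) hc
    have h2 := hp.2.2 c (hc.trans hmn) j hj i hi
    rw [hp.2.1 j hj i hi] at h2
    linarith
  · obtain ⟨c, hc, h⟩ := exists_fext m p g i
    obtain ⟨c', hc', h'⟩ := exists_fext m p g j
    rw [h, h']
    have h1 := (hg c hc c' hc').2
    have h2 := hp.2.2 i hi c (hc.trans hmn) j hj
    have h3 := hp.2.2 c (hc.trans hmn) c' (hc'.trans hmn) j hj
    rw [hp.2.1 i hi c (hc.trans hmn)] at h2
    linarith

/-- Adding the point `n + 1` with distances `f`. -/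
def ext (n : ℕ) (p : ℕ → ℕ → ℝ) (f : ℕ → ℝ) : ℕ → ℕ → ℝ := fun i j =>
  if i = n + 1 then (if j = n + 1 then 0 else f j) else (if j = n + 1 then f i else p i j)

lemma ext_of_le {n : ℕ} {p : ℕ → ℕ → ℝ} {f : ℕ → ℝ} {i j : ℕ} (hi : i ≤ n) (hj : j ≤ n) :
    ext n p f i j = p i j := by
  unfold ext
  rw [if_neg (by omega), if_neg (by omega)]

lemma ext_left {n : ℕ} {p : ℕ → ℕ → ℝ} {f : ℕ → ℝ} {j : ℕ} (hj : j ≤ n) :
    ext n p f (n + 1) j = f j := by
  unfold ext
  rw [if_pos rfl, if_neg (by omega)]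

lemma ext_right {n : ℕ} {p : ℕ → ℕ → ℝ} {f : ℕ → ℝ} {j : ℕ} (hj : j ≤ n) :
    ext n p f j (n + 1) = f j := by
  unfold ext
  rw [if_neg (by omega), if_pos rfl]

lemma ext_self {n : ℕ} {p : ℕ → ℕ → ℝ} {f : ℕ → ℝ} :
    ext n p f (n + 1) (n + 1) = 0 := by
  unfold ext
  rw [if_pos rfl, if_pos rfl]

lemma le_succ_cases {i n : ℕ} (h : i ≤ n + 1) : i ≤ n ∨ i = n + 1 := by omega

lemma ext_PM {n : ℕ} {p : ℕ → ℕ → ℝ} {f : ℕ → ℝ} (hp : PM n p) (hf : Kat n p f) :
    PM (n + 1) (ext n p f) := by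
  refine ⟨?_, ?_, ?_⟩
  · intro i hi
    rcases le_succ_cases hi with hi | rfl
    · rw [ext_of_le hi hi, hp.1 i hi]
    · exact ext_self
  · intro i hi j hj
    rcases le_succ_cases hi with hi | rfl
    · rcases le_succ_cases hj with hj | rfl
      · rw [ext_of_le hi hj, ext_of_le hj hi, hp.2.1 i hi j hj]
      · rw [ext_left hi, ext_right hi]
    · rcases le_succ_cases hj with hj | rfl
      · rw [ext_left hj, ext_right hj]
      · rfl
  · have hf0 : ∀ i ≤ n, 0 ≤ f i := by
      intro i hi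
      have := (hf i hi i hi).2
      rw [hp.1 i hi] at this
      linarith
    intro i hi j hj k hk
    rcases le_succ_cases hi with hi | rfl <;> rcases le_succ_cases hj with hj | rfl <;>
      rcases le_succ_cases hk with hk | rfl
    · rw [ext_of_le hi hj, ext_of_le hi hk, ext_of_le hj hk]
      exact hp.2.2 i hi j hj k hk
    · rw [ext_right hi, ext_right hj, ext_of_le hi hj]
      linarith [(hf i hi j hj).1]
    · rw [ext_of_le hi hk, ext_right hi, ext_left hk]
      exact (hf i hi k hk).2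
    · rw [ext_right hi, ext_self]
      linarith
    · rw [ext_left hk, ext_left hj, ext_of_le hj hk, hp.2.1 j hj k hk]
      linarith [(hf k hk j hj).1]
    · rw [ext_self, ext_left hj, ext_right hj]
      linarith [hf0 j hj]
    · rw [ext_left hk, ext_self]
      linarith
    · rw [ext_self]
      linarith

lemma Kat.congr {m : ℕ} {p p' : ℕ → ℕ → ℝ} {f f' : ℕ → ℝ} (h : Kat m p f)
    (hp : ∀ i ≤ m, ∀ j ≤ m, p' i j = p i j) (hf : ∀ i ≤ m, f' i = f i) : Kat m p' f' := by
  intro i hi j hj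
  rw [hp i hi j hj, hf i hi, hf j hj]
  exact h i hi j hj

lemma exists_dense (m : ℕ) (p : ℕ → ℕ → ℝ) : ∃ s : ℕ → ℕ → ℝ, PM m p →
    (∀ k, Kat m p (s k)) ∧
      ∀ g, Kat m p g → ∀ r > 0, ∃ k, ∀ c ≤ m, |s k c - g c| ≤ r := by
  by_cases hp : PM m p
  swap
  · exact ⟨fun _ _ => 0, fun h => absurd h hp⟩
  let e : (Fin (m + 1) → ℝ) → (ℕ → ℝ) := fun g c => if h : c < m + 1 then g ⟨c, h⟩ else 0
  let r0 : (ℕ → ℝ) → (Fin (m + 1) → ℝ) := fun g c => g c
  have her : ∀ g : ℕ → ℝ, ∀ c ≤ m, e (r0 g) c = g c := by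
    intro g c hc
    simp only [e, r0]
    rw [dif_pos (by omega)]
  let S : Set (Fin (m + 1) → ℝ) := {g | Kat m p (e g)}
  have hS : ∀ g : ℕ → ℝ, Kat m p g → r0 g ∈ S := by
    intro g hg
    exact hg.congr (fun _ _ _ _ => rfl) (her g)
  have hne : Nonempty S := by
    refine ⟨⟨r0 (p 0), hS _ ?_⟩⟩
    intro i hi j hj
    have h1 := hp.2.2 0 (Nat.zero_le _) j hj i hi
    have h2 := hp.2.2 i hi 0 (Nat.zero_le _) j hj
    rw [hp.2.1 j hj i hi] at h1
    rw [hp.2.1 i hi 0 (Nat.zero_le _)] at h2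
    exact ⟨h1, h2⟩
  refine ⟨fun k => e (TopologicalSpace.denseSeq S k).1, fun _ => ⟨fun k =>
    (TopologicalSpace.denseSeq S k).2, ?_⟩⟩
  intro g hg r hr
  have hd := TopologicalSpace.denseRange_denseSeq S
  obtain ⟨k, hk⟩ := hd.exists_dist_lt ⟨r0 g, hS g hg⟩ hr
  refine ⟨k, fun c hc => ?_⟩
  have h1 : dist (r0 g) (TopologicalSpace.denseSeq S k).1 < r := hk
  have h2 := (dist_pi_lt_iff hr).1 h1 ⟨c, by omega⟩
  rw [dist_comm, Real.dist_eq] at h2
  simp only [e]
  rw [dif_pos (by omega)]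
  exact h2.le

/-- A dense sequence of Katetov functions. -/
noncomputable def sdense (m : ℕ) (p : ℕ → ℕ → ℝ) : ℕ → ℕ → ℝ := Classical.choose (exists_dense m p)

lemma sdense_spec {m : ℕ} {p : ℕ → ℕ → ℝ} (hp : PM m p) : (∀ k, Kat m p (sdense m p k)) ∧
      ∀ g, Kat m p g → ∀ r > 0, ∃ k, ∀ c ≤ m, |sdense m p k c - g c| ≤ r :=
  Classical.choose_spec (exists_dense m p) hp

/-- Forget the indices above `m`. -/
def trunc (m : ℕ) (p : ℕ → ℕ → ℝ) : ℕ → ℕ → ℝ := fun i j => if i ≤ m ∧ j ≤ m then p i j else 0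

lemma trunc_eq {m : ℕ} {p : ℕ → ℕ → ℝ} {i j : ℕ} (hi : i ≤ m) (hj : j ≤ m) :
    trunc m p i j = p i j := by
  unfold trunc
  rw [if_pos ⟨hi, hj⟩]

lemma PM.mono {m n : ℕ} {p : ℕ → ℕ → ℝ} (h : PM n p) (hmn : m ≤ n) : PM m p :=
  ⟨fun i hi => h.1 i (hi.trans hmn), fun i hi j hj => h.2.1 i (hi.trans hmn) j (hj.trans hmn),
    fun i hi j hj k hk => h.2.2 i (hi.trans hmn) j (hj.trans hmn) k (hk.trans hmn)⟩

lemma PM.trunc {m : ℕ} {p : ℕ → ℕ → ℝ} (h : PM m p) : PM m (trunc m p) := by
  refine ⟨fun i hi => ?_, fun i hi j hj => ?_, fun i hi j hj k hk => ?_⟩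
  · rw [trunc_eq hi hi]; exact h.1 i hi
  · rw [trunc_eq hi hj, trunc_eq hj hi]; exact h.2.1 i hi j hj
  · rw [trunc_eq hi hj, trunc_eq hi hk, trunc_eq hj hk]; exact h.2.2 i hi j hj k hk

/-- The distances of the point `n + 1` to the earlier points. -/
noncomputable def callf (n : ℕ) (p : ℕ → ℕ → ℝ) : ℕ → ℝ :=
  fext n.unpair.1.unpair.1 p
    (sdense n.unpair.1.unpair.1 (trunc n.unpair.1.unpair.1 p) n.unpair.1.unpair.2)

lemma unpair_le (n : ℕ) : n.unpair.1.unpair.1 ≤ n :=
  (Nat.unpair_left_le _).trans (Nat.unpair_left_le _)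

lemma callf_kat {n : ℕ} {p : ℕ → ℕ → ℝ} (hp : PM n p) : Kat n p (callf n p) := by
  apply fext_kat hp (unpair_le n)
  have := (sdense_spec ((hp.mono (unpair_le n)).trunc)).1 n.unpair.1.unpair.2
  exact this.congr (fun i hi j hj => (trunc_eq hi hj).symm) (fun _ _ => rfl)

/-- The successive pseudometrics. -/
noncomputable def mat : ℕ → ℕ → ℕ → ℝ
  | 0 => fun _ _ => 0
  | n + 1 => ext n (mat n) (callf n (mat n))

lemma mat_PM (n : ℕ) : PM n (mat n) := by
  induction n with
  | zero =>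
    refine ⟨fun _ _ => rfl, fun _ _ _ _ => rfl, fun _ _ _ _ _ _ => ?_⟩
    simp [mat]
  | succ n ih => exact ext_PM ih (callf_kat ih)

lemma mat_stable {n m : ℕ} (h : n ≤ m) {i j : ℕ} (hi : i ≤ n) (hj : j ≤ n) :
    mat m i j = mat n i j := by
  induction m, h using Nat.le_induction with
  | base => rfl
  | succ m hm ih =>
    rw [← ih]
    exact ext_of_le (hi.trans hm) (hj.trans hm)

/-- The generic pattern. -/
noncomputable def pat (i j : ℕ) : ℝ := mat (max i j) i j

lemma pat_eq {n i j : ℕ} (hi : i ≤ n) (hj : j ≤ n) : pat i j = mat n i j :=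
  (mat_stable (max_le hi hj) (le_max_left i j) (le_max_right i j)).symm

lemma pat_PM (n : ℕ) : PM n pat := by
  have h := mat_PM n
  refine ⟨fun i hi => ?_, fun i hi j hj => ?_, fun i hi j hj k hk => ?_⟩
  · rw [pat_eq hi hi]; exact h.1 i hi
  · rw [pat_eq hi hj, pat_eq hj hi]; exact h.2.1 i hi j hj
  · rw [pat_eq hi hj, pat_eq hi hk, pat_eq hj hk]; exact h.2.2 i hi j hj k hk

lemma pat_self (i : ℕ) : pat i i = 0 := (pat_PM i).1 i le_rfl

lemma pat_comm (i j : ℕ) : pat i j = pat j i :=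
  (pat_PM (max i j)).2.1 i (le_max_left _ _) j (le_max_right _ _)

lemma pat_triangle (i j k : ℕ) : pat i k ≤ pat i j + pat j k :=
  (pat_PM (max i (max j k))).2.2 i (le_max_left _ _) j
    ((le_max_left _ _).trans (le_max_right _ _)) k ((le_max_right _ _).trans (le_max_right _ _))

lemma pat_generic (m : ℕ) (g : ℕ → ℝ) (hg : Kat m pat g) (r : ℝ) (hr : 0 < r) (M : ℕ) :
    ∃ n ≥ M, m < n ∧ ∀ c < n, |pat n c - fext m pat g c| ≤ r := by
  obtain ⟨k, hk⟩ := (sdense_spec (pat_PM m).trunc).2 g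
    (hg.congr (fun i hi j hj => trunc_eq hi hj) (fun _ _ => rfl)) r hr
  set N := Nat.pair (Nat.pair m k) M with hN
  have h1 : N.unpair.1.unpair.1 = m := by simp [hN]
  have h2 : N.unpair.1.unpair.2 = k := by simp [hN]
  have hmN : m ≤ N := by
    rw [← h1]
    exact unpair_le N
  have hMN : M ≤ N := by
    rw [hN]
    exact Nat.right_le_pair _ _
  refine ⟨N + 1, by omega, by omega, fun c hc => ?_⟩
  have hc' : c ≤ N := by omega
  have htr : trunc m (mat N) = trunc m pat := by
    funext i j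
    unfold trunc
    split_ifs with h
    · exact (pat_eq (h.1.trans hmN) (h.2.trans hmN)).symm
    · rfl
  have e1 : pat (N + 1) c = fext m (mat N) (sdense m (trunc m pat) k) c := by
    rw [pat_eq (n := N + 1) le_rfl (by omega)]
    change ext N (mat N) (callf N (mat N)) (N + 1) c = _
    rw [ext_left hc']
    unfold callf
    rw [h1, h2, htr]
  rw [e1]
  have key : ∀ (s t : ℕ → ℝ) (P Q : ℕ → ℕ → ℝ), (∀ c' ≤ m, P c' c = Q c' c) →
      (∀ c' ≤ m, |s c' - t c'| ≤ r) → fext m P s c ≤ fext m Q t c + r := by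
    intro s t P Q hPQ hst
    obtain ⟨c', hc1, h⟩ := exists_fext m Q t c
    rw [h]
    have h3 := fext_le (p := P) (g := s) (c := c) hc1
    have h4 := (abs_le.1 (hst c' hc1)).2
    rw [hPQ c' hc1] at h3
    linarith
  have hPQ : ∀ c' ≤ m, mat N c' c = pat c' c := fun c' h => (pat_eq (h.trans hmN) hc').symm
  have k1 := key (sdense m (trunc m pat) k) g (mat N) pat hPQ hk
  have k2 := key g (sdense m (trunc m pat) k) pat (mat N) (fun c' h => (hPQ c' h).symm)
    (fun c' h => by rw [abs_sub_comm]; exact hk c' h)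
  rw [abs_le]
  constructor <;> linarith

lemma pat_nonneg (i j : ℕ) : 0 ≤ pat i j := by
  have h1 := pat_triangle i j i
  rw [pat_self, pat_comm j i] at h1
  linarith

/-- The Lipschitz constants. -/
noncomputable def Lc (n : ℕ) : ℝ := (n + 1) * (1 + ∑ k ∈ Finset.range (n + 1), pat 0 k)

lemma Lc_zero : Lc 0 = 1 := by simp [Lc, pat_self]

lemma sum_nonneg' (n : ℕ) : 0 ≤ ∑ k ∈ Finset.range n, pat 0 k :=
  Finset.sum_nonneg fun k _ => pat_nonneg 0 k

lemma Lc_mono : Monotone Lc := by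
  apply monotone_nat_of_le_succ
  intro n
  unfold Lc
  have h1 : ∑ k ∈ Finset.range (n + 1), pat 0 k ≤ ∑ k ∈ Finset.range (n + 1 + 1), pat 0 k := by
    rw [Finset.sum_range_succ _ (n + 1)]
    linarith [pat_nonneg 0 (n + 1)]
  have h0 := sum_nonneg' (n + 1)
  push_cast
  apply mul_le_mul <;> first | positivity | linarith

lemma le_Lc (n : ℕ) : ((n : ℝ) + 1) * (1 + pat 0 n) ≤ Lc n := by
  unfold Lc
  apply mul_le_mul_of_nonneg_left _ (by positivity)
  rw [Finset.sum_range_succ]
  linarith [sum_nonneg' n]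

lemma one_le_Lc (n : ℕ) : 1 ≤ Lc n := by
  rw [← Lc_zero]
  exact Lc_mono (Nat.zero_le n)

lemma Lc_pos (n : ℕ) : 0 < Lc n := lt_of_lt_of_le one_pos (one_le_Lc n)

lemma nat_le_Lc (n : ℕ) : (n : ℝ) ≤ Lc n := by
  have h := le_Lc n
  have h1 := pat_nonneg 0 n
  nlinarith [mul_nonneg (Nat.cast_nonneg (α := ℝ) n) h1]

section structures

variable {H : Type u} [Group H] [MetricSpace H]

/-- `q h i j` is the distance from the point `(1, i)` to the point `(h, j)` in an invariant
pseudometric on `H × {0, …, n}`. -/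
structure St (n : ℕ) (q : H → ℕ → ℕ → ℝ) : Prop where
  tri : ∀ h k, ∀ i ≤ n, ∀ j ≤ n, ∀ l ≤ n, q (h * k) i l ≤ q h i j + q k j l
  symm : ∀ h, ∀ i ≤ n, ∀ j ≤ n, q h⁻¹ j i = q h i j
  base : ∀ i ≤ n, ∀ j ≤ n, q 1 i j = pat i j
  norm : ∀ h, q h 0 0 = dist 1 h
  lip : ∀ h, ∀ i ≤ n, q h i i ≤ Lc i * dist 1 h

lemma dist_one_inv (hl : ∀ a x y : H, dist (a * x) (a * y) = dist x y) (h : H) :
    dist 1 h⁻¹ = dist 1 h := by
  rw [← hl h 1 h⁻¹, mul_one, mul_inv_cancel, dist_comm]

lemma dist_one_mul (hl : ∀ a x y : H, dist (a * x) (a * y) = dist x y) (h k : H) :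
    dist 1 (h * k) ≤ dist 1 h + dist 1 k := by
  have h1 := dist_triangle 1 h (h * k)
  have h2 := hl h 1 k
  rw [mul_one] at h2
  linarith

lemma St.nonneg {n : ℕ} {q : H → ℕ → ℕ → ℝ} (hq : St n q) (h : H) {i j : ℕ} (hi : i ≤ n)
    (hj : j ≤ n) : 0 ≤ q h i j := by
  have h1 := hq.tri h h⁻¹ i hi j hj i hi
  rw [mul_inv_cancel, hq.base i hi i hi, pat_self, hq.symm h i hi j hj] at h1
  linarith

lemma St.extend (hl : ∀ a x y : H, dist (a * x) (a * y) = dist x y)
    {n : ℕ} {q : H → ℕ → ℕ → ℝ} (hq : St n q) (F : H → ℕ → ℝ)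
    (K1 : ∀ h k, ∀ i ≤ n, ∀ j ≤ n, F (h * k) j ≤ F h i + q k i j)
    (K2 : ∀ h k, ∀ i ≤ n, ∀ j ≤ n, q k i j ≤ F h i + F (h * k) j)
    (K3 : ∀ c ≤ n, F 1 c = pat (n + 1) c)
    (K4 : ∀ g h, ∀ i ≤ n, F (g * h) i ≤ F h i + Lc (n + 1) * dist 1 g) :
    ∃ q' : H → ℕ → ℕ → ℝ, St (n + 1) q' ∧
      (∀ h, ∀ i ≤ n, ∀ j ≤ n, q' h i j = q h i j) ∧ ∀ h, ∀ j ≤ n, q' h (n + 1) j = F h j := by
  let S : H → ℝ := fun g => ⨆ y : H × Fin (n + 1), |F (g⁻¹ * y.1) y.2 - F y.1 y.2|
  have hbd : ∀ g h, ∀ i ≤ n, |F (g⁻¹ * h) i - F h i| ≤ Lc (n + 1) * dist 1 g := by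
    intro g h i hi
    have h1 := K4 g⁻¹ h i hi
    have h2 := K4 g (g⁻¹ * h) i hi
    rw [mul_inv_cancel_left] at h2
    rw [dist_one_inv hl] at h1
    rw [abs_le]
    constructor <;> linarith
  have hbdd : ∀ g, BddAbove (range fun y : H × Fin (n + 1) =>
      |F (g⁻¹ * y.1) y.2 - F y.1 y.2|) := by
    intro g
    refine ⟨Lc (n + 1) * dist 1 g, ?_⟩
    rintro _ ⟨y, rfl⟩
    exact hbd g y.1 y.2 (by omega)
  have le_S : ∀ g h, ∀ i ≤ n, |F (g⁻¹ * h) i - F h i| ≤ S g := by
    intro g h i hi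
    exact le_ciSup (hbdd g) (h, (⟨i, by omega⟩ : Fin (n + 1)))
  have S_le : ∀ g b, (∀ h, ∀ i ≤ n, |F (g⁻¹ * h) i - F h i| ≤ b) → S g ≤ b := by
    intro g b hb
    exact ciSup_le fun y => hb y.1 y.2 (by omega)
  have hF0 : ∀ h, ∀ i ≤ n, 0 ≤ F h i := by
    intro h i hi
    have := K2 h 1 i hi i hi
    rw [mul_one, hq.base i hi i hi, pat_self] at this
    linarith
  have S_one : S 1 = 0 := by
    apply le_antisymm
    · apply S_le
      intro h i hi
      simp
    · refine le_trans ?_ (le_S 1 1 0 (Nat.zero_le _))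
      simp
  have S_inv : ∀ g, S g⁻¹ ≤ S g := by
    intro g
    apply S_le
    intro h i hi
    have := le_S g (g * h) i hi
    rw [inv_mul_cancel_left, abs_sub_comm] at this
    rwa [inv_inv]
  have S_mul : ∀ g k, S (g * k) ≤ S g + S k := by
    intro g k
    apply S_le
    intro h i hi
    have h1 := le_S g h i hi
    have h2 := le_S k (g⁻¹ * h) i hi
    rw [← mul_assoc, ← mul_inv_rev] at h2
    calc |F ((g * k)⁻¹ * h) i - F h i|
        ≤ |F ((g * k)⁻¹ * h) i - F (g⁻¹ * h) i| + |F (g⁻¹ * h) i - F h i| := abs_sub_le _ _ _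
      _ ≤ S g + S k := by linarith
  let q' : H → ℕ → ℕ → ℝ := fun h i j =>
    if i = n + 1 then (if j = n + 1 then S h else F h j)
    else (if j = n + 1 then F h⁻¹ i else q h i j)
  have e00 : ∀ h, ∀ i ≤ n, ∀ j ≤ n, q' h i j = q h i j := by
    intro h i hi j hj
    simp only [q']
    rw [if_neg (by omega), if_neg (by omega)]
  have e10 : ∀ h, ∀ j ≤ n, q' h (n + 1) j = F h j := by
    intro h j hj
    simp only [q']
    rw [if_pos trivial, if_neg (by omega)]
  have e01 : ∀ h, ∀ j ≤ n, q' h j (n + 1) = F h⁻¹ j := by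
    intro h j hj
    simp only [q']
    rw [if_neg (by omega), if_pos trivial]
  have e11 : ∀ h, q' h (n + 1) (n + 1) = S h := by
    intro h
    simp only [q']
    rw [if_pos trivial, if_pos trivial]
  refine ⟨q', ⟨?_, ?_, ?_, ?_, ?_⟩, e00, e10⟩
  · intro h k i hi j hj l hl'
    rcases le_succ_cases hi with hi | rfl <;> rcases le_succ_cases hj with hj | rfl <;>
      rcases le_succ_cases hl' with hl' | rfl
    · rw [e00 _ i hi l hl', e00 _ i hi j hj, e00 _ j hj l hl']
      exact hq.tri h k i hi j hj l hl'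
    · rw [e01 _ i hi, e00 _ i hi j hj, e01 _ j hj]
      have := K1 k⁻¹ h⁻¹ j hj i hi
      rw [hq.symm h i hi j hj] at this
      rw [mul_inv_rev]
      linarith
    · rw [e00 _ i hi l hl', e01 _ i hi, e10 _ l hl']
      have := K2 h⁻¹ (h * k) i hi l hl'
      rwa [inv_mul_cancel_left] at this
    · rw [e01 _ i hi, e01 _ i hi, e11]
      have := (abs_le.1 (le_S k h⁻¹ i hi)).2
      rw [mul_inv_rev]
      linarith
    · rw [e10 _ l hl', e10 _ j hj, e00 _ j hj l hl']
      exact K1 h k j hj l hl'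
    · rw [e11, e10 _ j hj, e01 _ j hj]
      apply S_le
      intro a i' hi'
      have a1 := K1 h (h⁻¹ * a) j hj i' hi'
      rw [mul_inv_cancel_left] at a1
      have a2 := K2 k⁻¹ (h⁻¹ * a) j hj i' hi'
      rw [← mul_assoc, ← mul_inv_rev] at a2
      have a3 := K1 k⁻¹ (h⁻¹ * a) j hj i' hi'
      rw [← mul_assoc, ← mul_inv_rev] at a3
      have a4 := K2 h (h⁻¹ * a) j hj i' hi'
      rw [mul_inv_cancel_left] at a4
      rw [abs_le]
      constructor <;> linarith
    · rw [e10 _ l hl', e11, e10 _ l hl']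
      have := (abs_le.1 (le_S h (h * k) l hl')).1
      rw [inv_mul_cancel_left] at this
      linarith
    · rw [e11, e11, e11]
      exact S_mul h k
  · intro h i hi j hj
    rcases le_succ_cases hi with hi | rfl <;> rcases le_succ_cases hj with hj | rfl
    · rw [e00 _ j hj i hi, e00 _ i hi j hj]
      exact hq.symm h i hi j hj
    · rw [e10 _ i hi, e01 _ i hi]
    · rw [e01 _ j hj, e10 _ j hj, inv_inv]
    · rw [e11, e11]
      apply le_antisymm (S_inv h)
      have := S_inv h⁻¹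
      rwa [inv_inv] at this
  · intro i hi j hj
    rcases le_succ_cases hi with hi | rfl <;> rcases le_succ_cases hj with hj | rfl
    · rw [e00 _ i hi j hj]
      exact hq.base i hi j hj
    · rw [e01 _ i hi, inv_one, K3 i hi, pat_comm]
    · rw [e10 _ j hj, K3 j hj]
    · rw [e11, S_one, pat_self]
  · intro h
    rw [e00 _ 0 (Nat.zero_le _) 0 (Nat.zero_le _)]
    exact hq.norm h
  · intro h i hi
    rcases le_succ_cases hi with hi | rfl
    · rw [e00 _ i hi i hi]
      exact hq.lip h i hi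
    · rw [e11]
      exact S_le _ _ (fun a i' hi' => hbd h a i' hi')

lemma St.extend_inf (hl : ∀ a x y : H, dist (a * x) (a * y) = dist x y)
    {n : ℕ} {q : H → ℕ → ℕ → ℝ} (hq : St n q) {ι : Type*}
    (φ : ι → ℝ) (σ : ι → H) (τ : ι → ℕ) (hτ : ∀ s, τ s ≤ n)
    (C1 : ∀ s s', q ((σ s)⁻¹ * σ s') (τ s) (τ s') ≤ φ s + φ s')
    (C3 : ∀ s, ∀ c ≤ n, pat (n + 1) c ≤ φ s + q (σ s)⁻¹ (τ s) c)
    (C3' : ∀ c ≤ n, ∃ s, φ s = pat (n + 1) c ∧ σ s = 1 ∧ τ s = c)
    (C4 : ∀ g s, ∃ s', φ s' + q ((σ s')⁻¹ * (g * σ s)) (τ s') (τ s) ≤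
      φ s + Lc (n + 1) * dist 1 g) :
    ∃ q' : H → ℕ → ℕ → ℝ, St (n + 1) q' ∧
      (∀ h, ∀ i ≤ n, ∀ j ≤ n, q' h i j = q h i j) ∧
      (∀ h, ∀ j ≤ n, ∀ s, q' h (n + 1) j ≤ φ s + q ((σ s)⁻¹ * h) (τ s) j) ∧
      (∀ h, ∀ j ≤ n, ∀ b, (∀ s, b ≤ φ s + q ((σ s)⁻¹ * h) (τ s) j) → b ≤ q' h (n + 1) j) := by
  have hne : Nonempty ι := by
    obtain ⟨s, _⟩ := C3' 0 (Nat.zero_le _)
    exact ⟨s⟩
  have hφ : ∀ s, 0 ≤ φ s := by
    intro s
    have := C1 s s
    rw [inv_mul_cancel, hq.base _ (hτ s) _ (hτ s), pat_self] at this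
    linarith
  let F : H → ℕ → ℝ := fun h j => ⨅ s, (φ s + q ((σ s)⁻¹ * h) (τ s) j)
  have hbdd : ∀ h, ∀ j ≤ n, BddBelow (range fun s => φ s + q ((σ s)⁻¹ * h) (τ s) j) := by
    intro h j hj
    refine ⟨0, ?_⟩
    rintro _ ⟨s, rfl⟩
    exact add_nonneg (hφ s) (hq.nonneg _ (hτ s) hj)
  have F_le : ∀ h, ∀ j ≤ n, ∀ s, F h j ≤ φ s + q ((σ s)⁻¹ * h) (τ s) j := by
    intro h j hj s
    exact ciInf_le (hbdd h j hj) s
  have le_F : ∀ h, ∀ j ≤ n, ∀ b, (∀ s, b ≤ φ s + q ((σ s)⁻¹ * h) (τ s) j) → b ≤ F h j := by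
    intro h j _ b hb
    exact le_ciInf hb
  have key := hq.extend hl F ?_ ?_ ?_ ?_
  · obtain ⟨q', h1, h2, h3⟩ := key
    refine ⟨q', h1, h2, ?_, ?_⟩
    · intro h j hj s
      rw [h3 h j hj]
      exact F_le h j hj s
    · intro h j hj b hb
      rw [h3 h j hj]
      exact le_F h j hj b hb
  · intro h k i hi j hj
    rw [← sub_le_iff_le_add]
    apply le_F h i hi
    intro s
    have a1 := F_le (h * k) j hj s
    have a2 := hq.tri ((σ s)⁻¹ * h) k (τ s) (hτ s) i hi j hj
    rw [mul_assoc] at a2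
    linarith
  · intro h k i hi j hj
    rw [← sub_le_iff_le_add]
    apply le_F h i hi
    intro s
    rw [sub_le_comm]
    apply le_F (h * k) j hj
    intro s'
    have a1 := hq.tri (((σ s)⁻¹ * h)⁻¹) (((σ s)⁻¹ * σ s') * ((σ s')⁻¹ * (h * k))) i hi
      (τ s) (hτ s) j hj
    have a2 := hq.tri ((σ s)⁻¹ * σ s') ((σ s')⁻¹ * (h * k)) (τ s) (hτ s) (τ s') (hτ s') j hj
    have a3 := C1 s s'
    rw [hq.symm _ (τ s) (hτ s) i hi] at a1
    have e : ((σ s)⁻¹ * h)⁻¹ * (((σ s)⁻¹ * σ s') * ((σ s')⁻¹ * (h * k))) = k := by group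
    rw [e] at a1
    linarith
  · intro c hc
    apply le_antisymm
    · obtain ⟨s, e1, e2, e3⟩ := C3' c hc
      have := F_le 1 c hc s
      rw [e1, e2, e3, inv_one, one_mul, hq.base c hc c hc, pat_self, add_zero] at this
      exact this
    · apply le_F 1 c hc
      intro s
      rw [mul_one]
      exact C3 s c hc
  · intro g h i hi
    rw [← sub_le_iff_le_add]
    apply le_F h i hi
    intro s
    obtain ⟨s', hs'⟩ := C4 g s
    have a1 := F_le (g * h) i hi s'
    have a2 := hq.tri ((σ s')⁻¹ * (g * σ s)) ((σ s)⁻¹ * h) (τ s') (hτ s') (τ s) (hτ s) i hi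
    have e : ((σ s')⁻¹ * (g * σ s)) * ((σ s)⁻¹ * h) = (σ s')⁻¹ * (g * h) := by group
    rw [e] at a2
    linarith

lemma St.free (hl : ∀ a x y : H, dist (a * x) (a * y) = dist x y)
    {n : ℕ} {q : H → ℕ → ℕ → ℝ} (hq : St n q) :
    ∃ q' : H → ℕ → ℕ → ℝ, St (n + 1) q' ∧
      (∀ h, ∀ i ≤ n, ∀ j ≤ n, q' h i j = q h i j) ∧
      (∀ h, ∀ j ≤ n, ∀ b, (∀ c ≤ n, b ≤ pat (n + 1) c + q h c j) → b ≤ q' h (n + 1) j) := by
  have key := hq.extend_inf hl (ι := Fin (n + 1))
    (fun s => pat (n + 1) s) (fun _ => 1) (fun s => s) (fun s => by omega) ?_ ?_ ?_ ?_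
  · obtain ⟨q', h1, h2, _, h4⟩ := key
    refine ⟨q', h1, h2, ?_⟩
    intro h j hj b hb
    apply h4 h j hj b
    intro s
    rw [inv_one, one_mul]
    exact hb s (by omega)
  · intro s s'
    rw [inv_one, one_mul, hq.base s (by omega) s' (by omega), pat_comm (n + 1) s]
    exact pat_triangle _ _ _
  · intro s c hc
    rw [inv_one, hq.base s (by omega) c hc]
    exact pat_triangle _ _ _
  · intro c hc
    exact ⟨⟨c, by omega⟩, rfl, rfl, rfl⟩
  · intro g s
    refine ⟨s, ?_⟩
    rw [inv_one, one_mul, mul_one]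
    have a1 := hq.lip g s (by omega)
    have a2 : Lc s * dist 1 g ≤ Lc (n + 1) * dist 1 g :=
      mul_le_mul_of_nonneg_right (Lc_mono (by omega)) dist_nonneg
    linarith

lemma St.target (hl : ∀ a x y : H, dist (a * x) (a * y) = dist x y)
    {n : ℕ} {q : H → ℕ → ℕ → ℝ} (hq : St n q) (h0 : H) {j0 : ℕ} (hj0 : j0 ≤ n) {r s : ℝ}
    (hr : ∀ c ≤ n, |pat (n + 1) c - q h0 c j0| ≤ r)
    (hs : ∀ k, q (h0⁻¹ * k * h0) j0 j0 ≤ s + Lc (n + 1) * dist 1 k) :
    ∃ q' : H → ℕ → ℕ → ℝ, St (n + 1) q' ∧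
      (∀ h, ∀ i ≤ n, ∀ j ≤ n, q' h i j = q h i j) ∧ q' h0 (n + 1) j0 ≤ r + s := by
  have hr0 : 0 ≤ r := (abs_nonneg _).trans (hr 0 (Nat.zero_le _))
  have hs0 : 0 ≤ s := by
    have := hs 1
    rw [mul_one, inv_mul_cancel, hq.base _ hj0 _ hj0, pat_self, dist_self] at this
    linarith
  have hN : ∀ k : H, 0 ≤ Lc (n + 1) * dist 1 k :=
    fun k => mul_nonneg (Lc_pos _).le dist_nonneg
  have hNmul : ∀ k k' : H, Lc (n + 1) * dist 1 (k * k') ≤
      Lc (n + 1) * dist 1 k + Lc (n + 1) * dist 1 k' := by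
    intro k k'
    rw [← mul_add]
    exact mul_le_mul_of_nonneg_left (dist_one_mul hl k k') (Lc_pos _).le
  have T2 : ∀ k, ∀ c ≤ n, q (k * h0) c j0 ≤ pat (n + 1) c + (r + s + Lc (n + 1) * dist 1 k) := by
    intro k c hc
    have a1 := hq.tri h0 (h0⁻¹ * k * h0) c hc j0 hj0 j0 hj0
    have e : h0 * (h0⁻¹ * k * h0) = k * h0 := by group
    rw [e] at a1
    have a2 := hs k
    have a3 := (abs_le.1 (hr c hc)).1
    linarith
  have T3 : ∀ k, ∀ c ≤ n, pat (n + 1) c ≤ (r + s + Lc (n + 1) * dist 1 k) + q (k * h0) c j0 := by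
    intro k c hc
    have a1 := hq.tri (k * h0) (h0⁻¹ * k⁻¹ * h0) c hc j0 hj0 j0 hj0
    have e : (k * h0) * (h0⁻¹ * k⁻¹ * h0) = h0 := by group
    rw [e] at a1
    have a2 := hs k⁻¹
    rw [dist_one_inv hl] at a2
    have a3 := (abs_le.1 (hr c hc)).2
    linarith
  have key := hq.extend_inf hl (ι := Fin (n + 1) ⊕ H)
    (Sum.elim (fun c => pat (n + 1) c) (fun k => r + s + Lc (n + 1) * dist 1 k))
    (Sum.elim (fun _ => 1) (fun k => k * h0)) (Sum.elim (fun c => c) (fun _ => j0)) ?_ ?_ ?_ ?_ ?_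
  · obtain ⟨q', h1, h2, h3, _⟩ := key
    refine ⟨q', h1, h2, ?_⟩
    have := h3 h0 j0 hj0 (Sum.inr 1)
    simpa [hq.base _ hj0 _ hj0, pat_self] using this
  · rintro (c | k)
    · simp only [Sum.elim_inl]; omega
    · exact hj0
  · rintro (c | k) (c' | k')
    · simp only [Sum.elim_inl]
      rw [inv_one, one_mul, hq.base c (by omega) c' (by omega), pat_comm (n + 1) c]
      exact pat_triangle _ _ _
    · simp only [Sum.elim_inl, Sum.elim_inr]
      rw [inv_one, one_mul]
      exact T2 k' c (by omega)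
    · simp only [Sum.elim_inl, Sum.elim_inr]
      rw [mul_one, hq.symm _ c' (by omega) j0 hj0]
      have := T2 k c' (by omega)
      linarith
    · simp only [Sum.elim_inr]
      have e : (k * h0)⁻¹ * (k' * h0) = h0⁻¹ * (k⁻¹ * k') * h0 := by group
      rw [e]
      have a1 := hs (k⁻¹ * k')
      have a2 := hNmul k⁻¹ k'
      rw [dist_one_inv hl] at a2
      linarith
  · rintro (c' | k) c hc
    · simp only [Sum.elim_inl]
      rw [inv_one, hq.base c' (by omega) c hc]
      exact pat_triangle _ _ _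
    · simp only [Sum.elim_inr]
      rw [hq.symm _ c hc j0 hj0]
      exact T3 k c hc
  · intro c hc
    exact ⟨Sum.inl ⟨c, by omega⟩, rfl, rfl, rfl⟩
  · rintro g (c | k)
    · refine ⟨Sum.inl c, ?_⟩
      simp only [Sum.elim_inl]
      rw [inv_one, one_mul, mul_one]
      have a1 := hq.lip g c (by omega)
      have a2 : Lc c * dist 1 g ≤ Lc (n + 1) * dist 1 g :=
        mul_le_mul_of_nonneg_right (Lc_mono (by omega)) dist_nonneg
      linarith
    · refine ⟨Sum.inr (g * k), ?_⟩
      simp only [Sum.elim_inr]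
      have e : (g * k * h0)⁻¹ * (g * (k * h0)) = 1 := by group
      rw [e, hq.base _ hj0 _ hj0, pat_self]
      have a2 := hNmul g k
      linarith

lemma exists_coarse [IsTopologicalGroup H] (hl : ∀ a x y : H, dist (a * x) (a * y) = dist x y)
    (C : ℝ) (hC : 0 < C) (h0 : H) (ε : ℝ) (hε : 0 < ε) :
    ∃ Λ : ℝ, ∀ k, C * dist 1 (h0⁻¹ * k * h0) ≤ ε + Λ * dist 1 k := by
  have hcont : ContinuousAt (fun k : H => h0⁻¹ * k * h0) 1 := by fun_prop
  rw [Metric.continuousAt_iff] at hcont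
  obtain ⟨δ, hδ, h⟩ := hcont (ε / C) (by positivity)
  simp only [mul_one, inv_mul_cancel] at h
  refine ⟨C * (2 * dist 1 h0 / δ + 1), fun k => ?_⟩
  by_cases hk : dist 1 k < δ
  · have h1 := h (x := k) (by rwa [dist_comm])
    rw [dist_comm, lt_div_iff₀ hC] at h1
    have h2 : 0 ≤ C * (2 * dist 1 h0 / δ + 1) * dist 1 k := by positivity
    linarith
  · push Not at hk
    have h1 := dist_one_mul hl (h0⁻¹ * k) h0
    have h2 := dist_one_mul hl h0⁻¹ k
    rw [dist_one_inv hl] at h2
    have h3 : 2 * dist 1 h0 ≤ 2 * dist 1 h0 / δ * dist 1 k := by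
      rw [div_mul_eq_mul_div, le_div_iff₀ hδ]
      exact mul_le_mul_of_nonneg_left hk (by positivity)
    have h4 : C * dist 1 (h0⁻¹ * k * h0) ≤ C * ((2 * dist 1 h0 / δ + 1) * dist 1 k) := by
      apply mul_le_mul_of_nonneg_left _ hC.le
      linarith
    have h5 : C * ((2 * dist 1 h0 / δ + 1) * dist 1 k) =
        C * (2 * dist 1 h0 / δ + 1) * dist 1 k := by ring
    linarith

lemma St.block [IsTopologicalGroup H] (hl : ∀ a x y : H, dist (a * x) (a * y) = dist x y)
    {m : ℕ} {q : H → ℕ → ℕ → ℝ} (hq : St m q) (h0 : H) {j0 : ℕ} (hj0 : j0 ≤ m) {r : ℝ}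
    (hr : 0 < r) :
    ∃ n, m < n ∧ ∃ q' : H → ℕ → ℕ → ℝ, St n q' ∧
      (∀ h, ∀ i ≤ m, ∀ j ≤ m, q' h i j = q h i j) ∧ q' h0 n j0 ≤ r := by
  obtain ⟨Λ, hΛ⟩ := exists_coarse hl (Lc j0) (Lc_pos j0) h0 (r / 2) (by positivity)
  set g : ℕ → ℝ := fun c => q h0 c j0 with hg
  have hgK : Kat m pat g := by
    intro i hi j hj
    constructor
    · have := hq.tri 1 h0 i hi j hj j0 hj0
      rw [one_mul, hq.base i hi j hj] at this
      simp only [hg]
      linarith
    · have := hq.tri h0 h0⁻¹ i hi j0 hj0 j hj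
      rw [mul_inv_cancel, hq.base i hi j hj, hq.symm h0 j hj j0 hj0] at this
      exact this
  obtain ⟨n, hnM, hmn, hn⟩ := pat_generic m g hgK (r / 2) (by positivity) ⌈Λ⌉₊
  have hΛn : Λ ≤ Lc n := (Nat.le_ceil Λ).trans ((Nat.cast_le.2 hnM).trans (nat_le_Lc n))
  -- free placements up to `n - 1`
  have free : ∀ t, m ≤ t → ∃ q' : H → ℕ → ℕ → ℝ, St t q' ∧
      (∀ h, ∀ i ≤ m, ∀ j ≤ m, q' h i j = q h i j) ∧
      ∀ c ≤ t, fext m pat g c ≤ q' h0 c j0 := by
    intro t ht
    induction t, ht using Nat.le_induction with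
    | base =>
      refine ⟨q, hq, fun _ _ _ _ _ => rfl, fun c hc => ?_⟩
      rw [fext_eq (pat_PM m) hgK hc]
    | succ t ht ih =>
      obtain ⟨q1, h1, h2, h3⟩ := ih
      obtain ⟨q2, k1, k2, k3⟩ := h1.free hl
      refine ⟨q2, k1, ?_, ?_⟩
      · intro h i hi j hj
        rw [k2 h i (hi.trans ht) j (hj.trans ht), h2 h i hi j hj]
      · intro c hc
        rcases le_succ_cases hc with hc | rfl
        · rw [k2 h0 c hc j0 (hj0.trans ht)]
          exact h3 c hc
        · apply k3 h0 j0 (hj0.trans ht)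
          intro c hc
          refine le_trans ?_ (add_le_add_right (h3 c hc) _)
          obtain ⟨c', hc', e⟩ := exists_fext m pat g c
          rw [e]
          have a1 := fext_le (p := pat) (g := g) (c := t + 1) hc'
          have a2 := pat_triangle c' c (t + 1)
          rw [pat_comm c (t + 1)] at a2
          linarith
  obtain ⟨t, rfl⟩ : ∃ t, n = t + 1 := ⟨n - 1, by omega⟩
  have hmt : m ≤ t := by omega
  obtain ⟨q1, h1, h2, h3⟩ := free t hmt
  have key := h1.target hl h0 (hj0.trans hmt) (r := r / 2) (s := r / 2) ?_ ?_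
  · obtain ⟨q2, k1, k2, k3⟩ := key
    refine ⟨t + 1, hmn, q2, k1, ?_, by linarith⟩
    intro h i hi j hj
    rw [k2 h i (hi.trans hmt) j (hj.trans hmt), h2 h i hi j hj]
  · intro c hc
    have e : q1 h0 c j0 = fext m pat g c := by
      apply le_antisymm _ (h3 c hc)
      obtain ⟨c', hc', e⟩ := exists_fext m pat g c
      rw [e]
      have a1 := h1.tri 1 h0 c hc c' (hc'.trans hmt) j0 (hj0.trans hmt)
      rw [one_mul, h1.base c hc c' (hc'.trans hmt), h2 h0 c' hc' j0 hj0, pat_comm] at a1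
      simp only [hg]
      linarith
    rw [e]
    exact hn c (by omega)
  · intro k
    have a1 := h1.lip (h0⁻¹ * k * h0) j0 (hj0.trans hmt)
    have a2 := hΛ k
    have a3 : Λ * dist 1 k ≤ Lc (t + 1) * dist 1 k :=
      mul_le_mul_of_nonneg_right hΛn dist_nonneg
    linarith

lemma St.init (hl : ∀ a x y : H, dist (a * x) (a * y) = dist x y) :
    St (H := H) 0 (fun h _ _ => dist 1 h) := by
  refine ⟨?_, ?_, ?_, ?_, ?_⟩
  · intro h k i _ j _ l _
    exact dist_one_mul hl h k
  · intro h i _ j _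
    exact dist_one_inv hl h
  · intro i hi j hj
    obtain rfl : i = 0 := by omega
    obtain rfl : j = 0 := by omega
    rw [pat_self, dist_self]
  · intro h
    rfl
  · intro h i hi
    obtain rfl : i = 0 := by omega
    rw [Lc_zero, one_mul]

/-- The full invariant pseudometric on `H × ℕ`. -/
lemma exists_limit [IsTopologicalGroup H] [TopologicalSpace.SeparableSpace H]
    (hl : ∀ a x y : H, dist (a * x) (a * y) = dist x y) :
    ∃ Q : H → ℕ → ℕ → ℝ, (∀ h k i j l, Q (h * k) i l ≤ Q h i j + Q k j l) ∧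
      (∀ h i j, Q h⁻¹ j i = Q h i j) ∧ (∀ i j, Q 1 i j = pat i j) ∧
      (∀ h, Q h 0 0 = dist 1 h) ∧ (∀ h i, Q h i i ≤ Lc i * dist 1 h) ∧
      (∀ h j r, 0 < r → ∃ n, Q h n j ≤ r) := by
  have hne : Nonempty H := ⟨1⟩
  let D : ℕ → H := TopologicalSpace.denseSeq H
  let a : ℕ → ℕ := fun k => k.unpair.1.unpair.1
  let jj : ℕ → ℕ := fun k => k.unpair.1.unpair.2
  let l : ℕ → ℕ := fun k => k.unpair.2
  have hjj : ∀ k, jj k ≤ k := fun k => (Nat.unpair_right_le _).trans (Nat.unpair_left_le _)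
  have step : ∀ (k : ℕ) (x : {x : ℕ × (H → ℕ → ℕ → ℝ) // St x.1 x.2}),
      ∃ y : {x : ℕ × (H → ℕ → ℕ → ℝ) // St x.1 x.2}, x.1.1 < y.1.1 ∧
        (∀ h, ∀ i ≤ x.1.1, ∀ j ≤ x.1.1, y.1.2 h i j = x.1.2 h i j) ∧
        (k ≤ x.1.1 → y.1.2 (D (a k)) y.1.1 (jj k) ≤ 1 / ((l k : ℝ) + 1)) := by
    rintro k ⟨⟨m, q⟩, hq⟩
    by_cases hk : k ≤ m
    · obtain ⟨n, hn, q', h1, h2, h3⟩ := St.block hl hq (D (a k)) ((hjj k).trans hk)
        (r := 1 / ((l k : ℝ) + 1)) (by positivity)
      exact ⟨⟨(n, q'), h1⟩, hn, h2, fun _ => h3⟩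
    · obtain ⟨n, hn, q', h1, h2, h3⟩ := St.block hl hq 1 (Nat.zero_le m)
        (r := 1) (by positivity)
      exact ⟨⟨(n, q'), h1⟩, hn, h2, fun h => absurd h hk⟩
  choose next n1 n2 n3 using step
  let seq : ℕ → {x : ℕ × (H → ℕ → ℕ → ℝ) // St x.1 x.2} := fun k =>
    Nat.rec ⟨(0, fun h _ _ => dist 1 h), St.init hl⟩ (fun k x => next k x) k
  have seq_succ : ∀ k, seq (k + 1) = next k (seq k) := fun _ => rfl
  let m : ℕ → ℕ := fun k => (seq k).1.1
  have m_lt : ∀ k, m k < m (k + 1) := by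
    intro k
    exact n1 k (seq k)
  have le_m : ∀ k, k ≤ m k := by
    intro k
    induction k with
    | zero => exact Nat.zero_le _
    | succ k ih => have := m_lt k; omega
  have m_mono : Monotone m := monotone_nat_of_le_succ fun k => (m_lt k).le
  have stable : ∀ K K', K ≤ K' → ∀ h, ∀ i ≤ m K, ∀ j ≤ m K,
      (seq K').1.2 h i j = (seq K).1.2 h i j := by
    intro K K' hKK' h i hi j hj
    induction K', hKK' using Nat.le_induction with
    | base => rfl
    | succ K' hK' ih =>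
      rw [← ih, seq_succ]
      exact n2 K' (seq K') h i (hi.trans (m_mono hK')) j (hj.trans (m_mono hK'))
  let Q : H → ℕ → ℕ → ℝ := fun h i j => (seq (max i j)).1.2 h i j
  have Q_eq : ∀ K h i j, i ≤ m K → j ≤ m K → Q h i j = (seq K).1.2 h i j := by
    intro K h i j hi hj
    rcases le_total K (max i j) with hK | hK
    · exact stable K _ hK h i hi j hj
    · exact (stable _ K hK h i ((le_max_left i j).trans (le_m _)) j
        ((le_max_right i j).trans (le_m _))).symm
  have Q_tri : ∀ h k i j l, Q (h * k) i l ≤ Q h i j + Q k j l := by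
    intro h k i j l
    set K := max i (max j l) with hK
    have hi : i ≤ m K := (le_max_left _ _).trans (le_m K)
    have hj : j ≤ m K := ((le_max_left _ _).trans (le_max_right _ _)).trans (le_m K)
    have hl' : l ≤ m K := ((le_max_right _ _).trans (le_max_right _ _)).trans (le_m K)
    rw [Q_eq K _ i l hi hl', Q_eq K _ i j hi hj, Q_eq K _ j l hj hl']
    exact (seq K).2.tri h k i hi j hj l hl'
  have Q_lip : ∀ h i, Q h i i ≤ Lc i * dist 1 h := by
    intro h i
    rw [Q_eq i _ i i (le_m i) (le_m i)]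
    exact (seq i).2.lip h i (le_m i)
  refine ⟨Q, Q_tri, ?_, ?_, ?_, Q_lip, ?_⟩
  · intro h i j
    set K := max i j with hK
    have hi : i ≤ m K := (le_max_left _ _).trans (le_m K)
    have hj : j ≤ m K := (le_max_right _ _).trans (le_m K)
    rw [Q_eq K _ j i hj hi, Q_eq K _ i j hi hj]
    exact (seq K).2.symm h i hi j hj
  · intro i j
    set K := max i j with hK
    have hi : i ≤ m K := (le_max_left _ _).trans (le_m K)
    have hj : j ≤ m K := (le_max_right _ _).trans (le_m K)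
    rw [Q_eq K _ i j hi hj]
    exact (seq K).2.base i hi j hj
  · intro h
    rw [Q_eq 0 _ 0 0 (le_m 0) (le_m 0)]
    exact (seq 0).2.norm h
  · intro h j r hr
    obtain ⟨l0, hl0⟩ := exists_nat_one_div_lt (half_pos hr)
    have hd := TopologicalSpace.denseRange_denseSeq H
    obtain ⟨a0, ha0⟩ := hd.exists_dist_lt h (ε := r / 2 / Lc j) (by have := Lc_pos j; positivity)
    set k := Nat.pair (Nat.pair a0 j) l0 with hk
    have e1 : a k = a0 := by simp [a, hk]
    have e2 : jj k = j := by simp [jj, hk]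
    have e3 : l k = l0 := by simp [l, hk]
    have key := n3 k (seq k) (le_m k)
    rw [← seq_succ, e1, e2, e3] at key
    refine ⟨m (k + 1), ?_⟩
    have hjm : j ≤ m (k + 1) := by
      rw [← e2]
      exact (hjj k).trans ((Nat.le_succ k).trans (le_m (k + 1)))
    have b1 : Q (D a0) (m (k + 1)) j ≤ 1 / ((l0 : ℝ) + 1) := by
      rw [Q_eq (k + 1) _ _ _ le_rfl hjm]
      exact key
    have b2 := Q_tri (D a0) ((D a0)⁻¹ * h) (m (k + 1)) j j
    rw [mul_inv_cancel_left] at b2
    have b3 := Q_lip ((D a0)⁻¹ * h) j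
    have b4 : dist 1 ((D a0)⁻¹ * h) = dist (D a0) h := by
      rw [← hl (D a0) 1 ((D a0)⁻¹ * h), mul_one, mul_inv_cancel_left]
    have b5 : Lc j * dist (D a0) h < r / 2 := by
      rw [dist_comm]
      rw [lt_div_iff₀ (Lc_pos j)] at ha0
      linarith
    rw [b4] at b3
    linarith

end structures

/-! ### The universal group -/

/-- The index set, with the pseudometric `pat`. -/
structure Pt where
  /-- the index -/
  idx : ℕ

noncomputable instance instPt : PseudoMetricSpace Pt where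
  dist i j := pat i.idx j.idx
  dist_self i := pat_self i.idx
  dist_comm i j := pat_comm i.idx j.idx
  dist_triangle i j k := pat_triangle i.idx j.idx k.idx

/-- The complete separable metric space on which the universal group acts. -/
abbrev XX : Type := UniformSpace.Completion Pt

/-- The dense sequence of points. -/
noncomputable def v (n : ℕ) : XX := UniformSpace.Completion.coe' (Pt.mk n)

lemma dist_v (i j : ℕ) : dist (v i) (v j) = pat i j :=
  UniformSpace.Completion.dist_eq (Pt.mk i) (Pt.mk j)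

lemma denseRange_v : DenseRange v := by
  have h : DenseRange (UniformSpace.Completion.coe' (α := Pt)) :=
    UniformSpace.Completion.denseRange_coe
  have h2 : Function.Surjective Pt.mk := fun p => ⟨p.idx, rfl⟩
  exact h.comp h2.denseRange (UniformSpace.Completion.continuous_coe Pt)

/-- The underlying group. -/
def GG : Type := XX ≃ᵢ XX

noncomputable instance instGroupGG : Group GG := inferInstanceAs (Group (XX ≃ᵢ XX))

/-- The action on the space. -/
noncomputable def GG.app (g : GG) (x : XX) : XX := (show XX ≃ᵢ XX from g) x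

lemma app_mul (g h : GG) (x : XX) : (g * h).app x = g.app (h.app x) := rfl

lemma app_one (x : XX) : (1 : GG).app x = x := rfl

lemma dist_app (g : GG) (x y : XX) : dist (g.app x) (g.app y) = dist x y :=
  (show XX ≃ᵢ XX from g).dist_eq x y

lemma app_inv_app (g : GG) (x : XX) : g.app (g⁻¹.app x) = x := by
  rw [← app_mul, mul_inv_cancel, app_one]

/-- The weighted supremum distance. -/
noncomputable def dG (g g' : GG) : ℝ := ⨆ n, dist (g.app (v n)) (g'.app (v n)) / Lc n

lemma app_dist_le (g g' : GG) (n : ℕ) : dist (g.app (v n)) (g'.app (v n)) ≤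
    2 * pat 0 n + dist (g.app (v 0)) (g'.app (v 0)) := by
  have h1 := dist_triangle4 (g.app (v n)) (g.app (v 0)) (g'.app (v 0)) (g'.app (v n))
  rw [dist_app, dist_app, dist_v, dist_v, pat_comm n 0] at h1
  linarith

lemma term_le (g g' : GG) (n : ℕ) : dist (g.app (v n)) (g'.app (v n)) / Lc n ≤
    (2 + dist (g.app (v 0)) (g'.app (v 0))) / ((n : ℝ) + 1) := by
  have h1 := app_dist_le g g' n
  have h2 := le_Lc n
  have h3 := pat_nonneg 0 n
  have h4 : 0 ≤ dist (g.app (v 0)) (g'.app (v 0)) := dist_nonneg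
  rw [div_le_div_iff₀ (Lc_pos n) (by positivity)]
  calc dist (g.app (v n)) (g'.app (v n)) * ((n : ℝ) + 1)
      ≤ (2 * pat 0 n + dist (g.app (v 0)) (g'.app (v 0))) * ((n : ℝ) + 1) :=
        mul_le_mul_of_nonneg_right h1 (by positivity)
    _ ≤ (2 + dist (g.app (v 0)) (g'.app (v 0))) * (((n : ℝ) + 1) * (1 + pat 0 n)) := by
        have h5 : 2 * pat 0 n + dist (g.app (v 0)) (g'.app (v 0)) ≤
            (2 + dist (g.app (v 0)) (g'.app (v 0))) * (1 + pat 0 n) := by
          nlinarith [mul_nonneg h4 h3]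
        calc _ ≤ ((2 + dist (g.app (v 0)) (g'.app (v 0))) * (1 + pat 0 n)) * ((n : ℝ) + 1) :=
              mul_le_mul_of_nonneg_right h5 (by positivity)
          _ = _ := by ring
    _ ≤ (2 + dist (g.app (v 0)) (g'.app (v 0))) * Lc n :=
        mul_le_mul_of_nonneg_left h2 (by positivity)

lemma bddAbove_terms (g g' : GG) :
    BddAbove (range fun n => dist (g.app (v n)) (g'.app (v n)) / Lc n) := by
  refine ⟨2 + dist (g.app (v 0)) (g'.app (v 0)), ?_⟩
  rintro _ ⟨n, rfl⟩
  refine (term_le g g' n).trans ?_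
  apply div_le_self (by positivity)
  have : (0 : ℝ) ≤ n := Nat.cast_nonneg n
  linarith

lemma app_le_dG (g g' : GG) (n : ℕ) :
    dist (g.app (v n)) (g'.app (v n)) ≤ Lc n * dG g g' := by
  have h1 := le_ciSup (bddAbove_terms g g') n
  have h2 : dist (g.app (v n)) (g'.app (v n)) / Lc n ≤ dG g g' := h1
  rw [div_le_iff₀ (Lc_pos n)] at h2
  linarith

lemma dG_le (g g' : GG) (b : ℝ) (h : ∀ n, dist (g.app (v n)) (g'.app (v n)) / Lc n ≤ b) :
    dG g g' ≤ b := ciSup_le h

lemma dG_nonneg (g g' : GG) : 0 ≤ dG g g' := by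
  have h1 := app_le_dG g g' 0
  rw [Lc_zero, one_mul] at h1
  exact dist_nonneg.trans h1

lemma app_ext {g g' : GG} (h : ∀ n, g.app (v n) = g'.app (v n)) : g = g' := by
  have h1 : (fun x => g.app x) = fun x => g'.app x := by
    apply DenseRange.equalizer denseRange_v
    · exact (show XX ≃ᵢ XX from g).continuous
    · exact (show XX ≃ᵢ XX from g').continuous
    · funext n
      exact h n
  exact IsometryEquiv.ext fun x => congrFun h1 x

noncomputable instance instMetricGG : MetricSpace GG where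
  dist := dG
  dist_self g := by
    apply le_antisymm
    · apply dG_le
      intro n
      rw [dist_self, zero_div]
    · exact dG_nonneg g g
  dist_comm g g' := by
    unfold dG
    simp_rw [dist_comm]
  dist_triangle g g' g'' := by
    apply dG_le
    intro n
    rw [div_le_iff₀ (Lc_pos n)]
    have h1 := app_le_dG g g' n
    have h2 := app_le_dG g' g'' n
    have h3 := dist_triangle (g.app (v n)) (g'.app (v n)) (g''.app (v n))
    linarith
  eq_of_dist_eq_zero {g g'} h := by
    apply app_ext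
    intro n
    have h1 := app_le_dG g g' n
    have h2 : dG g g' = 0 := h
    rw [h2, mul_zero] at h1
    exact dist_le_zero.1 h1

lemma dist_GG (g g' : GG) : dist g g' = dG g g' := rfl

lemma left_inv_GG (a g g' : GG) : dist (a * g) (a * g') = dist g g' := by
  rw [dist_GG, dist_GG]
  unfold dG
  simp_rw [app_mul, dist_app]

lemma continuous_app (y : XX) : Continuous fun g : GG => g.app y := by
  rw [Metric.continuous_iff]
  intro g ε hε
  obtain ⟨n, hn⟩ := denseRange_v.exists_dist_lt y (ε := ε / 3) (by positivity)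
  refine ⟨ε / 3 / Lc n, by have := Lc_pos n; positivity, fun g' hg' => ?_⟩
  have h1 := app_le_dG g' g n
  rw [dist_GG, lt_div_iff₀ (Lc_pos n)] at hg'
  have h2 := dist_triangle4 (g'.app y) (g'.app (v n)) (g.app (v n)) (g.app y)
  rw [dist_app, dist_app, dist_comm (v n) y] at h2
  linarith

lemma continuous_app2 : Continuous fun z : GG × XX => z.1.app z.2 := by
  rw [continuous_iff_continuousAt]
  rintro ⟨g, y⟩
  rw [Metric.continuousAt_iff']
  intro ε hε
  have h1 : ∀ᶠ z : GG × XX in 𝓝 (g, y), dist (z.1.app y) (g.app y) < ε / 2 := by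
    have : Tendsto (fun z : GG × XX => z.1.app y) (𝓝 (g, y)) (𝓝 (g.app y)) :=
      ((continuous_app y).comp continuous_fst).tendsto (g, y)
    exact (Metric.tendsto_nhds.1 this) (ε / 2) (by positivity)
  have h2 : ∀ᶠ z : GG × XX in 𝓝 (g, y), dist z.2 y < ε / 2 := by
    have : Tendsto (fun z : GG × XX => z.2) (𝓝 (g, y)) (𝓝 y) := continuous_snd.tendsto (g, y)
    exact (Metric.tendsto_nhds.1 this) (ε / 2) (by positivity)
  filter_upwards [h1, h2] with z k1 k2
  have h3 := dist_triangle (z.1.app z.2) (z.1.app y) (g.app y)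
  rw [dist_app] at h3
  linarith

/-- Evaluation at the dense sequence. -/
noncomputable def ev (g : GG) : ℕ → XX := fun n => g.app (v n)

lemma isInducing_ev : IsInducing ev := by
  rw [isInducing_iff_nhds]
  intro g
  apply le_antisymm
  · have hc : Continuous ev := continuous_pi fun n => continuous_app (v n)
    exact (hc.tendsto g).le_comap
  · rw [Metric.nhds_basis_ball.ge_iff]
    intro ε hε
    rw [mem_comap]
    obtain ⟨M, hM⟩ := exists_nat_gt (6 / ε)
    have hMε : 3 / ((M : ℝ) + 1) < ε / 2 := by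
      rw [div_lt_iff₀ (by positivity)]
      rw [div_lt_iff₀ hε] at hM
      nlinarith
    refine ⟨{f | (∀ n ∈ Finset.range M, dist (f n) (ev g n) < ε / 2) ∧
      dist (f 0) (ev g 0) < 1}, ?_, ?_⟩
    · have hcoord : ∀ n, Tendsto (fun f : ℕ → XX => f n) (𝓝 (ev g)) (𝓝 (ev g n)) :=
        fun n => (continuous_apply n).tendsto (ev g)
      have e1 : ∀ᶠ f : ℕ → XX in 𝓝 (ev g), ∀ n ∈ Finset.range M,
          dist (f n) (ev g n) < ε / 2 := by
        rw [Filter.eventually_all_finset]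
        intro n _
        exact (Metric.tendsto_nhds.1 (hcoord n)) (ε / 2) (by positivity)
      have e2 : ∀ᶠ f : ℕ → XX in 𝓝 (ev g), dist (f 0) (ev g 0) < 1 :=
        (Metric.tendsto_nhds.1 (hcoord 0)) 1 one_pos
      exact e1.and e2
    · rintro g' ⟨h1, h2⟩
      rw [Metric.mem_ball, dist_GG]
      refine lt_of_le_of_lt (dG_le g' g (ε / 2) ?_) (half_lt_self hε)
      intro n
      by_cases hn : n < M
      · have h3 := h1 n (Finset.mem_range.2 hn)
        refine le_trans (div_le_self dist_nonneg (one_le_Lc n)) h3.le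
      · push Not at hn
        refine (term_le g' g n).trans (le_trans ?_ hMε.le)
        apply div_le_div₀ (by norm_num) _ (by positivity)
        · have : (M : ℝ) ≤ n := by exact_mod_cast hn
          linarith
        · have : dist (g'.app (v 0)) (g.app (v 0)) < 1 := h2
          linarith

instance instTopGroupGG : IsTopologicalGroup GG where
  continuous_mul := by
    rw [isInducing_ev.continuous_iff]
    apply continuous_pi
    intro n
    have h1 : Continuous fun z : GG × GG => z.1.app (z.2.app (v n)) :=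
      continuous_app2.comp (continuous_fst.prodMk ((continuous_app (v n)).comp continuous_snd))
    exact h1
  continuous_inv := by
    rw [isInducing_ev.continuous_iff]
    apply continuous_pi
    intro n
    rw [continuous_iff_continuousAt]
    intro g
    rw [ContinuousAt, tendsto_iff_dist_tendsto_zero]
    have h1 : Tendsto (fun g' : GG => dist (g'.app (g⁻¹.app (v n))) (v n)) (𝓝 g) (𝓝 0) := by
      have := ((continuous_app (g⁻¹.app (v n))).tendsto g)
      rw [tendsto_iff_dist_tendsto_zero] at this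
      rwa [app_inv_app] at this
    refine h1.congr ?_
    intro g'
    change dist (g'.app (g⁻¹.app (v n))) (v n) = dist (g'⁻¹.app (v n)) (g⁻¹.app (v n))
    rw [← dist_app g' (g'⁻¹.app (v n)) (g⁻¹.app (v n)), app_inv_app, dist_comm]

lemma separable_GG : TopologicalSpace.SeparableSpace GG := by
  have h1 : TopologicalSpace.SeparableSpace XX :=
    ⟨range v, countable_range v, denseRange_v⟩
  have h2 : SecondCountableTopology XX := UniformSpace.secondCountable_of_separable XX
  have h3 : SecondCountableTopology GG := isInducing_ev.secondCountableTopology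
  infer_instance

/-! ### The embedding -/

section embedding

variable {H : Type u} [Group H]

/-- The set `H × ℕ`. -/
structure Yt (H : Type u) where
  /-- the group component -/
  pos : H
  /-- the index -/
  idx : ℕ

instance instActYt : MulAction H (Yt H) where
  smul h y := ⟨h * y.pos, y.idx⟩
  one_smul y := by
    change (⟨1 * y.pos, y.idx⟩ : Yt H) = y
    rw [one_mul]
  mul_smul g h y := by
    change (⟨g * h * y.pos, y.idx⟩ : Yt H) = ⟨g * (h * y.pos), y.idx⟩
    rw [mul_assoc]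

lemma smul_Yt (h k : H) (i : ℕ) : h • (⟨k, i⟩ : Yt H) = ⟨h * k, i⟩ := rfl

end embedding

theorem exists_embedding (H : Type u) [Group H] [MetricSpace H]
    (hl : ∀ a x y : H, dist (a * x) (a * y) = dist x y)
    (_ : IsTopologicalGroup H) (_ : TopologicalSpace.SeparableSpace H) :
    ∃ φ : H →* GG, Isometry φ := by
  obtain ⟨Q, Qtri, Qsymm, Qbase, Qnorm, Qlip, Qdense⟩ := exists_limit hl
  let hY : PseudoMetricSpace (Yt H) :=
    { dist := fun y z => Q (y.pos⁻¹ * z.pos) y.idx z.idx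
      dist_self := fun y => by
        rw [inv_mul_cancel, Qbase, pat_self]
      dist_comm := fun y z => by
        rw [← Qsymm, mul_inv_rev, inv_inv]
      dist_triangle := fun x y z => by
        have := Qtri (x.pos⁻¹ * y.pos) (y.pos⁻¹ * z.pos) x.idx y.idx z.idx
        rwa [mul_assoc, mul_inv_cancel_left] at this }
  have dist_Y : ∀ (h k : H) (i j : ℕ), dist (⟨h, i⟩ : Yt H) ⟨k, j⟩ = Q (h⁻¹ * k) i j :=
    fun _ _ _ _ => rfl
  have hact : ∀ h : H, Isometry (fun y : Yt H => h • y) := by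
    intro h
    apply Isometry.of_dist_eq
    rintro ⟨k, i⟩ ⟨k', j⟩
    rw [smul_Yt, smul_Yt, dist_Y, dist_Y]
    congr 1
    group
  have hucs : UniformContinuousConstSMul H (Yt H) := ⟨fun h => (hact h).uniformContinuous⟩
  have hiso : IsIsometricSMul H (UniformSpace.Completion (Yt H)) :=
    ⟨fun h => (hact h).completion_map⟩
  -- the isometry between the completions
  let ι : Pt → Yt H := fun i => ⟨1, i.idx⟩
  have hι : Isometry ι := by
    apply Isometry.of_dist_eq
    rintro ⟨i⟩ ⟨j⟩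
    change dist (⟨1, i⟩ : Yt H) ⟨1, j⟩ = pat i j
    rw [dist_Y, inv_one, one_mul, Qbase]
  let e : XX → UniformSpace.Completion (Yt H) := UniformSpace.Completion.map ι
  have he : Isometry e := hι.completion_map
  have he_v : ∀ n, e (v n) = ((⟨1, n⟩ : Yt H) : UniformSpace.Completion (Yt H)) := by
    intro n
    exact UniformSpace.Completion.map_coe hι.uniformContinuous (Pt.mk n)
  have hclosed : IsClosed (range e) := he.isClosedEmbedding.isClosed_range
  have hsurj : Function.Surjective e := by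
    rw [← range_eq_univ]
    apply eq_univ_of_univ_subset
    have hd : DenseRange ((↑) : Yt H → UniformSpace.Completion (Yt H)) :=
      UniformSpace.Completion.denseRange_coe
    rw [← hd.closure_range]
    apply hclosed.closure_subset_iff.2
    rintro _ ⟨⟨h, j⟩, rfl⟩
    rw [← hclosed.closure_eq, Metric.mem_closure_iff]
    intro ε hε
    obtain ⟨n, hn⟩ := Qdense h j (ε / 2) (by positivity)
    refine ⟨e (v n), mem_range_self _, ?_⟩
    rw [he_v, UniformSpace.Completion.dist_eq, dist_comm, dist_Y, inv_one, one_mul]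
    linarith
  let E : XX ≃ᵢ UniformSpace.Completion (Yt H) :=
    ⟨Equiv.ofBijective e ⟨he.injective, hsurj⟩, he⟩
  have hE : ∀ x, E x = e x := fun _ => rfl
  let act : H → GG := fun h => E.trans ((IsometryEquiv.constSMul h).trans E.symm)
  have act_app : ∀ h x, (act h).app x = E.symm (h • E x) := fun _ _ => rfl
  let φ : H →* GG := MonoidHom.mk' act (by
    intro g h
    apply app_ext
    intro n
    rw [app_mul, act_app, act_app, act_app, E.apply_symm_apply, mul_smul])
  refine ⟨φ, ?_⟩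
  have key : ∀ h k n, dist ((act h).app (v n)) ((act k).app (v n)) = Q (h⁻¹ * k) n n := by
    intro h k n
    rw [act_app, act_app, E.symm.dist_eq, hE, he_v, ← UniformSpace.Completion.coe_smul,
      ← UniformSpace.Completion.coe_smul, UniformSpace.Completion.dist_eq, smul_Yt, smul_Yt,
      dist_Y, mul_one, mul_one]
  have hdist : ∀ h k : H, dist 1 (h⁻¹ * k) = dist h k := by
    intro h k
    rw [← hl h 1 (h⁻¹ * k), mul_one, mul_inv_cancel_left]
  apply Isometry.of_dist_eq
  intro h k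
  change dG (act h) (act k) = dist h k
  apply le_antisymm
  · apply dG_le
    intro n
    rw [key, div_le_iff₀ (Lc_pos n), ← hdist h k, mul_comm]
    exact Qlip _ n
  · have h1 := app_le_dG (act h) (act k) 0
    rw [key, Qnorm, hdist, Lc_zero, one_mul] at h1
    exact h1

/-- **Shkarin's question has a positive answer**: there is a separable group `G` with a
left-invariant metric (inducing a group topology) such that every separable group with a
left-invariant metric (inducing a group topology) is isometrically isomorphic to a subgroup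
of `G`. -/
theorem result_proof : ∃ (G : Type) (_ : Group G) (_ : MetricSpace G),
    (∀ a x y : G, dist (a * x) (a * y) = dist x y) ∧ IsTopologicalGroup G ∧
    TopologicalSpace.SeparableSpace G ∧
    ∀ (H : Type u) [Group H] [MetricSpace H],
      (∀ a x y : H, dist (a * x) (a * y) = dist x y) → IsTopologicalGroup H →
      TopologicalSpace.SeparableSpace H → ∃ φ : H →* G, Isometry φ :=
  ⟨GG, instGroupGG, instMetricGG, left_inv_GG, instTopGroupGG, separable_GG,
    fun H _ _ hl hH hs => exists_embedding H hl hH hs⟩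

end Pool.Agent.Results.MP_501377_al.UniversalGroup
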